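import Pool.Agent.H76.TP.Defs
import Pool.Agent.H53.MID.Lfu

/-!
# PROJECT TQ (MP_967f73_nt): two primes in windows `n^θ` for every `θ > 1/4` (extension of project TP of helper76)

Notation of `Pool/Agent/H76/TP/Defs.lean`: `L = log N`, `y = yN e1 N`, `z = zz y J = 2^J y`; new: `z1 = zz y J1`, `J ≤ J1`, `N^ζ' ≤ z ≤ N^ζ`, `N^κ' ≤ z1 ≤ N^κ`, `1/4 < ζ' < ζ < κ' < κ < 1/3`, `κ < (1+θ)/4`.

* `om y J J1 k` = the number of the primes of `(z, z1]` dividing `k`;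
* `bq = bf (1 - om/2)`; because `bf(p k) = bf(k)` for primes `p > z`, `om(k) bf(k) = ∑_{p ∈ (z,z1], p ∣ k} bf(k/p)` exactly, so the local density of `bq` at `x` is
  `kq x = kap x - (1/2) ∑_{p ∈ (z,z1]} kap(x/p)/p`;
* the new majorant of the primes: `Fq S T = S - (om/2) T - ∑_{j<J} Fp bq (2^j y) + sqp`, `S ≥ rg` the upper, `T ≤ rg` the lower bound sieve, `sqp m = #{p ∈ (y,z] : p² ∣ m}`;
  `Fq = (S - rg) + (om/2)(rg - T) + (1 - om/2) AA + sqp ≥ 0` for `N/4 ≤ m ≤ 4N`, since a `z`-rough `m` has `om ≤ 2`;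
* its local density `kapF = kS - kT W1/2 - ∑_j WQ`.
* `MQ` = the mass of `Fq`; `MQ(1/4+, 1/4+, 0.312) = 1.99497 < 2`.
* `TIP θ κ e4`: type I sums beyond the length of the window (helper56, note 2358), used as a hypothesis.
-/

set_option autoImplicit false

namespace Pool.Agent.H91.TQ

open Finset
open Pool.Agent.H91.PK (ee)
open Pool.Agent.H91.EHA (Lam hR lamR ramS)
open Pool.Agent.H35.W (pb)
open Pool.Agent.H53.MID (Fp Bs badB)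
open Pool.Agent.H76.TP

/-- the number of the primes of `(z, z1]` dividing `k` -/
def om (y J J1 k : ℕ) : ℕ := (k.primeFactors.filter (fun p => zz y J < p ∧ p ≤ zz y J1)).card

/-- the cofactor weights -/
noncomputable def bq (y J J1 k : ℕ) : ℝ := bf y J k * (1 - (om y J J1 k : ℝ) / 2)

/-- the local density of `bq` at `x` -/
noncomputable def kq (y J J1 x : ℕ) : ℝ :=
  kap y J x - (∑ p ∈ PY (zz y J) (zz y J1), kap y J (x / p) / p) / 2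

/-- `∑_{p ∈ pb P} kq(x/p)/p` -/
noncomputable def WQ (y J J1 P x : ℕ) : ℝ := ∑ p ∈ pb P, kq y J J1 (x / p) / p

/-- the number of the primes of `(y, z]` whose square divides `m` -/
noncomputable def sqp (y J m : ℕ) : ℝ := (((PY y (zz y J)).filter (fun p => p ^ 2 ∣ m)).card : ℝ)

/-- `∑_{z < p ≤ z1} 1/p` -/
noncomputable def W1 (y J J1 : ℕ) : ℝ := ∑ p ∈ PY (zz y J) (zz y J1), 1 / (p : ℝ)

/-- the majorant -/
noncomputable def Fq (S T : ℕ → ℝ) (y J J1 m : ℕ) : ℝ :=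
  S m - (om y J J1 m : ℝ) / 2 * T m - ∑ j ∈ range J, Fp (bq y J J1) (2 ^ j * y) m + sqp y J m

/-- its local density -/
noncomputable def kapF (kS kT : ℝ) (y J J1 x : ℕ) : ℝ :=
  kS - kT * W1 y J J1 / 2 - ∑ j ∈ range J, WQ y J J1 (2 ^ j * y) x

/-- integrand of `E_3` -/
noncomputable def f3 (u : ℝ) : ℝ := Real.log ((1 - 2 * u) / u) / (u * (1 - u))

/-- integrand of `E_3` with the middle prime above `N^κ` -/
noncomputable def g3 (κ u : ℝ) : ℝ := Real.log ((1 - u - κ) / κ) / (u * (1 - u))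

/-- the mass of the majorant -/
noncomputable def MQ (ζ' ζ κ : ℝ) : ℝ :=
  1 + (Z2 ζ' - Z2 ζ) + (Z2 ζ - Z2 κ) / 2 + Z2 κ + (∫ u in ζ'..ζ, f3 u) + (∫ u in ζ..κ, g3 κ u) / 2 + Z3 κ

/-- the balanced divisor function of the primes of `(P, 2P]` -/
noncomputable def Ph (P m : ℕ) : ℝ := (((pb P).filter (fun p => p ∣ m)).card : ℝ) - ∑ p ∈ pb P, 1 / (p : ℝ)

/-- standing assumptions on the parameters -/
def Par (e1 ζ' ζ κ' κ : ℝ) : Prop :=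
  0 < e1 ∧ e1 ≤ 1 / 100 ∧ 1 / 5 < ζ' ∧ ζ' < ζ ∧ ζ < 27 / 100 ∧ 3 / 10 < κ' ∧ κ' < κ ∧ ζ + κ < 59 / 100

/-- the levels `z = zz y J` and `z1 = zz y J1` -/
def Lev (ζ' ζ κ' κ : ℝ) (N y J J1 : ℕ) : Prop :=
  J ≤ J1 ∧ (N : ℝ) ^ ζ' ≤ zz y J ∧ (zz y J : ℝ) ≤ (N : ℝ) ^ ζ ∧ (N : ℝ) ^ κ' ≤ zz y J1 ∧ (zz y J1 : ℝ) ≤ (N : ℝ) ^ κ

/-- type I sums beyond the length of the window -/
def TIP (θ κ e4 : ℝ) : Prop := ∀ A : ℕ, ∃ N0 : ℕ, ∀ N : ℕ, N0 ≤ N → ∀ (P Q : ℕ) (g T : ℕ → ℝ),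
  (N : ℝ) ^ (1 / 5 : ℝ) ≤ P → (P : ℝ) ≤ (N : ℝ) ^ κ → (Q : ℝ) ≤ (N : ℝ) ^ e4 → Adm Q g T →
    ((badB (fun m => T m * Ph P m) N ⌊(N : ℝ) ^ θ⌋₊ (⌊(N : ℝ) ^ θ⌋₊ / Real.log N ^ A)).card : ℝ) ≤
      (N / ⌊(N : ℝ) ^ θ⌋₊ : ℝ) / Real.log N ^ A

end Pool.Agent.H91.TQ
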