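import Pool.Agent.H91.TQ.Defs
import Pool.Agent.H76.TP.RamId

/-!
# TQ Ram: the majorant `Fq` is nonnegative and `≥ 1` at the primes

* `om_div`: for a prime `p ∣ m`, `p ≤ z`: the prime factors `> z` of `m/p` are those of `m`, so `om(m/p) = om(m)`.
* `fq_eq`: every `p ∈ pb (2^j y)`, `j < J`, is `≤ 2^(j+1) y ≤ z`, so `∑_j Fp bq (2^j y) m = (1 - om(m)/2) ∑_j Fp bf (2^j y) m = (1 - om(m)/2)(rg y m - AA y J m)`.
* `fq_nonneg`: `m` `z`-rough: `om ≤ 2`, all four terms are `≥ 0` (`aa_nonneg`).  Otherwise `rg (zz y J) m = 0`, so `0 ≤ AA y J m ≤ sqp y J m` (`aa_nonneg`, `aa_le`), and `1 - om/2 ≥ -1/2`.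
* `fq_prime`: `om = 0`, `AA = 1` (`aa_one`).
* `om_small`: four primes `≥ N^ζ'`, `ζ' > 1/4`, have product `> 4N`.  If `m` is `z`-rough and three primes `p, q, r ∈ (z, z1]` divide `m`: `m/(pqr) < z` (as `m ≤ 4N < z^4`), so `m = pqr ≤ z1^3 ≤ N^(3κ) < N/4 ≤ m`, a contradiction.
* `bq_abs`: `0 ≤ bf ≤ 1`; `om k ≤ 4` gives `|1 - om/2| ≤ 1`; in general `om k ≤ log k/log 2`.
-/

set_option autoImplicit false

namespace Pool.Agent.H91.TQ

open Finset
open Pool.Agent.H35.W (pb)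
open Pool.Agent.H53.MID (Fp Bs)
open Pool.Agent.H76.TP

private theorem Ram_rg_one {y k : ℕ} (h : ∀ p : ℕ, p.Prime → p ∣ k → y < p) : rg y k = 1 := by
  unfold rg
  exact if_pos h

private theorem Ram_rg_zero {y k : ℕ} (h : ¬ ∀ p : ℕ, p.Prime → p ∣ k → y < p) : rg y k = 0 := by
  unfold rg
  exact if_neg h

private theorem Ram_le_zz (y J : ℕ) : y ≤ zz y J := by
  unfold zz
  exact Nat.le_mul_of_pos_left _ (by positivity)

theorem om_div (y J J1 m p : ℕ) (hm : 1 ≤ m) (hp : p.Prime) (hpm : p ∣ m) (hpz : p ≤ zz y J) :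
    om y J J1 (m / p) = om y J J1 m := by
  unfold om
  congr 1
  have hmp : m / p ≠ 0 := (Nat.div_pos (Nat.le_of_dvd hm hpm) hp.pos).ne'
  ext q
  simp only [mem_filter, Nat.mem_primeFactors]
  constructor
  · rintro ⟨⟨h1, h2, _⟩, h4⟩
    exact ⟨⟨h1, h2.trans (Nat.div_dvd_of_dvd hpm), by omega⟩, h4⟩
  · rintro ⟨⟨h1, h2, _⟩, h4⟩
    refine ⟨⟨h1, ?_, hmp⟩, h4⟩
    have h5 : q ∣ p * (m / p) := by rwa [Nat.mul_div_cancel' hpm]
    rcases (Nat.Prime.dvd_mul h1).mp h5 with h6 | h6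
    · have h7 := (Nat.prime_dvd_prime_iff_eq h1 hp).mp h6
      omega
    · exact h6

/-- for primes `p > z`: `bf(p k) = bf(k)` -/
theorem bf_mul (y J k p : ℕ) (hk : 1 ≤ k) (hp : p.Prime) (hpz : zz y J < p) :
    bf y J (p * k) = bf y J k := by
  have hyz := Ram_le_zz y J
  have h1 : rg y (p * k) = rg y k := by
    by_cases h : ∀ q : ℕ, q.Prime → q ∣ k → y < q
    · rw [Ram_rg_one h, Ram_rg_one]
      intro q hq hqk
      rcases (Nat.Prime.dvd_mul hq).mp hqk with h2 | h2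
      · have h3 := (Nat.prime_dvd_prime_iff_eq hq hp).mp h2
        omega
      · exact h q hq h2
    · rw [Ram_rg_zero h, Ram_rg_zero]
      intro h2
      exact h fun q hq hqk => h2 q hq (hqk.mul_left p)
  have h2 : nu y J (p * k) = nu y J k := by
    unfold nu
    congr 1
    ext q
    simp only [mem_filter, Nat.mem_primeFactors]
    constructor
    · rintro ⟨⟨h3, h4, _⟩, h5⟩
      refine ⟨⟨h3, ?_, by omega⟩, h5⟩
      rcases (Nat.Prime.dvd_mul h3).mp h4 with h6 | h6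
      · have h7 := (Nat.prime_dvd_prime_iff_eq h3 hp).mp h6
        omega
      · exact h6
    · rintro ⟨⟨h3, h4, _⟩, h5⟩
      exact ⟨⟨h3, h4.mul_left p, (Nat.mul_pos hp.pos hk).ne'⟩, h5⟩
  unfold bf
  rw [h1, h2]

private theorem Ram_Fp (y J J1 m j : ℕ) (hm : 1 ≤ m) (hj : j < J) :
    Fp (bq y J J1) (2 ^ j * y) m =
      (1 - (om y J J1 m : ℝ) / 2) * Fp (bf y J) (2 ^ j * y) m := by
  unfold Fp
  rw [mul_sum]
  refine sum_congr rfl fun p hp => ?_
  rw [mem_filter] at hp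
  obtain ⟨h1, h2⟩ := hp
  unfold pb at h1
  rw [mem_filter, mem_Ioc] at h1
  have h3 : p ≤ zz y J := by
    refine h1.1.2.trans ?_
    unfold zz
    calc 2 * (2 ^ j * y) = 2 ^ (j + 1) * y := by ring
      _ ≤ 2 ^ J * y := Nat.mul_le_mul_right y (Nat.pow_le_pow_right (by norm_num) hj)
  unfold bq
  rw [om_div y J J1 m p hm h1.2 h2 h3]
  ring

theorem fq_eq (S T : ℕ → ℝ) (y J J1 m : ℕ) (hm : 1 ≤ m) :
    Fq S T y J J1 m = (S m - rg y m) + (om y J J1 m : ℝ) / 2 * (rg y m - T m)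
      + (1 - (om y J J1 m : ℝ) / 2) * AA y J m + sqp y J m := by
  have h1 : ∑ j ∈ range J, Fp (bq y J J1) (2 ^ j * y) m =
      (1 - (om y J J1 m : ℝ) / 2) * ∑ j ∈ range J, Fp (bf y J) (2 ^ j * y) m := by
    rw [mul_sum]
    exact sum_congr rfl fun j hj => Ram_Fp y J J1 m j hm (mem_range.mp hj)
  unfold Fq AA
  rw [h1]
  ring

theorem fq_nonneg (S T : ℕ → ℝ) (y J J1 m : ℕ) (hm : 1 ≤ m) (hS : rg y m ≤ S m) (hT : T m ≤ rg y m)
    (h3 : om y J J1 m ≤ 3) (h2 : (∀ p : ℕ, p.Prime → p ∣ m → zz y J < p) → om y J J1 m ≤ 2) :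
    0 ≤ Fq S T y J J1 m := by
  rw [fq_eq S T y J J1 m hm]
  have ho : (0 : ℝ) ≤ om y J J1 m := Nat.cast_nonneg _
  have h4 : 0 ≤ (om y J J1 m : ℝ) / 2 * (rg y m - T m) := by
    apply mul_nonneg (by linarith)
    linarith
  have h5 : 0 ≤ sqp y J m := Nat.cast_nonneg _
  have h6 := aa_nonneg y J m hm
  by_cases hr : ∀ p : ℕ, p.Prime → p ∣ m → zz y J < p
  · have h7 : (om y J J1 m : ℝ) ≤ 2 := by exact_mod_cast h2 hr
    have h8 : 0 ≤ (1 - (om y J J1 m : ℝ) / 2) * AA y J m := mul_nonneg (by linarith) h6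
    linarith
  · have h7 : (om y J J1 m : ℝ) ≤ 3 := by exact_mod_cast h3
    have h8 := aa_le y J m hm
    rw [Ram_rg_zero hr, zero_add] at h8
    have h9 : AA y J m ≤ sqp y J m := h8
    have h10 : -(1 / 2) * AA y J m ≤ (1 - (om y J J1 m : ℝ) / 2) * AA y J m :=
      mul_le_mul_of_nonneg_right (by linarith) h6
    linarith

theorem fq_prime (S T : ℕ → ℝ) (y J J1 m : ℕ) (hJ : J ≤ J1) (hm : m.Prime) (hz : zz y J1 < m)
    (hS : rg y m ≤ S m) : 1 ≤ Fq S T y J J1 m := by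
  rw [fq_eq S T y J J1 m hm.one_le]
  have hzz : zz y J ≤ zz y J1 := by
    unfold zz
    exact Nat.mul_le_mul_right y (Nat.pow_le_pow_right (by norm_num) hJ)
  have h1 : om y J J1 m = 0 := by
    unfold om
    rw [Finset.card_eq_zero, Finset.eq_empty_iff_forall_notMem]
    intro q hq
    rw [mem_filter, Nat.mem_primeFactors] at hq
    have h2 := (Nat.prime_dvd_prime_iff_eq hq.1.1 hm).mp hq.1.2.1
    omega
  have h2 : AA y J m = 1 := by
    apply aa_one y J m hm.one_le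
    intro p hp hpm
    have h3 := (Nat.prime_dvd_prime_iff_eq hp hm).mp hpm
    omega
  have h5 : 0 ≤ sqp y J m := Nat.cast_nonneg _
  rw [h1, h2]
  simp only [Nat.cast_zero, zero_div, zero_mul, sub_zero, one_mul]
  linarith

/-- a set of prime factors greater than `z` -/
private theorem Ram_prod {m z : ℕ} (_ : 1 ≤ m) {S : Finset ℕ} (hS : S ⊆ m.primeFactors)
    (hz : ∀ p ∈ S, z ≤ p) : z ^ S.card ≤ ∏ p ∈ S, p ∧ (∏ p ∈ S, p) ∣ m := by
  constructor
  · exact Finset.pow_card_le_prod S (fun p => p) z hz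
  · exact (Finset.prod_dvd_prod_of_subset S m.primeFactors (fun p => p) hS).trans
      (Nat.prod_primeFactors_dvd m)

theorem om_small (ζ' κ : ℝ) (hζ : 1 / 4 < ζ') (hκ : κ < 1 / 3) : ∃ N0 : ℕ, ∀ N : ℕ, N0 ≤ N →
    ∀ y J J1 m : ℕ, 1 ≤ m → m ≤ 16 * N → (N : ℝ) ^ ζ' ≤ zz y J →
      om y J J1 m ≤ 3 ∧ ((zz y J1 : ℝ) ≤ (N : ℝ) ^ κ → N ≤ 16 * m →
        (∀ p : ℕ, p.Prime → p ∣ m → zz y J < p) → om y J J1 m ≤ 2) := by
  have e1 : ∀ᶠ N : ℕ in Filter.atTop, (17 : ℝ) ≤ (N : ℝ) ^ (4 * ζ' - 1) :=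
    ((tendsto_rpow_atTop (by linarith)).comp
      (tendsto_natCast_atTop_atTop (R := ℝ))).eventually_ge_atTop _
  have e2 : ∀ᶠ N : ℕ in Filter.atTop, (17 : ℝ) ≤ (N : ℝ) ^ (1 - 3 * κ) :=
    ((tendsto_rpow_atTop (by linarith)).comp
      (tendsto_natCast_atTop_atTop (R := ℝ))).eventually_ge_atTop _
  obtain ⟨N0, hN0⟩ := Filter.eventually_atTop.1 ((e1.and e2).and (Filter.eventually_ge_atTop 1))
  refine ⟨N0, fun N hN y J J1 m hm1 hm2 hz => ?_⟩
  obtain ⟨⟨g1, g2⟩, g3⟩ := hN0 N hN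
  have hN : (0 : ℝ) < N := by exact_mod_cast g3
  have hp1 : 0 < (N : ℝ) ^ ζ' := Real.rpow_pos_of_pos hN _
  have hzpos : 1 ≤ zz y J := by
    have : (0 : ℝ) < zz y J := lt_of_lt_of_le hp1 hz
    exact_mod_cast this
  -- `z^4 > m`
  have hz4 : m < zz y J ^ 4 := by
    have h1 : ((N : ℝ) ^ ζ') ^ 4 ≤ (zz y J : ℝ) ^ 4 := pow_le_pow_left₀ hp1.le hz 4
    have h2 : ((N : ℝ) ^ ζ') ^ 4 = (N : ℝ) ^ (4 * ζ' - 1) * N := by
      rw [← Real.rpow_natCast, ← Real.rpow_mul hN.le]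
      conv_rhs => rw [← Real.rpow_one (N : ℝ)]
      rw [← Real.rpow_mul hN.le, ← Real.rpow_add hN]
      congr 1
      push_cast
      ring
    have h3 : 17 * (N : ℝ) ≤ (N : ℝ) ^ (4 * ζ' - 1) * N := mul_le_mul_of_nonneg_right g1 hN.le
    have h4 : (m : ℝ) ≤ 16 * N := by exact_mod_cast hm2
    have h5 : (m : ℝ) < (zz y J : ℝ) ^ 4 := by linarith
    exact_mod_cast h5
  have hsub : m.primeFactors.filter (fun p => zz y J < p ∧ p ≤ zz y J1) ⊆ m.primeFactors :=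
    filter_subset _ _
  constructor
  · by_contra hcon
    have h4 : 4 ≤ om y J J1 m := by omega
    obtain ⟨h1, h2⟩ := Ram_prod hm1 hsub (z := zz y J) (fun p hp => by
      rw [mem_filter] at hp
      exact hp.2.1.le)
    have h3 := Nat.le_of_dvd hm1 h2
    have h5 : zz y J ^ 4 ≤ zz y J ^ om y J J1 m := Nat.pow_le_pow_right hzpos h4
    have h6 : zz y J ^ om y J J1 m ≤ m := h1.trans h3
    omega
  · intro hz1 hNm hr
    by_contra hcon
    have h4 : 3 ≤ (m.primeFactors.filter (fun p => zz y J < p ∧ p ≤ zz y J1)).card := by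
      have : om y J J1 m = (m.primeFactors.filter (fun p => zz y J < p ∧ p ≤ zz y J1)).card := rfl
      omega
    obtain ⟨S, hS, hScard⟩ := Finset.exists_subset_card_eq h4
    have hmem : ∀ p ∈ S, zz y J < p ∧ p ≤ zz y J1 := fun p hp => (mem_filter.mp (hS hp)).2
    obtain ⟨h1, h2⟩ := Ram_prod hm1 (hS.trans hsub) (z := zz y J) (fun p hp => (hmem p hp).1.le)
    rw [hScard] at h1
    have h5 : ∏ p ∈ S, p ≤ zz y J1 ^ 3 := by
      rw [← hScard]
      exact Finset.prod_le_pow_card S (fun p => p) (zz y J1) (fun p hp => (hmem p hp).2)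
    obtain ⟨r, hr2⟩ := h2
    rcases Nat.lt_or_ge 1 r with hr1 | hr1
    · obtain ⟨q, hq, hqr⟩ := Nat.exists_prime_and_dvd (show r ≠ 1 by omega)
      have h6 := hr q hq (by rw [hr2]; exact hqr.mul_left _)
      have h7 : q ≤ r := Nat.le_of_dvd (by omega) hqr
      have h8 : zz y J ^ 3 * zz y J ≤ m := by
        rw [hr2]
        exact Nat.mul_le_mul h1 (by omega)
      have h9 : zz y J ^ 4 = zz y J ^ 3 * zz y J := by ring
      omega
    · have h6 : m ≤ zz y J1 ^ 3 := by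
        rw [hr2]
        calc (∏ p ∈ S, p) * r ≤ (∏ p ∈ S, p) * 1 := Nat.mul_le_mul_left _ hr1
          _ ≤ zz y J1 ^ 3 := by rw [mul_one]; exact h5
      have h7 : (m : ℝ) ≤ ((N : ℝ) ^ κ) ^ 3 := by
        calc (m : ℝ) ≤ (zz y J1 : ℝ) ^ 3 := by exact_mod_cast h6
          _ ≤ ((N : ℝ) ^ κ) ^ 3 := pow_le_pow_left₀ (Nat.cast_nonneg _) hz1 3
      have h8 : ((N : ℝ) ^ κ) ^ 3 * (N : ℝ) ^ (1 - 3 * κ) = N := by
        rw [← Real.rpow_natCast, ← Real.rpow_mul hN.le, ← Real.rpow_add hN]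
        conv_rhs => rw [← Real.rpow_one (N : ℝ)]
        congr 1
        push_cast
        ring
      have h9 : 0 ≤ ((N : ℝ) ^ κ) ^ 3 := by positivity
      have h10 : ((N : ℝ) ^ κ) ^ 3 * 17 ≤ N := by
        calc ((N : ℝ) ^ κ) ^ 3 * 17 ≤ ((N : ℝ) ^ κ) ^ 3 * (N : ℝ) ^ (1 - 3 * κ) :=
              mul_le_mul_of_nonneg_left g2 h9
          _ = N := h8
      have h11 : (N : ℝ) ≤ 16 * m := by exact_mod_cast hNm
      linarith

private theorem Ram_bf (y J k : ℕ) : 0 ≤ bf y J k ∧ bf y J k ≤ 1 := by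
  refine ⟨bf_nonneg y J k, (bf_le y J k).trans ?_⟩
  unfold rg
  split_ifs <;> norm_num

theorem bq_abs (y J J1 k : ℕ) (h : om y J J1 k ≤ 4) : |bq y J J1 k| ≤ 1 := by
  have h1 := Ram_bf y J k
  have h2 : (om y J J1 k : ℝ) ≤ 4 := by exact_mod_cast h
  have h3 : (0 : ℝ) ≤ om y J J1 k := Nat.cast_nonneg _
  unfold bq
  rw [abs_mul, abs_of_nonneg h1.1]
  have h4 : |1 - (om y J J1 k : ℝ) / 2| ≤ 1 := by
    rw [abs_le]
    constructor <;> linarith
  calc bf y J k * |1 - (om y J J1 k : ℝ) / 2| ≤ 1 * 1 :=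
        mul_le_mul h1.2 h4 (abs_nonneg _) zero_le_one
    _ = 1 := one_mul 1

theorem bq_abs_log (y J J1 k : ℕ) (hk : 1 ≤ k) : |bq y J J1 k| ≤ 1 + Real.log k := by
  have h1 := Ram_bf y J k
  have h3 : (0 : ℝ) ≤ om y J J1 k := Nat.cast_nonneg _
  have h2 : (om y J J1 k : ℝ) * Real.log 2 ≤ Real.log k := by
    obtain ⟨h4, h5⟩ := Ram_prod hk (filter_subset (fun p => zz y J < p ∧ p ≤ zz y J1) k.primeFactors)
      (z := 2) (fun p hp => (Nat.prime_of_mem_primeFactors (mem_filter.mp hp).1).two_le)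
    have h6 : 2 ^ om y J J1 k ≤ k := h4.trans (Nat.le_of_dvd hk h5)
    have h7 : (2 : ℝ) ^ om y J J1 k ≤ k := by exact_mod_cast h6
    have h8 := Real.log_le_log (by positivity) h7
    rw [Real.log_pow] at h8
    exact h8
  have h5 : (om y J J1 k : ℝ) / 2 ≤ Real.log k := by
    have h6 := Real.log_two_gt_d9
    have h7 : (om y J J1 k : ℝ) * (1 / 2) ≤ (om y J J1 k : ℝ) * Real.log 2 :=
      mul_le_mul_of_nonneg_left (by linarith) h3
    linarith
  have h6 : 0 ≤ Real.log k := Real.log_natCast_nonneg k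
  unfold bq
  rw [abs_mul, abs_of_nonneg h1.1]
  have h4 : |1 - (om y J J1 k : ℝ) / 2| ≤ 1 + Real.log k := by
    rw [abs_le]
    constructor <;> linarith
  calc bf y J k * |1 - (om y J J1 k : ℝ) / 2| ≤ 1 * (1 + Real.log k) :=
        mul_le_mul h1.2 h4 (abs_nonneg _) zero_le_one
    _ = 1 + Real.log k := one_mul _

end Pool.Agent.H91.TQ
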