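import Pool.Agent.H76.TP.EqB
import Pool.Agent.H76.TP.KapL
import Pool.Agent.H91.TQ.Ram

/-!
# TQ EqQ: `bq` in short intervals and progressions

`bq(k) = bf(k) - (1/2) om(k) bf(k)`, and `om(k) bf(k) = ∑_{p ∈ PY z z1, p ∣ k} bf(k/p)` (`bf_mul`: `bf(p k') = bf(k')` for `p > z`; `z = zz y J`, `z1 = zz y J1`).
* `bf`: `eq_bg` (`H76/TP/EqB.lean`, general `β`) with `β = a`, exponent `A + 2`, `K`.
* for `p ∈ PY z z1` (at most `z1` primes; `p ∤ c` because `c ≤ L^B < z < p`): the `k = p k' ∈ (x, x+l]`, `k ≡ b (c)` are the `k' ∈ (x/p, (x+l)/p]` (natural division), `k' ≡ b p' (c)`, `p p' ≡ 1 (c)`, and `b p'` is prime to `c` iff `b` is.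
  `eq_bg` with `β = (ζ + a - κ)/2 ∈ (ζ, a - κ)` (`x/p ≥ N^(a-κ) - 1 ≥ N^β`), exponent `A + 2`, `K + 1`, `l_p = (x+l)/p - x/p`, `|l_p - l/p| ≤ 1`, so `(x/p)/L^(K+1) ≤ l_p ≤ (x/p)/L^(A+5)`:
  the sum is `l_p kap(x/p)/φ(c) + O(l_p/L^(A+2))`; `kap ≤ 2` (`kap_le`), `∑_p |l_p - l/p| kap ≤ 2 z1 ≤ 2 N^κ`, `∑_p l_p ≤ l (1 + log z1) + z1 ≤ 2 l L`.
Total error `≤ l/L^(A+2) + (2 l L/L^(A+2) + 2 N^κ)/2 ≤ l/L^A`.
-/

set_option autoImplicit false

namespace Pool.Agent.H91.TQ

open Finset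
open Pool.Agent.H35.W (pb)
open Pool.Agent.H53.MID (Fp Bs)
open Pool.Agent.H76.TP

private theorem EqQ_inv {b c p : ℕ} (hc : 1 ≤ c) (hp : Nat.Coprime p c) :
    ∃ b' : ℕ, (Nat.Coprime b' c ↔ Nat.Coprime b c) ∧
      ∀ q : ℕ, p * q ≡ b [MOD c] ↔ q ≡ b' [MOD c] := by
  have : NeZero c := ⟨by omega⟩
  have hpu : IsUnit (p : ZMod c) := (ZMod.isUnit_iff_coprime p c).mpr hp
  obtain ⟨u, hu⟩ := hpu
  refine ⟨((b : ZMod c) * (↑u⁻¹ : ZMod c)).val, ?_, fun q => ?_⟩
  · rw [← ZMod.isUnit_iff_coprime, ← ZMod.isUnit_iff_coprime, ZMod.natCast_zmod_val]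
    exact Units.isUnit_mul_units _ _
  · rw [← ZMod.natCast_eq_natCast_iff, ← ZMod.natCast_eq_natCast_iff, ZMod.natCast_zmod_val,
      Nat.cast_mul, ← hu]
    constructor
    · intro h
      rw [← h, mul_comm (u : ZMod c), mul_assoc, Units.mul_inv, mul_one]
    · intro h
      rw [h, mul_comm (b : ZMod c), ← mul_assoc, Units.mul_inv, one_mul]

private theorem EqQ_om {y J J1 k : ℕ} (hk : k ≠ 0) :
    (om y J J1 k : ℝ) * bf y J k =
      ∑ p ∈ PY (zz y J) (zz y J1), if p ∣ k then bf y J k else 0 := by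
  rw [← sum_filter, sum_const, nsmul_eq_mul]
  congr 2
  unfold om PY
  congr 1
  ext p
  simp only [mem_filter, Nat.mem_primeFactors, mem_Ioc, ne_eq]
  tauto

private theorem EqQ_re {y J x l b b' c p : ℕ} (hp : p.Prime) (hpz : zz y J < p)
    (hb : ∀ q : ℕ, p * q ≡ b [MOD c] ↔ q ≡ b' [MOD c]) :
    ∑ k ∈ (Ioc x (x + l)).filter (fun k => k ≡ b [MOD c]), (if p ∣ k then bf y J k else 0) =
      ∑ k ∈ (Ioc (x / p) (x / p + ((x + l) / p - x / p))).filter (fun k => k ≡ b' [MOD c]),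
        bf y J k := by
  have hp0 : 0 < p := hp.pos
  have hdiv : x / p ≤ (x + l) / p := Nat.div_le_div_right (Nat.le_add_right _ _)
  rw [Nat.add_sub_cancel' hdiv, ← sum_filter]
  symm
  refine sum_bij (fun k _ => p * k) ?_ ?_ ?_ ?_
  · intro k hk
    rw [mem_filter, mem_Ioc] at hk
    rw [mem_filter, mem_filter, mem_Ioc]
    refine ⟨⟨⟨?_, ?_⟩, (hb k).2 hk.2⟩, dvd_mul_right p k⟩
    · have := (Nat.div_lt_iff_lt_mul hp0).1 hk.1.1
      rwa [mul_comm] at this
    · have := (Nat.le_div_iff_mul_le hp0).1 hk.1.2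
      rwa [mul_comm] at this
  · intro k1 _ k2 _ h
    exact Nat.eq_of_mul_eq_mul_left hp0 h
  · intro k hk
    rw [mem_filter, mem_filter, mem_Ioc] at hk
    obtain ⟨⟨⟨h1, h2⟩, h3⟩, j, rfl⟩ := hk
    refine ⟨j, ?_, rfl⟩
    rw [mem_filter, mem_Ioc]
    refine ⟨⟨?_, ?_⟩, (hb j).1 h3⟩
    · rw [Nat.div_lt_iff_lt_mul hp0, mul_comm]
      exact h1
    · rw [Nat.le_div_iff_mul_le hp0, mul_comm]
      exact h2
  · intro k hk
    rw [mem_filter, mem_Ioc] at hk
    exact (bf_mul y J k p (Nat.succ_le_of_lt (lt_of_le_of_lt (Nat.zero_le _) hk.1.1)) hp hpz).symm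

private theorem EqQ_W (y J J1 : ℕ) : W1 y J J1 ≤ 1 + Real.log (zz y J1) := by
  unfold W1 PY
  have h1 : ∑ p ∈ (Ioc (zz y J) (zz y J1)).filter Nat.Prime, 1 / (p : ℝ) ≤
      ∑ n ∈ Icc 1 (zz y J1), 1 / (n : ℝ) := by
    refine sum_le_sum_of_subset_of_nonneg ?_ fun n _ _ => by positivity
    intro p hp
    rw [mem_filter, mem_Ioc] at hp
    rw [mem_Icc]
    exact ⟨hp.2.one_lt.le, hp.1.2⟩
  refine h1.trans ?_
  have h2 := harmonic_le_one_add_log (zz y J1)
  rw [harmonic_eq_sum_Icc] at h2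
  push_cast at h2
  simpa only [one_div] using h2

private theorem EqQ_ev (δ : ℝ) (hδ : 0 < δ) (M : ℕ) :
    ∃ N0 : ℕ, ∀ N : ℕ, N0 ≤ N → 2 ≤ N ∧ 4 ≤ Real.log N ∧
      8 * Real.log N ^ M ≤ (N : ℝ) ^ δ := by
  have hcast := tendsto_natCast_atTop_atTop (R := ℝ)
  have hlog : Filter.Tendsto (fun N : ℕ => Real.log (N : ℝ)) Filter.atTop Filter.atTop :=
    Real.tendsto_log_atTop.comp hcast
  have h1 : ∀ᶠ N : ℕ in Filter.atTop, 2 ≤ N := Filter.eventually_ge_atTop 2
  have h2 : ∀ᶠ N : ℕ in Filter.atTop, 4 ≤ Real.log N := hlog.eventually_ge_atTop 4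
  have h5 : ∀ᶠ N : ℕ in Filter.atTop, 8 * Real.log N ^ M ≤ (N : ℝ) ^ δ := by
    have h6 := (isLittleO_log_rpow_rpow_atTop (M : ℝ) hδ).bound
      (show (0 : ℝ) < 1 / 8 by norm_num)
    have h7 := hcast.eventually h6
    filter_upwards [h7, h1, h2] with N h8 h9 h10
    rw [Real.norm_eq_abs, Real.norm_eq_abs, Real.rpow_natCast,
      abs_of_nonneg (by positivity), abs_of_nonneg (by positivity)] at h8
    linarith
  obtain ⟨N0, hN0⟩ := Filter.eventually_atTop.1 (h1.and (h2.and h5))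
  exact ⟨N0, fun N hN => hN0 N hN⟩

theorem eq_q (e1 ζ κ a : ℝ) (he1 : 0 < e1) (hζ : e1 < ζ) (hκ : ζ < κ) (ha : ζ + κ < a) (ha1 : a ≤ 1) (A B K : ℕ) :
    ∃ N0 : ℕ, ∀ N : ℕ, N0 ≤ N → ∀ J J1 x l c b : ℕ, J ≤ J1 → (zz (yN e1 N) J : ℝ) ≤ (N : ℝ) ^ ζ →
      (zz (yN e1 N) J1 : ℝ) ≤ (N : ℝ) ^ κ → (N : ℝ) ^ a ≤ x → x ≤ N ^ 2 → (x : ℝ) / Real.log N ^ K ≤ l →
      (l : ℝ) ≤ x / Real.log N ^ (A + 6) → 1 ≤ c → (c : ℝ) ≤ Real.log N ^ B →
      |∑ k ∈ (Ioc x (x + l)).filter (fun k => k ≡ b [MOD c]), bq (yN e1 N) J J1 k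
        - (if Nat.Coprime b c then (l : ℝ) * kq (yN e1 N) J J1 x / c.totient else 0)| ≤
          l / Real.log N ^ A := by
  set β : ℝ := (ζ + (a - κ)) / 2 with hβ
  have hβ1 : ζ < β := by rw [hβ]; linarith
  have hβ2 : β < a - κ := by rw [hβ]; linarith
  obtain ⟨N1, hN1⟩ := eq_bg a e1 ζ he1 hζ (by linarith) (A + 2) B K
  obtain ⟨N2, hN2⟩ := eq_bg β e1 ζ he1 hζ hβ1 (A + 2) B (K + 1)
  obtain ⟨N3, hN3⟩ := EqQ_ev (a - κ) (by linarith) (A + K + 6)
  obtain ⟨N4, hN4⟩ := EqQ_ev e1 he1 B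
  obtain ⟨N5, hN5⟩ := EqQ_ev (a - κ - β) (by linarith) 0
  refine ⟨N1 + N2 + N3 + N4 + N5, fun N hN J J1 x l c b hJ hzN hz1N hxN hxN2 hl1 hl2 hc hcB => ?_⟩
  obtain ⟨hN2', hL4, hNM⟩ := hN3 N (by omega)
  obtain ⟨-, -, hNB⟩ := hN4 N (by omega)
  obtain ⟨-, -, hNb⟩ := hN5 N (by omega)
  have hbf := hN1 N (by omega) J x l c b hzN hxN hxN2 hl1
  have hbp := hN2 N (by omega) J
  set L : ℝ := Real.log N with hLdef
  set y : ℕ := yN e1 N with hydef
  set z : ℕ := zz y J with hzdef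
  set z1 : ℕ := zz y J1 with hz1def
  have hL1 : 1 ≤ L := by linarith
  have hL0 : 0 < L := by linarith
  have hNR : (1 : ℝ) ≤ N := by exact_mod_cast (by omega : 1 ≤ N)
  have hN0 : (0 : ℝ) < N := by linarith
  have hxR : (0 : ℝ) < x := lt_of_lt_of_le (by positivity) hxN
  have hx1 : 1 ≤ x := by exact_mod_cast hxR
  have hl0 : (0 : ℝ) < l := lt_of_lt_of_le (by positivity) hl1
  have hLB : 1 ≤ L ^ B := one_le_pow₀ hL1
  -- `c < y ≤ z`
  have hcy : c < y := by
    have h1 : (N : ℝ) ^ e1 < (y : ℝ) + 1 := by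
      rw [hydef]
      unfold yN
      exact Nat.lt_floor_add_one _
    have h2 : (c : ℝ) < y := by linarith
    exact_mod_cast h2
  have hyz : y ≤ z := by
    rw [hzdef]
    unfold zz
    exact Nat.le_mul_of_pos_left y (by positivity)
  have hyz1 : y ≤ z1 := by
    rw [hz1def]
    unfold zz
    exact Nat.le_mul_of_pos_left y (by positivity)
  have hz1R : (1 : ℝ) ≤ z1 := by exact_mod_cast (by omega : 1 ≤ z1)
  -- the sum over `p`
  have hN1b : (N : ℝ) ^ β + 1 ≤ (N : ℝ) ^ (a - κ) := by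
    have h1 : (N : ℝ) ^ (a - κ) = (N : ℝ) ^ (a - κ - β) * (N : ℝ) ^ β := by
      rw [← Real.rpow_add hN0]
      congr 1
      ring
    have h2 : 1 ≤ (N : ℝ) ^ β := Real.one_le_rpow hNR (by linarith)
    rw [pow_zero, mul_one] at hNb
    rw [h1]
    nlinarith
  have hsplit : ∑ k ∈ (Ioc x (x + l)).filter (fun k => k ≡ b [MOD c]), bq y J J1 k =
      ∑ k ∈ (Ioc x (x + l)).filter (fun k => k ≡ b [MOD c]), bf y J k -
        (∑ p ∈ PY z z1, ∑ k ∈ (Ioc x (x + l)).filter (fun k => k ≡ b [MOD c]),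
          (if p ∣ k then bf y J k else 0)) / 2 := by
    rw [sum_comm, sum_div, ← sum_sub_distrib]
    refine sum_congr rfl fun k hk => ?_
    rw [mem_filter, mem_Ioc] at hk
    rw [← EqQ_om (y := y) (J := J) (J1 := J1) (by omega : k ≠ 0)]
    unfold bq
    ring
  have hφ : (1 : ℝ) ≤ c.totient := by
    exact_mod_cast Nat.totient_pos.2 (by omega)
  set D : ℝ := if Nat.Coprime b c then 1 else 0 with hD
  have hD0 : 0 ≤ D := by rw [hD]; split_ifs <;> norm_num
  have hD1 : D ≤ 1 := by rw [hD]; split_ifs <;> norm_num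
  have hite : ∀ t : ℝ, (if Nat.Coprime b c then t else 0) = D * t := by
    intro t
    rw [hD]
    split_ifs
    · rw [one_mul]
    · rw [zero_mul]
  have hpow : ∀ n : ℕ, 0 < L ^ n := fun n => by positivity
  -- one prime
  have key : ∀ p ∈ PY z z1,
      |∑ k ∈ (Ioc x (x + l)).filter (fun k => k ≡ b [MOD c]), (if p ∣ k then bf y J k else 0) -
        D * ((l : ℝ) * (kap y J (x / p) / p) / c.totient)| ≤ (l / L ^ (A + 2)) * (1 / p) + 3 := by
    intro p hp
    unfold PY at hp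
    rw [mem_filter, mem_Ioc] at hp
    obtain ⟨⟨hpz, hpz1⟩, hpp⟩ := hp
    have hp0 : 0 < p := hpp.pos
    have hpR : (0 : ℝ) < p := by exact_mod_cast hp0
    have hpc : Nat.Coprime p c := by
      rw [Nat.Prime.coprime_iff_not_dvd hpp]
      intro h
      have := Nat.le_of_dvd hc h
      omega
    obtain ⟨b', hb1, hb2⟩ := EqQ_inv (b := b) hc hpc
    rw [EqQ_re hpp hpz hb2]
    set x' : ℕ := x / p with hx'
    set l' : ℕ := (x + l) / p - x' with hl'
    have hR1 : (x' : ℝ) ≤ (x : ℝ) / p := Nat.cast_div_le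
    have hlt : ∀ m : ℕ, (m : ℝ) / p < ((m / p : ℕ) : ℝ) + 1 := by
      intro m
      rw [div_lt_iff₀ hpR]
      have h5 : m < (m / p + 1) * p := by
        have := Nat.lt_div_mul_add (a := m) hp0
        rw [add_mul, one_mul]
        exact this
      exact_mod_cast h5
    have hR2 : (x : ℝ) / p < x' + 1 := hlt x
    have hq1 : (((x + l) / p : ℕ) : ℝ) ≤ ((x : ℝ) + l) / p := by
      have := Nat.cast_div_le (α := ℝ) (m := x + l) (n := p)
      push_cast at this
      exact this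
    have hq2 : ((x : ℝ) + l) / p < (((x + l) / p : ℕ) : ℝ) + 1 := by
      have := hlt (x + l)
      push_cast at this
      exact this
    have hdiv : x' ≤ (x + l) / p := Nat.div_le_div_right (Nat.le_add_right _ _)
    have hl'R : (l' : ℝ) = (((x + l) / p : ℕ) : ℝ) - x' := by
      rw [hl', Nat.cast_sub hdiv]
    rw [add_div] at hq1 hq2
    have hl'1 : (l' : ℝ) ≤ l / p + 1 := by linarith
    have hl'2 : (l : ℝ) / p - 1 ≤ l' := by linarith
    set R : ℝ := (x : ℝ) / p with hR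
    have hRN : (N : ℝ) ^ (a - κ) ≤ R := by
      rw [hR, le_div_iff₀ hpR]
      have h1 : (p : ℝ) ≤ (N : ℝ) ^ κ := le_trans (by exact_mod_cast hpz1) hz1N
      calc (N : ℝ) ^ (a - κ) * p ≤ (N : ℝ) ^ (a - κ) * (N : ℝ) ^ κ :=
            mul_le_mul_of_nonneg_left h1 (by positivity)
        _ = (N : ℝ) ^ a := by
            rw [← Real.rpow_add hN0]
            congr 1
            ring
        _ ≤ x := hxN
    have hRL : 8 * L ^ (A + K + 6) ≤ R := hNM.trans hRN
    have hRK : L ^ (K + 1) ≤ R := by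
      have h1 : L ^ (K + 1) ≤ L ^ (A + K + 6) := pow_le_pow_right₀ hL1 (by omega)
      have := hpow (A + K + 6)
      linarith
    have hRA : 2 * L ^ (A + 6) ≤ R := by
      have h1 : L ^ (A + 6) ≤ L ^ (A + K + 6) := pow_le_pow_right₀ hL1 (by omega)
      have := hpow (A + K + 6)
      linarith
    have hR8 : 8 ≤ R := by
      have h1 : 1 ≤ L ^ (A + K + 6) := one_le_pow₀ hL1
      linarith
    have hx'3 : 3 ≤ x' := by
      have : (3 : ℝ) ≤ x' := by linarith
      exact_mod_cast this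
    have c1 : (N : ℝ) ^ β ≤ x' := by linarith
    have c2 : x' ≤ N ^ 2 := (Nat.div_le_self _ _).trans hxN2
    have hlp1 : R / L ^ K ≤ (l : ℝ) / p := by
      rw [hR, div_right_comm]
      exact div_le_div_of_nonneg_right hl1 hpR.le
    have hlp2 : (l : ℝ) / p ≤ R / L ^ (A + 6) := by
      rw [hR, div_right_comm]
      exact div_le_div_of_nonneg_right hl2 hpR.le
    have c3 : (x' : ℝ) / L ^ (K + 1) ≤ l' := by
      have h1 : (x' : ℝ) / L ^ (K + 1) ≤ R / L ^ (K + 1) :=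
        div_le_div_of_nonneg_right hR1 (hpow _).le
      have h2 : R / L ^ (K + 1) ≤ R / L ^ K - 1 := by
        have h3 : R / L ^ K - 1 = (R * L - L ^ (K + 1)) / L ^ (K + 1) := by
          field_simp
          ring
        rw [h3]
        refine div_le_div_of_nonneg_right ?_ (hpow _).le
        have h5 : R * 2 ≤ R * L := mul_le_mul_of_nonneg_left (by linarith) (by linarith)
        linarith
      linarith
    have c4 : (l' : ℝ) ≤ x' / L ^ (A + 2 + 3) := by
      have h1 : (R - 1) / L ^ (A + 2 + 3) ≤ x' / L ^ (A + 2 + 3) :=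
        div_le_div_of_nonneg_right (by linarith) (hpow _).le
      have h2 : R / L ^ (A + 6) + 1 ≤ (R - 1) / L ^ (A + 2 + 3) := by
        have h3 : R / L ^ (A + 6) + 1 = (R + L ^ (A + 6)) / L ^ (A + 6) := by
          rw [add_div, div_self (hpow _).ne']
        have h4 : (R - 1) / L ^ (A + 2 + 3) = ((R - 1) * L) / L ^ (A + 6) := by
          rw [div_eq_div_iff (hpow _).ne' (hpow _).ne']
          ring
        rw [h3, h4]
        refine div_le_div_of_nonneg_right ?_ (hpow _).le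
        have h5 : (R - 1) * 4 ≤ (R - 1) * L := mul_le_mul_of_nonneg_left hL4 (by linarith)
        linarith
      linarith
    have h1 := hbp x' l' c b' hzN c1 c2 c3 c4 hc hcB
    have h2 : (if Nat.Coprime b' c then (l' : ℝ) * kap y J x' / c.totient else 0) =
        D * (l' * kap y J x' / c.totient) := by
      rw [← hite]
      by_cases h : Nat.Coprime b c
      · rw [if_pos h, if_pos (hb1.2 h)]
      · rw [if_neg h, if_neg (fun h' => h (hb1.1 h'))]
    rw [h2] at h1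
    have k0 := kap_nonneg y J x' (by omega)
    have k2 := kap_le y J x' hx'3
    have hK : 0 ≤ D * (kap y J x' / c.totient) := by positivity
    have hK2 : D * (kap y J x' / c.totient) ≤ 2 := by
      have h3 : kap y J x' / c.totient ≤ 2 := by
        rw [div_le_iff₀ (by linarith)]
        linarith
      have h4 : 0 ≤ kap y J x' / c.totient := by positivity
      have h5 : D * (kap y J x' / c.totient) ≤ 1 * (kap y J x' / c.totient) :=
        mul_le_mul_of_nonneg_right hD1 h4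
      linarith
    have h3 : |D * (l' * kap y J x' / c.totient) - D * ((l : ℝ) * (kap y J x' / p) / c.totient)| ≤
        2 := by
      have h4 : D * (l' * kap y J x' / c.totient) - D * ((l : ℝ) * (kap y J x' / p) / c.totient) =
          D * (kap y J x' / c.totient) * (l' - l / p) := by ring
      rw [h4, abs_mul, abs_of_nonneg hK]
      have h5 : |(l' : ℝ) - l / p| ≤ 1 := by
        rw [abs_le]
        constructor <;> linarith
      calc D * (kap y J x' / c.totient) * |(l' : ℝ) - l / p| ≤ 2 * 1 :=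
            mul_le_mul hK2 h5 (abs_nonneg _) (by norm_num)
        _ = 2 := by norm_num
    have h6 : (l' : ℝ) / L ^ (A + 2) ≤ l / L ^ (A + 2) * (1 / p) + 1 := by
      have h7 : (l' : ℝ) / L ^ (A + 2) ≤ (l / p + 1) / L ^ (A + 2) :=
        div_le_div_of_nonneg_right hl'1 (hpow _).le
      have h8 : ((l : ℝ) / p + 1) / L ^ (A + 2) = l / L ^ (A + 2) * (1 / p) + 1 / L ^ (A + 2) := by
        ring
      have h9 : 1 / L ^ (A + 2) ≤ 1 := by
        rw [div_le_one (hpow _)]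
        exact one_le_pow₀ hL1
      linarith
    calc |∑ k ∈ (Ioc x' (x' + l')).filter (fun k => k ≡ b' [MOD c]), bf y J k -
          D * ((l : ℝ) * (kap y J x' / p) / c.totient)|
        ≤ |∑ k ∈ (Ioc x' (x' + l')).filter (fun k => k ≡ b' [MOD c]), bf y J k -
            D * (l' * kap y J x' / c.totient)| +
          |D * (l' * kap y J x' / c.totient) - D * ((l : ℝ) * (kap y J x' / p) / c.totient)| :=
          abs_sub_le _ _ _
      _ ≤ l' / L ^ (A + 2) + 2 := add_le_add h1 h3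
      _ ≤ (l / L ^ (A + 2)) * (1 / p) + 3 := by linarith
  have hsum : |∑ p ∈ PY z z1, ∑ k ∈ (Ioc x (x + l)).filter (fun k => k ≡ b [MOD c]),
        (if p ∣ k then bf y J k else 0) -
      D * ((l : ℝ) * (∑ p ∈ PY z z1, kap y J (x / p) / p) / c.totient)| ≤
        l / L ^ (A + 2) * W1 y J J1 + 3 * z1 := by
    have h1 : D * ((l : ℝ) * (∑ p ∈ PY z z1, kap y J (x / p) / p) / c.totient) =
        ∑ p ∈ PY z z1, D * ((l : ℝ) * (kap y J (x / p) / p) / c.totient) := by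
      rw [mul_sum, sum_div, mul_sum]
    rw [h1, ← sum_sub_distrib]
    refine (abs_sum_le_sum_abs _ _).trans ((sum_le_sum key).trans ?_)
    rw [sum_add_distrib, ← mul_sum, sum_const, nsmul_eq_mul]
    have h2 : (((PY z z1).card : ℕ) : ℝ) ≤ z1 := by
      have h3 : (PY z z1).card ≤ z1 - z := by
        unfold PY
        refine (card_filter_le _ _).trans ?_
        rw [Nat.card_Ioc]
      exact_mod_cast h3.trans (Nat.sub_le _ _)
    unfold W1
    linarith
  have hW : W1 y J J1 ≤ 2 * L := by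
    refine (EqQ_W y J J1).trans ?_
    have h1 : Real.log z1 ≤ κ * L := by
      have := Real.log_le_log (by linarith) hz1N
      rwa [Real.log_rpow hN0] at this
    have h2 : κ * L ≤ 1 * L := mul_le_mul_of_nonneg_right (by linarith) hL0.le
    linarith
  have hlast : 8 * (z1 : ℝ) ≤ l / L ^ A := by
    rw [le_div_iff₀ (hpow A)]
    have h1 : (x : ℝ) ≤ l * L ^ K := by
      rwa [div_le_iff₀ (hpow K)] at hl1
    have h2 : (z1 : ℝ) * (8 * L ^ (A + K + 6)) ≤ x := by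
      calc (z1 : ℝ) * (8 * L ^ (A + K + 6)) ≤ (N : ℝ) ^ κ * (N : ℝ) ^ (a - κ) :=
            mul_le_mul hz1N hNM (by positivity) (by positivity)
        _ = (N : ℝ) ^ a := by
            rw [← Real.rpow_add hN0]
            congr 1
            ring
        _ ≤ x := hxN
    have h3 : (z1 : ℝ) * (8 * L ^ (A + K)) ≤ z1 * (8 * L ^ (A + K + 6)) := by
      refine mul_le_mul_of_nonneg_left ?_ (by linarith)
      have := pow_le_pow_right₀ hL1 (by omega : A + K ≤ A + K + 6)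
      linarith
    have h4 : (8 * (z1 : ℝ) * L ^ A) * L ^ K ≤ l * L ^ K := by
      rw [pow_add] at h3
      linarith
    exact le_of_mul_le_mul_right h4 (hpow K)
  have hl2' : (l : ℝ) ≤ x / L ^ (A + 2 + 3) := by
    refine hl2.trans (div_le_div_of_nonneg_left hxR.le (hpow _) ?_)
    exact pow_le_pow_right₀ hL1 (by omega)
  have hbf' := hbf hl2' hc hcB
  rw [hite] at hbf'
  rw [hite, hsplit]
  have hkq : D * ((l : ℝ) * kq y J J1 x / c.totient) =
      D * (l * kap y J x / c.totient) -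
        (D * ((l : ℝ) * (∑ p ∈ PY z z1, kap y J (x / p) / p) / c.totient)) / 2 := by
    unfold kq
    ring
  rw [hkq]
  have hT : 0 < (l : ℝ) / L ^ A := div_pos hl0 (hpow A)
  have e1' : (l : ℝ) / L ^ (A + 2) * W1 y J J1 ≤ l / L ^ A / 2 := by
    have h1 : (l : ℝ) / L ^ (A + 2) * W1 y J J1 ≤ l / L ^ (A + 2) * (2 * L) :=
      mul_le_mul_of_nonneg_left hW (div_nonneg hl0.le (hpow _).le)
    have h2 : (l : ℝ) / L ^ (A + 2) * (2 * L) = l / L ^ A * (2 / L) := by
      field_simp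
      ring
    have h3 : 2 / L ≤ 1 / 2 := by
      rw [div_le_div_iff₀ hL0 (by norm_num)]
      linarith
    have h4 : (l : ℝ) / L ^ A * (2 / L) ≤ l / L ^ A * (1 / 2) :=
      mul_le_mul_of_nonneg_left h3 hT.le
    linarith
  have e2' : (l : ℝ) / L ^ (A + 2) ≤ l / L ^ A / 4 := by
    rw [div_div, div_le_div_iff₀ (hpow _) (by positivity)]
    have h1 : (l : ℝ) * L ^ (A + 2) = l * L ^ A * L ^ 2 := by ring
    have h2 : (4 : ℝ) ≤ L ^ 2 := by nlinarith
    have h3 : 0 < (l : ℝ) * L ^ A := mul_pos hl0 (hpow A)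
    have h4 : (l : ℝ) * L ^ A * 4 ≤ l * L ^ A * L ^ 2 := mul_le_mul_of_nonneg_left h2 h3.le
    rw [h1]
    linarith
  rw [abs_le] at hbf' hsum ⊢
  constructor <;> linarith [hbf'.1, hbf'.2, hsum.1, hsum.2]

end Pool.Agent.H91.TQ
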