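import Pool.Agent.H91.TQ.Defs
import Pool.Agent.H76.TP.KapL

/-!
# TQ KapQ: the density `kq` is bounded and slowly varying

* `w1_le`: `∑_{z < p ≤ z1} 1/p ≤ 1 + log z1` (harmonic sum).
* `kap_abs`: `0 ≤ kap ≤ 2` for `x ≥ 3` (`kap_nonneg`, `kap_le`); for `x < 3 ≤ y` the sum in `kap` is empty (`x/y = 0`), so `kap = 0`.
* `kq_abs`: `|kq x| ≤ 2 + W1`.
* `kq_lip`: `kap_lip` at `x` and, for `p ∈ (z, z1]`, at `x/p ≤ x'/p` (natural division; `zz y J ≤ x/p` as `z z1 ≤ x`; `x'/p - x/p ≤ (x'-x)/p + 1`, `x/p ≥ x/(2p)` as `p ≤ x`):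
  `|kap(x'/p) - kap(x/p)|/p ≤ 20 ((x'-x)/p + 1 + z)/x`.  The sum over `p` is `≤ 20 ((x'-x) W1 + z1 (z+1))/x`.
-/

set_option autoImplicit false

namespace Pool.Agent.H91.TQ

open Finset
open Pool.Agent.H35.W (pb)
open Pool.Agent.H76.TP

private theorem KapQ_log_nonneg (y J1 : ℕ) : 0 ≤ Real.log (zz y J1) := Real.log_natCast_nonneg _

theorem w1_le (y J J1 : ℕ) (hy : 1 ≤ y) : 0 ≤ W1 y J J1 ∧ W1 y J J1 ≤ 1 + Real.log (zz y J1) := by
  have _ := hy
  unfold W1 PY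
  refine ⟨Finset.sum_nonneg fun p _ => by positivity, ?_⟩
  have h := harmonic_le_one_add_log (zz y J1)
  rw [harmonic_eq_sum_Icc] at h
  push_cast at h
  refine le_trans ?_ h
  calc ∑ p ∈ (Ioc (zz y J) (zz y J1)).filter Nat.Prime, 1 / (p : ℝ)
      ≤ ∑ p ∈ Icc 1 (zz y J1), 1 / (p : ℝ) := by
        refine Finset.sum_le_sum_of_subset_of_nonneg ?_ fun p _ _ => by positivity
        intro p hp
        obtain ⟨h1, _⟩ := Finset.mem_filter.mp hp
        rw [mem_Ioc] at h1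
        rw [mem_Icc]
        omega
    _ = ∑ i ∈ Icc 1 (zz y J1), ((i : ℝ))⁻¹ := by
        refine Finset.sum_congr rfl fun k _ => ?_
        rw [one_div]

theorem kap_abs (y J x : ℕ) (hy : 3 ≤ y) : 0 ≤ kap y J x ∧ kap y J x ≤ 2 := by
  by_cases hx : 3 ≤ x
  · exact ⟨kap_nonneg y J x (by omega), kap_le y J x hx⟩
  · have h0 : x / y = 0 := Nat.div_eq_of_lt (by omega)
    have h1 : kap y J x = 0 := by
      unfold kap
      rw [h0]
      simp only [Finset.Icc_eq_empty_of_lt (Nat.lt_succ_self 0), Finset.sum_empty, zero_div]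
    rw [h1]
    norm_num

theorem kq_abs (y J J1 x : ℕ) (hy : 3 ≤ y) : |kq y J J1 x| ≤ 3 + Real.log (zz y J1) := by
  obtain ⟨k0, k2⟩ := kap_abs y J x hy
  obtain ⟨w0, w2⟩ := w1_le y J J1 (by omega)
  have s0 : 0 ≤ ∑ p ∈ PY (zz y J) (zz y J1), kap y J (x / p) / p :=
    Finset.sum_nonneg fun p _ => div_nonneg (kap_abs y J (x / p) hy).1 (Nat.cast_nonneg _)
  have s2 : ∑ p ∈ PY (zz y J) (zz y J1), kap y J (x / p) / p ≤ 2 * W1 y J J1 := by
    unfold W1
    rw [Finset.mul_sum]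
    refine Finset.sum_le_sum fun p _ => ?_
    rw [div_eq_mul_one_div]
    exact mul_le_mul_of_nonneg_right (kap_abs y J (x / p) hy).2 (by positivity)
  have hl := KapQ_log_nonneg y J1
  unfold kq
  rw [abs_le]
  constructor <;> linarith

private theorem KapQ_term (y J x x' p : ℕ) (hy : 1 ≤ y) (hp : 1 ≤ p) (h3 : 3 * p ≤ x) (hz : zz y J * p ≤ x)
    (hxx : x ≤ x') :
    |kap y J (x' / p) / p - kap y J (x / p) / p| ≤
      20 * ((((x' : ℝ) - x) * (1 / (p : ℝ))) + (zz y J + 1)) / x := by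
  have hp0 : (0 : ℝ) < p := by exact_mod_cast hp
  have hx0 : (0 : ℝ) < x := by
    have : 0 < x := by omega
    exact_mod_cast this
  have hxr : (x : ℝ) ≤ x' := by exact_mod_cast hxx
  have a1 : 3 ≤ x / p := (Nat.le_div_iff_mul_le (by omega)).mpr h3
  have a2 : zz y J ≤ x / p := (Nat.le_div_iff_mul_le (by omega)).mpr hz
  have a3 : x / p ≤ x' / p := Nat.div_le_div_right hxx
  have hL := kap_lip y J (x / p) (x' / p) hy a1 a2 a3
  have h5 : ((x' / p : ℕ) : ℝ) ≤ (x' : ℝ) / p := Nat.cast_div_le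
  have h6 : x < x / p * p + p := Nat.lt_div_mul_add (by omega)
  have h7 : (x : ℝ) ≤ ((x / p : ℕ) : ℝ) * p + p := by exact_mod_cast h6.le
  have h8 : (x : ℝ) / p ≤ ((x / p : ℕ) : ℝ) + 1 := by
    rw [div_le_iff₀ hp0]
    linarith
  have h9 : (1 : ℝ) ≤ ((x / p : ℕ) : ℝ) := by
    have : 1 ≤ x / p := by omega
    exact_mod_cast this
  have q0 : (0 : ℝ) < ((x / p : ℕ) : ℝ) := by linarith
  -- `x/p ≥ x/(2p)`
  have h10 : (x : ℝ) / (2 * p) ≤ ((x / p : ℕ) : ℝ) := by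
    have e : (x : ℝ) / (2 * p) = ((x : ℝ) / p) / 2 := by
      rw [div_div, mul_comm]
    rw [e]
    linarith
  have hzn : (0 : ℝ) ≤ zz y J := Nat.cast_nonneg _
  have hD : 0 ≤ ((x' : ℝ) - x) * (1 / (p : ℝ)) := mul_nonneg (by linarith) (by positivity)
  have hn : ((x' / p : ℕ) : ℝ) - ((x / p : ℕ) : ℝ) + zz y J ≤
      ((x' : ℝ) - x) * (1 / (p : ℝ)) + (zz y J + 1) := by
    have e : ((x' : ℝ) - x) * (1 / (p : ℝ)) = (x' : ℝ) / p - (x : ℝ) / p := by ring
    rw [e]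
    linarith
  rw [← sub_div, abs_div, abs_of_pos hp0]
  rw [div_le_iff₀ hp0]
  refine hL.trans ?_
  rw [div_le_iff₀ q0]
  have key : 20 * (((x' : ℝ) - x) * (1 / (p : ℝ)) + (zz y J + 1)) / x * p * ((x / p : ℕ) : ℝ) ≥
      20 * (((x' : ℝ) - x) * (1 / (p : ℝ)) + (zz y J + 1)) / x * p * ((x : ℝ) / (2 * p)) := by
    refine mul_le_mul_of_nonneg_left h10 ?_
    have : 0 ≤ ((x' : ℝ) - x) * (1 / (p : ℝ)) + (zz y J + 1) := by linarith
    positivity
  have e2 : 20 * (((x' : ℝ) - x) * (1 / (p : ℝ)) + (zz y J + 1)) / x * p * ((x : ℝ) / (2 * p)) =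
      10 * (((x' : ℝ) - x) * (1 / (p : ℝ)) + (zz y J + 1)) := by
    field_simp
    ring
  rw [e2] at key
  linarith

theorem kq_lip (y J J1 x x' : ℕ) (hy : 1 ≤ y) (hJ : J ≤ J1) (hx : 3 * zz y J1 ≤ x) (hz : zz y J * zz y J1 ≤ x)
    (hxx : x ≤ x') :
    |kq y J J1 x' - kq y J J1 x| ≤
      30 * (1 + Real.log (zz y J1)) * (((x' : ℝ) - x) + zz y J1 * (zz y J + 1)) / x := by
  have _ := hJ
  have hz1 : 1 ≤ zz y J1 := by
    unfold zz
    exact Nat.mul_pos (by positivity) (by omega)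
  have hx0 : (0 : ℝ) < x := by
    have : 0 < x := by omega
    exact_mod_cast this
  have hxr : (x : ℝ) ≤ x' := by exact_mod_cast hxx
  have hz1r : (1 : ℝ) ≤ zz y J1 := by exact_mod_cast hz1
  have hzn : (0 : ℝ) ≤ zz y J := Nat.cast_nonneg _
  have hzx : zz y J ≤ x := le_trans (Nat.le_mul_of_pos_right _ (by omega)) hz
  have m1 := kap_lip y J x x' hy (by omega) hzx hxx
  obtain ⟨w0, w2⟩ := w1_le y J J1 hy
  have hl := KapQ_log_nonneg y J1
  set lg := Real.log (zz y J1) with hlg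
  -- the sum over `p`
  have m2 : |(∑ p ∈ PY (zz y J) (zz y J1), kap y J (x' / p) / p) -
      ∑ p ∈ PY (zz y J) (zz y J1), kap y J (x / p) / p| ≤
      20 * (((x' : ℝ) - x) * W1 y J J1 + zz y J1 * (zz y J + 1)) / x := by
    rw [← Finset.sum_sub_distrib]
    refine (Finset.abs_sum_le_sum_abs _ _).trans ?_
    have b1 : ∀ p ∈ PY (zz y J) (zz y J1), |kap y J (x' / p) / p - kap y J (x / p) / p| ≤
        20 * ((((x' : ℝ) - x) * (1 / (p : ℝ))) + (zz y J + 1)) / x := by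
      intro p hp
      unfold PY at hp
      obtain ⟨h1, h2⟩ := Finset.mem_filter.mp hp
      rw [mem_Ioc] at h1
      refine KapQ_term y J x x' p hy h2.one_le (by omega) ?_ hxx
      exact le_trans (Nat.mul_le_mul_left _ h1.2) hz
    refine (Finset.sum_le_sum b1).trans ?_
    rw [← Finset.sum_div]
    refine div_le_div_of_nonneg_right ?_ hx0.le
    rw [← Finset.mul_sum, Finset.sum_add_distrib, ← Finset.mul_sum, Finset.sum_const, nsmul_eq_mul]
    refine mul_le_mul_of_nonneg_left ?_ (by norm_num)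
    have hc : ((PY (zz y J) (zz y J1)).card : ℝ) ≤ zz y J1 := by
      have : (PY (zz y J) (zz y J1)).card ≤ zz y J1 := by
        unfold PY
        refine (Finset.card_filter_le _ _).trans ?_
        rw [Nat.card_Ioc]
        omega
      exact_mod_cast this
    have hc2 : ((PY (zz y J) (zz y J1)).card : ℝ) * ((zz y J : ℝ) + 1) ≤ zz y J1 * ((zz y J : ℝ) + 1) :=
      mul_le_mul_of_nonneg_right hc (by linarith)
    unfold W1
    linarith
  have e : kq y J J1 x' - kq y J J1 x = (kap y J x' - kap y J x) -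
      ((∑ p ∈ PY (zz y J) (zz y J1), kap y J (x' / p) / p) -
      ∑ p ∈ PY (zz y J) (zz y J1), kap y J (x / p) / p) / 2 := by
    unfold kq
    ring
  have t1 : |kq y J J1 x' - kq y J J1 x| ≤ 10 * (((x' : ℝ) - x) + zz y J) / x +
      20 * (((x' : ℝ) - x) * W1 y J J1 + zz y J1 * (zz y J + 1)) / x / 2 := by
    rw [e]
    refine (abs_sub _ _).trans ?_
    rw [abs_div, abs_two]
    have := div_le_div_of_nonneg_right m2 (by norm_num : (0 : ℝ) ≤ 2)
    linarith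
  refine t1.trans ?_
  have e2 : 10 * (((x' : ℝ) - x) + zz y J) / x +
      20 * (((x' : ℝ) - x) * W1 y J J1 + zz y J1 * (zz y J + 1)) / x / 2 =
      (10 * (((x' : ℝ) - x) + zz y J) + 10 * (((x' : ℝ) - x) * W1 y J J1 + zz y J1 * (zz y J + 1))) / x := by
    ring
  rw [e2]
  refine div_le_div_of_nonneg_right ?_ hx0.le
  have D0 : 0 ≤ (x' : ℝ) - x := by linarith
  have Z0 : (zz y J : ℝ) ≤ zz y J1 * ((zz y J : ℝ) + 1) := by nlinarith
  have Z1 : 0 ≤ (zz y J1 : ℝ) * ((zz y J : ℝ) + 1) := by positivity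
  have q1 : ((x' : ℝ) - x) * W1 y J J1 ≤ ((x' : ℝ) - x) * (1 + lg) := mul_le_mul_of_nonneg_left w2 D0
  have q2 : 0 ≤ lg * (((x' : ℝ) - x)) := mul_nonneg hl D0
  have q3 : 0 ≤ lg * ((zz y J1 : ℝ) * ((zz y J : ℝ) + 1)) := mul_nonneg hl Z1
  nlinarith

end Pool.Agent.H91.TQ
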