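import Pool.Agent.H91.TQ.Defs

/-!
# TQ SqpB: squares of primes `> y` are rare in almost all blocks

`∑_{1 ≤ m ≤ 6N} sqp m ≤ ∑_{y < p ≤ z} 6N/p² ≤ 6N/y ≤ 12 N^(1-e1)` (`∑_{n > y} 1/n² ≤ 1/y`; `yN e1 N ≥ N^e1/2`).  The blocks `[iH, (i+1)H)`, `i ∈ Icc (N/(2H)) (4N/H)`, are disjoint subsets of `[1, 6N]`: at most `12 N^(1-e1) L^A/H ≤ (N/H)/L^A` of them have `∑ sqp > H/L^A`.
`sqp_int`: `∑_{(x, x+l]} sqp ≤ ∑_{y < p ≤ z} (l/p² + 1) ≤ l/y + z ≤ l/L^A` for `l ≥ N^(1/2)`, `z ≤ N^(27/100)`.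
-/

set_option autoImplicit false

namespace Pool.Agent.H91.TQ

open Finset
open Pool.Agent.H76.TP

private theorem SqpB_ev (e : ℝ) (he : 0 < e) (A : ℕ) (C : ℝ) :
    ∃ N0 : ℕ, ∀ N : ℕ, N0 ≤ N → C * Real.log N ^ A ≤ (N : ℝ) ^ e := by
  have h1 : (fun x : ℝ => Real.log x ^ (A : ℝ)) =o[Filter.atTop] fun x => x ^ e :=
    isLittleO_log_rpow_rpow_atTop (A : ℝ) he
  have h2 : ∀ᶠ x : ℝ in Filter.atTop, ‖Real.log x ^ (A : ℝ)‖ ≤ (|C| + 1)⁻¹ * ‖x ^ e‖ :=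
    h1.def (by positivity)
  have h3 := tendsto_natCast_atTop_atTop (R := ℝ) |>.eventually (h2.and (Filter.eventually_ge_atTop 1))
  obtain ⟨N0, hN0⟩ := Filter.eventually_atTop.1 h3
  refine ⟨N0, fun N hN => ?_⟩
  obtain ⟨h4, h5⟩ := hN0 N hN
  have h6 : 0 ≤ Real.log N := Real.log_nonneg h5
  have h7 : 0 ≤ (N : ℝ) ^ e := Real.rpow_nonneg (by positivity) _
  rw [Real.rpow_natCast, Real.norm_of_nonneg (pow_nonneg h6 A), Real.norm_of_nonneg h7] at h4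
  have h8 : (|C| + 1) * Real.log N ^ A ≤ (N : ℝ) ^ e := by
    have h9 := mul_le_mul_of_nonneg_left h4 (by positivity : 0 ≤ |C| + 1)
    rwa [← mul_assoc, mul_inv_cancel₀ (by positivity), one_mul] at h9
  refine le_trans ?_ h8
  exact mul_le_mul_of_nonneg_right (by linarith [le_abs_self C]) (pow_nonneg h6 A)

/-- `y` is large. -/
private theorem SqpB_y (e1 : ℝ) (he1 : 0 < e1) (A : ℕ) (C : ℝ) :
    ∃ N0 : ℕ, ∀ N : ℕ, N0 ≤ N → C * Real.log N ^ A ≤ yN e1 N ∧ 1 ≤ yN e1 N := by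
  obtain ⟨N1, hN1⟩ := SqpB_ev e1 he1 A (2 * C)
  obtain ⟨N2, hN2⟩ := SqpB_ev e1 he1 0 2
  refine ⟨max N1 N2, fun N hN => ?_⟩
  have h1 := hN1 N (le_trans (le_max_left _ _) hN)
  have h2 := hN2 N (le_trans (le_max_right _ _) hN)
  rw [pow_zero, mul_one] at h2
  have h3 : (N : ℝ) ^ e1 < yN e1 N + 1 := Nat.lt_floor_add_one _
  constructor
  · linarith
  · have h4 : (1 : ℝ) < yN e1 N + 1 := by linarith
    have h5 : (0 : ℝ) < yN e1 N := by linarith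
    exact_mod_cast h5

private theorem SqpB_nonneg (y J m : ℕ) : 0 ≤ sqp y J m := by
  unfold sqp
  positivity

/-- The number of the multiples of `d` in `(x, x + l]`. -/
private theorem SqpB_mult (x l d : ℕ) (hd : 0 < d) :
    ((((Ioc x (x + l)).filter (fun m => d ∣ m)).card : ℕ) : ℝ) ≤ l / d + 1 := by
  have h1 : ((Ioc 0 (x + l)).filter (fun m => d ∣ m)).card =
      ((Ioc 0 x).filter (fun m => d ∣ m)).card + ((Ioc x (x + l)).filter (fun m => d ∣ m)).card := by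
    rw [← Finset.card_union_of_disjoint, ← Finset.filter_union, Finset.Ioc_union_Ioc_eq_Ioc (Nat.zero_le x)
      (Nat.le_add_right x l)]
    exact Finset.disjoint_filter_filter (Finset.Ioc_disjoint_Ioc_of_le le_rfl)
  rw [Nat.Ioc_filter_dvd_card_eq_div, Nat.Ioc_filter_dvd_card_eq_div] at h1
  have hd' : (0 : ℝ) < d := by exact_mod_cast hd
  have h2 : (((x + l) / d : ℕ) : ℝ) ≤ ((x + l : ℕ) : ℝ) / d := Nat.cast_div_le
  have h3 : (x : ℝ) / d < ((x / d : ℕ) : ℝ) + 1 := by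
    rw [div_lt_iff₀ hd']
    have h4 : x < (x / d + 1) * d := by
      have h5 := Nat.div_add_mod x d
      have h6 := Nat.mod_lt x hd
      nlinarith
    exact_mod_cast h4
  have h7 : (((x + l) / d : ℕ) : ℝ) = ((x / d : ℕ) : ℝ) +
      ((((Ioc x (x + l)).filter (fun m => d ∣ m)).card : ℕ) : ℝ) := by
    exact_mod_cast h1
  push_cast at h2
  have h8 : ((x : ℝ) + l) / d = x / d + l / d := add_div _ _ _
  linarith

private theorem SqpB_swap (S : Finset ℕ) (y J : ℕ) :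
    ∑ m ∈ S, sqp y J m = ∑ p ∈ PY y (zz y J), (((S.filter (fun m => p ^ 2 ∣ m)).card : ℕ) : ℝ) := by
  unfold sqp
  simp only [Finset.card_filter, Nat.cast_sum]
  rw [Finset.sum_comm]

private theorem SqpB_inv (y z : ℕ) (hy : 1 ≤ y) : ∑ p ∈ PY y z, ((p : ℝ) ^ 2)⁻¹ ≤ (y : ℝ)⁻¹ := by
  have h1 : ∑ p ∈ PY y z, ((p : ℝ) ^ 2)⁻¹ ≤ ∑ p ∈ Ioc y z, ((p : ℝ) ^ 2)⁻¹ :=
    Finset.sum_le_sum_of_subset_of_nonneg (Finset.filter_subset _ _) fun i _ _ => by positivity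
  by_cases hyz : y ≤ z
  · have h2 := sum_Ioc_inv_sq_le_sub (α := ℝ) (by omega : y ≠ 0) hyz
    have h3 : (0 : ℝ) ≤ (z : ℝ)⁻¹ := by positivity
    linarith
  · rw [Finset.Ioc_eq_empty_of_le (by omega), Finset.sum_empty] at h1
    refine h1.trans ?_
    positivity

private theorem SqpB_total (y J M : ℕ) (hy : 1 ≤ y) : ∑ m ∈ Ioc 0 M, sqp y J m ≤ M / y := by
  rw [SqpB_swap]
  have h1 : ∀ p ∈ PY y (zz y J), ((((Ioc 0 M).filter (fun m => p ^ 2 ∣ m)).card : ℕ) : ℝ) ≤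
      M * ((p : ℝ) ^ 2)⁻¹ := by
    intro p _
    rw [Nat.Ioc_filter_dvd_card_eq_div, ← div_eq_mul_inv]
    refine Nat.cast_div_le.trans_eq ?_
    push_cast
    rfl
  refine (Finset.sum_le_sum h1).trans ?_
  rw [← Finset.mul_sum, div_eq_mul_inv]
  exact mul_le_mul_of_nonneg_left (SqpB_inv _ _ hy) (by positivity)

open Classical in
theorem sqp_blk (e1 θ : ℝ) (he1 : 0 < e1) (hθ : 0 < θ) (hθ2 : θ < 1 / 2) (A : ℕ) : ∃ N0 : ℕ, ∀ N : ℕ, N0 ≤ N → ∀ J : ℕ,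
    (((Icc (N / (2 * ⌊(N : ℝ) ^ θ⌋₊)) (4 * N / ⌊(N : ℝ) ^ θ⌋₊)).filter (fun i =>
      (⌊(N : ℝ) ^ θ⌋₊ : ℝ) / Real.log N ^ A <
        ∑ m ∈ Ico (i * ⌊(N : ℝ) ^ θ⌋₊) ((i + 1) * ⌊(N : ℝ) ^ θ⌋₊), sqp (yN e1 N) J m)).card : ℝ) ≤
      (N : ℝ) / ⌊(N : ℝ) ^ θ⌋₊ / Real.log N ^ A := by
  obtain ⟨N1, hN1⟩ := SqpB_y e1 he1 (2 * A) 5
  refine ⟨max N1 4, fun N hN J => ?_⟩
  obtain ⟨hy1, hy2⟩ := hN1 N (le_trans (le_max_left _ _) hN)
  have hN4 : 4 ≤ N := le_trans (le_max_right _ _) hN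
  have hN4' : (4 : ℝ) ≤ N := by exact_mod_cast hN4
  set H : ℕ := ⌊(N : ℝ) ^ θ⌋₊ with hH
  set y : ℕ := yN e1 N with hy
  have hH1 : 1 ≤ H := by
    rw [hH, Nat.one_le_floor_iff]
    exact Real.one_le_rpow (by linarith) hθ.le
  have hHN : 2 * H ≤ N := by
    have h1 : (H : ℝ) ≤ (N : ℝ) ^ θ := Nat.floor_le (by positivity)
    have h2 : (N : ℝ) ^ θ ≤ (N : ℝ) ^ (1 / 2 : ℝ) :=
      Real.rpow_le_rpow_of_exponent_le (by linarith) hθ2.le
    have h3 : (N : ℝ) ^ (1 / 2 : ℝ) * (N : ℝ) ^ (1 / 2 : ℝ) = N := by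
      rw [← Real.rpow_add (by linarith)]
      norm_num
    have h4 : (2 : ℝ) ≤ (N : ℝ) ^ (1 / 2 : ℝ) := by
      by_contra hcon
      push Not at hcon
      have h5 : (0 : ℝ) ≤ (N : ℝ) ^ (1 / 2 : ℝ) := by positivity
      nlinarith
    have h6 : (2 * H : ℝ) ≤ N := by nlinarith
    exact_mod_cast h6
  have hlog : 1 ≤ Real.log N := by
    have h1 : Real.exp 1 ≤ N := by
      have := Real.exp_one_lt_d9
      linarith
    rw [Real.le_log_iff_exp_le (by linarith)]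
    exact h1
  have hLA : 0 < Real.log N ^ A := by positivity
  have hHpos : (0 : ℝ) < H := by exact_mod_cast hH1
  have hypos : (0 : ℝ) < y := by exact_mod_cast hy2
  set K := (Icc (N / (2 * H)) (4 * N / H)).filter (fun i =>
      (H : ℝ) / Real.log N ^ A < ∑ m ∈ Ico (i * H) ((i + 1) * H), sqp y J m) with hK
  -- sum over the blocks
  have h1 : (K.card : ℝ) * (H / Real.log N ^ A) ≤
      ∑ i ∈ K, ∑ m ∈ Ico (i * H) ((i + 1) * H), sqp y J m := by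
    rw [← nsmul_eq_mul]
    refine Finset.card_nsmul_le_sum _ _ _ fun i hi => ?_
    exact (Finset.mem_filter.1 hi).2.le
  have hdisj : (↑K : Set ℕ).PairwiseDisjoint fun i => Ico (i * H) ((i + 1) * H) := by
    intro i _ j _ hij
    rw [Function.onFun, Finset.disjoint_left]
    intro m hm hm'
    rw [Finset.mem_Ico] at hm hm'
    apply hij
    have h2 : m / H = i := Nat.div_eq_of_lt_le hm.1 (by simpa using hm.2)
    have h3 : m / H = j := Nat.div_eq_of_lt_le hm'.1 (by simpa using hm'.2)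
    rw [← h2, ← h3]
  have hsub : K.biUnion (fun i => Ico (i * H) ((i + 1) * H)) ⊆ Ioc 0 (5 * N) := by
    intro m hm
    rw [Finset.mem_biUnion] at hm
    obtain ⟨i, hi, hm⟩ := hm
    rw [Finset.mem_Ico] at hm
    have hi' := Finset.mem_Icc.1 (Finset.mem_filter.1 hi).1
    have h2 : 1 ≤ N / (2 * H) := (Nat.one_le_div_iff (by omega)).2 hHN
    have h3 : 1 ≤ i := h2.trans hi'.1
    have h4 : i * H ≤ 4 * N := (Nat.mul_le_mul_right H hi'.2).trans (Nat.div_mul_le_self _ _)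
    rw [Finset.mem_Ioc]
    constructor
    · have h5 : 1 * 1 ≤ i * H := Nat.mul_le_mul h3 hH1
      omega
    · have h6 : (i + 1) * H = i * H + H := by ring
      omega
  have h2 : ∑ i ∈ K, ∑ m ∈ Ico (i * H) ((i + 1) * H), sqp y J m ≤ ((5 * N : ℕ) : ℝ) / y := by
    rw [← Finset.sum_biUnion hdisj]
    refine (Finset.sum_le_sum_of_subset_of_nonneg hsub fun m _ _ => SqpB_nonneg y J m).trans ?_
    exact SqpB_total y J (5 * N) hy2
  have h3 : (K.card : ℝ) * (H / Real.log N ^ A) ≤ (N : ℝ) / Real.log N ^ A / Real.log N ^ A := by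
    refine (h1.trans h2).trans ?_
    rw [div_div, ← pow_add, ← two_mul, div_le_div_iff₀ hypos (by positivity)]
    push_cast
    nlinarith [mul_le_mul_of_nonneg_left hy1 (by positivity : (0 : ℝ) ≤ N)]
  have h4 : (K.card : ℝ) = (K.card : ℝ) * (H / Real.log N ^ A) * (Real.log N ^ A / H) := by
    field_simp
  rw [h4]
  calc (K.card : ℝ) * (H / Real.log N ^ A) * (Real.log N ^ A / H)
      ≤ ((N : ℝ) / Real.log N ^ A / Real.log N ^ A) * (Real.log N ^ A / H) :=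
        mul_le_mul_of_nonneg_right h3 (by positivity)
    _ = (N : ℝ) / H / Real.log N ^ A := by field_simp

theorem sqp_int (e1 : ℝ) (he1 : 0 < e1) (A : ℕ) : ∃ N0 : ℕ, ∀ N : ℕ, N0 ≤ N → ∀ J x l : ℕ,
    (zz (yN e1 N) J : ℝ) ≤ (N : ℝ) ^ (27 / 100 : ℝ) → (N : ℝ) ^ (1 / 2 : ℝ) ≤ l →
      ∑ m ∈ Ioc x (x + l), sqp (yN e1 N) J m ≤ l / Real.log N ^ A := by
  obtain ⟨N1, hN1⟩ := SqpB_y e1 he1 A 2
  obtain ⟨N2, hN2⟩ := SqpB_ev (23 / 100) (by norm_num) A 2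
  refine ⟨max (max N1 N2) 4, fun N hN J x l hz hl => ?_⟩
  obtain ⟨hy1, hy2⟩ := hN1 N (le_trans (le_trans (le_max_left _ _) (le_max_left _ _)) hN)
  have h23 := hN2 N (le_trans (le_trans (le_max_right _ _) (le_max_left _ _)) hN)
  have hN4 : 4 ≤ N := le_trans (le_max_right _ _) hN
  have hN4' : (4 : ℝ) ≤ N := by exact_mod_cast hN4
  have hlog : 1 ≤ Real.log N := by
    have h1 : Real.exp 1 ≤ N := by
      have := Real.exp_one_lt_d9
      linarith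
    rw [Real.le_log_iff_exp_le (by linarith)]
    exact h1
  have hLA : 0 < Real.log N ^ A := by positivity
  set y : ℕ := yN e1 N with hy
  have hypos : (0 : ℝ) < y := by exact_mod_cast hy2
  rw [SqpB_swap]
  have h1 : ∀ p ∈ PY y (zz y J), ((((Ioc x (x + l)).filter (fun m => p ^ 2 ∣ m)).card : ℕ) : ℝ) ≤
      l * ((p : ℝ) ^ 2)⁻¹ + 1 := by
    intro p hp
    have hp' : 0 < p := by
      have := (Finset.mem_Ioc.1 (Finset.mem_filter.1 hp).1).1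
      omega
    refine (SqpB_mult x l (p ^ 2) (by positivity)).trans_eq ?_
    push_cast
    rw [div_eq_mul_inv]
  refine (Finset.sum_le_sum h1).trans ?_
  rw [Finset.sum_add_distrib, ← Finset.mul_sum, Finset.sum_const, nsmul_eq_mul, mul_one]
  have h2 : ((PY y (zz y J)).card : ℝ) ≤ zz y J := by
    have h3 : (PY y (zz y J)).card ≤ zz y J := by
      refine (Finset.card_filter_le _ _).trans ?_
      rw [Nat.card_Ioc]
      exact Nat.sub_le _ _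
    exact_mod_cast h3
  have h4 : (l : ℝ) * ∑ p ∈ PY y (zz y J), ((p : ℝ) ^ 2)⁻¹ ≤ l * (y : ℝ)⁻¹ :=
    mul_le_mul_of_nonneg_left (SqpB_inv _ _ hy2) (by positivity)
  have h5 : (l : ℝ) * (y : ℝ)⁻¹ ≤ l / Real.log N ^ A / 2 := by
    rw [← div_eq_mul_inv, div_div, div_le_div_iff₀ hypos (by positivity)]
    have := mul_le_mul_of_nonneg_left hy1 (by positivity : (0 : ℝ) ≤ l)
    linarith
  have h6 : (N : ℝ) ^ (27 / 100 : ℝ) ≤ l / Real.log N ^ A / 2 := by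
    have h7 : (N : ℝ) ^ (27 / 100 : ℝ) * (N : ℝ) ^ (23 / 100 : ℝ) = (N : ℝ) ^ (1 / 2 : ℝ) := by
      rw [← Real.rpow_add (by linarith)]
      norm_num
    rw [div_div, le_div_iff₀ (by positivity)]
    calc (N : ℝ) ^ (27 / 100 : ℝ) * (Real.log N ^ A * 2)
        = (N : ℝ) ^ (27 / 100 : ℝ) * (2 * Real.log N ^ A) := by ring
      _ ≤ (N : ℝ) ^ (27 / 100 : ℝ) * (N : ℝ) ^ (23 / 100 : ℝ) :=
        mul_le_mul_of_nonneg_left h23 (by positivity)
      _ ≤ l := by rw [h7]; exact hl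
  linarith

end Pool.Agent.H91.TQ
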