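import Pool.Agent.H91.TQ.Defs
import Pool.Agent.H53.MID.OmW

/-!
# TQ OmG: the twisted main term of type II for a general density `D` (compare `H76/TP/Om2.lean`, the same proof)

Fix the block `I = [iH, (i+1)H)`, `i ≥ N/(2H)`, `P ≥ N^e1/2`, `P N^e ≤ H`, `H³ ≤ N`.  For `m ∈ I`, `p ∣ m`, `p ∈ pb P`: `|m/p - iH/p| ≤ H/p + 1` (natural division), both `≥ N/(8P) ≥ N^(1/2)`, so
`|D(m/p) - D(iH/p)| ≤ L² (H/P + 1 + N^b0)/(N/(8P)) ≤ 8 L² (H + P + P N^b0)/N ≤ N^(-c)` (`P ≤ N^(1/3)`, `b0 < 2/3`); total error `≤ N^(-c) ∑_{m ∈ I} |lamR R m| #{p ∣ m} ≤ H/(2 L^A)` (`|lamR R m| ≤ R^2`, `#{p ∈ pb P : p ∣ m} ≤ 2 log m`).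
For `p ∣ m`, `p > R`: `lamR R (m/p) = lamR R m`.  The rest: `∑_{p ∈ pb P} D(iH/p) ∑_{m ∈ I} (1[p ∣ m] - 1/p) lamR R m ee(-m α)`.  As in `H53/MID/OmW.lean`: `1[p ∣ m] - 1/p = (1/p) ∑_{c=1}^{p-1} ee(mc/p)`,
`lamR R m = ∑_{q ≤ R} μ(q)/φ(q) ∑*_b ee(mb/q)`, so with `|D| ≤ L²` it is `≤ L² R max_β (1/P) ∑_p ∑_{c=1}^{p-1} min(H, 1/(2 nz(β + c/p))) ≤ L² R (1/P) (2H + 16 P² (1 + log(8P²)))` (points with mutual distance
`≥ 1/(4P²)`, see `OmW.lean`) `≤ H/(2 L^A)`: here `P N^e ≤ H` is enough.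
-/

set_option autoImplicit false

namespace Pool.Agent.H91.TQ

open Finset
open Pool.Agent.H91.PK (ee)
open Pool.Agent.H91.EHA (Lam hR lamR ramS)
open Pool.Agent.H35.W (pb)
open Pool.Agent.H53.MID (Fp Bs)

section OmGaux

open Pool.Agent.H92.EH (red D)

private theorem OmG_e (t : ℝ) : Pool.Agent.H92.EH.e t = ee t := by
  unfold Pool.Agent.H91.PK.ee Pool.Agent.H92.EH.e
  congr 1
  push_cast
  ring

/-- the distance to the integers -/
private theorem OmG_near (t : ℝ) (m : ℤ) : Int.fract t ≤ |t - m| ∨ 1 - Int.fract t ≤ |t - m| := by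
  have h0 : t = ⌊t⌋ + Int.fract t := (Int.floor_add_fract t).symm
  rcases le_or_gt m ⌊t⌋ with h | h
  · left
    have h1 : (m : ℝ) ≤ ⌊t⌋ := by exact_mod_cast h
    refine le_trans ?_ (le_abs_self _)
    linarith
  · right
    have h1 : (⌊t⌋ : ℝ) + 1 ≤ m := by exact_mod_cast h
    refine le_trans ?_ (neg_le_abs _)
    linarith

/-- the exponential sum over well spaced points -/
private theorem OmG_pts {ι : Type*} [DecidableEq ι] (S : Finset ι) (β : ι → ℝ) (M H : ℕ) (hM : 0 < M)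
    (hsp : ∀ i ∈ S, ∀ j ∈ S, i ≠ j → ∀ m : ℤ, (1 : ℝ) / M ≤ |β i - β j - m|) :
    ∑ j ∈ S, ‖D H (β j)‖ ≤ 2 * H + M * (1 + Real.log M) := by
  classical
  have hM0 : (0 : ℝ) < M := by exact_mod_cast hM
  let k : ι → ℕ := fun j => ⌊(M : ℝ) * Int.fract (β j)⌋₊
  let g : ℕ → ℝ := fun n => if n = 0 then (H : ℝ) else (M : ℝ) / (2 * n)
  have hg0 : ∀ n, 0 ≤ g n := by
    intro n
    simp only [g]
    split_ifs
    · positivity
    · positivity
  have hk1 : ∀ j, (k j : ℝ) ≤ M * Int.fract (β j) := fun j =>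
    Nat.floor_le (mul_nonneg hM0.le (Int.fract_nonneg _))
  have hk2 : ∀ j, (M : ℝ) * Int.fract (β j) < k j + 1 := fun j => Nat.lt_floor_add_one _
  have hkM : ∀ j, k j < M := by
    intro j
    have h1 : (k j : ℝ) < M := by
      refine lt_of_le_of_lt (hk1 j) ?_
      have := Int.fract_lt_one (β j)
      nlinarith
    exact_mod_cast h1
  have hinj : Set.InjOn k S := by
    intro i hi j hj hij
    by_contra hne
    have h1 := hsp i hi j hj hne (⌊β i⌋ - ⌊β j⌋)
    have h2 : β i - β j - ((⌊β i⌋ - ⌊β j⌋ : ℤ) : ℝ) = Int.fract (β i) - Int.fract (β j) := by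
      unfold Int.fract
      push_cast
      ring
    rw [h2, div_le_iff₀ hM0] at h1
    have h3 : |Int.fract (β i) - Int.fract (β j)| * M < 1 := by
      have e1 := hk1 i
      have e2 := hk2 i
      have e3 := hk1 j
      have e4 := hk2 j
      have e5 : (k i : ℝ) = k j := by exact_mod_cast hij
      have e6 : |Int.fract (β i) - Int.fract (β j)| * M = |M * Int.fract (β i) - M * Int.fract (β j)| := by
        rw [← mul_sub, abs_mul, abs_of_pos hM0, mul_comm]
      rw [e6, abs_lt]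
      constructor <;> linarith
    linarith
  have hb : ∀ j ∈ S, ‖D H (β j)‖ ≤ g (k j) + g (M - 1 - k j) := by
    intro j _
    rcases le_or_gt (Int.fract (β j)) (1 / 2) with hf | hf
    · refine le_trans ?_ (le_add_of_nonneg_right (hg0 _))
      by_cases h0 : k j = 0
      · have : g (k j) = H := by simp only [g]; rw [if_pos h0]
        rw [this]
        exact Pool.Agent.H92.EH.norm_D_le_nat H (β j)
      · have h1 : g (k j) = (M : ℝ) / (2 * k j) := by simp only [g]; rw [if_neg h0]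
        have hk0 : (0 : ℝ) < k j := by
          have : 0 < k j := Nat.pos_of_ne_zero h0
          exact_mod_cast this
        have h2 := Pool.Agent.H92.EH.norm_D_le H (t := β j) (δ := (k j : ℝ) / M) (by positivity)
          (fun m => by
            have e1 : (k j : ℝ) / M ≤ Int.fract (β j) := by
              rw [div_le_iff₀ hM0, mul_comm]; exact hk1 j
            rcases OmG_near (β j) m with e2 | e2
            · exact e1.trans e2
            · linarith)
        rw [h1]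
        refine h2.trans (le_of_eq ?_)
        field_simp
    · refine le_trans ?_ (le_add_of_nonneg_left (hg0 _))
      by_cases h0 : M - 1 - k j = 0
      · have : g (M - 1 - k j) = H := by simp only [g]; rw [if_pos h0]
        rw [this]
        exact Pool.Agent.H92.EH.norm_D_le_nat H (β j)
      · have h1 : g (M - 1 - k j) = (M : ℝ) / (2 * ((M - 1 - k j : ℕ) : ℝ)) := by
          simp only [g]; rw [if_neg h0]
        have hk0 : (0 : ℝ) < ((M - 1 - k j : ℕ) : ℝ) := by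
          have : 0 < M - 1 - k j := Nat.pos_of_ne_zero h0
          exact_mod_cast this
        have hk3 : ((M - 1 - k j : ℕ) : ℝ) = M - 1 - k j := by
          have e1 := hkM j
          rw [Nat.cast_sub (by omega), Nat.cast_sub (by omega)]
          norm_num
        have h2 := Pool.Agent.H92.EH.norm_D_le H (t := β j) (δ := ((M - 1 - k j : ℕ) : ℝ) / M)
          (by positivity)
          (fun m => by
            have e1 : ((M - 1 - k j : ℕ) : ℝ) / M ≤ 1 - Int.fract (β j) := by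
              rw [div_le_iff₀ hM0, hk3]
              have := hk2 j
              linarith
            rcases OmG_near (β j) m with e2 | e2
            · linarith
            · exact e1.trans e2)
        rw [h1]
        refine h2.trans (le_of_eq ?_)
        field_simp
  have hsum : ∑ n ∈ range M, g n ≤ H + M / 2 * (1 + Real.log M) := by
    obtain ⟨M', rfl⟩ : ∃ M', M = M' + 1 := ⟨M - 1, by omega⟩
    rw [Finset.sum_range_succ']
    have e1 : g 0 = H := by simp only [g, if_true]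
    have e2 : ∀ n ∈ range M', g (n + 1) = ((M' + 1 : ℕ) : ℝ) / 2 * (((n : ℝ) + 1)⁻¹) := by
      intro n _
      simp only [g]
      rw [if_neg (Nat.succ_ne_zero n)]
      push_cast
      field_simp
    rw [e1, Finset.sum_congr rfl e2, ← Finset.mul_sum]
    have e3 : ∑ n ∈ range M', ((n : ℝ) + 1)⁻¹ ≤ 1 + Real.log ((M' + 1 : ℕ) : ℝ) := by
      have e4 := harmonic_le_one_add_log M'
      have e5 : ((harmonic M' : ℚ) : ℝ) = ∑ n ∈ range M', ((n : ℝ) + 1)⁻¹ := by
        unfold harmonic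
        push_cast
        rfl
      rw [e5] at e4
      refine e4.trans ?_
      rcases Nat.eq_zero_or_pos M' with h0 | h0
      · subst h0
        simp
      · have : Real.log M' ≤ Real.log ((M' + 1 : ℕ) : ℝ) :=
          Real.log_le_log (by exact_mod_cast h0) (by push_cast; linarith)
        linarith
    have e6 : ((M' + 1 : ℕ) : ℝ) / 2 * ∑ n ∈ range M', ((n : ℝ) + 1)⁻¹ ≤
        ((M' + 1 : ℕ) : ℝ) / 2 * (1 + Real.log ((M' + 1 : ℕ) : ℝ)) :=
      mul_le_mul_of_nonneg_left e3 (by positivity)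
    linarith
  have hs1 : ∑ j ∈ S, g (k j) ≤ ∑ n ∈ range M, g n := by
    rw [← Finset.sum_image (f := g) (g := k) hinj]
    refine Finset.sum_le_sum_of_subset_of_nonneg ?_ fun n _ _ => hg0 n
    intro n hn
    rw [Finset.mem_image] at hn
    obtain ⟨j, _, rfl⟩ := hn
    exact Finset.mem_range.2 (hkM j)
  have hs2 : ∑ j ∈ S, g (M - 1 - k j) ≤ ∑ n ∈ range M, g n := by
    have hinj2 : Set.InjOn (fun j => M - 1 - k j) S := by
      intro i hi j hj hij
      apply hinj hi hj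
      have e1 := hkM i
      have e2 := hkM j
      have hij' : M - 1 - k i = M - 1 - k j := hij
      omega
    rw [← Finset.sum_image (f := g) (g := fun j => M - 1 - k j) hinj2]
    refine Finset.sum_le_sum_of_subset_of_nonneg ?_ fun n _ _ => hg0 n
    intro n hn
    rw [Finset.mem_image] at hn
    obtain ⟨j, _, rfl⟩ := hn
    rw [Finset.mem_range]
    omega
  calc ∑ j ∈ S, ‖D H (β j)‖ ≤ ∑ j ∈ S, (g (k j) + g (M - 1 - k j)) := Finset.sum_le_sum hb
    _ = ∑ j ∈ S, g (k j) + ∑ j ∈ S, g (M - 1 - k j) := Finset.sum_add_distrib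
    _ ≤ 2 * H + M * (1 + Real.log M) := by linarith

/-- detection of the multiples of `p` -/
private theorem OmG_det (p m : ℕ) (hp : 1 ≤ p) :
    ((((if p ∣ m then (1 : ℝ) else 0) - 1 / p : ℝ)) : ℂ) = (1 / p : ℂ) * ∑ k ∈ Ico 1 p, ee (m * ((k : ℝ) / p)) := by
  have hp0 : (p : ℂ) ≠ 0 := by
    have : p ≠ 0 := by omega
    exact_mod_cast this
  have hpr : (0 : ℝ) < p := by exact_mod_cast hp
  have h1 : ∑ k ∈ range p, ee (m * ((k : ℝ) / p)) = if p ∣ m then (p : ℂ) else 0 := by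
    by_cases h : p ∣ m
    · rw [if_pos h]
      obtain ⟨q, rfl⟩ := h
      have h2 : ∀ k ∈ range p, ee (((p * q : ℕ) : ℝ) * ((k : ℝ) / p)) = 1 := by
        intro k _
        have h3 : ((p * q : ℕ) : ℝ) * ((k : ℝ) / p) = (((q * k : ℕ) : ℤ) : ℝ) := by
          push_cast
          field_simp
        rw [h3, Pool.Agent.H76.EHB.ee_int]
      rw [Finset.sum_congr rfl h2]
      simp
    · rw [if_neg h]
      have h2 : ∑ k ∈ range p, ee (m * ((k : ℝ) / p)) = D p ((m : ℝ) / p) := by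
        unfold Pool.Agent.H92.EH.D
        refine Finset.sum_congr rfl fun k _ => ?_
        rw [OmG_e]
        congr 1
        ring
      rw [h2]
      have h3 : D p ((m : ℝ) / p) * (Pool.Agent.H92.EH.e ((m : ℝ) / p) - 1) =
          Pool.Agent.H92.EH.e ((m : ℝ) / p) ^ p - 1 := by
        unfold Pool.Agent.H92.EH.D
        rw [← geom_sum_mul]
        congr 1
        refine sum_congr rfl fun m _ => ?_
        rw [Pool.Agent.H92.EH.e_nat_mul]
      have h4 : Pool.Agent.H92.EH.e ((m : ℝ) / p) ^ p = 1 := by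
        rw [← Pool.Agent.H92.EH.e_nat_mul]
        have : (p : ℝ) * ((m : ℝ) / p) = m := by field_simp
        rw [this, Pool.Agent.H92.EH.e_nat]
      rw [h4, sub_self] at h3
      rcases mul_eq_zero.1 h3 with h5 | h5
      · exact h5
      · exfalso
        have h6 : ∀ j : ℤ, 1 / (p : ℝ) ≤ |(m : ℝ) / p - j| := by
          intro j
          have h7 : (m : ℝ) / p - j = (((m : ℤ) - p * j : ℤ) : ℝ) / p := by
            push_cast
            field_simp
          rw [h7, abs_div, abs_of_pos hpr]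
          apply div_le_div_of_nonneg_right _ hpr.le
          have h8 : (m : ℤ) - p * j ≠ 0 := by
            intro h9
            apply h
            have h10 : (p : ℤ) ∣ m := ⟨j, by linarith⟩
            exact_mod_cast h10
          have h9 := Int.one_le_abs h8
          exact_mod_cast h9
        have h7 := Pool.Agent.H92.EH.le_norm_e_sub_one h6
        rw [h5, norm_zero] at h7
        have : (0 : ℝ) < 1 / p := by positivity
        linarith
  have h2 : ∑ k ∈ range p, ee (m * ((k : ℝ) / p)) = 1 + ∑ k ∈ Ico 1 p, ee (m * ((k : ℝ) / p)) := by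
    rw [Finset.range_eq_Ico, Finset.sum_eq_sum_Ico_succ_bot (by omega : 0 < p)]
    congr 1
    simp [Pool.Agent.H91.PK.ee]
  rw [h1] at h2
  have h3 : ∑ k ∈ Ico 1 p, ee (m * ((k : ℝ) / p)) = (if p ∣ m then (p : ℂ) else 0) - 1 := by
    rw [h2]
    ring
  rw [h3]
  by_cases h : p ∣ m
  · rw [if_pos h, if_pos h]
    push_cast
    field_simp
  · rw [if_neg h, if_neg h]
    push_cast
    ring

private theorem OmG_shift (a H : ℕ) (γ : ℝ) : ‖∑ m ∈ Ico a (a + H), ee (m * γ)‖ = ‖D H γ‖ := by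
  have h : ∑ m ∈ Ico a (a + H), ee (m * γ) = ee (a * γ) * D H γ := by
    rw [Finset.sum_Ico_eq_sum_range]
    have h1 : a + H - a = H := by omega
    rw [h1]
    unfold Pool.Agent.H92.EH.D
    rw [Finset.mul_sum]
    refine Finset.sum_congr rfl fun i _ => ?_
    rw [OmG_e, ← Pool.Agent.H91.PK.LSa_ee_add]
    congr 1
    push_cast
    ring
  rw [h, norm_mul, Pool.Agent.H91.PK.LSa_norm_ee, one_mul]

private theorem OmG_T (P H a : ℕ) (hP : 1 ≤ P) (β : ℝ) :
    ∑ p ∈ pb P, ‖∑ m ∈ Ico a (a + H), ((((if p ∣ m then (1 : ℝ) else 0) - 1 / p : ℝ)) : ℂ) * ee (m * β)‖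
      ≤ (2 * H + ((4 * P ^ 2 : ℕ) : ℝ) * (1 + Real.log ((4 * P ^ 2 : ℕ) : ℝ))) / P := by
  have hP0 : (0 : ℝ) < P := by
    have : 0 < P := by omega
    exact_mod_cast this
  have hpb : ∀ p ∈ pb P, p.Prime ∧ P < p ∧ p ≤ 2 * P := by
    intro p hp
    unfold pb at hp
    rw [Finset.mem_filter, Finset.mem_Ioc] at hp
    exact ⟨hp.2, hp.1⟩
  have h1 : ∀ p ∈ pb P, ‖∑ m ∈ Ico a (a + H), ((((if p ∣ m then (1 : ℝ) else 0) - 1 / p : ℝ)) : ℂ) * ee (m * β)‖ ≤
      1 / P * ∑ k ∈ Ico 1 p, ‖D H (β + (k : ℝ) / p)‖ := by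
    intro p hp
    obtain ⟨hp1, hp2, hp3⟩ := hpb p hp
    have hp0 : (0 : ℝ) < p := by
      have : 0 < p := hp1.pos
      exact_mod_cast this
    have e1 : ∑ m ∈ Ico a (a + H), ((((if p ∣ m then (1 : ℝ) else 0) - 1 / p : ℝ)) : ℂ) * ee (m * β) =
        (1 / p : ℂ) * ∑ k ∈ Ico 1 p, ∑ m ∈ Ico a (a + H), ee (m * (β + (k : ℝ) / p)) := by
      rw [Finset.sum_comm, Finset.mul_sum]
      refine Finset.sum_congr rfl fun m _ => ?_
      rw [OmG_det p m hp1.one_le, mul_assoc, Finset.sum_mul]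
      congr 1
      refine Finset.sum_congr rfl fun k _ => ?_
      rw [← Pool.Agent.H91.PK.LSa_ee_add]
      congr 1
      ring
    rw [e1, norm_mul]
    have e2 : ‖(1 / p : ℂ)‖ = 1 / p := by
      rw [norm_div, norm_one, Complex.norm_natCast]
    rw [e2]
    refine mul_le_mul (one_div_le_one_div_of_le hP0 (by exact_mod_cast hp2.le)) ?_ (norm_nonneg _) (by positivity)
    refine (norm_sum_le _ _).trans (Finset.sum_le_sum fun k _ => ?_)
    rw [OmG_shift]
  refine (Finset.sum_le_sum h1).trans ?_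
  rw [← Finset.mul_sum, ← Finset.sum_sigma (pb P) (fun p => Ico 1 p) (fun j => ‖D H (β + (j.2 : ℝ) / j.1)‖)]
  have h2 := OmG_pts ((pb P).sigma (fun p => Ico 1 p)) (fun j => β + (j.2 : ℝ) / j.1) (4 * P ^ 2) H
    (by positivity) ?_
  · rw [one_div_mul_eq_div]
    exact div_le_div_of_nonneg_right h2 hP0.le
  · rintro ⟨p, k⟩ hi ⟨p', k'⟩ hj hne m
    rw [Finset.mem_sigma, Finset.mem_Ico] at hi hj
    obtain ⟨hp, hk⟩ := hi
    obtain ⟨hp', hk'⟩ := hj
    simp only at hp hk hp' hk' ⊢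
    obtain ⟨q1, q2, q3⟩ := hpb p hp
    obtain ⟨q1', q2', q3'⟩ := hpb p' hp'
    have hc : k ∈ red p := by
      rw [Pool.Agent.H92.EH.mem_red]
      refine ⟨hk.2, Nat.Coprime.symm ((Nat.Prime.coprime_iff_not_dvd q1).2 fun hd => ?_)⟩
      exact absurd (Nat.le_of_dvd (by omega) hd) (by omega)
    have hc' : k' ∈ red p' := by
      rw [Pool.Agent.H92.EH.mem_red]
      refine ⟨hk'.2, Nat.Coprime.symm ((Nat.Prime.coprime_iff_not_dvd q1').2 fun hd => ?_)⟩
      exact absurd (Nat.le_of_dvd (by omega) hd) (by omega)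
    have hne' : ¬ (p = p' ∧ k = k') := by
      rintro ⟨rfl, rfl⟩
      exact hne rfl
    have h3 := Pool.Agent.H92.EH.farey_spacing q1.pos q1'.pos hc hc' hne' m
    have h4 : β + (k : ℝ) / p - (β + (k' : ℝ) / p') - m = (k : ℝ) / p - (k' : ℝ) / p' - m := by ring
    rw [h4]
    refine le_trans ?_ h3
    have q4 : (0 : ℝ) < p := by exact_mod_cast q1.pos
    have q5 : (0 : ℝ) < p' := by exact_mod_cast q1'.pos
    have q6 : (p : ℝ) ≤ 2 * P := by exact_mod_cast q3
    have q7 : (p' : ℝ) ≤ 2 * P := by exact_mod_cast q3'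
    apply one_div_le_one_div_of_le (by positivity)
    push_cast
    calc (p : ℝ) * p' ≤ (2 * P) * (2 * P) := mul_le_mul q6 q7 q5.le (by positivity)
      _ = 4 * (P : ℝ) ^ 2 := by ring

private theorem OmG_lam (R n : ℕ) (hn : 1 ≤ n) : |lamR R n| ≤ R := by
  have h3 : |lamR R n| = ‖((lamR R n : ℝ) : ℂ)‖ := by
    rw [Complex.norm_real]; rfl
  rw [h3, Pool.Agent.H76.EHB.lamR_eq R n hn]
  refine (norm_sum_le _ _).trans ?_
  calc ∑ c ∈ Icc 1 R, ‖((((ArithmeticFunction.moebius c : ℤ) : ℝ) / (c.totient : ℝ) : ℝ) : ℂ)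
          * ∑ b ∈ red c, ee (n * ((b : ℝ) / c))‖ ≤ ∑ _c ∈ Icc 1 R, (1 : ℝ) := by
        refine Finset.sum_le_sum fun c hc => ?_
        rw [Finset.mem_Icc] at hc
        have hφ : (0 : ℝ) < (c.totient : ℝ) := by
          have := Nat.totient_pos.2 (show 0 < c by omega)
          exact_mod_cast this
        have hμ : |((ArithmeticFunction.moebius c : ℤ) : ℝ)| ≤ 1 := by
          have := ArithmeticFunction.abs_moebius_le_one (n := c)
          exact_mod_cast this
        rw [norm_mul, Complex.norm_real, Real.norm_eq_abs, abs_div, abs_of_pos hφ]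
        have h4 : ‖∑ b ∈ red c, ee (n * ((b : ℝ) / c))‖ ≤ (c.totient : ℝ) := by
          refine (norm_sum_le _ _).trans ?_
          calc ∑ b ∈ red c, ‖ee (n * ((b : ℝ) / c))‖ = ∑ _b ∈ red c, (1 : ℝ) :=
                Finset.sum_congr rfl fun b _ => Pool.Agent.H91.PK.LSa_norm_ee _
            _ ≤ (c.totient : ℝ) := by
                rw [Finset.sum_const, nsmul_eq_mul, mul_one, Pool.Agent.H92.EH.card_red]
        calc |((ArithmeticFunction.moebius c : ℤ) : ℝ)| / (c.totient : ℝ) * _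
            ≤ 1 / (c.totient : ℝ) * (c.totient : ℝ) :=
              mul_le_mul (div_le_div_of_nonneg_right hμ hφ.le) h4 (norm_nonneg _) (by positivity)
          _ = 1 := by field_simp
    _ = R := by rw [Finset.sum_const, nsmul_eq_mul, mul_one, Nat.card_Icc, Nat.add_sub_cancel]

private theorem OmG_pb {P p : ℕ} (hp : p ∈ pb P) : p.Prime ∧ P < p ∧ p ≤ 2 * P := by
  unfold pb at hp
  rw [Finset.mem_filter, Finset.mem_Ioc] at hp
  exact ⟨hp.2, hp.1⟩

/-- the second part -/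
private theorem OmG_two (P R H i : ℕ) (α : ℝ) (K : ℝ) (d : ℕ → ℝ) (hP : 1 ≤ P) (hi : 1 ≤ i)
    (hH : 1 ≤ H) (hK : 0 ≤ K) (hd : ∀ p ∈ pb P, |d p| ≤ K) :
    ‖Bs (fun m => lamR R m * ∑ p ∈ pb P, d p * ((if p ∣ m then (1 : ℝ) else 0) - 1 / p)) H i α‖ ≤
      R * (K * ((2 * H + ((4 * P ^ 2 : ℕ) : ℝ) * (1 + Real.log ((4 * P ^ 2 : ℕ) : ℝ))) / P)) := by
  have hP0 : (0 : ℝ) < P := by exact_mod_cast hP
  set Y : ℝ := (2 * H + ((4 * P ^ 2 : ℕ) : ℝ) * (1 + Real.log ((4 * P ^ 2 : ℕ) : ℝ))) / P with hY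
  have h2 : Bs (fun m => lamR R m * ∑ p ∈ pb P, d p * ((if p ∣ m then (1 : ℝ) else 0) - 1 / p)) H i α =
      ∑ c ∈ Icc 1 R, ((((ArithmeticFunction.moebius c : ℤ) : ℝ) / (c.totient : ℝ) : ℝ) : ℂ) * ∑ b ∈ red c,
        ∑ p ∈ pb P, (d p : ℂ) * ∑ m ∈ Ico (i * H) (i * H + H),
          ((((if p ∣ m then (1 : ℝ) else 0) - 1 / p : ℝ)) : ℂ) * ee (m * ((b : ℝ) / c - α)) := by
    unfold Bs
    have e1 : (i + 1) * H = i * H + H := by ring
    rw [e1]
    have e2 : ∀ m ∈ Ico (i * H) (i * H + H),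
        ((lamR R m * ∑ p ∈ pb P, d p * ((if p ∣ m then (1 : ℝ) else 0) - 1 / p) : ℝ) : ℂ) * ee (-(m * α)) =
        ∑ c ∈ Icc 1 R, ((((ArithmeticFunction.moebius c : ℤ) : ℝ) / (c.totient : ℝ) : ℝ) : ℂ) * ∑ b ∈ red c,
          ∑ p ∈ pb P, (d p : ℂ) * (((((if p ∣ m then (1 : ℝ) else 0) - 1 / p : ℝ)) : ℂ) *
            ee (m * ((b : ℝ) / c - α))) := by
      intro m hm
      rw [Finset.mem_Ico] at hm
      have hm1 : 1 ≤ m := le_trans (Nat.mul_le_mul hi hH) hm.1
      rw [Complex.ofReal_mul, Pool.Agent.H76.EHB.lamR_eq R m hm1, Complex.ofReal_sum, Finset.sum_mul,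
        Finset.sum_mul]
      refine Finset.sum_congr rfl fun c _ => ?_
      rw [mul_assoc, mul_assoc]
      congr 1
      rw [Finset.sum_mul]
      refine Finset.sum_congr rfl fun b _ => ?_
      rw [Finset.sum_mul, Finset.mul_sum]
      refine Finset.sum_congr rfl fun p _ => ?_
      have e3 : ee (m * ((b : ℝ) / c - α)) = ee (m * ((b : ℝ) / c)) * ee (-(m * α)) := by
        rw [← Pool.Agent.H91.PK.LSa_ee_add]
        congr 1
        ring
      rw [e3, Complex.ofReal_mul]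
      ring
    rw [Finset.sum_congr rfl e2, Finset.sum_comm]
    refine Finset.sum_congr rfl fun c _ => ?_
    rw [← Finset.mul_sum, Finset.sum_comm]
    congr 1
    refine Finset.sum_congr rfl fun b _ => ?_
    rw [Finset.sum_comm]
    refine Finset.sum_congr rfl fun p _ => ?_
    rw [Finset.mul_sum]
  rw [h2]
  have h3 : ∀ c ∈ Icc 1 R, ‖((((ArithmeticFunction.moebius c : ℤ) : ℝ) / (c.totient : ℝ) : ℝ) : ℂ) * ∑ b ∈ red c,
        ∑ p ∈ pb P, (d p : ℂ) * ∑ m ∈ Ico (i * H) (i * H + H),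
          ((((if p ∣ m then (1 : ℝ) else 0) - 1 / p : ℝ)) : ℂ) * ee (m * ((b : ℝ) / c - α))‖ ≤ K * Y := by
    intro c hc
    rw [Finset.mem_Icc] at hc
    have hφ : (0 : ℝ) < (c.totient : ℝ) := by
      have := Nat.totient_pos.2 (show 0 < c by omega)
      exact_mod_cast this
    rw [norm_mul, Complex.norm_real, Real.norm_eq_abs, abs_div, abs_of_pos hφ]
    have hμ : |((ArithmeticFunction.moebius c : ℤ) : ℝ)| ≤ 1 := by
      have := ArithmeticFunction.abs_moebius_le_one (n := c)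
      exact_mod_cast this
    have h5 : ∀ b : ℕ, ‖∑ p ∈ pb P, (d p : ℂ) * ∑ m ∈ Ico (i * H) (i * H + H),
          ((((if p ∣ m then (1 : ℝ) else 0) - 1 / p : ℝ)) : ℂ) * ee (m * ((b : ℝ) / c - α))‖ ≤ K * Y := by
      intro b
      have hT := OmG_T P H (i * H) hP ((b : ℝ) / c - α)
      refine (norm_sum_le _ _).trans ?_
      refine le_trans (Finset.sum_le_sum fun p hp => ?_) (le_trans (le_of_eq (Finset.mul_sum _ _ K).symm)
        (mul_le_mul_of_nonneg_left hT hK))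
      rw [norm_mul, Complex.norm_real, Real.norm_eq_abs]
      exact mul_le_mul_of_nonneg_right (hd p hp) (norm_nonneg _)
    have h4 : ‖∑ b ∈ red c, ∑ p ∈ pb P, (d p : ℂ) * ∑ m ∈ Ico (i * H) (i * H + H),
          ((((if p ∣ m then (1 : ℝ) else 0) - 1 / p : ℝ)) : ℂ) * ee (m * ((b : ℝ) / c - α))‖ ≤
        (c.totient : ℝ) * (K * Y) := by
      refine (norm_sum_le _ _).trans ?_
      calc ∑ b ∈ red c, ‖∑ p ∈ pb P, (d p : ℂ) * ∑ m ∈ Ico (i * H) (i * H + H),
            ((((if p ∣ m then (1 : ℝ) else 0) - 1 / p : ℝ)) : ℂ) * ee (m * ((b : ℝ) / c - α))‖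
          ≤ ∑ _b ∈ red c, (K * Y) := Finset.sum_le_sum fun b _ => h5 b
        _ = (c.totient : ℝ) * (K * Y) := by
            rw [Finset.sum_const, nsmul_eq_mul, Pool.Agent.H92.EH.card_red]
    calc |((ArithmeticFunction.moebius c : ℤ) : ℝ)| / (c.totient : ℝ) * _
        ≤ 1 / (c.totient : ℝ) * ((c.totient : ℝ) * (K * Y)) := by
          refine mul_le_mul ?_ h4 (norm_nonneg _) (by positivity)
          exact div_le_div_of_nonneg_right hμ hφ.le
      _ = K * Y := by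
          field_simp
  calc ‖_‖ ≤ ∑ _c ∈ Icc 1 R, (K * Y) := (norm_sum_le _ _).trans (Finset.sum_le_sum h3)
    _ = R * (K * Y) := by
        rw [Finset.sum_const, nsmul_eq_mul, Nat.card_Icc, Nat.add_sub_cancel]

end OmGaux

private theorem OmG_asym (ε : ℝ) (hε : 0 < ε) (C : ℝ) (k : ℕ) :
    ∃ N0 : ℕ, ∀ N : ℕ, N0 ≤ N → C * Real.log N ^ k ≤ (N : ℝ) ^ ε := by
  have h1 := (isLittleO_log_rpow_rpow_atTop (k : ℝ) hε).const_mul_left C
  have h2 := h1.bound (show (0 : ℝ) < 1 by norm_num)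
  have h3 := tendsto_natCast_atTop_atTop (R := ℝ) |>.eventually h2
  obtain ⟨N0, hN0⟩ := Filter.eventually_atTop.1 h3
  refine ⟨N0, fun N hN => ?_⟩
  have h4 := hN0 N hN
  rw [one_mul, Real.rpow_natCast, Real.norm_eq_abs, Real.norm_eq_abs,
    abs_of_nonneg (Real.rpow_nonneg (Nat.cast_nonneg N) ε)] at h4
  exact (le_abs_self _).trans h4

/-- counting multiples -/
private theorem OmG_cnt (P H a : ℕ) (hP : 1 ≤ P) (hPH : P ≤ H) :
    ∑ m ∈ Ico a (a + H), ((((pb P).filter (fun p => p ∣ m)).card : ℕ) : ℝ) ≤ 3 * H := by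
  have hP0 : (0 : ℝ) < P := by exact_mod_cast hP
  have h1 : ∑ m ∈ Ico a (a + H), ((pb P).filter (fun p => p ∣ m)).card =
      ∑ p ∈ pb P, ((Ico a (a + H)).filter (fun m => p ∣ m)).card := by
    simp only [Finset.card_filter]
    exact Finset.sum_comm
  have h2 : ∀ p ∈ pb P, (((Ico a (a + H)).filter (fun m => p ∣ m)).card : ℝ) ≤ 3 * H / P := by
    intro p hp
    obtain ⟨hp1, hp2, hp3⟩ := OmG_pb hp
    have hp0 : 0 < p := hp1.pos
    have e1 : ((Ico a (a + H)).filter (fun m => p ∣ m)).card ≤ (Icc (a / p) ((a + H) / p)).card := by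
      refine Finset.card_le_card_of_injOn (fun m => m / p) ?_ ?_
      · intro m hm
        have hm' := Finset.mem_coe.1 hm
        rw [Finset.mem_filter, Finset.mem_Ico] at hm'
        refine Finset.mem_coe.2 (Finset.mem_Icc.2 ⟨?_, ?_⟩)
        · exact Nat.div_le_div_right hm'.1.1
        · exact Nat.div_le_div_right hm'.1.2.le
      · intro m hm m' hm' hmm
        have q1 := Finset.mem_coe.1 hm
        have q2 := Finset.mem_coe.1 hm'
        rw [Finset.mem_filter] at q1 q2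
        have hmm' : m / p = m' / p := hmm
        rw [← Nat.div_mul_cancel q1.2, ← Nat.div_mul_cancel q2.2, hmm']
    rw [Nat.card_Icc] at e1
    have e2 : (a + H) / p + 1 - a / p ≤ H / p + 2 := by
      have e3 : (a + H) / p ≤ a / p + H / p + 1 := by
        have q1 := Nat.lt_div_mul_add (a := a) hp0
        have q2 := Nat.lt_div_mul_add (a := H) hp0
        have q3 : (a / p + H / p + 2) * p = (a / p * p + p) + (H / p * p + p) := by ring
        have q4 : a + H < (a / p + H / p + 2) * p := by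
          rw [q3]
          omega
        have q5 := (Nat.div_lt_iff_lt_mul hp0).2 q4
        generalize (a + H) / p = x1 at q5 ⊢
        generalize a / p = x2 at q5 ⊢
        generalize H / p = x3 at q5 ⊢
        omega
      generalize (a + H) / p = x1 at e3 ⊢
      generalize a / p = x2 at e3 ⊢
      generalize H / p = x3 at e3 ⊢
      omega
    have e4 : (((Ico a (a + H)).filter (fun m => p ∣ m)).card : ℝ) ≤ ((H / p : ℕ) : ℝ) + 2 := by
      exact_mod_cast e1.trans e2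
    have e5 : ((H / p : ℕ) : ℝ) ≤ H / P := by
      refine (Nat.cast_div_le).trans ?_
      exact div_le_div_of_nonneg_left (by positivity) hP0 (by exact_mod_cast hp2.le)
    have e6 : (1 : ℝ) ≤ H / P := by
      rw [le_div_iff₀ hP0, one_mul]
      exact_mod_cast hPH
    have e7 : 3 * (H : ℝ) / P = 3 * (H / P) := by ring
    rw [e7]
    linarith
  have h3 : ((pb P).card : ℝ) ≤ P := by
    have : (pb P).card ≤ P := by
      unfold pb
      refine (Finset.card_filter_le _ _).trans ?_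
      rw [Nat.card_Ioc]
      omega
    exact_mod_cast this
  calc ∑ m ∈ Ico a (a + H), ((((pb P).filter (fun p => p ∣ m)).card : ℕ) : ℝ)
      = ((∑ m ∈ Ico a (a + H), ((pb P).filter (fun p => p ∣ m)).card : ℕ) : ℝ) := by push_cast; rfl
    _ = ∑ p ∈ pb P, (((Ico a (a + H)).filter (fun m => p ∣ m)).card : ℝ) := by
        rw [h1]; push_cast; rfl
    _ ≤ ∑ _p ∈ pb P, 3 * (H : ℝ) / P := Finset.sum_le_sum h2
    _ = (pb P).card * (3 * (H : ℝ) / P) := by rw [Finset.sum_const, nsmul_eq_mul]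
    _ ≤ P * (3 * (H : ℝ) / P) := mul_le_mul_of_nonneg_right h3 (by positivity)
    _ = 3 * H := by field_simp

/-- the first part -/
private theorem OmG_one (P R H i : ℕ) (α η : ℝ) (v : ℕ → ℕ → ℝ) (hP : 1 ≤ P) (hPH : P ≤ H)
    (hη : 0 ≤ η)
    (hv : ∀ m ∈ Ico (i * H) ((i + 1) * H), ∀ p ∈ pb P, p ∣ m → |v p m| ≤ η) :
    ‖Bs (fun m => ∑ p ∈ (pb P).filter (fun p => p ∣ m), v p m) H i α‖ ≤ η * (3 * H) := by
  unfold Bs
  refine (norm_sum_le _ _).trans ?_
  have e1 : (i + 1) * H = i * H + H := by ring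
  have h1 : ∀ m ∈ Ico (i * H) ((i + 1) * H),
      ‖((∑ p ∈ (pb P).filter (fun p => p ∣ m), v p m : ℝ) : ℂ) * ee (-(m * α))‖ ≤
        η * ((((pb P).filter (fun p => p ∣ m)).card : ℕ) : ℝ) := by
    intro m hm
    rw [norm_mul, Pool.Agent.H91.PK.LSa_norm_ee, mul_one, Complex.norm_real, Real.norm_eq_abs]
    refine (Finset.abs_sum_le_sum_abs _ _).trans ?_
    calc ∑ p ∈ (pb P).filter (fun p => p ∣ m), |v p m|
        ≤ ∑ _p ∈ (pb P).filter (fun p => p ∣ m), η := by
          refine Finset.sum_le_sum fun p hp => ?_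
          rw [Finset.mem_filter] at hp
          exact hv m hm p hp.1 hp.2
      _ = η * ((((pb P).filter (fun p => p ∣ m)).card : ℕ) : ℝ) := by
          rw [Finset.sum_const, nsmul_eq_mul, mul_comm]
  refine (Finset.sum_le_sum h1).trans ?_
  rw [← Finset.mul_sum, e1]
  exact mul_le_mul_of_nonneg_left (OmG_cnt P H (i * H) hP hPH) hη

theorem om_g (e1 e b0 : ℝ) (he1 : 0 < e1) (he : 0 < e) (hb : b0 < 2 / 3) (A B : ℕ) :
    ∃ N0 : ℕ, ∀ N : ℕ, N0 ≤ N → ∀ (D : ℕ → ℝ) (R P H i : ℕ) (α : ℝ), 1 ≤ R → (R : ℝ) ≤ Real.log N ^ B →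
      (N : ℝ) ^ e1 ≤ 2 * P → (P : ℝ) * (N : ℝ) ^ e ≤ H → H ^ 3 ≤ N → i ∈ Icc (N / (2 * H)) (4 * N / H) →
      (∀ x : ℕ, (N : ℝ) ^ (1 / 2 : ℝ) ≤ x → x ≤ 5 * N → |D x| ≤ Real.log N ^ 2) →
      (∀ x x' : ℕ, (N : ℝ) ^ (1 / 2 : ℝ) ≤ x → x ≤ x' → x' ≤ 5 * N →
        |D x' - D x| ≤ Real.log N ^ 2 * (((x' : ℝ) - x) + (N : ℝ) ^ b0) / x) →
      ‖Bs (fun m => ∑ p ∈ (pb P).filter (fun p => p ∣ m), D (m / p) * lamR R (m / p)
        - (∑ p ∈ pb P, D (i * H / p) / p) * lamR R m) H i α‖ ≤ H / Real.log N ^ A := by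
  obtain ⟨N1, hN1⟩ := OmG_asym e1 he1 3 B
  obtain ⟨N2, hN2⟩ := OmG_asym e he 300 (A + B + 3)
  obtain ⟨N3, hN3⟩ := OmG_asym e1 he1 16 (A + B + 2)
  obtain ⟨N4, hN4⟩ := OmG_asym (1 / 6) (by norm_num) 16 0
  refine ⟨max (max N1 N2) (max (max N3 N4) 1000), fun N hN D R P H i α hR1 hRB hP1 hPH hHN hi hD1 hD2 => ?_⟩
  have hNN1 : N1 ≤ N := le_trans (le_trans (le_max_left _ _) (le_max_left _ _)) hN
  have hNN2 : N2 ≤ N := le_trans (le_trans (le_max_right _ _) (le_max_left _ _)) hN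
  have hNN3 : N3 ≤ N := le_trans (le_trans (le_trans (le_max_left _ _) (le_max_left _ _)) (le_max_right _ _)) hN
  have hNN4 : N4 ≤ N := le_trans (le_trans (le_trans (le_max_right _ _) (le_max_left _ _)) (le_max_right _ _)) hN
  have hN1000 : 1000 ≤ N := le_trans (le_trans (le_max_right _ _) (le_max_right _ _)) hN
  have q1 := hN1 N hNN1
  have q2 := hN2 N hNN2
  have q3 := hN3 N hNN3
  have q4 := hN4 N hNN4
  clear hN1 hN2 hN3 hN4
  have hNr : (1000 : ℝ) ≤ N := by exact_mod_cast hN1000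
  have hN0 : (0 : ℝ) < N := by linarith
  have hN1' : (1 : ℝ) ≤ N := by linarith
  set L := Real.log N with hL
  have hL1 : 1 ≤ L := by
    rw [hL, Real.le_log_iff_exp_le hN0]
    have := Real.exp_one_lt_d9
    linarith
  have hL0 : 0 < L := by linarith
  have hne1 : (0 : ℝ) < (N : ℝ) ^ e1 := Real.rpow_pos_of_pos hN0 _
  have hne : (0 : ℝ) < (N : ℝ) ^ e := Real.rpow_pos_of_pos hN0 _
  -- sizes
  have hP0 : (0 : ℝ) < P := by linarith
  have hPnat : 1 ≤ P := by
    have : 0 < P := by exact_mod_cast hP0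
    omega
  have hne_one : (1 : ℝ) ≤ (N : ℝ) ^ e := Real.one_le_rpow hN1' he.le
  have hPHr : (P : ℝ) ≤ H := by
    refine le_trans ?_ hPH
    nlinarith
  have hPHn : P ≤ H := by exact_mod_cast hPHr
  have hH1 : 1 ≤ H := hPnat.trans hPHn
  have hH0 : (0 : ℝ) < H := by exact_mod_cast hH1
  have hH3 : (H : ℝ) ^ 3 ≤ N := by exact_mod_cast hHN
  have hHr : (H : ℝ) ≤ (N : ℝ) ^ (1 / 3 : ℝ) := by
    have h1 : (H : ℝ) = ((H : ℝ) ^ 3) ^ (1 / 3 : ℝ) := by
      rw [← Real.rpow_natCast, ← Real.rpow_mul hH0.le]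
      norm_num
    rw [h1]
    exact Real.rpow_le_rpow (by positivity) hH3 (by norm_num)
  set c13 := (N : ℝ) ^ (1 / 3 : ℝ) with hc13
  have hc0 : 0 < c13 := Real.rpow_pos_of_pos hN0 _
  have hc1 : 1 ≤ c13 := Real.one_le_rpow hN1' (by norm_num)
  have hc3 : c13 * c13 * c13 = N := by
    rw [hc13, ← Real.rpow_add hN0, ← Real.rpow_add hN0]
    norm_num
  have hc6 : (N : ℝ) ^ (1 / 2 : ℝ) * (N : ℝ) ^ (1 / 6 : ℝ) = c13 * c13 := by
    rw [hc13, ← Real.rpow_add hN0, ← Real.rpow_add hN0]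
    norm_num
  have hhalf : 16 * (N : ℝ) ^ (1 / 2 : ℝ) ≤ c13 * c13 := by
    rw [pow_zero, mul_one] at q4
    rw [← hc6]
    have h0 : 0 < (N : ℝ) ^ (1 / 2 : ℝ) := Real.rpow_pos_of_pos hN0 _
    nlinarith
  have hhalf1 : 1 ≤ (N : ℝ) ^ (1 / 2 : ℝ) := Real.one_le_rpow hN1' (by norm_num)
  have hPe : (P : ℝ) * (N : ℝ) ^ e ≤ c13 := hPH.trans hHr
  have hRP : R < P := by
    have h1 : (R : ℝ) < P := by
      have h2 : 0 < L ^ B := by positivity
      linarith
    exact_mod_cast h1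
  -- the block
  rw [Finset.mem_Icc] at hi
  have hHc : 4 * H ≤ N := by
    have h1 : (10 : ℝ) ≤ c13 := by
      by_contra hcon
      push Not at hcon
      have h2 : c13 * c13 * c13 < 10 * 10 * 10 := by
        have := mul_lt_mul'' hcon hcon hc0.le hc0.le
        exact mul_lt_mul'' this hcon (by positivity) hc0.le
      linarith
    have h2 : 4 * (H : ℝ) ≤ N := by nlinarith
    exact_mod_cast h2
  have hb1 : N ≤ 4 * (i * H) := by
    have h1 : N < (N / (2 * H) + 1) * (2 * H) := Nat.lt_mul_of_div_lt (Nat.lt_succ_self _) (by omega)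
    have h2 : (N / (2 * H) + 1) * (2 * H) ≤ (i + 1) * (2 * H) := Nat.mul_le_mul_right _ (by omega)
    have h3 : (i + 1) * (2 * H) = 2 * (i * H) + 2 * H := by ring
    omega
  have hb2 : (i + 1) * H ≤ 5 * N := by
    have h1 : i * H ≤ 4 * N := le_trans (Nat.mul_le_mul_right _ hi.2) (Nat.div_mul_le_self _ _)
    have h2 : (i + 1) * H = i * H + H := by ring
    omega
  have hi1 : 1 ≤ i := by
    rcases Nat.eq_zero_or_pos i with h0 | h0
    · subst h0
      omega
    · exact h0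
  have hb1r : (N : ℝ) ≤ 4 * ((i * H : ℕ) : ℝ) := by exact_mod_cast hb1
  -- the quotients
  have hquo : ∀ m : ℕ, i * H ≤ m → m ≤ (i + 1) * H → ∀ p ∈ pb P,
      (N : ℝ) ^ (1 / 2 : ℝ) ≤ ((m / p : ℕ) : ℝ) ∧ m / p ≤ 5 * N ∧ (N : ℝ) / (16 * P) ≤ ((m / p : ℕ) : ℝ) := by
    intro m hm1 hm2 p hp
    obtain ⟨hp1, hp2, hp3⟩ := OmG_pb hp
    have hp0 : (0 : ℝ) < p := by exact_mod_cast hp1.pos
    have hp3r : (p : ℝ) ≤ 2 * P := by exact_mod_cast hp3
    have h1 : (m : ℝ) / p - 1 ≤ ((m / p : ℕ) : ℝ) := by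
      have h2 : (m : ℝ) < (((m / p : ℕ) : ℝ) + 1) * p := by
        have := Nat.lt_mul_of_div_lt (Nat.lt_succ_self (m / p)) hp1.pos
        exact_mod_cast this
      have h3 : (m : ℝ) / p < ((m / p : ℕ) : ℝ) + 1 := by
        rw [div_lt_iff₀ hp0]; exact h2
      linarith
    have hmr : (N : ℝ) / 4 ≤ m := by
      have : ((i * H : ℕ) : ℝ) ≤ m := by exact_mod_cast hm1
      linarith
    have h2 : (N : ℝ) / (8 * P) ≤ (m : ℝ) / p := by
      rw [div_le_div_iff₀ (by positivity) hp0]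
      calc (N : ℝ) * p ≤ N * (2 * P) := mul_le_mul_of_nonneg_left hp3r hN0.le
        _ = (N / 4) * (8 * P) := by ring
        _ ≤ m * (8 * P) := mul_le_mul_of_nonneg_right hmr (by positivity)
    have hPc : (P : ℝ) ≤ c13 := hPHr.trans hHr
    have h3 : c13 * c13 / 8 ≤ (N : ℝ) / (8 * P) := by
      rw [div_le_div_iff₀ (by norm_num) (by positivity)]
      calc c13 * c13 * (8 * P) ≤ c13 * c13 * (8 * c13) := by
            refine mul_le_mul_of_nonneg_left ?_ (by positivity)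
            linarith
        _ = N * 8 := by rw [← hc3]; ring
    refine ⟨?_, ?_, ?_⟩
    · linarith
    · exact (Nat.div_le_self _ _).trans (hm2.trans hb2)
    · have h4 : (N : ℝ) / (16 * P) = (N / (8 * P)) / 2 := by
        field_simp
        norm_num
      rw [h4]
      linarith
  have hiH : i * H ≤ (i + 1) * H := Nat.mul_le_mul_right _ (by omega)
  -- the decomposition
  have hdec : Bs (fun m => ∑ p ∈ (pb P).filter (fun p => p ∣ m), D (m / p) * lamR R (m / p)
        - (∑ p ∈ pb P, D (i * H / p) / p) * lamR R m) H i α =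
      Bs (fun m => ∑ p ∈ (pb P).filter (fun p => p ∣ m), (D (m / p) - D (i * H / p)) * lamR R (m / p)) H i α +
      Bs (fun m => lamR R m * ∑ p ∈ pb P, D (i * H / p) * ((if p ∣ m then (1 : ℝ) else 0) - 1 / p)) H i α := by
    unfold Bs
    rw [← Finset.sum_add_distrib]
    refine Finset.sum_congr rfl fun m _ => ?_
    rw [← add_mul, ← Complex.ofReal_add]
    congr 2
    beta_reduce
    have e1 : ∑ p ∈ pb P, D (i * H / p) * ((if p ∣ m then (1 : ℝ) else 0) - 1 / p) =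
        ∑ p ∈ (pb P).filter (fun p => p ∣ m), D (i * H / p) - ∑ p ∈ pb P, D (i * H / p) / p := by
      rw [Finset.sum_filter, ← Finset.sum_sub_distrib]
      refine Finset.sum_congr rfl fun p _ => ?_
      split_ifs <;> ring
    have e2 : ∑ p ∈ (pb P).filter (fun p => p ∣ m), (D (m / p) - D (i * H / p)) * lamR R (m / p) =
        ∑ p ∈ (pb P).filter (fun p => p ∣ m), D (m / p) * lamR R (m / p) -
          lamR R m * ∑ p ∈ (pb P).filter (fun p => p ∣ m), D (i * H / p) := by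
      rw [Finset.mul_sum, ← Finset.sum_sub_distrib]
      refine Finset.sum_congr rfl fun p hp => ?_
      rw [Finset.mem_filter] at hp
      obtain ⟨hp1, hp2, hp3⟩ := OmG_pb hp.1
      have e3 : lamR R m = lamR R (m / p) := by
        obtain ⟨q, rfl⟩ := hp.2
        rw [Nat.mul_div_cancel_left _ hp1.pos, Pool.Agent.H76.SP.lamR_mul R p q hp1 (by omega)]
      rw [e3]
      ring
    rw [e1, e2]
    ring
  rw [hdec]
  -- first part
  have hrp : (0 : ℝ) ≤ R := Nat.cast_nonneg R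
  have hη : ∀ m ∈ Ico (i * H) ((i + 1) * H), ∀ p ∈ pb P, p ∣ m →
      |(D (m / p) - D (i * H / p)) * lamR R (m / p)| ≤ 48 * L ^ 2 / (N : ℝ) ^ e * L ^ B := by
    intro m hm p hp _
    rw [Finset.mem_Ico] at hm
    obtain ⟨hp1, hp2, hp3⟩ := OmG_pb hp
    have hp0 : (0 : ℝ) < p := by exact_mod_cast hp1.pos
    have hp1r : (1 : ℝ) ≤ p := by exact_mod_cast hp1.one_le
    obtain ⟨a1, a2, a3⟩ := hquo m hm.1 hm.2.le p hp
    obtain ⟨b1, b2, b3⟩ := hquo (i * H) le_rfl hiH p hp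
    have h1 := hD2 (i * H / p) (m / p) b1 (Nat.div_le_div_right hm.1) a2
    have hx0 : (0 : ℝ) < ((i * H / p : ℕ) : ℝ) := by linarith
    have h2 : ((m / p : ℕ) : ℝ) - ((i * H / p : ℕ) : ℝ) ≤ H + 1 := by
      have h3 : ((m / p : ℕ) : ℝ) ≤ (m : ℝ) / p := Nat.cast_div_le
      have h4 : ((i * H : ℕ) : ℝ) / p < ((i * H / p : ℕ) : ℝ) + 1 := by
        rw [div_lt_iff₀ hp0]
        have := Nat.lt_mul_of_div_lt (Nat.lt_succ_self (i * H / p)) hp1.pos
        exact_mod_cast this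
      have h5 : (m : ℝ) / p - ((i * H : ℕ) : ℝ) / p ≤ H := by
        rw [← sub_div, div_le_iff₀ hp0]
        have h6 : (m : ℝ) ≤ ((i * H : ℕ) : ℝ) + H := by
          have h7 : m ≤ i * H + H := by
            have h8 := hm.2
            have h9 : (i + 1) * H = i * H + H := by ring
            omega
          exact_mod_cast h7
        nlinarith
      linarith
    have h3 : |D (m / p) - D (i * H / p)| ≤ 48 * L ^ 2 / (N : ℝ) ^ e := by
      refine h1.trans ?_
      rw [div_le_div_iff₀ hx0 hne]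
      have hb0 : (N : ℝ) ^ b0 ≤ c13 * c13 := by
        have : c13 * c13 = (N : ℝ) ^ (2 / 3 : ℝ) := by
          rw [hc13, ← Real.rpow_add hN0]
          norm_num
        rw [this]
        exact Real.rpow_le_rpow_of_exponent_le hN1' hb.le
      have h4 : (((m / p : ℕ) : ℝ) - ((i * H / p : ℕ) : ℝ)) + (N : ℝ) ^ b0 ≤ 3 * (c13 * c13) := by
        have h5 : c13 ≤ c13 * c13 := by nlinarith
        linarith
      have h6 : (N : ℝ) ≤ 16 * P * ((i * H / p : ℕ) : ℝ) := by
        rw [div_le_iff₀ (by positivity)] at b3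
        linarith
      have h7 : c13 * c13 * (N : ℝ) ^ e ≤ 16 * ((i * H / p : ℕ) : ℝ) := by
        have h8 : c13 * c13 * ((P : ℝ) * (N : ℝ) ^ e) ≤ c13 * c13 * c13 :=
          mul_le_mul_of_nonneg_left hPe (by positivity)
        rw [hc3] at h8
        have h9 : P * (c13 * c13 * (N : ℝ) ^ e) ≤ P * (16 * ((i * H / p : ℕ) : ℝ)) := by
          calc P * (c13 * c13 * (N : ℝ) ^ e) = c13 * c13 * ((P : ℝ) * (N : ℝ) ^ e) := by ring
            _ ≤ N := h8
            _ ≤ 16 * P * ((i * H / p : ℕ) : ℝ) := h6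
            _ = P * (16 * ((i * H / p : ℕ) : ℝ)) := by ring
        exact le_of_mul_le_mul_left h9 hP0
      calc L ^ 2 * ((((m / p : ℕ) : ℝ) - ((i * H / p : ℕ) : ℝ)) + (N : ℝ) ^ b0) * (N : ℝ) ^ e
          ≤ L ^ 2 * (3 * (c13 * c13)) * (N : ℝ) ^ e := by
            refine mul_le_mul_of_nonneg_right (mul_le_mul_of_nonneg_left h4 (by positivity)) hne.le
        _ = 3 * L ^ 2 * (c13 * c13 * (N : ℝ) ^ e) := by ring
        _ ≤ 3 * L ^ 2 * (16 * ((i * H / p : ℕ) : ℝ)) := mul_le_mul_of_nonneg_left h7 (by positivity)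
        _ = 48 * L ^ 2 * ((i * H / p : ℕ) : ℝ) := by ring
    have h4 : |lamR R (m / p)| ≤ L ^ B := by
      refine (OmG_lam R (m / p) ?_).trans hRB
      have h5 : (1 : ℝ) ≤ ((m / p : ℕ) : ℝ) := by linarith
      exact_mod_cast h5
    rw [abs_mul]
    exact mul_le_mul h3 h4 (abs_nonneg _) (by positivity)
  have hp1 := OmG_one P R H i α (48 * L ^ 2 / (N : ℝ) ^ e * L ^ B)
    (fun p m => (D (m / p) - D (i * H / p)) * lamR R (m / p)) hPnat hPHn (by positivity) hη
  have hp1' : 48 * L ^ 2 / (N : ℝ) ^ e * L ^ B * (3 * H) ≤ H / L ^ A / 2 := by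
    rw [div_div, div_mul_eq_mul_div, div_mul_eq_mul_div, div_le_div_iff₀ hne (by positivity)]
    have h1 : 300 * L ^ (A + B + 2) ≤ (N : ℝ) ^ e := by
      refine le_trans ?_ q2
      refine mul_le_mul_of_nonneg_left ?_ (by norm_num)
      exact pow_le_pow_right₀ hL1 (by omega)
    calc 48 * L ^ 2 * L ^ B * (3 * H) * (L ^ A * 2) = H * (288 * L ^ (A + B + 2)) := by
          rw [pow_add, pow_add]; ring
      _ ≤ H * (300 * L ^ (A + B + 2)) := by
          refine mul_le_mul_of_nonneg_left ?_ hH0.le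
          refine mul_le_mul_of_nonneg_right (by norm_num) (by positivity)
      _ ≤ H * (N : ℝ) ^ e := mul_le_mul_of_nonneg_left h1 hH0.le
  -- second part
  have hp2 := OmG_two P R H i α (L ^ 2) (fun p => D (i * H / p)) hPnat hi1 hH1 (by positivity)
    (fun p hp => by
      obtain ⟨b1, b2, b3⟩ := hquo (i * H) le_rfl hiH p hp
      exact hD1 (i * H / p) b1 b2)
  have hp2' : R * (L ^ 2 * ((2 * H + ((4 * P ^ 2 : ℕ) : ℝ) * (1 + Real.log ((4 * P ^ 2 : ℕ) : ℝ))) / P)) ≤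
      H / L ^ A / 2 := by
    have hPc : (P : ℝ) ≤ c13 := hPHr.trans hHr
    have hc10 : (4 : ℝ) ≤ c13 := by
      by_contra hcon
      push Not at hcon
      have h2 : c13 * c13 * c13 < 4 * 4 * 4 := by
        have := mul_lt_mul'' hcon hcon hc0.le hc0.le
        exact mul_lt_mul'' this hcon (by positivity) hc0.le
      linarith
    have hlog : Real.log ((4 * P ^ 2 : ℕ) : ℝ) ≤ L := by
      rw [hL]
      refine Real.log_le_log (by positivity) ?_
      push_cast
      calc 4 * (P : ℝ) ^ 2 ≤ c13 * (c13 * c13) := by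
            have h1 : (P : ℝ) ^ 2 ≤ c13 * c13 := by
              rw [pow_two]
              exact mul_le_mul hPc hPc hP0.le hc0.le
            exact mul_le_mul hc10 h1 (by positivity) hc0.le
        _ = N := by rw [← hc3]; ring
    have h1 : (2 * H + ((4 * P ^ 2 : ℕ) : ℝ) * (1 + Real.log ((4 * P ^ 2 : ℕ) : ℝ))) / P ≤
        4 * H / (N : ℝ) ^ e1 + 8 * L * H / (N : ℝ) ^ e := by
      have h2 : ((4 * P ^ 2 : ℕ) : ℝ) * (1 + Real.log ((4 * P ^ 2 : ℕ) : ℝ)) ≤ 4 * (P : ℝ) ^ 2 * (2 * L) := by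
        push_cast
        push_cast at hlog
        exact mul_le_mul_of_nonneg_left (by linarith) (by positivity)
      have h3 : (2 * (H : ℝ)) / P ≤ 4 * H / (N : ℝ) ^ e1 := by
        rw [div_le_div_iff₀ hP0 hne1]
        nlinarith
      have h4 : (4 * (P : ℝ) ^ 2 * (2 * L)) / P ≤ 8 * L * H / (N : ℝ) ^ e := by
        rw [div_le_div_iff₀ hP0 hne]
        calc 4 * (P : ℝ) ^ 2 * (2 * L) * (N : ℝ) ^ e = 8 * L * P * (P * (N : ℝ) ^ e) := by ring
          _ ≤ 8 * L * P * H := mul_le_mul_of_nonneg_left hPH (by positivity)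
          _ = 8 * L * H * P := by ring
      calc (2 * H + ((4 * P ^ 2 : ℕ) : ℝ) * (1 + Real.log ((4 * P ^ 2 : ℕ) : ℝ))) / P
          ≤ (2 * H + 4 * (P : ℝ) ^ 2 * (2 * L)) / P :=
            div_le_div_of_nonneg_right (by linarith) hP0.le
        _ = (2 * (H : ℝ)) / P + (4 * (P : ℝ) ^ 2 * (2 * L)) / P := add_div _ _ _
        _ ≤ _ := add_le_add h3 h4
    have h2 : R * (L ^ 2 * ((2 * H + ((4 * P ^ 2 : ℕ) : ℝ) * (1 + Real.log ((4 * P ^ 2 : ℕ) : ℝ))) / P)) ≤
        L ^ B * (L ^ 2 * (4 * H / (N : ℝ) ^ e1 + 8 * L * H / (N : ℝ) ^ e)) := by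
      refine mul_le_mul hRB (mul_le_mul_of_nonneg_left h1 (by positivity)) ?_ (by positivity)
      have h3 : 0 ≤ Real.log ((4 * P ^ 2 : ℕ) : ℝ) := Real.log_natCast_nonneg _
      positivity
    refine h2.trans ?_
    have h3 : L ^ B * (L ^ 2 * (4 * H / (N : ℝ) ^ e1 + 8 * L * H / (N : ℝ) ^ e)) =
        H / L ^ A / 2 * (8 * L ^ (A + B + 2) / (N : ℝ) ^ e1 + 16 * L ^ (A + B + 3) / (N : ℝ) ^ e) := by
      rw [pow_add, pow_add, pow_add, pow_add]
      field_simp
      ring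
    rw [h3]
    have h4 : 8 * L ^ (A + B + 2) / (N : ℝ) ^ e1 ≤ 1 / 2 := by
      rw [div_le_div_iff₀ hne1 (by norm_num)]
      linarith
    have h5 : 16 * L ^ (A + B + 3) / (N : ℝ) ^ e ≤ 1 / 2 := by
      rw [div_le_div_iff₀ hne (by norm_num)]
      have : 0 < L ^ (A + B + 3) := by positivity
      linarith
    calc H / L ^ A / 2 * (8 * L ^ (A + B + 2) / (N : ℝ) ^ e1 + 16 * L ^ (A + B + 3) / (N : ℝ) ^ e)
        ≤ H / L ^ A / 2 * 1 := mul_le_mul_of_nonneg_left (by linarith) (by positivity)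
      _ = H / L ^ A / 2 := mul_one _
  calc ‖_‖ ≤ _ := norm_add_le _ _
    _ ≤ H / L ^ A / 2 + H / L ^ A / 2 := add_le_add (hp1.trans hp1') (hp2.trans hp2')
    _ = H / L ^ A := by ring

end Pool.Agent.H91.TQ
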