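import Pool.Agent.H91.TQ.SwQ
import Pool.Agent.H91.TQ.OmG
import Pool.Agent.H53.TPS.Lfu2

/-!
# TQ LfuBq: the type II part of the majorant (compare `H76/TP/LfuA.lean`)

`H = ⌊N^θ⌋`, `P_j = 2^j y`, `j < J`, `P_j ≤ z ≤ N^ζ`, `J ≤ 2L`, `R = ⌊L^B⌋`, `f = bq - kq lamR R`.  `Fp bq P m = Fp f P m + ∑_{p ∈ pb P, p ∣ m} kq(m/p) lamR R (m/p)`, so
`∑_j (Fp bq P_j m - WQ P_j (iH) lamR R m) = ∑_j Fp f P_j m + ∑_j (∑_{p ∣ m} kq(m/p) lamR R (m/p) - WQ P_j (iH) lamR R m)`.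
* `Fp f P_j`: `lfu2 hVK (e1/2) ((θ-ζ)/2) (A+3)` gives `C', m, k`; `N^(e1/2) ≤ y ≤ P_j`, `P_j N^((θ-ζ)/2) ≤ H`, `H² ≤ N`; `SqB`: `sq_q` (`R^4 + 2 ≤ ⌊N^((θ-ζ)/4)⌋`; `SqB` is monotone in `w0`); `SWf`: `swf_g (5/8) (3/5) B C' m k`
  (`B ≥ C' + 1`, `P N^(5/8) ≤ N/32`) with `den_q`.  The union of the `J` bad sets: `≤ 2L (N/H)/L^(A+3)`.
* the rest: `om_g e1 ((θ-ζ)/2) (3/5) (A+3) B` with `D = kq` (`lip_q`; `H³ ≤ N` as `θ < 1/3`; `WQ P x = ∑_{p ∈ pb P} kq(x/p)/p`).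
Total `≤ 2 · 2L · H/L^(A+3) ≤ H/L^A`.
-/

set_option autoImplicit false

namespace Pool.Agent.H91.TQ

open Finset
open Pool.Agent.H91.PK (ee)
open Pool.Agent.H91.EHA (Lam hR lamR ramS)
open Pool.Agent.H35.W (pb)
open Pool.Agent.H53.MID (Fp Bs badB VKp)
open Pool.Agent.H76.TP

open Classical in
private theorem LfuBq_mem (g : ℕ → ℝ) (N H : ℕ) (M : ℝ) (i : ℕ) : i ∈ badB g N H M ↔
    i ∈ Icc (N / (2 * H)) (4 * N / H) ∧ ∃ α : ℝ, M < ‖Bs g H i α‖ := by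
  unfold badB
  rw [Finset.mem_filter]

/-- splitting of the block sums -/
private theorem LfuBq_lin (b D : ℕ → ℝ) (W : ℕ → ℝ) (y J R H i : ℕ) (α : ℝ) :
    Bs (fun m => ∑ j ∈ range J, Fp b (2 ^ j * y) m - (∑ j ∈ range J, W (2 ^ j * y)) * lamR R m) H i α =
      ∑ j ∈ range J, (Bs (Fp (fun n => b n - D n * lamR R n) (2 ^ j * y)) H i α +
        Bs (fun m => ∑ p ∈ (pb (2 ^ j * y)).filter (fun p => p ∣ m), D (m / p) * lamR R (m / p)
          - W (2 ^ j * y) * lamR R m) H i α) := by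
  unfold Bs
  have h1 : ∀ j ∈ range J, (∑ m ∈ Ico (i * H) ((i + 1) * H),
      ((Fp (fun n => b n - D n * lamR R n) (2 ^ j * y) m : ℝ) : ℂ) * ee (-(m * α)) +
        ∑ m ∈ Ico (i * H) ((i + 1) * H),
          ((∑ p ∈ (pb (2 ^ j * y)).filter (fun p => p ∣ m), D (m / p) * lamR R (m / p)
            - W (2 ^ j * y) * lamR R m : ℝ) : ℂ) * ee (-(m * α))) =
      ∑ m ∈ Ico (i * H) ((i + 1) * H),
        ((Fp b (2 ^ j * y) m - W (2 ^ j * y) * lamR R m : ℝ) : ℂ) * ee (-(m * α)) := by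
    intro j _
    rw [← Finset.sum_add_distrib]
    apply Finset.sum_congr rfl
    intro m _
    rw [← add_mul, ← Complex.ofReal_add]
    congr 2
    unfold Fp
    rw [← sub_add_cancel (∑ p ∈ (pb (2 ^ j * y)).filter (fun p => p ∣ m), b (m / p))
      (∑ p ∈ (pb (2 ^ j * y)).filter (fun p => p ∣ m), D (m / p) * lamR R (m / p)),
      ← Finset.sum_sub_distrib]
    ring
  rw [Finset.sum_congr rfl h1, Finset.sum_comm]
  apply Finset.sum_congr rfl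
  intro m _
  rw [← Finset.sum_mul]
  congr 1
  push_cast
  rw [Finset.sum_sub_distrib, Finset.sum_mul]

/-- powers beat constants -/
private theorem LfuBq_pow {s : ℝ} (hs : 0 < s) (C : ℝ) : ∀ᶠ N : ℕ in Filter.atTop, C ≤ (N : ℝ) ^ s :=
  ((tendsto_rpow_atTop hs).comp tendsto_natCast_atTop_atTop).eventually_ge_atTop C

private theorem LfuBq_log : Filter.Tendsto (fun N : ℕ => Real.log N) Filter.atTop Filter.atTop :=
  Real.tendsto_log_atTop.comp tendsto_natCast_atTop_atTop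

/-- powers beat powers of logarithms -/
private theorem LfuBq_logpow {s : ℝ} (hs : 0 < s) (E : ℕ) :
    ∀ᶠ N : ℕ in Filter.atTop, 10 * Real.log N ^ E ≤ (N : ℝ) ^ s := by
  have h1 := isLittleO_log_rpow_rpow_atTop (s := s) (E : ℝ) hs
  have h2 := (h1.comp_tendsto tendsto_natCast_atTop_atTop).def (c := 1 / 10) (by positivity)
  filter_upwards [h2, LfuBq_log.eventually_ge_atTop 1] with N hN hN1
  simp only [Function.comp_apply] at hN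
  rw [Real.rpow_natCast, Real.norm_eq_abs, Real.norm_eq_abs, abs_of_nonneg (by positivity),
    abs_of_nonneg (by positivity), one_div_mul_eq_div, le_div_iff₀ (by positivity)] at hN
  linarith

/-- a smaller power plus one is below a larger power -/
private theorem LfuBq_gap {s t : ℝ} (hs : 0 < s) (hst : s < t) :
    ∀ᶠ N : ℕ in Filter.atTop, (N : ℝ) ^ s + 1 ≤ (N : ℝ) ^ t := by
  filter_upwards [LfuBq_pow (sub_pos.2 hst) 2, LfuBq_pow hs 1, Filter.eventually_ge_atTop 1] with N h1 h2 h3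
  have hN : (0 : ℝ) < N := by exact_mod_cast h3
  have h4 : (N : ℝ) ^ t = (N : ℝ) ^ s * (N : ℝ) ^ (t - s) := by
    rw [← Real.rpow_add hN]
    congr 1
    ring
  rw [h4]
  nlinarith

open Classical in
theorem lfu_bq (hVK : VKp) (θ e1 ζ' ζ κ' κ : ℝ) (hP : Par e1 ζ' ζ κ' κ) (hζ : ζ < θ) (hθ : θ < 1 / 3) (A : ℕ) :
    ∃ B0 : ℕ, ∀ B : ℕ, B0 ≤ B → ∃ N0 : ℕ, ∀ N : ℕ, N0 ≤ N → ∀ J J1 : ℕ, Lev ζ' ζ κ' κ N (yN e1 N) J J1 →
      (((Icc (N / (2 * ⌊(N : ℝ) ^ θ⌋₊)) (4 * N / ⌊(N : ℝ) ^ θ⌋₊)).filter (fun i => ∃ α : ℝ,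
        (⌊(N : ℝ) ^ θ⌋₊ : ℝ) / Real.log N ^ A <
          ‖Bs (fun m => ∑ j ∈ range J, Fp (bq (yN e1 N) J J1) (2 ^ j * yN e1 N) m
            - (∑ j ∈ range J, WQ (yN e1 N) J J1 (2 ^ j * yN e1 N) (i * ⌊(N : ℝ) ^ θ⌋₊)) * lamR ⌊Real.log N ^ B⌋₊ m)
            ⌊(N : ℝ) ^ θ⌋₊ i α‖)).card : ℝ) ≤
        (N : ℝ) / ⌊(N : ℝ) ^ θ⌋₊ / Real.log N ^ A := by
  have hPar := hP
  obtain ⟨he1, he1', hζ'1, hζ'ζ, hζ27, hκ'1, hκκ, hκ2⟩ := hP
  have he2 : 0 < (θ - ζ) / 2 := by linarith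
  obtain ⟨C', m, k, N1, hN1⟩ := Pool.Agent.H53.TPS.lfu2 hVK (e1 / 2) ((θ - ζ) / 2) (by linarith) he2 (A + 3)
  refine ⟨C' + 1, fun B hB => ?_⟩
  obtain ⟨A1, K1, N2, hN2⟩ := swf_g (5 / 8) (3 / 5) (by norm_num) (by norm_num) B C' m k hB
  obtain ⟨N3, hN3⟩ := den_q e1 ζ' ζ κ' κ hPar A1 B K1
  obtain ⟨N4, hN4⟩ := sq_q e1 ζ' ζ κ' κ hPar B
  obtain ⟨N5, hN5⟩ := lip_q e1 ζ' ζ κ' κ hPar
  obtain ⟨N6, hN6⟩ := om_g e1 ((θ - ζ) / 2) (3 / 5) he1 he2 (by norm_num) (A + 3) B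
  have he8 : 0 < (θ - ζ) / 2 / 2 := by linarith
  obtain ⟨N7, hN7⟩ := Filter.eventually_atTop.1 ((LfuBq_log.eventually_ge_atTop 4).and
    ((LfuBq_gap (half_pos he1) (half_lt_self he1)).and
    ((LfuBq_pow he1 2).and
    ((LfuBq_gap (show 0 < (ζ + θ) / 2 by linarith) (show (ζ + θ) / 2 < θ by linarith)).and
    ((LfuBq_logpow he8 (4 * B)).and
    ((LfuBq_pow (show 0 < 1 - (ζ + 5 / 8) by linarith) 32).and
    ((Filter.eventually_ge_atTop 2)))))))) 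
  refine ⟨max (max (max N1 N2) (max N3 N4)) (max (max N5 N6) N7), fun N hN J J1 hLev => ?_⟩
  have hNN1 : N1 ≤ N := by omega
  have hNN2 : N2 ≤ N := by omega
  have hNN3 : N3 ≤ N := by omega
  have hNN4 : N4 ≤ N := by omega
  have hNN5 : N5 ≤ N := by omega
  have hNN6 : N6 ≤ N := by omega
  have hNN7 : N7 ≤ N := by omega
  obtain ⟨hL4, hgy, hy2, hgH, hlogB, h32, hN2'⟩ := hN7 N hNN7
  have hLev' := hLev
  obtain ⟨hJJ, hz1, hz2, hz3, hz4⟩ := hLev'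
  set L : ℝ := Real.log N with hL
  set H : ℕ := ⌊(N : ℝ) ^ θ⌋₊ with hH
  set R : ℕ := ⌊L ^ B⌋₊ with hR
  set y : ℕ := yN e1 N with hy
  have hL0 : 0 < L := by linarith
  have hL1 : 1 ≤ L := by linarith
  have hNr : (2 : ℝ) ≤ N := by exact_mod_cast hN2'
  have hN1r : (1 : ℝ) ≤ N := by linarith
  have hN0r : (0 : ℝ) < N := by linarith
  have hRle : (R : ℝ) ≤ L ^ B := Nat.floor_le (by positivity)
  have hR1 : 1 ≤ R := by
    rw [hR]
    exact (Nat.one_le_floor_iff _).2 (one_le_pow₀ hL1)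
  have hylow : (N : ℝ) ^ e1 < y + 1 := by
    rw [hy]
    exact Nat.lt_floor_add_one _
  have hy1 : (N : ℝ) ^ (e1 / 2) ≤ y := by linarith
  have hy2' : (N : ℝ) ^ e1 ≤ 2 * y := by linarith
  have hypos : 1 ≤ y := by
    have h1 : (1 : ℝ) ≤ y := by linarith
    exact_mod_cast h1
  have hHlow : (N : ℝ) ^ θ < H + 1 := Nat.lt_floor_add_one _
  have hHup : (H : ℝ) ≤ (N : ℝ) ^ θ := Nat.floor_le (by positivity)
  have hHmid : (N : ℝ) ^ ((ζ + θ) / 2) ≤ H := by linarith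
  have hH1 : (1 : ℝ) ≤ H := le_trans (Real.one_le_rpow hN1r (by linarith)) hHmid
  have hH0 : (0 : ℝ) < H := by linarith
  have hHpos : 0 < H := by exact_mod_cast hH0
  have hH3 : H ^ 3 ≤ N := by
    have h1 : (H : ℝ) ^ 3 ≤ ((N : ℝ) ^ θ) ^ 3 := pow_le_pow_left₀ hH0.le hHup 3
    have h2 : ((N : ℝ) ^ θ) ^ 3 = (N : ℝ) ^ (θ * 3) := by
      rw [← Real.rpow_natCast, ← Real.rpow_mul hN0r.le]
      norm_num
    have h3 : (N : ℝ) ^ (θ * 3) ≤ (N : ℝ) ^ (1 : ℝ) := Real.rpow_le_rpow_of_exponent_le hN1r (by linarith)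
    rw [Real.rpow_one] at h3
    have h4 : (H : ℝ) ^ 3 ≤ N := by linarith
    exact_mod_cast h4
  have hH2 : H ^ 2 ≤ N := (Nat.pow_le_pow_right hHpos (by norm_num)).trans hH3
  -- dyadic levels
  have hPj : ∀ j ∈ range J, y ≤ 2 ^ j * y ∧ ((2 ^ j * y : ℕ) : ℝ) ≤ (N : ℝ) ^ ζ := by
    intro j hj
    refine ⟨Nat.le_mul_of_pos_left y (by positivity), ?_⟩
    refine le_trans ?_ hz2
    unfold zz
    exact_mod_cast Nat.mul_le_mul_right y (Nat.pow_le_pow_right (by norm_num) (Finset.mem_range.1 hj).le)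
  have hJ2 : (J : ℝ) ≤ 2 * L := by
    have h1 : ((2 ^ J * y : ℕ) : ℝ) ≤ (N : ℝ) ^ ζ := hz2
    have h2 : (2 : ℝ) ^ J ≤ ((2 ^ J * y : ℕ) : ℝ) := by
      have h3 : 2 ^ J ≤ 2 ^ J * y := Nat.le_mul_of_pos_right _ hypos
      exact_mod_cast h3
    have h3 : (N : ℝ) ^ ζ ≤ (N : ℝ) ^ (1 : ℝ) := Real.rpow_le_rpow_of_exponent_le hN1r (by linarith)
    rw [Real.rpow_one] at h3
    have h4 : (2 : ℝ) ^ J ≤ N := by linarith
    have h5 : Real.log ((2 : ℝ) ^ J) ≤ Real.log N := Real.log_le_log (by positivity) h4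
    rw [Real.log_pow] at h5
    have h6 := Real.log_two_gt_d9
    have h7 : (0 : ℝ) ≤ J := Nat.cast_nonneg J
    rw [hL]
    nlinarith
  have hPH : ∀ j ∈ range J, ((2 ^ j * y : ℕ) : ℝ) * (N : ℝ) ^ ((θ - ζ) / 2) ≤ H := by
    intro j hj
    have h1 := (hPj j hj).2
    have h2 : ((2 ^ j * y : ℕ) : ℝ) * (N : ℝ) ^ ((θ - ζ) / 2) ≤ (N : ℝ) ^ ζ * (N : ℝ) ^ ((θ - ζ) / 2) :=
      mul_le_mul_of_nonneg_right h1 (by positivity)
    rw [← Real.rpow_add hN0r, show ζ + (θ - ζ) / 2 = (ζ + θ) / 2 by ring] at h2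
    linarith
  set f : ℕ → ℝ := fun n => bq y J J1 n - kq y J J1 n * lamR R n with hf
  have hSq : Pool.Agent.H53.MID.SqB f ⌊(N : ℝ) ^ ((θ - ζ) / 2 / 2)⌋₊ (N ^ 4) L := by
    have h1 := hN4 N hNN4 J J1 R hLev hR1 hRle
    have h2 : R ^ 4 + 2 ≤ ⌊(N : ℝ) ^ ((θ - ζ) / 2 / 2)⌋₊ := by
      apply Nat.le_floor
      have h3 : (R : ℝ) ^ 4 ≤ L ^ (4 * B) := by
        calc (R : ℝ) ^ 4 ≤ (L ^ B) ^ 4 := pow_le_pow_left₀ (Nat.cast_nonneg R) hRle 4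
          _ = L ^ (4 * B) := by rw [← pow_mul, mul_comm B 4]
      have h4 : 1 ≤ L ^ (4 * B) := one_le_pow₀ hL1
      push_cast
      linarith
    intro u w hw huw
    exact h1 u w (h2.trans hw) huw
  have hden := hN3 N hNN3 J J1 hLev
  obtain ⟨hlip1, hlip2⟩ := hN5 N hNN5 J J1 hLev
  -- first part: few bad blocks
  have hbad : ∀ j ∈ range J, ((badB (Fp f (2 ^ j * y)) N H (H / L ^ (A + 3))).card : ℝ) ≤
      (N / H : ℝ) / L ^ (A + 3) := by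
    intro j hj
    obtain ⟨h1, h2⟩ := hPj j hj
    have h1r : (y : ℝ) ≤ ((2 ^ j * y : ℕ) : ℝ) := by exact_mod_cast h1
    refine hN1 N hNN1 H (2 ^ j * y) f (hy1.trans h1r) (hPH j hj) hH2 hSq ?_
    refine hN2 N hNN2 (bq y J J1) (kq y J J1) (2 ^ j * y) hden (hypos.trans h1) ?_
    have h3 : ((2 ^ j * y : ℕ) : ℝ) * (N : ℝ) ^ (5 / 8 : ℝ) ≤ (N : ℝ) ^ ζ * (N : ℝ) ^ (5 / 8 : ℝ) :=
      mul_le_mul_of_nonneg_right h2 (by positivity)
    rw [← Real.rpow_add hN0r] at h3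
    have h4 : (N : ℝ) ^ (ζ + 5 / 8) * (N : ℝ) ^ (1 - (ζ + 5 / 8)) = N := by
      rw [← Real.rpow_add hN0r, show ζ + 5 / 8 + (1 - (ζ + 5 / 8)) = 1 by ring, Real.rpow_one]
    have h5 : 0 < (N : ℝ) ^ (ζ + 5 / 8) := by positivity
    rw [le_div_iff₀ (by norm_num)]
    nlinarith
  -- second part: small on every block
  have hsmall : ∀ j ∈ range J, ∀ i ∈ Icc (N / (2 * H)) (4 * N / H), ∀ α : ℝ,
      ‖Bs (fun m => ∑ p ∈ (pb (2 ^ j * y)).filter (fun p => p ∣ m), kq y J J1 (m / p) * lamR R (m / p)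
        - WQ y J J1 (2 ^ j * y) (i * H) * lamR R m) H i α‖ ≤ H / L ^ (A + 3) := by
    intro j hj i hi α
    obtain ⟨h1, h2⟩ := hPj j hj
    have h1r : (y : ℝ) ≤ ((2 ^ j * y : ℕ) : ℝ) := by exact_mod_cast h1
    refine hN6 N hNN6 (kq y J J1) R (2 ^ j * y) H i α hR1 hRle (by linarith) (hPH j hj) hH3 hi
      (fun x _ _ => hlip1 x) (fun x x' hx hxx _ => hlip2 x x' ?_ hxx)
    have h3 : (1 : ℝ) ≤ (N : ℝ) ^ (1 / 2 : ℝ) := Real.one_le_rpow hN1r (by norm_num)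
    have h4 : (1 : ℝ) ≤ x := h3.trans hx
    exact_mod_cast h4
  -- the inclusion
  have hsub : ((Icc (N / (2 * H)) (4 * N / H)).filter (fun i => ∃ α : ℝ, (H : ℝ) / L ^ A <
      ‖Bs (fun m => ∑ j ∈ range J, Fp (bq y J J1) (2 ^ j * y) m
        - (∑ j ∈ range J, WQ y J J1 (2 ^ j * y) (i * H)) * lamR R m) H i α‖)) ⊆
      (range J).biUnion (fun j => badB (Fp f (2 ^ j * y)) N H (H / L ^ (A + 3))) := by
    intro i hi
    rw [Finset.mem_filter] at hi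
    obtain ⟨hi1, α, hα⟩ := hi
    by_contra hcon
    rw [Finset.mem_biUnion] at hcon
    have h1 : ∀ j ∈ range J, ‖Bs (Fp f (2 ^ j * y)) H i α‖ ≤ H / L ^ (A + 3) := by
      intro j hj
      by_contra h2
      exact hcon ⟨j, hj, (LfuBq_mem _ _ _ _ _).2 ⟨hi1, α, not_le.1 h2⟩⟩
    rw [LfuBq_lin (bq y J J1) (kq y J J1) (fun P => WQ y J J1 P (i * H)) y J R H i α] at hα
    have h3 : ‖∑ j ∈ range J, (Bs (Fp (fun n => bq y J J1 n - kq y J J1 n * lamR R n) (2 ^ j * y)) H i α +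
        Bs (fun m => ∑ p ∈ (pb (2 ^ j * y)).filter (fun p => p ∣ m), kq y J J1 (m / p) * lamR R (m / p)
          - WQ y J J1 (2 ^ j * y) (i * H) * lamR R m) H i α)‖ ≤
          ∑ j ∈ range J, ((H : ℝ) / L ^ (A + 3) + H / L ^ (A + 3)) := by
      refine (norm_sum_le _ _).trans (Finset.sum_le_sum fun j hj => ?_)
      exact (norm_add_le _ _).trans (add_le_add (h1 j hj) (hsmall j hj i hi1 α))
    rw [Finset.sum_const, Finset.card_range, nsmul_eq_mul] at h3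
    have h4 : (J : ℝ) * ((H : ℝ) / L ^ (A + 3) + H / L ^ (A + 3)) ≤ H / L ^ A := by
      have h5 : (J : ℝ) * ((H : ℝ) / L ^ (A + 3) + H / L ^ (A + 3)) ≤
          2 * L * ((H : ℝ) / L ^ (A + 3) + H / L ^ (A + 3)) :=
        mul_le_mul_of_nonneg_right hJ2 (by positivity)
      refine h5.trans ?_
      have h6 : 2 * L * ((H : ℝ) / L ^ (A + 3) + H / L ^ (A + 3)) = H / L ^ A * (4 / L ^ 2) := by
        rw [pow_add]
        field_simp
        ring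
      rw [h6]
      have h7 : 4 / L ^ 2 ≤ 1 := by
        rw [div_le_one (by positivity)]
        nlinarith
      calc (H : ℝ) / L ^ A * (4 / L ^ 2) ≤ H / L ^ A * 1 :=
            mul_le_mul_of_nonneg_left h7 (by positivity)
        _ = H / L ^ A := mul_one _
    linarith
  have hcard : (((Icc (N / (2 * H)) (4 * N / H)).filter (fun i => ∃ α : ℝ, (H : ℝ) / L ^ A <
      ‖Bs (fun m => ∑ j ∈ range J, Fp (bq y J J1) (2 ^ j * y) m
        - (∑ j ∈ range J, WQ y J J1 (2 ^ j * y) (i * H)) * lamR R m) H i α‖)).card : ℝ) ≤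
      ∑ j ∈ range J, ((badB (Fp f (2 ^ j * y)) N H (H / L ^ (A + 3))).card : ℝ) := by
    have h1 := (Finset.card_le_card hsub).trans Finset.card_biUnion_le
    exact_mod_cast h1
  refine hcard.trans ((Finset.sum_le_sum hbad).trans ?_)
  rw [Finset.sum_const, Finset.card_range, nsmul_eq_mul]
  have h2 : (J : ℝ) * ((N / H : ℝ) / L ^ (A + 3)) ≤ 2 * L * ((N / H : ℝ) / L ^ (A + 3)) :=
    mul_le_mul_of_nonneg_right hJ2 (by positivity)
  refine h2.trans ?_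
  have h3 : 2 * L * ((N / H : ℝ) / L ^ (A + 3)) = (N / H : ℝ) / L ^ A * (2 / L ^ 2) := by
    rw [pow_add]
    field_simp
  rw [h3]
  have h7 : 2 / L ^ 2 ≤ 1 := by
    rw [div_le_one (by positivity)]
    nlinarith
  calc (N / H : ℝ) / L ^ A * (2 / L ^ 2) ≤ (N / H : ℝ) / L ^ A * 1 :=
        mul_le_mul_of_nonneg_left h7 (by positivity)
    _ = (N : ℝ) / H / L ^ A := mul_one _

end Pool.Agent.H91.TQ
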