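import Pool.Agent.H91.TQ.LfuOm
import Pool.Agent.H91.TQ.LfuBq
import Pool.Agent.H91.TQ.SqpB
import Pool.Agent.H76.GB.Defs

/-!
# TQ LfuQ: local Fourier uniformity of `Fq - kapF lamR`

For `m ≥ 1`, `x = iH`: `Fq m - kapF x lamR R m = (S m - kS lamR R m) - ((om m/2) T m - (kT W1/2) lamR R m) - (∑_j Fp bq P_j m - (∑_j WQ P_j x) lamR R m) + sqp m`
(definitions of `Fq`, `kapF`).  `lfu_om`, `lfu_bq`, `sqp_blk` with exponent `A + 2`; hypothesis for `S`: exponent `A + 2`, for `T`: exponent `A + 4`.  Bad set `≤ 3 (N/H)/L^(A+2)`, error `≤ 4 H/L^(A+2)`.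
-/

set_option autoImplicit false

namespace Pool.Agent.H91.TQ

open Finset
open Pool.Agent.H91.PK (ee)
open Pool.Agent.H91.EHA (Lam hR lamR ramS)
open Pool.Agent.H35.W (pb)
open Pool.Agent.H53.MID (Fp Bs badB VKp)
open Pool.Agent.H76.TP

open Classical in
/-- the bad blocks of the majorant -/
noncomputable def badQ (S T : ℕ → ℝ) (kS kT : ℝ) (y J J1 R N H A : ℕ) : Finset ℕ :=
  (Icc (N / (2 * H)) (4 * N / H)).filter (fun i => ∃ α : ℝ, (H : ℝ) / Real.log N ^ A <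
    ‖Bs (fun m => Fq S T y J J1 m - kapF kS kT y J J1 (i * H) * lamR R m) H i α‖)

private theorem LfuQ_Bs_add (f g : ℕ → ℝ) (H i : ℕ) (α : ℝ) :
    Bs (fun m => f m + g m) H i α = Bs f H i α + Bs g H i α := by
  unfold Bs
  rw [← sum_add_distrib]
  refine sum_congr rfl fun m _ => ?_
  push_cast
  ring

private theorem LfuQ_Bs_sub (f g : ℕ → ℝ) (H i : ℕ) (α : ℝ) :
    Bs (fun m => f m - g m) H i α = Bs f H i α - Bs g H i α := by
  unfold Bs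
  rw [← sum_sub_distrib]
  refine sum_congr rfl fun m _ => ?_
  push_cast
  ring

private theorem LfuQ_split (S T : ℕ → ℝ) (kS kT : ℝ) (y J J1 R H i : ℕ) (α : ℝ) :
    Bs (fun m => Fq S T y J J1 m - kapF kS kT y J J1 (i * H) * lamR R m) H i α =
      Bs (fun m => S m - kS * lamR R m) H i α
        - Bs (fun m => (om y J J1 m : ℝ) / 2 * T m - kT * W1 y J J1 / 2 * lamR R m) H i α
        - Bs (fun m => ∑ j ∈ range J, Fp (bq y J J1) (2 ^ j * y) m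
            - (∑ j ∈ range J, WQ y J J1 (2 ^ j * y) (i * H)) * lamR R m) H i α
        + Bs (fun m => sqp y J m) H i α := by
  rw [← LfuQ_Bs_sub, ← LfuQ_Bs_sub, ← LfuQ_Bs_add]
  congr 1
  funext m
  unfold Fq kapF
  ring

private theorem LfuQ_sqp (y J H i : ℕ) (α : ℝ) :
    ‖Bs (fun m => sqp y J m) H i α‖ ≤ ∑ m ∈ Ico (i * H) ((i + 1) * H), sqp y J m := by
  unfold Bs
  refine (norm_sum_le _ _).trans (sum_le_sum fun m _ => ?_)
  have h0 : 0 ≤ sqp y J m := by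
    unfold sqp
    exact Nat.cast_nonneg _
  rw [norm_mul]
  have h1 : ‖ee (-((m : ℝ) * α))‖ = 1 := by
    exact Pool.Agent.H91.PK.LSa_norm_ee _
  rw [h1, mul_one, Complex.norm_real, Real.norm_eq_abs, abs_of_nonneg h0]

/-- facts for large `N` -/
private theorem LfuQ_large (θ e1 : ℝ) (he1 : 0 < e1) (hθ : θ < 1 / 3) (hθ0 : 1 / 5 < θ) :
    ∃ N0 : ℕ, ∀ N : ℕ, N0 ≤ N → 12 ≤ Real.log N ∧ 1 ≤ N ∧ 1 ≤ yN e1 N ∧
      1 ≤ ⌊(N : ℝ) ^ θ⌋₊ ∧ 2 * ⌊(N : ℝ) ^ θ⌋₊ ≤ N := by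
  obtain ⟨x1, hx1⟩ := Pool.Agent.H76.GB.log_ge 12
  obtain ⟨x2, hx2⟩ := Pool.Agent.H76.GB.log_pow_le (1 - θ) 2 (by linarith) (by norm_num) 0
  refine ⟨x1 + x2 + 1, fun N hN => ?_⟩
  have g1 := hx1 N (by omega)
  have g2 := hx2 N (by omega)
  rw [pow_zero, mul_one] at g2
  have hN0 : 0 < N := by omega
  have hNpos : (0 : ℝ) < N := by exact_mod_cast hN0
  have hN1 : (1 : ℝ) ≤ N := by exact_mod_cast hN0
  refine ⟨g1, hN0, ?_, ?_, ?_⟩
  · unfold yN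
    exact (Nat.one_le_floor_iff _).2 (Real.one_le_rpow hN1 he1.le)
  · exact (Nat.one_le_floor_iff _).2 (Real.one_le_rpow hN1 (by linarith))
  · have h6 : (N : ℝ) = (N : ℝ) ^ (1 - θ) * (N : ℝ) ^ θ := by
      rw [← Real.rpow_add hNpos, sub_add_cancel, Real.rpow_one]
    have hHle : ((⌊(N : ℝ) ^ θ⌋₊ : ℕ) : ℝ) ≤ (N : ℝ) ^ θ := Nat.floor_le (by positivity)
    have h8 : 2 * ((⌊(N : ℝ) ^ θ⌋₊ : ℕ) : ℝ) ≤ N := by
      have h9 : 2 * (N : ℝ) ^ θ ≤ (N : ℝ) ^ (1 - θ) * (N : ℝ) ^ θ :=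
        mul_le_mul_of_nonneg_right g2 (by positivity)
      linarith
    exact_mod_cast h8

theorem lfu_q (hVK : VKp) (θ e1 ζ' ζ κ' κ e4 : ℝ) (hP : Par e1 ζ' ζ κ' κ) (hζ : ζ < θ) (hθ : θ < 1 / 3)
    (hTI : TIP θ κ e4) (A : ℕ) :
    ∃ B0 : ℕ, ∀ B : ℕ, B0 ≤ B → ∃ N0 : ℕ, ∀ N : ℕ, N0 ≤ N → ∀ (J J1 Q : ℕ) (S g T : ℕ → ℝ) (kS kT : ℝ),
      Lev ζ' ζ κ' κ N (yN e1 N) J J1 → Adm Q g T → (Q : ℝ) ≤ (N : ℝ) ^ e4 →
      (∀ (i : ℕ) (α : ℝ), 1 ≤ i → ‖Bs (fun m => S m - kS * lamR ⌊Real.log N ^ B⌋₊ m) ⌊(N : ℝ) ^ θ⌋₊ i α‖ ≤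
        ⌊(N : ℝ) ^ θ⌋₊ / Real.log N ^ (A + 2)) →
      (∀ (i : ℕ) (α : ℝ), 1 ≤ i → ‖Bs (fun m => T m - kT * lamR ⌊Real.log N ^ B⌋₊ m) ⌊(N : ℝ) ^ θ⌋₊ i α‖ ≤
        ⌊(N : ℝ) ^ θ⌋₊ / Real.log N ^ (A + 4)) →
      ((badQ S T kS kT (yN e1 N) J J1 ⌊Real.log N ^ B⌋₊ N ⌊(N : ℝ) ^ θ⌋₊ A).card : ℝ) ≤
        (N : ℝ) / ⌊(N : ℝ) ^ θ⌋₊ / Real.log N ^ A := by
  classical
  obtain ⟨hp1, hp2, hp3, hp4, hp5, hp6, hp7, hp8⟩ := hP
  obtain ⟨N1, hN1⟩ := lfu_om θ κ e4 (by linarith) (by linarith) (by linarith) hTI (A + 2)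
  obtain ⟨B1, hB1⟩ := lfu_bq hVK θ e1 ζ' ζ κ' κ ⟨hp1, hp2, hp3, hp4, hp5, hp6, hp7, hp8⟩ hζ hθ (A + 2)
  obtain ⟨N3, hN3⟩ := sqp_blk e1 θ hp1 (by linarith) (by linarith) (A + 2)
  obtain ⟨N4, hN4⟩ := LfuQ_large θ e1 hp1 hθ (by linarith)
  refine ⟨B1, fun B hB => ?_⟩
  obtain ⟨N2, hN2⟩ := hB1 B hB
  refine ⟨N1 + N2 + N3 + N4, fun N hN J J1 Q S g T kS kT hLev hAdm hQ hS hT => ?_⟩
  obtain ⟨g1, g2, g3, g4, g5⟩ := hN4 N (by omega)
  have m1 := hN1 N (by omega)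
  have m2 := hN2 N (by omega) J J1 hLev
  have m3 := hN3 N (by omega) J
  obtain ⟨l1, l2, l3, l4, l5⟩ := hLev
  have hN1r : (1 : ℝ) ≤ N := by exact_mod_cast g2
  have hz : (N : ℝ) ^ (1 / 5 : ℝ) ≤ zz (yN e1 N) J :=
    (Real.rpow_le_rpow_of_exponent_le hN1r hp3.le).trans l2
  have m1' := m1 (yN e1 N) J J1 Q ⌊Real.log N ^ B⌋₊ g T kT g3 l1 hz l5 hAdm hQ hT
  clear m1 hN1 hN2 hN3 hN4 hB1
  generalize hL : Real.log N = L at *
  generalize hH : ⌊(N : ℝ) ^ θ⌋₊ = H at *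
  generalize hR : ⌊L ^ B⌋₊ = R at *
  generalize hy : yN e1 N = y at *
  have hL0 : 0 < L := by linarith
  have hH0 : (0 : ℝ) < H := by exact_mod_cast g4
  have hsub : badQ S T kS kT y J J1 R N H A ⊆
      ((Icc (N / (2 * H)) (4 * N / H)).filter (fun i => ∃ α : ℝ, (H : ℝ) / L ^ (A + 2) <
          ‖Bs (fun m => (om y J J1 m : ℝ) / 2 * T m - kT * W1 y J J1 / 2 * lamR R m) H i α‖)) ∪
      ((Icc (N / (2 * H)) (4 * N / H)).filter (fun i => ∃ α : ℝ, (H : ℝ) / L ^ (A + 2) <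
          ‖Bs (fun m => ∑ j ∈ range J, Fp (bq y J J1) (2 ^ j * y) m
            - (∑ j ∈ range J, WQ y J J1 (2 ^ j * y) (i * H)) * lamR R m) H i α‖)) ∪
      ((Icc (N / (2 * H)) (4 * N / H)).filter (fun i => (H : ℝ) / L ^ (A + 2) <
          ∑ m ∈ Ico (i * H) ((i + 1) * H), sqp y J m)) := by
    intro i hi
    unfold badQ at hi
    rw [mem_filter, hL] at hi
    obtain ⟨hi1, α, hα⟩ := hi
    by_contra hcon
    rw [mem_union, mem_union, mem_filter, mem_filter, mem_filter] at hcon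
    push Not at hcon
    obtain ⟨⟨c1, c2⟩, c3⟩ := hcon
    have d1 := c1 hi1 α
    have d2 := c2 hi1 α
    have d3 := c3 hi1
    have hi0 : 1 ≤ i := by
      rw [mem_Icc] at hi1
      have h1 : 1 ≤ N / (2 * H) := by
        rw [Nat.le_div_iff_mul_le (by omega)]
        omega
      omega
    have d4 := hS i α hi0
    have d5 := LfuQ_sqp y J H i α
    rw [LfuQ_split] at hα
    have h1 := norm_add_le
      (Bs (fun m => S m - kS * lamR R m) H i α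
        - Bs (fun m => (om y J J1 m : ℝ) / 2 * T m - kT * W1 y J J1 / 2 * lamR R m) H i α
        - Bs (fun m => ∑ j ∈ range J, Fp (bq y J J1) (2 ^ j * y) m
            - (∑ j ∈ range J, WQ y J J1 (2 ^ j * y) (i * H)) * lamR R m) H i α)
      (Bs (fun m => sqp y J m) H i α)
    have h2 := norm_sub_le
      (Bs (fun m => S m - kS * lamR R m) H i α
        - Bs (fun m => (om y J J1 m : ℝ) / 2 * T m - kT * W1 y J J1 / 2 * lamR R m) H i α)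
      (Bs (fun m => ∑ j ∈ range J, Fp (bq y J J1) (2 ^ j * y) m
            - (∑ j ∈ range J, WQ y J J1 (2 ^ j * y) (i * H)) * lamR R m) H i α)
    have h3 := norm_sub_le
      (Bs (fun m => S m - kS * lamR R m) H i α)
      (Bs (fun m => (om y J J1 m : ℝ) / 2 * T m - kT * W1 y J J1 / 2 * lamR R m) H i α)
    have h4 : 4 * ((H : ℝ) / L ^ (A + 2)) ≤ H / L ^ A := by
      have e1 : 4 * ((H : ℝ) / L ^ (A + 2)) = H / L ^ A * (4 / L ^ 2) := by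
        rw [pow_add]
        field_simp
      rw [e1]
      have h5 : 4 / L ^ 2 ≤ 1 := by
        rw [div_le_one (by positivity)]
        nlinarith
      calc (H : ℝ) / L ^ A * (4 / L ^ 2) ≤ H / L ^ A * 1 :=
            mul_le_mul_of_nonneg_left h5 (by positivity)
        _ = H / L ^ A := mul_one _
    linarith
  have hcard := card_le_card hsub
  have hc1 := (hcard.trans (card_union_le _ _)).trans (Nat.add_le_add_right (card_union_le _ _) _)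
  have hc2 : ((badQ S T kS kT y J J1 R N H A).card : ℝ) ≤
      ((((Icc (N / (2 * H)) (4 * N / H)).filter (fun i => ∃ α : ℝ, (H : ℝ) / L ^ (A + 2) <
          ‖Bs (fun m => (om y J J1 m : ℝ) / 2 * T m - kT * W1 y J J1 / 2 * lamR R m) H i α‖)).card +
      ((Icc (N / (2 * H)) (4 * N / H)).filter (fun i => ∃ α : ℝ, (H : ℝ) / L ^ (A + 2) <
          ‖Bs (fun m => ∑ j ∈ range J, Fp (bq y J J1) (2 ^ j * y) m
            - (∑ j ∈ range J, WQ y J J1 (2 ^ j * y) (i * H)) * lamR R m) H i α‖)).card +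
      ((Icc (N / (2 * H)) (4 * N / H)).filter (fun i => (H : ℝ) / L ^ (A + 2) <
          ∑ m ∈ Ico (i * H) ((i + 1) * H), sqp y J m)).card : ℕ) : ℝ) := by
    exact_mod_cast hc1
  rw [Nat.cast_add, Nat.cast_add] at hc2
  have h5 : 3 * ((N : ℝ) / H / L ^ (A + 2)) ≤ N / H / L ^ A := by
    have e1 : 3 * ((N : ℝ) / H / L ^ (A + 2)) = N / H / L ^ A * (3 / L ^ 2) := by
      rw [pow_add]
      field_simp
    rw [e1]
    have h6 : 3 / L ^ 2 ≤ 1 := by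
      rw [div_le_one (by positivity)]
      nlinarith
    calc (N : ℝ) / H / L ^ A * (3 / L ^ 2) ≤ N / H / L ^ A * 1 :=
          mul_le_mul_of_nonneg_left h6 (by positivity)
      _ = N / H / L ^ A := mul_one _
  linarith

end Pool.Agent.H91.TQ
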