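import Pool.Agent.H91.TQ.SwQ

/-!
# TQ KStepQ: the density `kapF` changes slowly (compare `H76/TP/KStep.lean`)

`kapF x' - kapF x = -∑_{j<J} ∑_{p ∈ pb P_j} (kq(x'/p) - kq(x/p))/p`, the `p` are distinct, `p ≤ z ≤ N^(27/100)`; `x/p ≥ 1`, `x'/p - x/p ≤ (x'-x)/p + 1` (natural division), `x/p ≥ x/(2p)`:
`lip_q`: `|kq(x'/p) - kq(x/p)|/p ≤ L² ((x'-x)/p + 1 + N^(3/5)) 2/x ≤ 16 L² (N^(1/2) + 1 + N^(3/5))/N`; the sum over `p ≤ z` is `≤ 16 L² N^(27/100) 3 N^(3/5)/N ≤ 1/L^A`.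
-/

set_option autoImplicit false

namespace Pool.Agent.H91.TQ

open Finset
open Pool.Agent.H35.W (pb)
open Pool.Agent.H76.TP

/-- the bound of one term -/
private theorem kStepQ_term (f : ℕ → ℝ) (x x' p : ℕ) (D C S : ℝ) (hp : 1 ≤ p) (hpx : p ≤ x)
    (hxx : x ≤ x') (hD : (x' : ℝ) ≤ x + D) (hC : 0 ≤ C) (hS : 0 ≤ S)
    (hf : ∀ u u' : ℕ, 1 ≤ u → u ≤ u' → |f u' - f u| ≤ C * (((u' : ℝ) - u) + S) / u) :
    |f (x' / p) / p - f (x / p) / p| ≤ C * (2 * (D + 1 + S)) / x := by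
  have hx0 : (0 : ℝ) < x := by
    have : 0 < x := by omega
    exact_mod_cast this
  have hp0 : (0 : ℝ) < p := by exact_mod_cast hp
  have hp1 : (1 : ℝ) ≤ p := by exact_mod_cast hp
  have h1' : 1 ≤ x / p := by
    rw [Nat.le_div_iff_mul_le (by omega)]
    omega
  have hdd : x / p ≤ x' / p := Nat.div_le_div_right hxx
  have hl := hf (x / p) (x' / p) h1' hdd
  have hD0 : 0 ≤ D := by
    have : (x : ℝ) ≤ x' := by exact_mod_cast hxx
    linarith
  -- natural division against real division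
  have e1 : ((x' / p : ℕ) : ℝ) ≤ (x' : ℝ) / p := Nat.cast_div_le
  have e2 : (x : ℝ) / p ≤ ((x / p : ℕ) : ℝ) + 1 := by
    have := Nat.lt_floor_add_one ((x : ℝ) / (p : ℝ))
    rw [Nat.floor_div_eq_div] at this
    exact this.le
  have e3 : (x : ℝ) / (2 * p) ≤ ((x / p : ℕ) : ℝ) := by
    have h1 : (1 : ℝ) ≤ ((x / p : ℕ) : ℝ) := by
      exact_mod_cast h1'
    have h2 : (x : ℝ) / (2 * p) = ((x : ℝ) / p) / 2 := by
      field_simp
    rw [h2]
    linarith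
  have e4 : ((x' / p : ℕ) : ℝ) - ((x / p : ℕ) : ℝ) ≤ D + 1 := by
    have h1 : (x' : ℝ) / p ≤ (x : ℝ) / p + D := by
      rw [div_le_iff₀ hp0]
      have h2 : ((x : ℝ) / p + D) * p = x + D * p := by
        field_simp
      rw [h2]
      nlinarith
    linarith
  have e6 : C * ((((x' / p : ℕ) : ℝ) - ((x / p : ℕ) : ℝ)) + S) / ((x / p : ℕ) : ℝ)
      ≤ C * (D + 1 + S) / ((x : ℝ) / (2 * p)) := by
    have hpos : (0 : ℝ) < (x : ℝ) / (2 * p) := by positivity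
    gcongr
  have e7 : C * (D + 1 + S) / ((x : ℝ) / (2 * p)) = C * (2 * (D + 1 + S)) / x * p := by
    field_simp
  have e8 : |f (x' / p) - f (x / p)| ≤ C * (2 * (D + 1 + S)) / x * p :=
    (hl.trans e6).trans e7.le
  rw [← sub_div, abs_div, abs_of_pos hp0, div_le_iff₀ hp0]
  exact e8

/-- the sum of the lengths of the blocks -/
private theorem kStepQ_geom (J y : ℕ) : ∑ j ∈ range J, 2 ^ j * y ≤ 2 ^ J * y := by
  induction J with
  | zero => simp
  | succ n ih =>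
      rw [sum_range_succ, pow_succ]
      have : 2 ^ n * 2 * y = 2 ^ n * y + 2 ^ n * y := by ring
      omega

private theorem kStepQ_bound (y J J1 x x' : ℕ) (kS kT D C S : ℝ) (hzx : zz y J ≤ x)
    (hxx : x ≤ x') (hD : (x' : ℝ) ≤ x + D) (hC : 0 ≤ C) (hS : 0 ≤ S)
    (hf : ∀ u u' : ℕ, 1 ≤ u → u ≤ u' → |kq y J J1 u' - kq y J J1 u| ≤ C * (((u' : ℝ) - u) + S) / u) :
    |kapF kS kT y J J1 x' - kapF kS kT y J J1 x| ≤ zz y J * (C * (2 * (D + 1 + S)) / x) := by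
  have hD0 : 0 ≤ D := by
    have : (x : ℝ) ≤ x' := by exact_mod_cast hxx
    linarith
  have e0 : kapF kS kT y J J1 x' - kapF kS kT y J J1 x
      = -∑ j ∈ range J, ∑ p ∈ pb (2 ^ j * y),
        (kq y J J1 (x' / p) / p - kq y J J1 (x / p) / p) := by
    unfold kapF WQ
    simp only [sum_sub_distrib]
    ring
  rw [e0, abs_neg]
  set K : ℝ := C * (2 * (D + 1 + S)) / x with hK
  have hK0 : 0 ≤ K := by
    rw [hK]
    positivity
  have e1 : ∀ j ∈ range J, |∑ p ∈ pb (2 ^ j * y),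
        (kq y J J1 (x' / p) / p - kq y J J1 (x / p) / p)| ≤ ((2 ^ j * y : ℕ) : ℝ) * K := by
    intro j hj
    rw [mem_range] at hj
    have hsub : pb (2 ^ j * y) ⊆ Ioc (2 ^ j * y) (2 * (2 ^ j * y)) := by
      intro p hp
      unfold pb at hp
      simp only [mem_filter, mem_Ioc] at hp ⊢
      exact hp.1
    have hcard : (pb (2 ^ j * y)).card ≤ 2 ^ j * y := by
      refine (card_le_card hsub).trans ?_
      rw [Nat.card_Ioc]
      omega
    have hle : 2 * (2 ^ j * y) ≤ zz y J := by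
      unfold zz
      have h1 : 2 ^ (j + 1) ≤ 2 ^ J := Nat.pow_le_pow_right (by norm_num) hj
      calc 2 * (2 ^ j * y) = 2 ^ (j + 1) * y := by ring
        _ ≤ 2 ^ J * y := Nat.mul_le_mul_right _ h1
    refine (abs_sum_le_sum_abs _ _).trans ?_
    have hterm : ∀ p ∈ pb (2 ^ j * y),
        |kq y J J1 (x' / p) / p - kq y J J1 (x / p) / p| ≤ K := by
      intro p hp
      have h1 := hsub hp
      rw [mem_Ioc] at h1
      have hpz : p ≤ zz y J := h1.2.trans hle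
      exact kStepQ_term (kq y J J1) x x' p D C S (by omega) (hpz.trans hzx) hxx hD hC hS hf
    refine (sum_le_card_nsmul _ _ _ hterm).trans ?_
    rw [nsmul_eq_mul]
    have : ((pb (2 ^ j * y)).card : ℝ) ≤ ((2 ^ j * y : ℕ) : ℝ) := by
      exact_mod_cast hcard
    gcongr
  refine (abs_sum_le_sum_abs _ _).trans ?_
  refine (sum_le_sum e1).trans ?_
  rw [← sum_mul]
  have h2 : (∑ j ∈ range J, ((2 ^ j * y : ℕ) : ℝ)) ≤ (zz y J : ℝ) := by
    unfold zz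
    have := kStepQ_geom J y
    exact_mod_cast this
  gcongr

theorem kstep_q (e1 ζ' ζ κ' κ : ℝ) (hP : Par e1 ζ' ζ κ' κ) (A : ℕ) : ∃ N0 : ℕ, ∀ N : ℕ, N0 ≤ N →
    ∀ (J J1 x x' : ℕ) (kS kT : ℝ), Lev ζ' ζ κ' κ N (yN e1 N) J J1 →
      N ≤ 8 * x → x ≤ x' → (x' : ℝ) ≤ x + (N : ℝ) ^ (1 / 2 : ℝ) →
      |kapF kS kT (yN e1 N) J J1 x' - kapF kS kT (yN e1 N) J J1 x| ≤ 1 / Real.log N ^ A := by
  obtain ⟨N1, hN1'⟩ := lip_q e1 ζ' ζ κ' κ hP
  obtain ⟨-, -, -, -, hζ27, -, -, -⟩ := hP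
  -- the threshold
  have hlo : (fun t : ℝ => Real.log t ^ ((A + 2 : ℕ) : ℝ)) =o[Filter.atTop] fun t => t ^ (13 / 100 : ℝ) :=
    isLittleO_log_rpow_rpow_atTop _ (by norm_num)
  have hlo2 : Filter.Tendsto (fun t : ℝ => t ^ (73 / 100 : ℝ)) Filter.atTop Filter.atTop :=
    tendsto_rpow_atTop (by norm_num)
  have hev := ((hlo.bound (show (0 : ℝ) < 1 / 48 by norm_num)).and
    (Filter.eventually_ge_atTop (1000 : ℝ))).and (hlo2.eventually_ge_atTop (8 : ℝ))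
  obtain ⟨T, hT⟩ := Filter.eventually_atTop.1 hev
  refine ⟨⌈T⌉₊ + 1000 + N1, ?_⟩
  intro N hN J J1 x x' kS kT hLev hx hxx hD
  have hNT : T ≤ (N : ℝ) := by
    refine (Nat.le_ceil T).trans ?_
    exact_mod_cast (by omega : ⌈T⌉₊ ≤ N)
  obtain ⟨⟨hlog, hN1000⟩, hN73⟩ := hT N hNT
  obtain ⟨-, hlip⟩ := hN1' N (by omega) J J1 hLev
  have hz : (zz (yN e1 N) J : ℝ) ≤ (N : ℝ) ^ ζ := hLev.2.2.1
  have hN0 : (0 : ℝ) < N := by linarith
  have hN1 : (1 : ℝ) ≤ N := by linarith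
  have hlogpos : 0 < Real.log N := Real.log_pos (by linarith)
  set y := yN e1 N with hydef
  set z := zz y J with hzdef
  set c : ℝ := (N : ℝ) ^ (27 / 100 : ℝ) with hc
  have hz3 : (z : ℝ) ≤ c :=
    hz.trans (Real.rpow_le_rpow_of_exponent_le hN1 hζ27.le)
  have hc0 : 0 < c := Real.rpow_pos_of_pos hN0 _
  have hx8 : (N : ℝ) ≤ 8 * x := by exact_mod_cast hx
  have hz0 : (0 : ℝ) ≤ z := Nat.cast_nonneg _
  have hc73 : c * (N : ℝ) ^ (73 / 100 : ℝ) = N := by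
    rw [hc, ← Real.rpow_add hN0]
    norm_num
  have hzx : z ≤ x := by
    have h : (z : ℝ) ≤ x := by
      have h8 : c * 8 ≤ N := by
        rw [← hc73]
        gcongr
      linarith
    exact_mod_cast h
  set s : ℝ := (N : ℝ) ^ (1 / 2 : ℝ) with hs
  set S : ℝ := (N : ℝ) ^ (3 / 5 : ℝ) with hSdef
  have hs0 : 0 < s := Real.rpow_pos_of_pos hN0 _
  have hS0 : 0 < S := Real.rpow_pos_of_pos hN0 _
  have hb := kStepQ_bound y J J1 x x' kS kT s (Real.log N ^ 2) S hzx hxx hD (by positivity) hS0.le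
    (fun u u' hu huu => hlip u u' hu huu)
  refine hb.trans ?_
  -- the final numerical comparison
  have hsS : s ≤ S := Real.rpow_le_rpow_of_exponent_le hN1 (by norm_num)
  have h1S : 1 ≤ S := Real.one_le_rpow hN1 (by norm_num)
  set w : ℝ := (N : ℝ) ^ (13 / 100 : ℝ) with hw
  have hw0 : 0 < w := Real.rpow_pos_of_pos hN0 _
  have hcSw : c * S * w = N := by
    rw [hc, hSdef, hw, ← Real.rpow_add hN0, ← Real.rpow_add hN0]
    norm_num
  have hx0 : (0 : ℝ) < x := by linarith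
  have hL : Real.log N ^ (A + 2) ≤ 1 / 48 * w := by
    have h1 : Real.log N ^ ((A + 2 : ℕ) : ℝ) = Real.log N ^ (A + 2) := Real.rpow_natCast _ _
    rw [h1] at hlog
    rw [Real.norm_of_nonneg (by positivity), Real.norm_of_nonneg hw0.le] at hlog
    exact hlog
  have hLp : 0 < Real.log N ^ A := by positivity
  have step1 : (z : ℝ) * (Real.log N ^ 2 * (2 * (s + 1 + S)) / x) ≤
      c * (Real.log N ^ 2 * (2 * (3 * S)) / (N / 8)) := by
    have ha : (N : ℝ) / 8 ≤ x := by linarith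
    have hb' : s + 1 + S ≤ 3 * S := by linarith
    have hN8 : (0 : ℝ) < N / 8 := by linarith
    gcongr
  refine step1.trans ?_
  rw [show c * (Real.log N ^ 2 * (2 * (3 * S)) / ((N : ℝ) / 8)) = 48 * (c * S) * Real.log N ^ 2 / N by
    field_simp; ring]
  rw [div_le_div_iff₀ hN0 hLp]
  have h5 : 48 * (c * S) * Real.log N ^ 2 * Real.log N ^ A ≤ 48 * (c * S) * (1 / 48 * w) := by
    rw [mul_assoc (48 * (c * S)), ← pow_add, add_comm 2 A]
    gcongr
  have h6 : 48 * (c * S) * (1 / 48 * w) = N := by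
    rw [← hcSw]
    ring
  linarith

end Pool.Agent.H91.TQ
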