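import Pool.Agent.H91.TQ.Defs
import Pool.Agent.H56.TI.Blk

/-!
# TQ TIw: `TIP` from the theorem of helper56 (`ti_lfu`, `ti_S`)

`e = (1 + θ - 4κ)/2`, `e0 = 1/10`; `ti_lfu e0 e` gives `δ`; `e4 = min(δ/8, 1/100)`.  `Ph P m = Phi P 1 m` for every `m ≥ 1` (`∑_{p ∈ pb P} (1[p ∣ m] - 1/p)`; equal for all `m`).  `H = ⌊N^θ⌋`: `N^(1/10) ≤ H`, `H^2 ≤ N` (`θ < 1/3`), `H ≤ P^2` as `P ≥ N^(1/5)`,
`P^4 N^e ≤ N^(4κ + e) ≤ N H` (`H ≥ N^θ/2`, `4κ + e < 1 + θ`, `N` large).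
For `i ∈ Icc (N/(2H)) (4N/H)`, `i ∉ badT`, `i ≥ 1` and `i ≤ 16N/H`: `‖Bs (Phi P 1) H i α‖ ≤ H N^(-δ)` for all `α`, `ti_S`: `‖Bs (T · Phi) H i α‖ ≤ Q³ H N^(-δ) ≤ H N^(3δ/8 - δ) ≤ H/L^A`.
So the bad set of `TIP` is contained in `badT`, which has at most `N^(1-δ)/H ≤ (N/H)/L^A` elements.
-/

set_option autoImplicit false

namespace Pool.Agent.H91.TQ

open Finset
open Pool.Agent.H91.PK (ee)
open Pool.Agent.H35.W (pb)
open Pool.Agent.H53.MID (Fp Bs badB)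
open Pool.Agent.H76.TP

/-- powers of the logarithm -/
private theorem TIw_log (A : ℕ) (c : ℝ) (hc : 0 < c) :
    ∃ N0 : ℕ, ∀ N : ℕ, N0 ≤ N → Real.log N ^ A ≤ (N : ℝ) ^ c := by
  have h1 := (isLittleO_log_rpow_rpow_atTop (A : ℝ) hc).bound (show (0 : ℝ) < 1 by norm_num)
  rw [Filter.eventually_atTop] at h1
  obtain ⟨x0, hx0⟩ := h1
  refine ⟨max ⌈x0⌉₊ 1, fun N hN => ?_⟩
  have h2 : x0 ≤ (N : ℝ) :=
    le_trans (Nat.le_ceil x0) (by exact_mod_cast le_trans (le_max_left _ _) hN)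
  have h3 : (1 : ℝ) ≤ (N : ℝ) := by exact_mod_cast le_trans (le_max_right _ _) hN
  have h4 := hx0 N h2
  have h5 : 0 ≤ Real.log N := Real.log_nonneg h3
  rw [Real.rpow_natCast, one_mul, Real.norm_of_nonneg (pow_nonneg h5 A),
    Real.norm_of_nonneg (Real.rpow_nonneg (by linarith) _)] at h4
  exact h4

/-- small powers exceed two -/
private theorem TIw_two (c : ℝ) (hc : 0 < c) :
    ∃ N0 : ℕ, ∀ N : ℕ, N0 ≤ N → (2 : ℝ) ≤ (N : ℝ) ^ c := by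
  have h1 := (tendsto_rpow_atTop hc).eventually_ge_atTop 2
  rw [Filter.eventually_atTop] at h1
  obtain ⟨x0, hx0⟩ := h1
  refine ⟨⌈x0⌉₊, fun N hN => hx0 N ?_⟩
  exact le_trans (Nat.le_ceil x0) (by exact_mod_cast hN)

/-- the two balanced functions agree -/
private theorem TIw_phi (P m : ℕ) : Pool.Agent.H56.TI.Phi P (fun _ => 1) m = Ph P m := by
  unfold Pool.Agent.H56.TI.Phi Ph
  simp only [one_mul, Finset.sum_sub_distrib]
  congr 1
  rw [Finset.card_filter]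
  push_cast
  rfl

theorem tip (θ κ : ℝ) (hθ : 1 / 5 < θ) (hθ2 : θ < 1 / 3) (hκ : 4 * κ < 1 + θ) :
    ∃ e4 : ℝ, 0 < e4 ∧ e4 ≤ 1 / 100 ∧ TIP θ κ e4 := by
  set e : ℝ := (1 + θ - 4 * κ) / 2 with he_def
  have he : 0 < e := by rw [he_def]; linarith
  obtain ⟨δ, hδ, N1, hN1⟩ := Pool.Agent.H56.TI.ti_lfu (1 / 10) e (by norm_num) he
  refine ⟨min (δ / 8) (1 / 100), lt_min (by linarith) (by norm_num), min_le_right _ _, ?_⟩
  intro A
  obtain ⟨N2, hN2⟩ := TIw_log A (5 * δ / 8) (by linarith)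
  obtain ⟨N3, hN3⟩ := TIw_two e he
  obtain ⟨N4, hN4⟩ := TIw_two (1 / 20) (by norm_num)
  refine ⟨max (max N1 N2) (max (max N3 N4) 16), ?_⟩
  intro N hN P Q g T hP1 hP2 hQ hT
  have a1 : N1 ≤ N := le_trans (le_trans (le_max_left _ _) (le_max_left _ _)) hN
  have a2 : N2 ≤ N := le_trans (le_trans (le_max_right _ _) (le_max_left _ _)) hN
  have a3 : N3 ≤ N :=
    le_trans (le_trans (le_trans (le_max_left _ _) (le_max_left _ _)) (le_max_right _ _)) hN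
  have a4 : N4 ≤ N :=
    le_trans (le_trans (le_trans (le_max_right _ _) (le_max_left _ _)) (le_max_right _ _)) hN
  have a5 : 16 ≤ N := le_trans (le_trans (le_max_right _ _) (le_max_right _ _)) hN
  have hlog := hN2 N a2
  have htwo := hN3 N a3
  have htwo2 := hN4 N a4
  have hNr : (16 : ℝ) ≤ N := by exact_mod_cast a5
  have hN0 : (0 : ℝ) < N := by linarith
  have hN1r : (1 : ℝ) ≤ N := by linarith
  have hLpos : 0 < Real.log N := Real.log_pos (by linarith)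
  have hLA : 0 < Real.log N ^ A := pow_pos hLpos A
  set H : ℕ := ⌊(N : ℝ) ^ θ⌋₊ with hH_def
  have hθN : 0 < (N : ℝ) ^ θ := Real.rpow_pos_of_pos hN0 _
  have hH_le : (H : ℝ) ≤ (N : ℝ) ^ θ := Nat.floor_le hθN.le
  have hH_gt : (N : ℝ) ^ θ < H + 1 := Nat.lt_floor_add_one _
  have h15 : 2 * (N : ℝ) ^ (1 / 10 : ℝ) ≤ (N : ℝ) ^ θ := by
    have h1 : (N : ℝ) ^ (1 / 20 : ℝ) * (N : ℝ) ^ (1 / 10 : ℝ) ≤ (N : ℝ) ^ θ := by
      rw [← Real.rpow_add hN0]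
      apply Real.rpow_le_rpow_of_exponent_le hN1r
      norm_num
      linarith
    have h2 : 0 < (N : ℝ) ^ (1 / 10 : ℝ) := Real.rpow_pos_of_pos hN0 _
    nlinarith
  have h15one : 1 ≤ (N : ℝ) ^ (1 / 10 : ℝ) := Real.one_le_rpow hN1r (by norm_num)
  have hHhalf : (N : ℝ) ^ θ / 2 ≤ H := by linarith
  have hc1 : (N : ℝ) ^ (1 / 10 : ℝ) ≤ H := by linarith
  have hH0r : (0 : ℝ) < H := by linarith
  have hH0 : 0 < H := by exact_mod_cast hH0r
  have hc2r : (H : ℝ) ^ 2 ≤ N := by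
    have h1 : (H : ℝ) ^ 2 ≤ ((N : ℝ) ^ θ) ^ 2 := pow_le_pow_left₀ hH0r.le hH_le 2
    have h2 : ((N : ℝ) ^ θ) ^ 2 ≤ (N : ℝ) ^ (1 : ℝ) := by
      rw [← Real.rpow_natCast, ← Real.rpow_mul hN0.le]
      apply Real.rpow_le_rpow_of_exponent_le hN1r
      push_cast
      linarith
    rw [Real.rpow_one] at h2
    linarith
  have hc2 : H ^ 2 ≤ N := by exact_mod_cast hc2r
  have hP0 : (0 : ℝ) < P := lt_of_lt_of_le (Real.rpow_pos_of_pos hN0 _) hP1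
  have hc3r : (H : ℝ) ≤ (P : ℝ) ^ 2 := by
    have h1 : ((N : ℝ) ^ (1 / 5 : ℝ)) ^ 2 ≤ (P : ℝ) ^ 2 :=
      pow_le_pow_left₀ (Real.rpow_pos_of_pos hN0 _).le hP1 2
    have h2 : (N : ℝ) ^ θ ≤ ((N : ℝ) ^ (1 / 5 : ℝ)) ^ 2 := by
      rw [← Real.rpow_natCast, ← Real.rpow_mul hN0.le]
      apply Real.rpow_le_rpow_of_exponent_le hN1r
      push_cast
      linarith
    linarith
  have hc3 : H ≤ P ^ 2 := by exact_mod_cast hc3r
  have hc4 : (P : ℝ) ^ 4 * (N : ℝ) ^ e ≤ N * H := by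
    have h1 : (P : ℝ) ^ 4 ≤ ((N : ℝ) ^ κ) ^ 4 := pow_le_pow_left₀ hP0.le hP2 4
    have h2 : ((N : ℝ) ^ κ) ^ 4 = (N : ℝ) ^ (4 * κ) := by
      rw [← Real.rpow_natCast, ← Real.rpow_mul hN0.le]
      congr 1
      push_cast
      ring
    have he0 : 0 < (N : ℝ) ^ e := Real.rpow_pos_of_pos hN0 _
    have h3 : (P : ℝ) ^ 4 * (N : ℝ) ^ e ≤ (N : ℝ) ^ (4 * κ) * (N : ℝ) ^ e := by
      apply mul_le_mul_of_nonneg_right _ he0.le
      rw [← h2]
      exact h1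
    have h4 : (N : ℝ) ^ (4 * κ) * (N : ℝ) ^ e * (N : ℝ) ^ e = N * (N : ℝ) ^ θ := by
      rw [← Real.rpow_add hN0, ← Real.rpow_add hN0]
      have : 4 * κ + e + e = 1 + θ := by rw [he_def]; ring
      rw [this, Real.rpow_add hN0, Real.rpow_one]
    have h5 : 0 < (N : ℝ) ^ (4 * κ) * (N : ℝ) ^ e := by positivity
    have h6 : (N : ℝ) ^ (4 * κ) * (N : ℝ) ^ e * 2 ≤ N * (N : ℝ) ^ θ := by
      rw [← h4]
      exact mul_le_mul_of_nonneg_left htwo h5.le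
    have h7 : (N : ℝ) * ((N : ℝ) ^ θ / 2) ≤ N * H := mul_le_mul_of_nonneg_left hHhalf hN0.le
    nlinarith
  have hmain := hN1 N a1 H P (fun _ => 1) hc1 hc2 hc3 hc4 (fun _ => by norm_num)
  have hδN : 0 < (N : ℝ) ^ (-δ) := Real.rpow_pos_of_pos hN0 _
  have hsub : badB (fun m => T m * Ph P m) N H ((H : ℝ) / Real.log N ^ A) ⊆
      Pool.Agent.H56.TI.badT P (fun _ => 1) N H δ := by
    intro i hi
    unfold badB at hi
    simp only [Finset.mem_filter, Finset.mem_Icc] at hi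
    obtain ⟨⟨hi1, hi2⟩, α, hα⟩ := hi
    have hi0 : 1 ≤ i := by
      refine le_trans ?_ hi1
      rw [Nat.le_div_iff_mul_le (by omega)]
      have h2 : 2 ≤ H := by
        have : (2 : ℝ) ≤ H := by
          have h3 : (2 : ℝ) ≤ (N : ℝ) ^ (1 / 10 : ℝ) := by
            have h4 : (N : ℝ) ^ (1 / 20 : ℝ) ≤ (N : ℝ) ^ (1 / 10 : ℝ) :=
              Real.rpow_le_rpow_of_exponent_le hN1r (by norm_num)
            linarith
          linarith
        exact_mod_cast this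
      nlinarith
    have hi3 : i ≤ 16 * N / H := by
      refine le_trans hi2 (Nat.div_le_div_right ?_)
      omega
    unfold Pool.Agent.H56.TI.badT
    simp only [Finset.mem_filter, Finset.mem_Icc]
    refine ⟨⟨hi0, hi3⟩, ?_⟩
    by_contra hcon
    push Not at hcon
    have h1 := Pool.Agent.H56.TI.ti_S P Q H i (fun _ => 1) g T _ hT.2.1 hT.2.2 hi0 hcon α
    have h2 : (fun m => T m * Pool.Agent.H56.TI.Phi P (fun _ => 1) m) =
        fun m => T m * Ph P m := by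
      funext m
      rw [TIw_phi]
    rw [h2] at h1
    have h3 : (Q : ℝ) ^ 3 ≤ (N : ℝ) ^ (3 * δ / 8) := by
      have h4 : (Q : ℝ) ≤ (N : ℝ) ^ (δ / 8) :=
        le_trans hQ (Real.rpow_le_rpow_of_exponent_le hN1r (min_le_left _ _))
      have h5 : (Q : ℝ) ^ 3 ≤ ((N : ℝ) ^ (δ / 8)) ^ 3 := pow_le_pow_left₀ (Nat.cast_nonneg Q) h4 3
      have h6 : ((N : ℝ) ^ (δ / 8)) ^ 3 = (N : ℝ) ^ (3 * δ / 8) := by
        rw [← Real.rpow_natCast, ← Real.rpow_mul hN0.le]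
        congr 1
        push_cast
        ring
      rw [← h6]
      exact h5
    have h7 : (Q : ℝ) ^ 3 * ((H : ℝ) * (N : ℝ) ^ (-δ)) ≤ H * (N : ℝ) ^ (-(5 * δ / 8)) := by
      have h8 : (Q : ℝ) ^ 3 * ((H : ℝ) * (N : ℝ) ^ (-δ)) ≤
          (N : ℝ) ^ (3 * δ / 8) * ((H : ℝ) * (N : ℝ) ^ (-δ)) :=
        mul_le_mul_of_nonneg_right h3 (by positivity)
      have h9 : (N : ℝ) ^ (3 * δ / 8) * ((H : ℝ) * (N : ℝ) ^ (-δ)) =
          H * (N : ℝ) ^ (-(5 * δ / 8)) := by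
        have h10 : (N : ℝ) ^ (-(5 * δ / 8)) = (N : ℝ) ^ (3 * δ / 8) * (N : ℝ) ^ (-δ) := by
          rw [← Real.rpow_add hN0]
          congr 1
          ring
        rw [h10]
        ring
      linarith
    have h11 : (H : ℝ) * (N : ℝ) ^ (-(5 * δ / 8)) ≤ H / Real.log N ^ A := by
      rw [Real.rpow_neg hN0.le, div_eq_mul_inv]
      apply mul_le_mul_of_nonneg_left _ hH0r.le
      exact inv_anti₀ hLA hlog
    linarith
  have hcard : ((badB (fun m => T m * Ph P m) N H ((H : ℝ) / Real.log N ^ A)).card : ℝ) ≤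
      ((Pool.Agent.H56.TI.badT P (fun _ => 1) N H δ).card : ℝ) := by
    exact_mod_cast Finset.card_le_card hsub
  have hfin : (N : ℝ) ^ (1 - δ) / H ≤ (N / H : ℝ) / Real.log N ^ A := by
    rw [div_div, div_le_div_iff₀ hH0r (by positivity)]
    have h1 : (N : ℝ) ^ (1 - δ) * (N : ℝ) ^ (5 * δ / 8) ≤ N := by
      rw [← Real.rpow_add hN0]
      have h2 : (N : ℝ) ^ (1 - δ + 5 * δ / 8) ≤ (N : ℝ) ^ (1 : ℝ) := by
        apply Real.rpow_le_rpow_of_exponent_le hN1r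
        linarith
      rwa [Real.rpow_one] at h2
    have h3 : (N : ℝ) ^ (1 - δ) * Real.log N ^ A ≤ N := by
      refine le_trans (mul_le_mul_of_nonneg_left hlog (Real.rpow_nonneg hN0.le _)) h1
    calc (N : ℝ) ^ (1 - δ) * (H * Real.log N ^ A) = ((N : ℝ) ^ (1 - δ) * Real.log N ^ A) * H := by
          ring
      _ ≤ N * H := mul_le_mul_of_nonneg_right h3 hH0r.le
  exact le_trans hcard (le_trans hmain hfin)

end Pool.Agent.H91.TQ
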