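import Pool.Agent.H91.TQ.Defs

/-!
# TQ LfuOm: the part `(om/2) T` of the majorant

`H = ⌊N^θ⌋`.  For `m ≥ 1`: the primes of `(z, z1]` are the disjoint union of `pb (2^j y)`, `J ≤ j < J1`, so `om m = ∑_{j ∈ [J, J1)} (Ph (2^j y) m + ∑_{p ∈ pb (2^j y)} 1/p) = ∑_j Ph (2^j y) m + W1` and
`(om m/2) T m - (kT W1/2) lamR R m = (1/2) ∑_{j ∈ [J, J1)} T m Ph (2^j y) m + (W1/2) (T m - kT lamR R m)`.
`TIP` with exponent `A + 3` for `P = 2^j y`, `N^(1/5) ≤ z ≤ P ≤ z1/2 ≤ N^κ`: the union of the `J1 - J ≤ 2L` bad sets (`2^(J1 - J) z = z1 ≤ N`) has `≤ 2L (N/H)/L^(A+3)` members; outside of it the sum is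
`≤ (1/2) 2L H/L^(A+3) + (W1/2) H/L^(A+2)`, `W1 ≤ 1 + log z1 ≤ L` (harmonic sum, `w1_le`).
-/

set_option autoImplicit false

namespace Pool.Agent.H91.TQ

open Finset
open Pool.Agent.H91.PK (ee)
open Pool.Agent.H91.EHA (Lam hR lamR ramS)
open Pool.Agent.H35.W (pb)
open Pool.Agent.H53.MID (Fp Bs badB)
open Pool.Agent.H76.TP

private theorem lfo_py (y J J1 : ℕ) (hJ : J ≤ J1) (f : ℕ → ℝ) :
    ∑ p ∈ PY (zz y J) (zz y J1), f p = ∑ j ∈ Ico J J1, ∑ p ∈ pb (2 ^ j * y), f p := by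
  induction J1, hJ using Nat.le_induction with
  | base => simp only [PY, Ioc_self, filter_empty, sum_empty, Ico_self]
  | succ n hn ih =>
    rw [Finset.sum_Ico_succ_top hn, ← ih]
    have h1 : 2 ^ (n + 1) * y = 2 * (2 ^ n * y) := by ring
    have h2 : 2 ^ J * y ≤ 2 ^ n * y :=
      Nat.mul_le_mul_right _ (Nat.pow_le_pow_right (by norm_num) hn)
    have hu : PY (zz y J) (zz y (n + 1)) = PY (zz y J) (zz y n) ∪ pb (2 ^ n * y) := by
      ext p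
      simp only [PY, pb, mem_filter, mem_union, mem_Ioc, zz]
      rw [h1]
      constructor
      · rintro ⟨⟨h3, h4⟩, h5⟩
        by_cases h6 : p ≤ 2 ^ n * y
        · exact Or.inl ⟨⟨h3, h6⟩, h5⟩
        · exact Or.inr ⟨⟨by omega, h4⟩, h5⟩
      · rintro (⟨⟨h3, h4⟩, h5⟩ | ⟨⟨h3, h4⟩, h5⟩)
        · exact ⟨⟨h3, by omega⟩, h5⟩
        · exact ⟨⟨by omega, h4⟩, h5⟩
    rw [hu, Finset.sum_union]
    rw [Finset.disjoint_left]
    intro p hp hp2
    simp only [PY, pb, mem_filter, mem_Ioc, zz] at hp hp2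
    omega

theorem om_ph (y J J1 m : ℕ) (hJ : J ≤ J1) (hm : 1 ≤ m) :
    (om y J J1 m : ℝ) = ∑ j ∈ Ico J J1, Ph (2 ^ j * y) m + W1 y J J1 := by
  have h1 : (om y J J1 m : ℝ) = ∑ p ∈ PY (zz y J) (zz y J1), (if p ∣ m then (1 : ℝ) else 0) := by
    rw [Finset.sum_boole]
    congr 1
    unfold om
    congr 1
    ext p
    simp only [PY, mem_filter, mem_Ioc, Nat.mem_primeFactors]
    constructor
    · rintro ⟨⟨h3, h4, _⟩, h5⟩
      exact ⟨⟨h5, h3⟩, h4⟩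
    · rintro ⟨⟨h5, h3⟩, h4⟩
      exact ⟨⟨h3, h4, by omega⟩, h5⟩
  rw [h1, lfo_py y J J1 hJ, W1, lfo_py y J J1 hJ, ← Finset.sum_add_distrib]
  refine Finset.sum_congr rfl (fun j _ => ?_)
  rw [Ph, Finset.sum_boole]
  ring

private theorem lfo_w1 (y J J1 : ℕ) : 0 ≤ W1 y J J1 ∧
    W1 y J J1 ≤ 1 + Real.log (zz y J1) := by
  constructor
  · exact Finset.sum_nonneg (fun p _ => by positivity)
  · have h1 : W1 y J J1 ≤ ∑ p ∈ Icc 1 (zz y J1), 1 / (p : ℝ) := by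
      refine Finset.sum_le_sum_of_subset_of_nonneg ?_ (fun p _ _ => by positivity)
      intro p hp
      simp only [PY, mem_filter, mem_Ioc, mem_Icc] at hp ⊢
      exact ⟨hp.2.one_lt.le, hp.1.2⟩
    refine h1.trans ?_
    have h2 := harmonic_le_one_add_log (zz y J1)
    rw [harmonic_eq_sum_Icc] at h2
    push_cast at h2
    simpa only [one_div] using h2

private theorem lfo_split (y J J1 : ℕ) (hJ : J ≤ J1) (T lam : ℕ → ℝ) (kT : ℝ) (H i : ℕ) (hH : 1 ≤ H)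
    (hi : 1 ≤ i) (α : ℝ) :
    Bs (fun m => (om y J J1 m : ℝ) / 2 * T m - kT * W1 y J J1 / 2 * lam m) H i α =
      (1 / 2 : ℂ) * ∑ j ∈ Ico J J1, Bs (fun m => T m * Ph (2 ^ j * y) m) H i α +
        ((W1 y J J1 / 2 : ℝ) : ℂ) * Bs (fun m => T m - kT * lam m) H i α := by
  simp only [Bs]
  rw [Finset.sum_comm, Finset.mul_sum, Finset.mul_sum, ← Finset.sum_add_distrib]
  refine Finset.sum_congr rfl (fun m hm => ?_)
  have hm1 : 1 ≤ m := by
    rw [mem_Ico] at hm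
    have : 1 * 1 ≤ i * H := Nat.mul_le_mul hi hH
    omega
  have h1 : (om y J J1 m : ℝ) / 2 * T m - kT * W1 y J J1 / 2 * lam m =
      (1 / 2) * ∑ j ∈ Ico J J1, T m * Ph (2 ^ j * y) m + W1 y J J1 / 2 * (T m - kT * lam m) := by
    rw [om_ph y J J1 m hJ hm1, ← Finset.mul_sum]
    ring
  have h2 : (((om y J J1 m : ℝ) / 2 * T m - kT * W1 y J J1 / 2 * lam m : ℝ) : ℂ) =
      (1 / 2 : ℂ) * ∑ j ∈ Ico J J1, ((T m * Ph (2 ^ j * y) m : ℝ) : ℂ) +
        ((W1 y J J1 / 2 : ℝ) : ℂ) * ((T m - kT * lam m : ℝ) : ℂ) := by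
    rw [h1]
    push_cast
    ring
  rw [h2, ← Finset.sum_mul]
  ring

open Classical in
theorem lfu_om (θ κ e4 : ℝ) (hθ : 0 < θ) (hθ2 : θ < 1 / 2) (hκ : κ < 1) (hTI : TIP θ κ e4) (A : ℕ) :
    ∃ N0 : ℕ, ∀ N : ℕ, N0 ≤ N → ∀ (y J J1 Q R : ℕ) (g T : ℕ → ℝ) (kT : ℝ), 1 ≤ y → J ≤ J1 →
      (N : ℝ) ^ (1 / 5 : ℝ) ≤ zz y J → (zz y J1 : ℝ) ≤ (N : ℝ) ^ κ → Adm Q g T → (Q : ℝ) ≤ (N : ℝ) ^ e4 →
      (∀ (i : ℕ) (α : ℝ), 1 ≤ i → ‖Bs (fun m => T m - kT * lamR R m) ⌊(N : ℝ) ^ θ⌋₊ i α‖ ≤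
        ⌊(N : ℝ) ^ θ⌋₊ / Real.log N ^ (A + 2)) →
      (((Icc (N / (2 * ⌊(N : ℝ) ^ θ⌋₊)) (4 * N / ⌊(N : ℝ) ^ θ⌋₊)).filter (fun i => ∃ α : ℝ,
        (⌊(N : ℝ) ^ θ⌋₊ : ℝ) / Real.log N ^ A <
          ‖Bs (fun m => (om y J J1 m : ℝ) / 2 * T m - kT * W1 y J J1 / 2 * lamR R m) ⌊(N : ℝ) ^ θ⌋₊ i α‖)).card : ℝ) ≤
        (N : ℝ) / ⌊(N : ℝ) ^ θ⌋₊ / Real.log N ^ A := by
  obtain ⟨N1, hN1⟩ := hTI (A + 3)
  obtain ⟨N2, hN2⟩ : ∃ N2 : ℕ, ∀ N : ℕ, N2 ≤ N → max 2 (1 / (1 - κ)) ≤ Real.log (N : ℝ) := by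
    have h := (Real.tendsto_log_atTop.comp (tendsto_natCast_atTop_atTop (R := ℝ))).eventually_ge_atTop
      (max 2 (1 / (1 - κ)))
    rw [Filter.eventually_atTop] at h
    exact h
  refine ⟨max N1 (max N2 4), ?_⟩
  intro N hN y J J1 Q R g T kT hy hJ hz1 hz2 hAdm hQ hB
  have hNN1 : N1 ≤ N := le_trans (le_max_left _ _) hN
  have hNN2 : N2 ≤ N := le_trans (le_trans (le_max_left _ _) (le_max_right _ _)) hN
  have hN4 : 4 ≤ N := le_trans (le_trans (le_max_right _ _) (le_max_right _ _)) hN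
  have hL0 := hN2 N hNN2
  have hL2 : 2 ≤ Real.log (N : ℝ) := le_trans (le_max_left _ _) hL0
  have hLk : 1 / (1 - κ) ≤ Real.log (N : ℝ) := le_trans (le_max_right _ _) hL0
  have hNr : (4 : ℝ) ≤ N := by exact_mod_cast hN4
  set H := ⌊(N : ℝ) ^ θ⌋₊ with hHd
  set L := Real.log (N : ℝ) with hLd
  have hH1 : 1 ≤ H := by
    rw [hHd]
    apply Nat.le_floor
    rw [Nat.cast_one]
    exact Real.one_le_rpow (by linarith) hθ.le
  have hHr : (1 : ℝ) ≤ H := by exact_mod_cast hH1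
  have hHN : 2 * H ≤ N := by
    have h1 : (H : ℝ) ≤ (N : ℝ) ^ θ := Nat.floor_le (Real.rpow_nonneg (by linarith) _)
    have h2 : (N : ℝ) ^ θ ≤ (N : ℝ) ^ (1 / 2 : ℝ) :=
      Real.rpow_le_rpow_of_exponent_le (by linarith) hθ2.le
    have h3 : (2 : ℝ) * (N : ℝ) ^ (1 / 2 : ℝ) ≤ N := by
      rw [← Real.sqrt_eq_rpow]
      have h4 : (2 : ℝ) ≤ Real.sqrt N := by
        apply Real.le_sqrt_of_sq_le
        linarith
      have h5 := Real.mul_self_sqrt (show (0 : ℝ) ≤ N by linarith)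
      nlinarith [Real.sqrt_nonneg (N : ℝ)]
    have h6 : (2 : ℝ) * H ≤ N := by linarith
    exact_mod_cast h6
  -- the number of the blocks
  have hzz1 : 1 ≤ zz y J1 := by
    unfold zz
    exact Nat.one_le_iff_ne_zero.mpr (by positivity)
  have hzzJ : 1 ≤ zz y J := by
    unfold zz
    exact Nat.one_le_iff_ne_zero.mpr (by positivity)
  have hlogz : Real.log (zz y J1) ≤ κ * L := by
    have h1 : Real.log (zz y J1) ≤ Real.log ((N : ℝ) ^ κ) :=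
      Real.log_le_log (by exact_mod_cast hzz1) hz2
    rwa [Real.log_rpow (by linarith)] at h1
  have hκL : 1 + κ * L ≤ L := by
    have h1 : 0 < 1 - κ := by linarith
    rw [div_le_iff₀ h1] at hLk
    nlinarith
  have hnb : ((J1 - J : ℕ) : ℝ) ≤ 2 * L := by
    have h1 : 2 ^ (J1 - J) ≤ zz y J1 := by
      have h2 : zz y J1 = 2 ^ (J1 - J) * zz y J := by
        unfold zz
        rw [← mul_assoc, ← pow_add, Nat.sub_add_cancel hJ]
      rw [h2]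
      exact Nat.le_mul_of_pos_right _ hzzJ
    have h3 : ((J1 - J : ℕ) : ℝ) * Real.log 2 ≤ Real.log (zz y J1) := by
      rw [← Real.log_pow]
      apply Real.log_le_log (by positivity)
      exact_mod_cast h1
    have h4 : (1 / 2 : ℝ) ≤ Real.log 2 := by
      have := Real.log_two_gt_d9
      linarith
    have h5 : (0 : ℝ) ≤ ((J1 - J : ℕ) : ℝ) := Nat.cast_nonneg _
    nlinarith
  have hW := lfo_w1 y J J1
  have hW0 : 0 ≤ W1 y J J1 := hW.1
  have hWL : W1 y J J1 ≤ L := by linarith [hW.2]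
  have hLp : 0 < L := by linarith
  -- the bad sets of the blocks
  have hbad : ∀ j ∈ Ico J J1, ((badB (fun m => T m * Ph (2 ^ j * y) m) N H (H / L ^ (A + 3))).card : ℝ) ≤
      (N / H : ℝ) / L ^ (A + 3) := by
    intro j hj
    rw [mem_Ico] at hj
    have h1 : zz y J ≤ 2 ^ j * y := Nat.mul_le_mul_right _ (Nat.pow_le_pow_right (by norm_num) hj.1)
    have h2 : 2 ^ j * y ≤ zz y J1 := Nat.mul_le_mul_right _ (Nat.pow_le_pow_right (by norm_num) hj.2.le)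
    have h1r : ((zz y J : ℕ) : ℝ) ≤ ((2 ^ j * y : ℕ) : ℝ) := by exact_mod_cast h1
    have h2r : ((2 ^ j * y : ℕ) : ℝ) ≤ ((zz y J1 : ℕ) : ℝ) := by exact_mod_cast h2
    exact hN1 N hNN1 (2 ^ j * y) Q g T (hz1.trans h1r) (h2r.trans hz2) hQ hAdm
  have hsub : (Icc (N / (2 * H)) (4 * N / H)).filter (fun i => ∃ α : ℝ, (H : ℝ) / L ^ A <
        ‖Bs (fun m => (om y J J1 m : ℝ) / 2 * T m - kT * W1 y J J1 / 2 * lamR R m) H i α‖) ⊆
      (Ico J J1).biUnion (fun j => badB (fun m => T m * Ph (2 ^ j * y) m) N H (H / L ^ (A + 3))) := by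
    intro i hi
    rw [mem_filter] at hi
    obtain ⟨hi1, α, hα⟩ := hi
    have hi2 : 1 ≤ i := by
      rw [mem_Icc] at hi1
      have h1 : 1 ≤ N / (2 * H) := (Nat.one_le_div_iff (by omega)).mpr hHN
      omega
    by_contra hcon
    rw [mem_biUnion] at hcon
    push Not at hcon
    have hj : ∀ j ∈ Ico J J1, ‖Bs (fun m => T m * Ph (2 ^ j * y) m) H i α‖ ≤ H / L ^ (A + 3) := by
      intro j hj
      by_contra h
      exact hcon j hj (mem_filter.mpr ⟨hi1, α, not_le.mp h⟩)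
    rw [lfo_split y J J1 hJ T (lamR R) kT H i hH1 hi2 α] at hα
    have h1 : ‖∑ j ∈ Ico J J1, Bs (fun m => T m * Ph (2 ^ j * y) m) H i α‖ ≤
        (2 * L) * (H / L ^ (A + 3)) := by
      refine (norm_sum_le _ _).trans ((Finset.sum_le_sum hj).trans ?_)
      rw [Finset.sum_const, nsmul_eq_mul, Nat.card_Ico]
      exact mul_le_mul_of_nonneg_right hnb (by positivity)
    have h2 := hB i α hi2
    have h3 : ‖(1 / 2 : ℂ) * ∑ j ∈ Ico J J1, Bs (fun m => T m * Ph (2 ^ j * y) m) H i α +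
        ((W1 y J J1 / 2 : ℝ) : ℂ) * Bs (fun m => T m - kT * lamR R m) H i α‖ ≤
        (1 / 2) * ((2 * L) * (H / L ^ (A + 3))) + L / 2 * (H / L ^ (A + 2)) := by
      refine (norm_add_le _ _).trans (add_le_add ?_ ?_)
      · rw [norm_mul]
        have h4 : ‖(1 / 2 : ℂ)‖ = 1 / 2 := by norm_num
        rw [h4]
        exact mul_le_mul_of_nonneg_left h1 (by norm_num)
      · rw [norm_mul, Complex.norm_real, Real.norm_of_nonneg (by linarith)]
        exact mul_le_mul (by linarith) h2 (norm_nonneg _) (by linarith)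
    have h5 : (1 / 2) * ((2 * L) * (H / L ^ (A + 3))) + L / 2 * (H / L ^ (A + 2)) =
        (H : ℝ) / L ^ A * (1 / L ^ 2 + 1 / (2 * L)) := by
      field_simp
      ring
    have h6 : 1 / L ^ 2 + 1 / (2 * L) ≤ 1 := by
      have h7 : 1 / L ^ 2 ≤ 1 / 4 := by
        apply one_div_le_one_div_of_le (by norm_num)
        nlinarith
      have h8 : 1 / (2 * L) ≤ 1 / 4 := by
        apply one_div_le_one_div_of_le (by norm_num)
        linarith
      linarith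
    have h9 : (H : ℝ) / L ^ A * (1 / L ^ 2 + 1 / (2 * L)) ≤ (H : ℝ) / L ^ A * 1 :=
      mul_le_mul_of_nonneg_left h6 (by positivity)
    rw [h5] at h3
    linarith
  refine (Nat.cast_le.mpr ((Finset.card_le_card hsub).trans Finset.card_biUnion_le)).trans ?_
  push_cast
  refine (Finset.sum_le_sum hbad).trans ?_
  rw [Finset.sum_const, nsmul_eq_mul, Nat.card_Ico]
  have h1 : ((J1 - J : ℕ) : ℝ) * ((N / H : ℝ) / L ^ (A + 3)) ≤ (2 * L) * ((N / H : ℝ) / L ^ (A + 3)) :=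
    mul_le_mul_of_nonneg_right hnb (by positivity)
  refine h1.trans ?_
  have h2 : (2 * L) * ((N / H : ℝ) / L ^ (A + 3)) = (N / H : ℝ) / L ^ A * (2 / L ^ 2) := by
    field_simp
    ring
  rw [h2]
  have h3 : 2 / L ^ 2 ≤ 1 := by
    rw [div_le_one (by positivity)]
    nlinarith
  have h4 : (N / H : ℝ) / L ^ A * (2 / L ^ 2) ≤ (N / H : ℝ) / L ^ A * 1 :=
    mul_le_mul_of_nonneg_left h3 (by positivity)
  linarith

end Pool.Agent.H91.TQ
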