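import Pool.Agent.H91.TQ.Defs
import Pool.Agent.H76.TP.ZSum3

/-!
# TQ ZSumC: the main term of `E_3`, least prime in `(N^a, N^b]`, middle prime `> N^b` (compare `e3sum`, `H76/TP/ZSum3.lean`)

`u = log p/L ∈ (a, b]`, `v = log q/L`, `η` small: `b < v ≤ (1-u)/2 + η`, `log(x/(pq)) ≥ L(1-u-v) - log 8 ≥ (1-η) L (1-u-v)` (`1-u-v ≥ 1/4`).  Inner sum: `mert_r` with `f v = 1/(1-u-v)` on `[b, (1-u)/2 + η]`:
`∫_b^((1-u)/2+η) dv/(v(1-u-v)) = (1/(1-u)) [log(v/(1-u-v))] ≤ (1/(1-u)) log((1-u-b)/b) + C η` (`b < (1-u)/2` since `u ≤ b < 1/3`).  Outer sum: `mert_r` on `[a, b]` with `f u = (1/(1-u)) log((1-u-b)/b)` (nonnegative as `u ≤ b < 1/3`,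
Lipschitz): `∫_a^b g3 b u du` (`g3 b u = f u/u`).
-/

set_option autoImplicit false

namespace Pool.Agent.H91.TQ

open Finset MeasureTheory
open Pool.Agent.H76.TP

private theorem ZSumC_log_lip {a b c : ℝ} (hc : 0 < c) (ha : c ≤ a) (hb : c ≤ b) :
    |Real.log a - Real.log b| ≤ |a - b| / c := by
  have key : ∀ s t : ℝ, c ≤ s → c ≤ t → Real.log s - Real.log t ≤ |s - t| / c := by
    intro s t hs ht
    have hs0 : 0 < s := hc.trans_le hs
    have ht0 : 0 < t := hc.trans_le ht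
    rw [← Real.log_div hs0.ne' ht0.ne']
    have h1 : Real.log (s / t) ≤ s / t - 1 := Real.log_le_sub_one_of_pos (div_pos hs0 ht0)
    have h2 : s / t - 1 = (s - t) / t := by
      field_simp
    have h3 : (s - t) / t ≤ |s - t| / t := div_le_div_of_nonneg_right (le_abs_self _) ht0.le
    have h4 : |s - t| / t ≤ |s - t| / c := div_le_div_of_nonneg_left (abs_nonneg _) hc ht
    linarith
  rw [abs_le]
  constructor
  · have := key b a hb ha
    rw [abs_sub_comm] at this
    linarith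
  · exact key a b ha hb

/-- `log ((1-u-b)/b) / (1-u)` -/
private noncomputable def ZSumC_h (b u : ℝ) : ℝ := Real.log ((1 - u - b) / b) / (1 - u)

private theorem ZSumC_log_bd {b u : ℝ} (hb : 1 / 4 < b) (hb2 : b < 1 / 3) (hu : 1 / 4 ≤ u)
    (hu2 : u ≤ b) : 0 ≤ Real.log ((1 - u - b) / b) ∧ Real.log ((1 - u - b) / b) ≤ 1 := by
  have hb0 : 0 < b := by linarith
  constructor
  · apply Real.log_nonneg
    rw [le_div_iff₀ hb0]
    linarith
  · have h1 : (1 - u - b) / b ≤ 2 := by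
      rw [div_le_iff₀ hb0]
      linarith
    have h0 : 0 < (1 - u - b) / b := div_pos (by linarith) hb0
    have h2 : Real.log ((1 - u - b) / b) ≤ (1 - u - b) / b - 1 := Real.log_le_sub_one_of_pos h0
    linarith

private theorem ZSumC_h_bd {b u : ℝ} (hb : 1 / 4 < b) (hb2 : b < 1 / 3) (hu : 1 / 4 ≤ u)
    (hu2 : u ≤ b) : 0 ≤ ZSumC_h b u ∧ ZSumC_h b u ≤ 2 := by
  obtain ⟨h1, h2⟩ := ZSumC_log_bd hb hb2 hu hu2
  have h3 : 0 < 1 - u := by linarith
  unfold ZSumC_h
  refine ⟨div_nonneg h1 h3.le, ?_⟩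
  rw [div_le_iff₀ h3]
  linarith

private theorem ZSumC_h_lip {b u v : ℝ} (hb : 1 / 4 < b) (hb2 : b < 1 / 3) (hu : 1 / 4 ≤ u)
    (hu2 : u ≤ b) (hv : 1 / 4 ≤ v) (hv2 : v ≤ b) : |ZSumC_h b u - ZSumC_h b v| ≤ 26 * |u - v| := by
  have hb0 : 0 < b := by linarith
  have hu1 : (0 : ℝ) < 1 - u := by linarith
  have hv1 : (0 : ℝ) < 1 - v := by linarith
  have hlu : Real.log ((1 - u - b) / b) = Real.log (1 - u - b) - Real.log b :=
    Real.log_div (by linarith) hb0.ne'
  have hlv : Real.log ((1 - v - b) / b) = Real.log (1 - v - b) - Real.log b :=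
    Real.log_div (by linarith) hb0.ne'
  have h1 : |Real.log (1 - u - b) - Real.log (1 - v - b)| ≤ |(1 - u - b) - (1 - v - b)| / (1 / 4) :=
    ZSumC_log_lip (by norm_num) (by linarith) (by linarith)
  have h1' : |(1 - u - b) - (1 - v - b)| = |u - v| := by
    rw [show (1 - u - b) - (1 - v - b) = -(u - v) by ring, abs_neg]
  have h6 : 0 ≤ |u - v| := abs_nonneg _
  have h3 : |Real.log ((1 - u - b) / b) - Real.log ((1 - v - b) / b)| ≤ 4 * |u - v| := by
    rw [hlu, hlv, sub_sub_sub_cancel_right]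
    rw [h1'] at h1
    linarith
  obtain ⟨hm1, hm2⟩ := ZSumC_log_bd hb hb2 hv hv2
  unfold ZSumC_h
  have h8 : Real.log ((1 - u - b) / b) / (1 - u) - Real.log ((1 - v - b) / b) / (1 - v)
      = (Real.log ((1 - u - b) / b) - Real.log ((1 - v - b) / b)) / (1 - u)
        + Real.log ((1 - v - b) / b) * ((u - v) / ((1 - u) * (1 - v))) := by
    field_simp
    ring
  rw [h8]
  have h9 : |(Real.log ((1 - u - b) / b) - Real.log ((1 - v - b) / b)) / (1 - u)| ≤
      8 * |u - v| := by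
    rw [abs_div, abs_of_pos hu1, div_le_iff₀ hu1]
    nlinarith
  have h10 : |Real.log ((1 - v - b) / b) * ((u - v) / ((1 - u) * (1 - v)))| ≤ 4 * |u - v| := by
    rw [abs_mul, abs_of_nonneg hm1, abs_div, abs_of_pos (mul_pos hu1 hv1)]
    have h11 : |u - v| / ((1 - u) * (1 - v)) ≤ 4 * |u - v| := by
      rw [div_le_iff₀ (mul_pos hu1 hv1)]
      have h12 : (1 : ℝ) ≤ 4 * ((1 - u) * (1 - v)) := by nlinarith
      nlinarith
    have h13 : 0 ≤ |u - v| / ((1 - u) * (1 - v)) := div_nonneg (abs_nonneg _) (mul_pos hu1 hv1).le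
    calc Real.log ((1 - v - b) / b) * (|u - v| / ((1 - u) * (1 - v)))
        ≤ 1 * (|u - v| / ((1 - u) * (1 - v))) := mul_le_mul_of_nonneg_right hm2 h13
      _ ≤ 4 * |u - v| := by rw [one_mul]; exact h11
  have h14 := abs_add_le ((Real.log ((1 - u - b) / b) - Real.log ((1 - v - b) / b)) / (1 - u))
    (Real.log ((1 - v - b) / b) * ((u - v) / ((1 - u) * (1 - v))))
  linarith

/-- the inner integral -/
private theorem ZSumC_int {b u η : ℝ} (hb : 1 / 4 < b) (hb2 : b < 1 / 3) (hu : 1 / 4 < u)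
    (hu2 : u ≤ b) (hη : 0 < η) (hη2 : η ≤ 1 / 100) :
    (∫ v in b..((1 - u) / 2 + η), (1 / (1 - u - v)) / v) ≤ ZSumC_h b u + 34 * η := by
  have hu1 : (0 : ℝ) < 1 - u := by linarith
  have hb0 : 0 < b := by linarith
  have hab : b ≤ (1 - u) / 2 + η := by linarith
  have hI : ∀ v ∈ Set.uIcc b ((1 - u) / 2 + η), 0 < v ∧ 0 < 1 - u - v := by
    intro v hv
    rw [Set.uIcc_of_le hab] at hv
    constructor
    · linarith [hv.1]
    · linarith [hv.2]
  have hderiv : ∀ v ∈ Set.uIcc b ((1 - u) / 2 + η),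
      HasDerivAt (fun v => (Real.log v - Real.log (1 - u - v)) / (1 - u))
        ((1 / (1 - u - v)) / v) v := by
    intro v hv
    obtain ⟨h1, h2⟩ := hI v hv
    have h3 : HasDerivAt (fun v => Real.log v) v⁻¹ v := Real.hasDerivAt_log h1.ne'
    have h4 : HasDerivAt (fun v => 1 - u - v) (-1) v := by
      simpa using (hasDerivAt_id v).const_sub (1 - u)
    have h5 : HasDerivAt (fun v => Real.log (1 - u - v)) (-1 / (1 - u - v)) v := h4.log h2.ne'
    have h6 := (h3.sub h5).div_const (1 - u)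
    have h7 : (v⁻¹ - -1 / (1 - u - v)) / (1 - u) = (1 / (1 - u - v)) / v := by
      field_simp
      ring
    rw [h7] at h6
    exact h6
  have hcont : ContinuousOn (fun v => (1 / (1 - u - v)) / v)
      (Set.uIcc b ((1 - u) / 2 + η)) := by
    refine ContinuousOn.div (ContinuousOn.div continuousOn_const
      (continuousOn_const.sub continuousOn_id) ?_) continuousOn_id ?_
    · intro v hv
      exact (hI v hv).2.ne'
    · intro v hv
      exact (hI v hv).1.ne'
  rw [intervalIntegral.integral_eq_sub_of_hasDerivAt hderiv hcont.intervalIntegrable]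
  have e1 : 1 - u - ((1 - u) / 2 + η) = (1 - u) / 2 - η := by ring
  rw [e1]
  have h1 : |Real.log ((1 - u) / 2 + η) - Real.log ((1 - u) / 2 - η)| ≤
      |((1 - u) / 2 + η) - ((1 - u) / 2 - η)| / (1 / 4) :=
    ZSumC_log_lip (by norm_num) (by linarith) (by linarith)
  have h1' : |((1 - u) / 2 + η) - ((1 - u) / 2 - η)| = 2 * η := by
    rw [show ((1 - u) / 2 + η) - ((1 - u) / 2 - η) = 2 * η by ring, abs_of_pos (by linarith)]
  rw [h1'] at h1
  have h4 := (abs_le.1 h1).2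
  have h7 : Real.log ((1 - u - b) / b) = Real.log (1 - u - b) - Real.log b :=
    Real.log_div (by linarith) hb0.ne'
  unfold ZSumC_h
  rw [← sub_div, div_add' _ _ _ hu1.ne', div_le_div_iff_of_pos_right hu1]
  nlinarith

/-- the outer integral -/
private theorem ZSumC_outer {a b η : ℝ} (ha : 1 / 4 < a) (hab : a < b) (hb2 : b < 1 / 3)
    (hη : 0 < η) :
    (∫ u in a..b, (ZSumC_h b u + 35 * η) / u) ≤ (∫ u in a..b, g3 b u) + 70 * η := by
  have hb0 : 0 < b := by linarith
  have hmem : ∀ u ∈ Set.Icc a b, 1 / 4 < u ∧ u < 1 / 3 := by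
    intro u hu
    exact ⟨by linarith [hu.1], by linarith [hu.2]⟩
  have hu0' : ∀ u ∈ Set.Icc a b, u ≠ 0 := fun u hu => by
    have := (hmem u hu).1
    exact (by linarith : (0 : ℝ) < u).ne'
  have hu1' : ∀ u ∈ Set.Icc a b, 1 - u ≠ 0 := fun u hu => by
    have := (hmem u hu).2
    exact (by linarith : (0 : ℝ) < 1 - u).ne'
  have hu2' : ∀ u ∈ Set.Icc a b, (1 - u - b) / b ≠ 0 := fun u hu => by
    have h2 := (hmem u hu).2
    exact (div_pos (by linarith) hb0 : (0 : ℝ) < (1 - u - b) / b).ne'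
  have hcid : ContinuousOn (fun u : ℝ => u) (Set.Icc a b) := continuousOn_id
  have hc1 : ContinuousOn (fun u : ℝ => (1 - u - b) / b) (Set.Icc a b) :=
    ((continuousOn_const.sub hcid).sub continuousOn_const).div_const b
  have hc2 : ContinuousOn (fun u : ℝ => Real.log ((1 - u - b) / b)) (Set.Icc a b) :=
    hc1.log hu2'
  have hch : ContinuousOn (fun u => ZSumC_h b u / u) (Set.Icc a b) := by
    unfold ZSumC_h
    exact (hc2.div (continuousOn_const.sub hcid) hu1').div hcid hu0'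
  have hce : ContinuousOn (fun u => 35 * η / u) (Set.Icc a b) := by
    exact continuousOn_const.div hcid hu0'
  have hi1 : IntervalIntegrable (fun u => ZSumC_h b u / u) volume a b := by
    apply ContinuousOn.intervalIntegrable
    rw [Set.uIcc_of_le hab.le]
    exact hch
  have hi2 : IntervalIntegrable (fun u => 35 * η / u) volume a b := by
    apply ContinuousOn.intervalIntegrable
    rw [Set.uIcc_of_le hab.le]
    exact hce
  have hsplit : (∫ u in a..b, (ZSumC_h b u + 35 * η) / u) =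
      (∫ u in a..b, ZSumC_h b u / u) + ∫ u in a..b, 35 * η / u := by
    rw [← intervalIntegral.integral_add hi1 hi2]
    refine intervalIntegral.integral_congr fun u _ => ?_
    exact add_div _ _ _
  have h1 : (∫ u in a..b, ZSumC_h b u / u) = ∫ u in a..b, g3 b u := by
    refine intervalIntegral.integral_congr fun u _ => ?_
    simp only [ZSumC_h, g3]
    rw [div_div, mul_comm (1 - u) u]
  have h4 : (∫ u in a..b, 35 * η / u) ≤ 70 * η := by
    have h5 : (∫ u in a..b, 35 * η / u) ≤ ∫ _u in a..b, 140 * η := by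
      refine intervalIntegral.integral_mono_on hab.le hi2 intervalIntegrable_const ?_
      intro u hu
      have hu0 : (0 : ℝ) < u := by linarith [hu.1]
      rw [div_le_iff₀ hu0]
      nlinarith [hu.1]
    rw [intervalIntegral.integral_const, smul_eq_mul] at h5
    nlinarith
  rw [hsplit, h1]
  linarith

private theorem ZSumC_rpow_lt {N q : ℕ} {a : ℝ} (hN : (0 : ℝ) < N) (hq : (0 : ℝ) < q) :
    (N : ℝ) ^ a < q ↔ a * Real.log N < Real.log q := by
  rw [Real.rpow_def_of_pos hN, ← Real.lt_log_iff_exp_lt hq, mul_comm]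

private theorem ZSumC_le_rpow {N q : ℕ} {a : ℝ} (hN : (0 : ℝ) < N) (hq : (0 : ℝ) < q) :
    (q : ℝ) ≤ (N : ℝ) ^ a ↔ Real.log q ≤ a * Real.log N := by
  rw [Real.rpow_def_of_pos hN, ← Real.log_le_iff_le_exp hq, mul_comm]

private theorem ZSumC_log16 : Real.log 16 ≤ 3 := by
  have h1 : Real.log 16 = 4 * Real.log 2 := by
    rw [show (16 : ℝ) = 2 ^ (4 : ℕ) by norm_num, Real.log_pow]
    norm_num
  have h2 := Real.log_two_lt_d9
  rw [h1]
  linarith

private theorem ZSumC_log8 : Real.log 8 ≤ 3 := by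
  have h1 : Real.log 8 = 3 * Real.log 2 := by
    rw [show (8 : ℝ) = 2 ^ (3 : ℕ) by norm_num, Real.log_pow]
    norm_num
  have h2 := Real.log_two_lt_d9
  rw [h1]
  linarith

theorem e3m (a b ε : ℝ) (ha : 1 / 4 < a) (hab : a < b) (hb : b < 1 / 3) (hε : 0 < ε) : ∃ N0 : ℕ, ∀ N : ℕ, N0 ≤ N → ∀ x : ℕ,
    N ≤ 8 * x → x ≤ 8 * N →
      ∑ p ∈ (Icc 1 N).filter (fun p : ℕ => p.Prime ∧ (N : ℝ) ^ a < p ∧ (p : ℝ) ≤ (N : ℝ) ^ b),
        ∑ q ∈ (Icc 1 (16 * N)).filter (fun q : ℕ => q.Prime ∧ (N : ℝ) ^ b < q ∧ p * q ^ 2 ≤ 16 * N),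
          1 / (p * q * Real.log ((x : ℝ) / (p * q))) ≤ ((∫ u in a..b, g3 b u) + ε) / Real.log N := by
  have hb4 : 1 / 4 < b := ha.trans hab
  obtain ⟨Z, hZ⟩ : ∃ Z, Z = ∫ u in a..b, g3 b u := ⟨_, rfl⟩
  rw [← hZ]
  -- parameters
  obtain ⟨η, hη, hη2, hηε⟩ : ∃ η : ℝ, 0 < η ∧ η ≤ 1 / 100 ∧ η * (71 + |Z| + ε) ≤ ε := by
    refine ⟨min (1 / 100) (ε / (71 + |Z| + ε)), ?_, min_le_left _ _, ?_⟩
    · have : 0 < 71 + |Z| + ε := by positivity
      exact lt_min (by norm_num) (div_pos hε this)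
    · have h0 : 0 < 71 + |Z| + ε := by positivity
      calc min (1 / 100) (ε / (71 + |Z| + ε)) * (71 + |Z| + ε)
          ≤ ε / (71 + |Z| + ε) * (71 + |Z| + ε) :=
            mul_le_mul_of_nonneg_right (min_le_right _ _) h0.le
        _ = ε := div_mul_cancel₀ _ h0.ne'
  obtain ⟨N1, hN1⟩ := mert_r (1 / 5) 20 η (by norm_num) (by norm_num) hη
  obtain ⟨N2, hN2⟩ := mert_r (1 / 4) 30 η (by norm_num) (by norm_num) hη
  refine ⟨max (max N1 N2) (max 1 ⌈Real.exp (12 / η)⌉₊), fun N hN x hx1 _ => ?_⟩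
  have hNN1 : N1 ≤ N := (le_max_left _ _).trans ((le_max_left _ _).trans hN)
  have hNN2 : N2 ≤ N := (le_max_right _ _).trans ((le_max_left _ _).trans hN)
  have hNpos : 1 ≤ N := (le_max_left _ _).trans ((le_max_right _ _).trans hN)
  have hNexp : Real.exp (12 / η) ≤ N :=
    (Nat.le_ceil _).trans (by exact_mod_cast (le_max_right _ _).trans ((le_max_right _ _).trans hN))
  have hN0 : (0 : ℝ) < N := by exact_mod_cast hNpos
  have hL : 12 / η ≤ Real.log N := by
    rw [Real.le_log_iff_exp_le hN0]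
    exact hNexp
  obtain ⟨L, hLdef⟩ : ∃ L, L = Real.log N := ⟨_, rfl⟩
  rw [← hLdef] at hL
  have hηL : 12 ≤ η * L := by
    rw [div_le_iff₀ hη] at hL
    linarith
  have hL0 : 0 < L := by
    by_contra hcon
    have : η * L ≤ 0 := mul_nonpos_of_nonneg_of_nonpos hη.le (not_lt.1 hcon)
    linarith
  have hlog16 := ZSumC_log16
  have hlog8 := ZSumC_log8
  have h1η : 0 < 1 - η := by linarith
  -- facts about `p`
  have hp : ∀ p ∈ (Icc 1 N).filter (fun p : ℕ => p.Prime ∧ (N : ℝ) ^ a < p ∧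
      (p : ℝ) ≤ (N : ℝ) ^ b), (0 : ℝ) < p ∧ a * L < Real.log p ∧ Real.log p ≤ b * L := by
    intro p hp
    rw [Finset.mem_filter, Finset.mem_Icc] at hp
    obtain ⟨⟨h1, -⟩, -, h3, h4⟩ := hp
    have hp0 : (0 : ℝ) < p := by exact_mod_cast h1
    refine ⟨hp0, ?_, ?_⟩
    · rw [hLdef]
      exact (ZSumC_rpow_lt hN0 hp0).1 h3
    · rw [hLdef]
      exact (ZSumC_le_rpow hN0 hp0).1 h4
  -- facts about `q`
  have hq : ∀ p ∈ (Icc 1 N).filter (fun p : ℕ => p.Prime ∧ (N : ℝ) ^ a < p ∧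
      (p : ℝ) ≤ (N : ℝ) ^ b), ∀ q ∈ (Icc 1 (16 * N)).filter
        (fun q : ℕ => q.Prime ∧ (N : ℝ) ^ b < q ∧ p * q ^ 2 ≤ 16 * N),
      (0 : ℝ) < q ∧ q.Prime ∧ (N : ℝ) ^ b < q ∧
      Real.log q ≤ ((1 - Real.log p / L) / 2 + η) * L := by
    intro p hpm q hqm
    obtain ⟨hp0, -, -⟩ := hp p hpm
    rw [Finset.mem_filter, Finset.mem_Icc] at hqm
    obtain ⟨⟨h1, -⟩, h2, h8, h3⟩ := hqm
    have hq0 : (0 : ℝ) < q := by exact_mod_cast h1
    refine ⟨hq0, h2, h8, ?_⟩
    have h5 : (p : ℝ) * (q : ℝ) ^ 2 ≤ 16 * N := by exact_mod_cast h3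
    have h6 : Real.log ((p : ℝ) * (q : ℝ) ^ 2) ≤ Real.log (16 * N) :=
      Real.log_le_log (by positivity) h5
    rw [Real.log_mul hp0.ne' (by positivity), Real.log_pow, Real.log_mul (by norm_num) hN0.ne',
      ← hLdef] at h6
    push_cast at h6
    have h7 : ((1 - Real.log p / L) / 2 + η) * L = (L - Real.log p) / 2 + η * L := by
      field_simp
    rw [h7]
    linarith
  -- the inner sum
  have hinner : ∀ p ∈ (Icc 1 N).filter (fun p : ℕ => p.Prime ∧ (N : ℝ) ^ a < p ∧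
      (p : ℝ) ≤ (N : ℝ) ^ b), ∑ q ∈ (Icc 1 (16 * N)).filter
        (fun q : ℕ => q.Prime ∧ (N : ℝ) ^ b < q ∧ p * q ^ 2 ≤ 16 * N),
        1 / (p * q * Real.log ((x : ℝ) / (p * q))) ≤
      1 / ((1 - η) * L) * ((ZSumC_h b (Real.log p / L) + 35 * η) / p) := by
    intro p hpm
    obtain ⟨hp0, hpl, hpu⟩ := hp p hpm
    obtain ⟨u, hu⟩ : ∃ u, u = Real.log p / L := ⟨_, rfl⟩
    have hpu' : Real.log p = u * L := by rw [hu, div_mul_cancel₀ _ hL0.ne']
    have hu1 : a < u := by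
      rw [hpu'] at hpl
      exact lt_of_mul_lt_mul_right hpl hL0.le
    have hu2 : u ≤ b := by
      rw [hpu'] at hpu
      exact le_of_mul_le_mul_right hpu hL0
    have hu0 : 1 / 4 < u := ha.trans hu1
    -- Mertens
    have hM := hN1 N hNN1 b ((1 - u) / 2 + η) (fun v => 1 / (1 - u - v)) (by linarith)
      (by linarith) (by linarith) (by
        intro v hv
        have h1 : 1 / 4 ≤ 1 - u - v := by linarith [hv.2]
        have h2 : 0 < 1 - u - v := by linarith
        refine ⟨(one_div_pos.2 h2).le, ?_⟩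
        show 1 / (1 - u - v) ≤ 20
        rw [div_le_iff₀ h2]
        linarith) (by
        intro v hv w hw
        have h1 : 1 / 4 ≤ 1 - u - v := by linarith [hv.2]
        have h2 : 1 / 4 ≤ 1 - u - w := by linarith [hw.2]
        have h3 : 0 < 1 - u - v := by linarith
        have h4 : 0 < 1 - u - w := by linarith
        show |1 / (1 - u - v) - 1 / (1 - u - w)| ≤ 20 * |v - w|
        have h5 : 1 / (1 - u - v) - 1 / (1 - u - w) = (v - w) / ((1 - u - v) * (1 - u - w)) := by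
          field_simp
          ring
        rw [h5, abs_div, abs_of_pos (mul_pos h3 h4), div_le_iff₀ (mul_pos h3 h4)]
        have h6 : 1 / 16 ≤ (1 - u - v) * (1 - u - w) := by nlinarith
        have h7 : 0 ≤ |v - w| := abs_nonneg _
        nlinarith)
    have hInt := ZSumC_int hb4 hb hu0 hu2 hη hη2
    rw [← hLdef] at hM
    -- termwise bound
    have hterm : ∀ q ∈ (Icc 1 (16 * N)).filter
        (fun q : ℕ => q.Prime ∧ (N : ℝ) ^ b < q ∧ p * q ^ 2 ≤ 16 * N),
        1 / (p * q * Real.log ((x : ℝ) / (p * q))) ≤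
        1 / ((1 - η) * L) / p * ((1 / (1 - u - Real.log q / L)) / q) := by
      intro q hqm
      obtain ⟨hq0, -, -, hq2⟩ := hq p hpm q hqm
      rw [← hu] at hq2
      obtain ⟨v, hv⟩ : ∃ v, v = Real.log q / L := ⟨_, rfl⟩
      have hqv : Real.log q = v * L := by rw [hv, div_mul_cancel₀ _ hL0.ne']
      have hv2 : v ≤ (1 - u) / 2 + η := by
        rw [hqv] at hq2
        exact le_of_mul_le_mul_right hq2 hL0
      rw [← hv]
      have hD : 1 / 4 ≤ 1 - u - v := by linarith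
      have hD0 : 0 < 1 - u - v := by linarith
      have hx0 : (0 : ℝ) < x := by
        have : 0 < x := by omega
        exact_mod_cast this
      have hlx : L - Real.log 8 ≤ Real.log x := by
        have h1 : (N : ℝ) ≤ 8 * x := by exact_mod_cast hx1
        have h2 := Real.log_le_log hN0 h1
        rw [Real.log_mul (by norm_num) hx0.ne', ← hLdef] at h2
        linarith
      have hlog : (1 - η) * L * (1 - u - v) ≤ Real.log ((x : ℝ) / (p * q)) := by
        rw [Real.log_div hx0.ne' (mul_pos hp0 hq0).ne', Real.log_mul hp0.ne' hq0.ne', hpu', hqv]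
        have h1 : 3 ≤ η * L * (1 - u - v) := by nlinarith
        have h2 : (1 - η) * L * (1 - u - v) = L * (1 - u - v) - η * L * (1 - u - v) := by ring
        rw [h2]
        linarith
      have hpos : 0 < (1 - η) * L * (1 - u - v) := by positivity
      have e : 1 / ((1 - η) * L) / p * ((1 / (1 - u - v)) / q) =
          1 / (p * q * ((1 - η) * L * (1 - u - v))) := by
        field_simp
      rw [e]
      apply one_div_le_one_div_of_le (by positivity)
      exact mul_le_mul_of_nonneg_left hlog (mul_pos hp0 hq0).le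
    calc ∑ q ∈ (Icc 1 (16 * N)).filter
          (fun q : ℕ => q.Prime ∧ (N : ℝ) ^ b < q ∧ p * q ^ 2 ≤ 16 * N),
          1 / (p * q * Real.log ((x : ℝ) / (p * q)))
        ≤ ∑ q ∈ (Icc 1 (16 * N)).filter
            (fun q : ℕ => q.Prime ∧ (N : ℝ) ^ b < q ∧ p * q ^ 2 ≤ 16 * N),
          1 / ((1 - η) * L) / p * ((1 / (1 - u - Real.log q / L)) / q) := Finset.sum_le_sum hterm
      _ = 1 / ((1 - η) * L) / p *
          ∑ q ∈ (Icc 1 (16 * N)).filter
            (fun q : ℕ => q.Prime ∧ (N : ℝ) ^ b < q ∧ p * q ^ 2 ≤ 16 * N),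
            (1 / (1 - u - Real.log q / L)) / q := by rw [Finset.mul_sum]
      _ ≤ 1 / ((1 - η) * L) / p * (ZSumC_h b u + 35 * η) := by
          refine mul_le_mul_of_nonneg_left ?_ (by positivity)
          have hsub : (Icc 1 (16 * N)).filter
              (fun q : ℕ => q.Prime ∧ (N : ℝ) ^ b < q ∧ p * q ^ 2 ≤ 16 * N) ⊆
              (Icc 1 N).filter (fun q : ℕ => q.Prime ∧ (N : ℝ) ^ b < q ∧
                (q : ℝ) ≤ (N : ℝ) ^ ((1 - u) / 2 + η)) := by
            intro q hqm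
            obtain ⟨hq0, hqp, hq1, hq2⟩ := hq p hpm q hqm
            rw [← hu] at hq2
            rw [Finset.mem_filter, Finset.mem_Icc]
            have h1 : (q : ℝ) ≤ (N : ℝ) ^ ((1 - u) / 2 + η) := by
              rw [ZSumC_le_rpow hN0 hq0, ← hLdef]
              exact hq2
            refine ⟨⟨hqp.one_lt.le, ?_⟩, hqp, hq1, h1⟩
            have h2 : (N : ℝ) ^ ((1 - u) / 2 + η) ≤ (N : ℝ) ^ (1 : ℝ) :=
              Real.rpow_le_rpow_of_exponent_le (by exact_mod_cast hNpos) (by linarith)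
            rw [Real.rpow_one] at h2
            exact_mod_cast h1.trans h2
          have h1 : ∑ q ∈ (Icc 1 (16 * N)).filter
              (fun q : ℕ => q.Prime ∧ (N : ℝ) ^ b < q ∧ p * q ^ 2 ≤ 16 * N),
              (1 / (1 - u - Real.log q / L)) / (q : ℝ) ≤
              ∑ q ∈ (Icc 1 N).filter (fun q : ℕ => q.Prime ∧ (N : ℝ) ^ b < q ∧
                (q : ℝ) ≤ (N : ℝ) ^ ((1 - u) / 2 + η)),
              (1 / (1 - u - Real.log q / L)) / (q : ℝ) := by
            refine Finset.sum_le_sum_of_subset_of_nonneg hsub ?_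
            intro q hqm _
            rw [Finset.mem_filter, Finset.mem_Icc] at hqm
            obtain ⟨⟨h2, -⟩, -, -, h3⟩ := hqm
            have hq0 : (0 : ℝ) < q := by exact_mod_cast h2
            rw [ZSumC_le_rpow hN0 hq0, ← hLdef] at h3
            have h4 : Real.log q / L ≤ (1 - u) / 2 + η := by
              rw [div_le_iff₀ hL0]
              exact h3
            have h5 : 0 < 1 - u - Real.log q / L := by linarith
            positivity
          have h2 := h1.trans hM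
          linarith
      _ = 1 / ((1 - η) * L) * ((ZSumC_h b (Real.log p / L) + 35 * η) / p) := by
          rw [← hu]
          ring
  -- the outer sum
  have hO := hN2 N hNN2 a b (fun u => ZSumC_h b u + 35 * η) ha.le hab.le
    (by linarith) (by
      intro u hu
      obtain ⟨h1, h2⟩ := ZSumC_h_bd (u := u) hb4 hb (by linarith [hu.1]) hu.2
      exact ⟨by linarith, by linarith⟩) (by
      intro u hu v hv
      show |ZSumC_h b u + 35 * η - (ZSumC_h b v + 35 * η)| ≤ 30 * |u - v|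
      rw [add_sub_add_right_eq_sub]
      have h1 := ZSumC_h_lip (u := u) (v := v) hb4 hb (by linarith [hu.1]) hu.2
        (by linarith [hv.1]) hv.2
      have h2 : 0 ≤ |u - v| := abs_nonneg _
      linarith)
  rw [← hLdef] at hO
  have hOI := ZSumC_outer ha hab hb hη
  rw [← hZ] at hOI
  rw [← hLdef]
  calc ∑ p ∈ (Icc 1 N).filter (fun p : ℕ => p.Prime ∧ (N : ℝ) ^ a < p ∧ (p : ℝ) ≤ (N : ℝ) ^ b),
        ∑ q ∈ (Icc 1 (16 * N)).filter (fun q : ℕ => q.Prime ∧ (N : ℝ) ^ b < q ∧ p * q ^ 2 ≤ 16 * N),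
          1 / (p * q * Real.log ((x : ℝ) / (p * q)))
      ≤ ∑ p ∈ (Icc 1 N).filter (fun p : ℕ => p.Prime ∧ (N : ℝ) ^ a < p ∧ (p : ℝ) ≤ (N : ℝ) ^ b),
        1 / ((1 - η) * L) * ((ZSumC_h b (Real.log p / L) + 35 * η) / p) :=
        Finset.sum_le_sum hinner
    _ = 1 / ((1 - η) * L) *
        ∑ p ∈ (Icc 1 N).filter (fun p : ℕ => p.Prime ∧ (N : ℝ) ^ a < p ∧ (p : ℝ) ≤ (N : ℝ) ^ b),
          (ZSumC_h b (Real.log p / L) + 35 * η) / p := by rw [Finset.mul_sum]
    _ ≤ 1 / ((1 - η) * L) * (Z + 71 * η) := by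
        refine mul_le_mul_of_nonneg_left ?_ (by positivity)
        linarith
    _ ≤ (Z + ε) / L := by
        rw [div_mul_eq_mul_div, one_mul, div_le_div_iff₀ (by positivity) hL0]
        have h1 : Z ≤ |Z| := le_abs_self _
        have h2 : η * Z ≤ η * |Z| := mul_le_mul_of_nonneg_left h1 hη.le
        have h3 : Z + 71 * η ≤ (Z + ε) * (1 - η) := by nlinarith
        calc (Z + 71 * η) * L ≤ ((Z + ε) * (1 - η)) * L :=
              mul_le_mul_of_nonneg_right h3 hL0.le
          _ = (Z + ε) * ((1 - η) * L) := by ring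

end Pool.Agent.H91.TQ
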