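import Pool.Agent.H91.TQ.ZSumA
import Pool.Agent.H91.TQ.ZSumB
import Pool.Agent.H91.TQ.ZSumC
import Pool.Agent.H76.TP.PntI

/-!
# TQ ZCntQ: weighted count of the numbers with all prime factors `> N^ζ'` in short intervals (compare `zcount`, `H76/TP/ZCnt.lean`)

`v(m) = 1 - (1/2) #{p ∣ m : N^ζ < p ≤ N^κ}`, `1/4 < ζ' < ζ < κ < 1/3`, `m ∈ (x, x+l]` `N^ζ'`-rough, so `N/8 < m ≤ 16N < N^(4ζ')`: `m` has 1, 2 or 3 prime factors (with multiplicity).  `ε'` small.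
* `m = p` (`p > N^κ`): `v = 1`; `pnt_int` with `d = 1`: `≤ (1+ε') l/log x`.
* `m = p q`, `p ≤ q` (`q > N^κ` since `q² ≥ m ≥ N/8`): `v = 1` if `p ≤ N^ζ` or `p > N^κ`, `v = 1/2` if `N^ζ < p ≤ N^κ`; `q ∈ (x/p, (x+l)/p]`: `pnt_int` with `d = p ≤ 4 √N`.  `e2r ζ' ζ`, `(1/2) e2r ζ κ`, `e2sum κ`:
  `≤ (1+ε') ((Z2 ζ' - Z2 ζ) + (Z2 ζ - Z2 κ)/2 + Z2 κ + 3ε') l/L`.
* `m = p q r`, `p ≤ q ≤ r`, `p³ ≤ 16N`, `p q² ≤ 16N`, `r ∈ (x/(pq), (x+l)/(pq)]`, `pnt_int` with `d = p q ≤ (16N)^(2/3)`: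
  - `p ≤ N^ζ`: `v ≤ 1`, `e3r ζ' ζ`;
  - `N^ζ < p ≤ N^κ`, `q > N^κ`: `v ≤ 1/2`, `(1/2) e3m ζ κ`;
  - `N^ζ < p ≤ N^κ`, `q ≤ N^κ`, `p ≠ q`: `v ≤ 0`;  `p = q`: `v ≤ 1/2`, but these `m` are divisible by `p²`, `p > N^(1/4)`: at most `∑_{N^(1/4) < p ≤ 4√N} (l/p² + 1) ≤ 2 l N^(-1/4) + 4 √N ≤ ε' l/L` of them;
  - `p > N^κ`: `v ≤ 1`, `e3sum κ`.
Sum: `(MQ ζ' ζ κ + ε) l/L`, `MQ ζ' ζ κ = 1 + (Z2 ζ' - Z2 ζ) + (Z2 ζ - Z2 κ)/2 + Z2 κ + ∫_ζ'^ζ f3 + (1/2) ∫_ζ^κ g3 κ + Z3 κ`.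
-/

set_option autoImplicit false

namespace Pool.Agent.H91.TQ

open Finset MeasureTheory
open Pool.Agent.H76.TP

/-- numbers with all prime factors `> y`, `m < y ^ 4`: one, two or three prime factors -/
private theorem ZCntQ_split {N x l : ℕ} {y : ℝ} (hy : 0 ≤ y) (h4 : (16 * N : ℝ) < y ^ 4)
    (hx : 1 ≤ x) (hxl : x + l ≤ 16 * N) {m : ℕ} (hm1 : x < m) (hm2 : m ≤ x + l)
    (hr : ∀ p : ℕ, p.Prime → p ∣ m → y < p) :
    m.Prime ∨
      (∃ p q : ℕ, p.Prime ∧ y < p ∧ p ^ 2 ≤ 16 * N ∧ q.Prime ∧ m = p * q) ∨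
      (∃ p q r : ℕ, p.Prime ∧ y < p ∧ p ^ 3 ≤ 16 * N ∧ q.Prime ∧ p ≤ q ∧ p * q ^ 2 ≤ 16 * N ∧
        r.Prime ∧ m = p * q * r) := by
  have hm0 : m ≠ 1 := by omega
  have hm16 : m ≤ 16 * N := hm2.trans hxl
  obtain ⟨p, hp⟩ : ∃ p, p = m.minFac := ⟨_, rfl⟩
  have hpp : p.Prime := hp ▸ Nat.minFac_prime hm0
  have hpm : p ∣ m := hp ▸ Nat.minFac_dvd m
  obtain ⟨m1, hm1'⟩ := id hpm
  by_cases h1 : m1 = 1
  · left
    rw [hm1', h1, mul_one]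
    exact hpp
  obtain ⟨q, hq⟩ : ∃ q, q = m1.minFac := ⟨_, rfl⟩
  have hqp : q.Prime := hq ▸ Nat.minFac_prime h1
  have hqm1 : q ∣ m1 := hq ▸ Nat.minFac_dvd m1
  have hqm : q ∣ m := hqm1.trans ⟨p, by rw [hm1', mul_comm]⟩
  have hpq : p ≤ q := by
    rw [hp]
    exact Nat.minFac_le_of_dvd hqp.two_le hqm
  obtain ⟨m2, hm2'⟩ := id hqm1
  by_cases h2 : m2 = 1
  · right
    left
    rw [h2, mul_one] at hm2'
    refine ⟨p, q, hpp, hr p hpp hpm, ?_, hqp, by rw [hm1', hm2']⟩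
    calc p ^ 2 = p * p := sq p
      _ ≤ p * q := Nat.mul_le_mul_left p hpq
      _ = m := by rw [hm1', hm2']
      _ ≤ 16 * N := hm16
  obtain ⟨r, hr'⟩ : ∃ r, r = m2.minFac := ⟨_, rfl⟩
  have hrp : r.Prime := hr' ▸ Nat.minFac_prime h2
  have hrm2 : r ∣ m2 := hr' ▸ Nat.minFac_dvd m2
  have hrm1 : r ∣ m1 := hrm2.trans ⟨q, by rw [hm2', mul_comm]⟩
  have hrm : r ∣ m := hrm1.trans ⟨p, by rw [hm1', mul_comm]⟩
  have hqr : q ≤ r := by
    rw [hq]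
    exact Nat.minFac_le_of_dvd hrp.two_le hrm1
  obtain ⟨m3, hm3'⟩ := id hrm2
  by_cases h3 : m3 = 1
  · right
    right
    rw [h3, mul_one] at hm3'
    have hm : m = p * q * r := by rw [hm1', hm2', hm3', mul_assoc]
    refine ⟨p, q, r, hpp, hr p hpp hpm, ?_, hqp, hpq, ?_, hrp, hm⟩
    · calc p ^ 3 = p * p * p := by ring
        _ ≤ p * q * r := Nat.mul_le_mul (Nat.mul_le_mul_left p hpq) (hpq.trans hqr)
        _ = m := hm.symm
        _ ≤ 16 * N := hm16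
    · calc p * q ^ 2 = p * q * q := by ring
        _ ≤ p * q * r := Nat.mul_le_mul_left _ hqr
        _ = m := hm.symm
        _ ≤ 16 * N := hm16
  · exfalso
    obtain ⟨s, hs⟩ : ∃ s, s = m3.minFac := ⟨_, rfl⟩
    have hsp : s.Prime := hs ▸ Nat.minFac_prime h3
    have hsm3 : s ∣ m3 := hs ▸ Nat.minFac_dvd m3
    have hm : m = p * q * r * m3 := by rw [hm1', hm2', hm3']; ring
    have hsm : s ∣ m := hsm3.trans ⟨p * q * r, by rw [hm, mul_comm]⟩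
    have hm30 : 0 < m3 := by
      rcases Nat.eq_zero_or_pos m3 with h | h
      · rw [h, mul_zero] at hm
        omega
      · exact h
    have hsle : s ≤ m3 := Nat.le_of_dvd hm30 hsm3
    have e1 := hr p hpp hpm
    have e2 := hr q hqp hqm
    have e3 := hr r hrp hrm
    have e4 := hr s hsp hsm
    have h5 : y ^ 4 ≤ (p : ℝ) * q * r * s := by
      have : y ^ 4 = y * y * y * y := by ring
      rw [this]
      gcongr
    have h6 : ((p * q * r * s : ℕ) : ℝ) ≤ ((16 * N : ℕ) : ℝ) := by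
      have : p * q * r * s ≤ p * q * r * m3 := Nat.mul_le_mul_left _ hsle
      exact_mod_cast (this.trans (hm ▸ le_rfl)).trans hm16
    push_cast at h6
    linarith


private theorem ZCntQ_size {N x d : ℕ} (hN : (2 : ℝ) ^ 17 ≤ (N : ℝ) ^ (1 / 4 : ℝ))
    (hx : N ≤ 8 * x) (hd : d ^ 6 ≤ (16 * N) ^ 4) : (N : ℝ) ^ (1 / 4 : ℝ) * d ≤ x := by
  have hx' : (N : ℝ) ≤ 8 * x := by exact_mod_cast hx
  have hN0 : (0 : ℝ) ≤ N := Nat.cast_nonneg N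
  have hd' : (d : ℝ) ^ 3 ≤ (16 * N) ^ 2 := by
    have h1 : ((d : ℝ) ^ 3) ^ 2 ≤ (((16 : ℝ) * N) ^ 2) ^ 2 := by
      have h2 : ((d ^ 6 : ℕ) : ℝ) ≤ (((16 * N) ^ 4 : ℕ) : ℝ) := by exact_mod_cast hd
      push_cast at h2
      calc ((d : ℝ) ^ 3) ^ 2 = (d : ℝ) ^ 6 := by ring
        _ ≤ ((16 : ℝ) * N) ^ 4 := h2
        _ = (((16 : ℝ) * N) ^ 2) ^ 2 := by ring
    exact (pow_le_pow_iff_left₀ (by positivity) (by positivity) two_ne_zero).1 h1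
  obtain ⟨a, ha⟩ : ∃ a : ℝ, a = (N : ℝ) ^ (1 / 4 : ℝ) := ⟨_, rfl⟩
  have ha4 : a ^ 4 = N := by
    rw [ha, ← Real.rpow_natCast, ← Real.rpow_mul hN0]
    norm_num
  rw [← ha] at hN ⊢
  have ha0 : 0 ≤ a := le_trans (by positivity) hN
  have h3 : (a * d) ^ 3 ≤ ((N : ℝ) / 8) ^ 3 := by
    have h4 : (a * d) ^ 3 = a ^ 3 * (d : ℝ) ^ 3 := by ring
    have h5 : a ^ 3 * (d : ℝ) ^ 3 ≤ a ^ 3 * (16 * N) ^ 2 :=
      mul_le_mul_of_nonneg_left hd' (by positivity)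
    have h6 : a ^ 3 * (16 * (N : ℝ)) ^ 2 = 256 * a ^ 11 := by
      rw [← ha4]; ring
    have h7 : ((N : ℝ) / 8) ^ 3 = a ^ 11 * a / 512 := by
      rw [← ha4]; ring
    have h8 : (0 : ℝ) ≤ a ^ 11 := by positivity
    have h9 : a ^ 11 * (2 : ℝ) ^ 17 ≤ a ^ 11 * a := mul_le_mul_of_nonneg_left hN h8
    rw [h4, h7]
    refine h5.trans ?_
    rw [h6]
    have h10 : (2 : ℝ) ^ 17 = 256 * 512 := by norm_num
    rw [h10] at h9
    linarith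
  have h4 : a * d ≤ (N : ℝ) / 8 :=
    (pow_le_pow_iff_left₀ (by positivity) (by positivity) three_ne_zero).1 h3
  linarith

/-- multiples of `d` in a short interval -/
private theorem ZCntQ_mult (x l d : ℕ) (hd : 0 < d) :
    (((Ioc x (x + l)).filter (fun m => d ∣ m)).card : ℝ) ≤ l / d + 1 := by
  have hsub : (Ioc x (x + l)).filter (fun m => d ∣ m) ⊆
      (Ioc (x / d) ((x + l) / d)).image (fun k => d * k) := by
    intro m hm
    rw [mem_filter, mem_Ioc] at hm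
    obtain ⟨⟨h1, h2⟩, k, hk⟩ := hm
    rw [mem_image]
    refine ⟨k, ?_, hk.symm⟩
    rw [mem_Ioc]
    refine ⟨?_, ?_⟩
    · rw [Nat.div_lt_iff_lt_mul hd, mul_comm, ← hk]
      exact h1
    · rw [Nat.le_div_iff_mul_le hd, mul_comm, ← hk]
      exact h2
  have h1 : ((Ioc x (x + l)).filter (fun m => d ∣ m)).card ≤ (x + l) / d - x / d :=
    (card_le_card hsub).trans (card_image_le.trans (by rw [Nat.card_Ioc]))
  have h2 : x / d ≤ (x + l) / d := Nat.div_le_div_right (Nat.le_add_right _ _)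
  have h3 : (((Ioc x (x + l)).filter (fun m => d ∣ m)).card : ℝ) ≤
      (((x + l) / d : ℕ) : ℝ) - ((x / d : ℕ) : ℝ) := by
    rw [← Nat.cast_sub h2]
    exact_mod_cast h1
  have h4 : (((x + l) / d : ℕ) : ℝ) ≤ ((x + l : ℕ) : ℝ) / d := Nat.cast_div_le
  have hdR : (0 : ℝ) < d := by exact_mod_cast hd
  have h5 : (x : ℝ) / d < ((x / d : ℕ) : ℝ) + 1 := by
    rw [div_lt_iff₀ hdR]
    have : x < (x / d + 1) * d := by
      have := Nat.lt_div_mul_add hd (a := x)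
      linarith [this, add_mul (x / d) 1 d, one_mul d]
    exact_mod_cast this
  have h6 : ((x + l : ℕ) : ℝ) / d = (x : ℝ) / d + l / d := by
    push_cast
    rw [add_div]
  linarith

/-- multiples of large squares in a short interval -/
private theorem ZCntQ_sq (x l M R : ℕ) (hM : 1 ≤ M) :
    (((Ioc M R).biUnion (fun p => (Ioc x (x + l)).filter (fun m => p ^ 2 ∣ m))).card : ℝ) ≤
      l / M + R := by
  have h1 : (((Ioc M R).biUnion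
      (fun p => (Ioc x (x + l)).filter (fun m => p ^ 2 ∣ m))).card : ℝ) ≤
      ∑ p ∈ Ioc M R, (((Ioc x (x + l)).filter (fun m => p ^ 2 ∣ m)).card : ℝ) := by
    have := card_biUnion_le (s := Ioc M R)
      (t := fun p => (Ioc x (x + l)).filter (fun m => p ^ 2 ∣ m))
    exact_mod_cast this
  have h2 : ∑ p ∈ Ioc M R, (((Ioc x (x + l)).filter (fun m => p ^ 2 ∣ m)).card : ℝ) ≤
      ∑ p ∈ Ioc M R, ((l : ℝ) * ((p : ℝ) ^ 2)⁻¹ + 1) := by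
    refine sum_le_sum fun p hp => ?_
    rw [mem_Ioc] at hp
    have h3 := ZCntQ_mult x l (p ^ 2) (by have : 0 < p := by omega
                                          positivity)
    rw [Nat.cast_pow, div_eq_mul_inv] at h3
    exact h3
  have hM0 : (0 : ℝ) < M := by exact_mod_cast hM
  have h3 : ∑ p ∈ Ioc M R, ((p : ℝ) ^ 2)⁻¹ ≤ (M : ℝ)⁻¹ := by
    rcases le_or_gt M R with h | h
    · have h4 := sum_Ioc_inv_sq_le_sub (α := ℝ) (k := M) (n := R) (by omega) h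
      have h5 : (0 : ℝ) ≤ (R : ℝ)⁻¹ := by positivity
      linarith
    · rw [Ioc_eq_empty (by omega), sum_empty]
      positivity
  have h4 : ((Ioc M R).card : ℝ) ≤ R := by
    rw [Nat.card_Ioc]
    exact_mod_cast Nat.sub_le _ _
  have hl0 : (0 : ℝ) ≤ l := Nat.cast_nonneg l
  calc _ ≤ ∑ p ∈ Ioc M R, ((l : ℝ) * ((p : ℝ) ^ 2)⁻¹ + 1) := h1.trans h2
    _ = (l : ℝ) * ∑ p ∈ Ioc M R, ((p : ℝ) ^ 2)⁻¹ + (Ioc M R).card := by
        rw [sum_add_distrib, ← mul_sum, sum_const, nsmul_eq_mul, mul_one]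
    _ ≤ (l : ℝ) * (M : ℝ)⁻¹ + R := add_le_add (mul_le_mul_of_nonneg_left h3 hl0) h4
    _ = l / M + R := by rw [div_eq_mul_inv]

/-- the numbers `p q` of `(x, x+l]`, `p ∈ S`, `q` prime -/
private def ZCntQ_U2 (x l : ℕ) (S : Finset ℕ) : Finset ℕ :=
  S.biUnion (fun p => ((Ioc (x / p) ((x + l) / p)).filter Nat.Prime).image (fun q => p * q))

/-- the numbers `p q r` of `(x, x+l]`, `p ∈ S`, `q ∈ Q p`, `r` prime -/
private def ZCntQ_U3 (x l : ℕ) (S : Finset ℕ) (Q : ℕ → Finset ℕ) : Finset ℕ :=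
  S.biUnion (fun p => (Q p).biUnion (fun q =>
    ((Ioc (x / (p * q)) ((x + l) / (p * q))).filter Nat.Prime).image (fun r => p * q * r)))

private theorem ZCntQ_U2_mem {x l m p q : ℕ} {S : Finset ℕ} (hm1 : x < m) (hm2 : m ≤ x + l)
    (hp : p ∈ S) (hp0 : 0 < p) (hq : q.Prime) (hm : m = p * q) : m ∈ ZCntQ_U2 x l S := by
  rw [ZCntQ_U2, mem_biUnion]
  refine ⟨p, hp, ?_⟩
  rw [mem_image]
  refine ⟨q, ?_, hm.symm⟩
  rw [mem_filter, mem_Ioc]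
  refine ⟨⟨?_, ?_⟩, hq⟩
  · rw [Nat.div_lt_iff_lt_mul hp0, mul_comm, ← hm]
    exact hm1
  · rw [Nat.le_div_iff_mul_le hp0, mul_comm, ← hm]
    exact hm2

private theorem ZCntQ_U3_mem {x l m p q r : ℕ} {S : Finset ℕ} {Q : ℕ → Finset ℕ} (hm1 : x < m)
    (hm2 : m ≤ x + l) (hp : p ∈ S) (hq : q ∈ Q p) (hpq : 0 < p * q) (hr : r.Prime)
    (hm : m = p * q * r) : m ∈ ZCntQ_U3 x l S Q := by
  rw [ZCntQ_U3, mem_biUnion]
  refine ⟨p, hp, ?_⟩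
  rw [mem_biUnion]
  refine ⟨q, hq, ?_⟩
  rw [mem_image]
  refine ⟨r, ?_, hm.symm⟩
  rw [mem_filter, mem_Ioc]
  refine ⟨⟨?_, ?_⟩, hr⟩
  · rw [Nat.div_lt_iff_lt_mul hpq, mul_comm, ← hm]
    exact hm1
  · rw [Nat.le_div_iff_mul_le hpq, mul_comm, ← hm]
    exact hm2

private theorem ZCntQ_U2_card (x l : ℕ) (S : Finset ℕ) :
    ((ZCntQ_U2 x l S).card : ℝ) ≤
      ∑ p ∈ S, (((Ioc (x / p) ((x + l) / p)).filter Nat.Prime).card : ℝ) := by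
  have h := (card_biUnion_le (s := S)
    (t := fun p => ((Ioc (x / p) ((x + l) / p)).filter Nat.Prime).image (fun q => p * q))).trans
    (sum_le_sum fun p _ => card_image_le)
  have h2 : ((ZCntQ_U2 x l S).card : ℝ) ≤
      ((∑ p ∈ S, ((Ioc (x / p) ((x + l) / p)).filter Nat.Prime).card : ℕ) : ℝ) := Nat.cast_le.2 h
  push_cast at h2
  exact h2

private theorem ZCntQ_U3_card (x l : ℕ) (S : Finset ℕ) (Q : ℕ → Finset ℕ) :
    ((ZCntQ_U3 x l S Q).card : ℝ) ≤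
      ∑ p ∈ S, ∑ q ∈ Q p,
        (((Ioc (x / (p * q)) ((x + l) / (p * q))).filter Nat.Prime).card : ℝ) := by
  have h := (card_biUnion_le (s := S)
    (t := fun p => (Q p).biUnion (fun q =>
      ((Ioc (x / (p * q)) ((x + l) / (p * q))).filter Nat.Prime).image
        (fun r => p * q * r)))).trans
    (sum_le_sum fun p _ => card_biUnion_le.trans (sum_le_sum fun q _ => card_image_le))
  have h2 : ((ZCntQ_U3 x l S Q).card : ℝ) ≤
      ((∑ p ∈ S, ∑ q ∈ Q p,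
        ((Ioc (x / (p * q)) ((x + l) / (p * q))).filter Nat.Prime).card : ℕ) : ℝ) :=
    Nat.cast_le.2 h
  push_cast at h2
  exact h2

/-- weights `≤ 1` on `A`, `≤ 1/2` on `B`, `≤ 0` elsewhere -/
private theorem ZCntQ_wt (T A B : Finset ℕ) (v : ℕ → ℝ)
    (h : ∀ m ∈ T, v m ≤ 0 ∨ (m ∈ A ∧ v m ≤ 1) ∨ (m ∈ B ∧ v m ≤ 1 / 2)) :
    ∑ m ∈ T, v m ≤ (A.card : ℝ) + (B.card : ℝ) / 2 := by
  have h1 : ∑ m ∈ T, v m ≤
      ∑ m ∈ T, ((if m ∈ A then (1 : ℝ) else 0) + (if m ∈ B then (1 : ℝ) else 0) / 2) := by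
    refine sum_le_sum fun m hm => ?_
    have hA : (0 : ℝ) ≤ if m ∈ A then (1 : ℝ) else 0 := by split_ifs <;> norm_num
    have hB : (0 : ℝ) ≤ if m ∈ B then (1 : ℝ) else 0 := by split_ifs <;> norm_num
    rcases h m hm with h0 | ⟨hA1, hv⟩ | ⟨hB1, hv⟩
    · linarith
    · rw [if_pos hA1]
      linarith
    · rw [if_pos hB1]
      linarith
  refine h1.trans ?_
  rw [sum_add_distrib, ← sum_div, sum_ite_mem, sum_ite_mem, sum_const, sum_const, nsmul_eq_mul,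
    nsmul_eq_mul, mul_one, mul_one]
  have h2 : ((T ∩ A).card : ℝ) ≤ A.card := by exact_mod_cast card_le_card inter_subset_right
  have h3 : ((T ∩ B).card : ℝ) ≤ B.card := by exact_mod_cast card_le_card inter_subset_right
  linarith

/-- the union bound -/
private theorem ZCntQ_union {N x l : ℕ} {y a b : ℝ} (hy : 0 ≤ y) (h4 : (16 * N : ℝ) < y ^ 4)
    (hab : a ≤ b) (hbN : b ≤ N) (M R : ℕ) (hMy : (M : ℝ) ≤ y)
    (hR : ∀ p : ℕ, p ^ 2 ≤ 16 * N → p ≤ R)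
    (hx : 1 ≤ x) (hxl : x + l ≤ 16 * N) (T : Finset ℕ)
    (hT : ∀ m ∈ T, x < m ∧ m ≤ x + l ∧ ∀ p : ℕ, p.Prime → p ∣ m → y < p) :
    ∑ m ∈ T, (1 - ((m.primeFactors.filter (fun p : ℕ => a < p ∧ (p : ℝ) ≤ b)).card : ℝ) / 2) ≤
      ((((Ioc (x / 1) ((x + l) / 1)).filter Nat.Prime).card : ℝ) +
        ((ZCntQ_U2 x l ((Icc 1 N).filter (fun p : ℕ => p.Prime ∧ y < p ∧ (p : ℝ) ≤ a))).card : ℝ) +
        ((ZCntQ_U2 x l
          ((Icc 1 (16 * N)).filter (fun p : ℕ => p.Prime ∧ b < p ∧ p ^ 2 ≤ 16 * N))).card : ℝ) +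
        ((ZCntQ_U3 x l ((Icc 1 N).filter (fun p : ℕ => p.Prime ∧ y < p ∧ (p : ℝ) ≤ a))
          (fun p => (Icc p (16 * N)).filter (fun q : ℕ => q.Prime ∧ p * q ^ 2 ≤ 16 * N))).card : ℝ) +
        ((ZCntQ_U3 x l
          ((Icc 1 (16 * N)).filter (fun p : ℕ => p.Prime ∧ b < p ∧ p ^ 3 ≤ 16 * N))
          (fun p =>
            (Icc p (16 * N)).filter (fun q : ℕ => q.Prime ∧ p * q ^ 2 ≤ 16 * N))).card : ℝ)) +
      (((ZCntQ_U2 x l ((Icc 1 N).filter (fun p : ℕ => p.Prime ∧ a < p ∧ (p : ℝ) ≤ b))).card : ℝ) +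
        ((ZCntQ_U3 x l ((Icc 1 N).filter (fun p : ℕ => p.Prime ∧ a < p ∧ (p : ℝ) ≤ b))
          (fun p => (Icc 1 (16 * N)).filter
            (fun q : ℕ => q.Prime ∧ b < q ∧ p * q ^ 2 ≤ 16 * N))).card : ℝ) +
        (((Ioc M R).biUnion
          (fun p => (Ioc x (x + l)).filter (fun m => p ^ 2 ∣ m))).card : ℝ)) / 2 := by
  obtain ⟨A0, hA0⟩ : ∃ A0, A0 = (Ioc (x / 1) ((x + l) / 1)).filter Nat.Prime := ⟨_, rfl⟩
  obtain ⟨S1, hS1⟩ : ∃ S1, S1 = (Icc 1 N).filter (fun p : ℕ => p.Prime ∧ y < p ∧ (p : ℝ) ≤ a) :=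
    ⟨_, rfl⟩
  obtain ⟨S2, hS2⟩ : ∃ S2, S2 = (Icc 1 N).filter (fun p : ℕ => p.Prime ∧ a < p ∧ (p : ℝ) ≤ b) :=
    ⟨_, rfl⟩
  obtain ⟨S3, hS3⟩ : ∃ S3, S3 =
    (Icc 1 (16 * N)).filter (fun p : ℕ => p.Prime ∧ b < p ∧ p ^ 2 ≤ 16 * N) := ⟨_, rfl⟩
  obtain ⟨S6, hS6⟩ : ∃ S6, S6 =
    (Icc 1 (16 * N)).filter (fun p : ℕ => p.Prime ∧ b < p ∧ p ^ 3 ≤ 16 * N) := ⟨_, rfl⟩
  obtain ⟨Q, hQ⟩ : ∃ Q : ℕ → Finset ℕ, Q = fun p =>
    (Icc p (16 * N)).filter (fun q : ℕ => q.Prime ∧ p * q ^ 2 ≤ 16 * N) := ⟨_, rfl⟩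
  obtain ⟨Qm, hQm⟩ : ∃ Qm : ℕ → Finset ℕ, Qm = fun p =>
    (Icc 1 (16 * N)).filter (fun q : ℕ => q.Prime ∧ b < q ∧ p * q ^ 2 ≤ 16 * N) := ⟨_, rfl⟩
  obtain ⟨D, hD⟩ : ∃ D, D = (Ioc M R).biUnion
    (fun p => (Ioc x (x + l)).filter (fun m => p ^ 2 ∣ m)) := ⟨_, rfl⟩
  rw [← hA0, ← hS1, ← hS2, ← hS3, ← hS6, ← hQ, ← hQm, ← hD]
  have hcard1 : (((A0 ∪ ZCntQ_U2 x l S1) ∪ ZCntQ_U2 x l S3 ∪ ZCntQ_U3 x l S1 Q ∪
      ZCntQ_U3 x l S6 Q).card : ℝ) ≤ (A0.card : ℝ) + (ZCntQ_U2 x l S1).card +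
      (ZCntQ_U2 x l S3).card + (ZCntQ_U3 x l S1 Q).card + (ZCntQ_U3 x l S6 Q).card := by
    have h1 := card_union_le ((A0 ∪ ZCntQ_U2 x l S1) ∪ ZCntQ_U2 x l S3 ∪ ZCntQ_U3 x l S1 Q)
      (ZCntQ_U3 x l S6 Q)
    have h2 := card_union_le ((A0 ∪ ZCntQ_U2 x l S1) ∪ ZCntQ_U2 x l S3) (ZCntQ_U3 x l S1 Q)
    have h3 := card_union_le (A0 ∪ ZCntQ_U2 x l S1) (ZCntQ_U2 x l S3)
    have h4 := card_union_le A0 (ZCntQ_U2 x l S1)
    have h5 : ((A0 ∪ ZCntQ_U2 x l S1) ∪ ZCntQ_U2 x l S3 ∪ ZCntQ_U3 x l S1 Q ∪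
      ZCntQ_U3 x l S6 Q).card ≤ A0.card + (ZCntQ_U2 x l S1).card +
      (ZCntQ_U2 x l S3).card + (ZCntQ_U3 x l S1 Q).card + (ZCntQ_U3 x l S6 Q).card := by omega
    exact_mod_cast h5
  have hcard2 : ((ZCntQ_U2 x l S2 ∪ ZCntQ_U3 x l S2 Qm ∪ D).card : ℝ) ≤
      ((ZCntQ_U2 x l S2).card : ℝ) + (ZCntQ_U3 x l S2 Qm).card + D.card := by
    have h1 := card_union_le (ZCntQ_U2 x l S2 ∪ ZCntQ_U3 x l S2 Qm) D
    have h2 := card_union_le (ZCntQ_U2 x l S2) (ZCntQ_U3 x l S2 Qm)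
    have h5 : (ZCntQ_U2 x l S2 ∪ ZCntQ_U3 x l S2 Qm ∪ D).card ≤
      (ZCntQ_U2 x l S2).card + (ZCntQ_U3 x l S2 Qm).card + D.card := by omega
    exact_mod_cast h5
  refine (ZCntQ_wt T ((A0 ∪ ZCntQ_U2 x l S1) ∪ ZCntQ_U2 x l S3 ∪ ZCntQ_U3 x l S1 Q ∪
      ZCntQ_U3 x l S6 Q) (ZCntQ_U2 x l S2 ∪ ZCntQ_U3 x l S2 Qm ∪ D) _ ?_).trans (by linarith)
  intro m hm
  obtain ⟨hm1, hm2, hr⟩ := hT m hm
  have hm0 : m ≠ 0 := by omega
  obtain ⟨F, hF⟩ : ∃ F, F = m.primeFactors.filter (fun p : ℕ => a < p ∧ (p : ℝ) ≤ b) := ⟨_, rfl⟩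
  have hmemF : ∀ p : ℕ, p.Prime → p ∣ m → a < p → (p : ℝ) ≤ b → p ∈ F := by
    intro p hp hpm h1 h2
    rw [hF, mem_filter, Nat.mem_primeFactors]
    exact ⟨⟨hp, hpm, hm0⟩, h1, h2⟩
  rw [← hF]
  have hF0 : (0 : ℝ) ≤ F.card := Nat.cast_nonneg _
  have hv1 : 1 - (F.card : ℝ) / 2 ≤ 1 := by linarith
  have hv2 : ∀ p ∈ F, 1 - (F.card : ℝ) / 2 ≤ 1 / 2 := by
    intro p hp
    have h1 : 1 ≤ F.card := card_pos.2 ⟨p, hp⟩
    have h2 : (1 : ℝ) ≤ F.card := by exact_mod_cast h1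
    linarith
  have hv3 : ∀ p ∈ F, ∀ q ∈ F, p ≠ q → 1 - (F.card : ℝ) / 2 ≤ 0 := by
    intro p hp q hq hpq
    have h1 : 1 < F.card := one_lt_card.2 ⟨p, hp, q, hq, hpq⟩
    have h2 : (2 : ℝ) ≤ F.card := by exact_mod_cast h1
    linarith
  have hle : ∀ p : ℕ, (p : ℝ) ≤ b → p ≤ N := fun p hp => by exact_mod_cast hp.trans hbN
  rcases ZCntQ_split hy h4 hx hxl hm1 hm2 hr with h | ⟨p, q, hp, hyp, hp2, hq, hmpq⟩ |
      ⟨p, q, r, hp, hyp, hp3, hq, hpq, hpq2, hr', hmr⟩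
  · right; left
    refine ⟨?_, hv1⟩
    have : m ∈ A0 := by
      rw [hA0, Nat.div_one, Nat.div_one, mem_filter, mem_Ioc]
      exact ⟨⟨hm1, hm2⟩, h⟩
    simp only [mem_union]
    tauto
  · have hpm : p ∣ m := ⟨q, hmpq⟩
    rcases le_or_gt (p : ℝ) a with hpa | hpa
    · right; left
      refine ⟨?_, hv1⟩
      have : m ∈ ZCntQ_U2 x l S1 := by
        refine ZCntQ_U2_mem hm1 hm2 ?_ hp.pos hq hmpq
        rw [hS1, mem_filter, mem_Icc]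
        exact ⟨⟨hp.one_le, hle p (hpa.trans hab)⟩, hp, hyp, hpa⟩
      simp only [mem_union]
      tauto
    · rcases le_or_gt (p : ℝ) b with hpb | hpb
      · right; right
        refine ⟨?_, hv2 p (hmemF p hp hpm hpa hpb)⟩
        have : m ∈ ZCntQ_U2 x l S2 := by
          refine ZCntQ_U2_mem hm1 hm2 ?_ hp.pos hq hmpq
          rw [hS2, mem_filter, mem_Icc]
          exact ⟨⟨hp.one_le, hle p hpb⟩, hp, hpa, hpb⟩
        simp only [mem_union]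
        tauto
      · right; left
        refine ⟨?_, hv1⟩
        have : m ∈ ZCntQ_U2 x l S3 := by
          refine ZCntQ_U2_mem hm1 hm2 ?_ hp.pos hq hmpq
          rw [hS3, mem_filter, mem_Icc]
          exact ⟨⟨hp.one_le, (Nat.le_self_pow two_ne_zero p).trans hp2⟩, hp, hpb, hp2⟩
        simp only [mem_union]
        tauto
  · have hpm : p ∣ m := ⟨q * r, by rw [hmr, mul_assoc]⟩
    have hqm : q ∣ m := ⟨p * r, by rw [hmr]; ring⟩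
    have hpos : 0 < p * q := Nat.mul_pos hp.pos hq.pos
    have hq16 : q ≤ 16 * N := by
      calc q ≤ q ^ 2 := Nat.le_self_pow two_ne_zero q
        _ ≤ p * q ^ 2 := Nat.le_mul_of_pos_left _ hp.pos
        _ ≤ 16 * N := hpq2
    have hqQ : q ∈ Q p := by
      rw [hQ]
      simp only [mem_filter, mem_Icc]
      exact ⟨⟨hpq, hq16⟩, hq, hpq2⟩
    rcases le_or_gt (p : ℝ) a with hpa | hpa
    · right; left
      refine ⟨?_, hv1⟩
      have : m ∈ ZCntQ_U3 x l S1 Q := by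
        refine ZCntQ_U3_mem hm1 hm2 ?_ hqQ hpos hr' hmr
        rw [hS1, mem_filter, mem_Icc]
        exact ⟨⟨hp.one_le, hle p (hpa.trans hab)⟩, hp, hyp, hpa⟩
      simp only [mem_union]
      tauto
    · rcases le_or_gt (p : ℝ) b with hpb | hpb
      · have hpF := hmemF p hp hpm hpa hpb
        rcases le_or_gt (q : ℝ) b with hqb | hqb
        · have hqa : a < (q : ℝ) := lt_of_lt_of_le hpa (by exact_mod_cast hpq)
          have hqF := hmemF q hq hqm hqa hqb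
          by_cases hpq' : p = q
          · right; right
            refine ⟨?_, hv2 p hpF⟩
            have : m ∈ D := by
              rw [hD, mem_biUnion]
              refine ⟨p, ?_, ?_⟩
              · rw [mem_Ioc]
                refine ⟨?_, hR p ?_⟩
                · exact_mod_cast lt_of_le_of_lt hMy hyp
                · calc p ^ 2 ≤ p ^ 3 := Nat.pow_le_pow_right hp.pos (by norm_num)
                    _ ≤ 16 * N := hp3
              · rw [mem_filter, mem_Ioc]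
                refine ⟨⟨hm1, hm2⟩, r, ?_⟩
                rw [hmr, ← hpq', sq]
            simp only [mem_union]
            tauto
          · left
            exact hv3 p hpF q hqF hpq'
        · right; right
          refine ⟨?_, hv2 p hpF⟩
          have : m ∈ ZCntQ_U3 x l S2 Qm := by
            refine ZCntQ_U3_mem hm1 hm2 ?_ ?_ hpos hr' hmr
            · rw [hS2, mem_filter, mem_Icc]
              exact ⟨⟨hp.one_le, hle p hpb⟩, hp, hpa, hpb⟩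
            · rw [hQm]
              simp only [mem_filter, mem_Icc]
              exact ⟨⟨hq.one_le, hq16⟩, hq, hqb, hpq2⟩
          simp only [mem_union]
          tauto
      · right; left
        refine ⟨?_, hv1⟩
        have : m ∈ ZCntQ_U3 x l S6 Q := by
          refine ZCntQ_U3_mem hm1 hm2 ?_ hqQ hpos hr' hmr
          rw [hS6, mem_filter, mem_Icc]
          exact ⟨⟨hp.one_le, (Nat.le_self_pow three_ne_zero p).trans hp3⟩, hp, hpb, hp3⟩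
        simp only [mem_union]
        tauto

open Classical in
theorem zcount_q (ζ' ζ κ ε : ℝ) (h0 : 1 / 4 < ζ') (h1 : ζ' < ζ) (h2 : ζ < κ) (h3 : κ < 1 / 3) (hε : 0 < ε) (K : ℕ) :
    ∃ N0 : ℕ, ∀ N : ℕ, N0 ≤ N → ∀ x l : ℕ, N ≤ 8 * x → x ≤ 8 * N → (x : ℝ) / Real.log N ^ K ≤ l → l ≤ x →
      ∑ m ∈ (Ioc x (x + l)).filter (fun m => ∀ p : ℕ, p.Prime → p ∣ m → (N : ℝ) ^ ζ' < p),
        (1 - ((m.primeFactors.filter (fun p : ℕ => (N : ℝ) ^ ζ < p ∧ (p : ℝ) ≤ (N : ℝ) ^ κ)).card : ℝ) / 2) ≤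
        (MQ ζ' ζ κ + ε) * l / Real.log N := by
  obtain ⟨W, hW⟩ : ∃ W : ℝ, W = (Z2 ζ' - Z2 ζ) + (Z2 ζ - Z2 κ) / 2 + Z2 κ +
    (∫ u in ζ'..ζ, f3 u) + (∫ u in ζ..κ, g3 κ u) / 2 + Z3 κ := ⟨_, rfl⟩
  obtain ⟨δ, hδ0, hδ1, hδ⟩ : ∃ δ : ℝ, 0 < δ ∧ δ ≤ 1 ∧ δ * (|W| + 14) ≤ ε := by
    refine ⟨min 1 (ε / (|W| + 14)), lt_min one_pos (by positivity), min_le_left _ _, ?_⟩
    calc min 1 (ε / (|W| + 14)) * (|W| + 14) ≤ ε / (|W| + 14) * (|W| + 14) :=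
          mul_le_mul_of_nonneg_right (min_le_right _ _) (by positivity)
      _ = ε := div_mul_cancel₀ _ (by positivity)
  obtain ⟨N1, hN1⟩ := pnt_int K δ (1 / 4) hδ0 (by norm_num)
  obtain ⟨N2, hN2⟩ := e2sum κ δ (by linarith) h3 hδ0
  obtain ⟨N3, hN3⟩ := e3sum κ δ (by linarith) h3 hδ0
  obtain ⟨N4, hN4⟩ := e2r ζ' ζ δ h0 h1 (by linarith) hδ0
  obtain ⟨N5, hN5⟩ := e2r ζ κ δ (by linarith) h2 h3 hδ0
  obtain ⟨N6, hN6⟩ := e3r ζ' ζ δ h0 h1 (by linarith) hδ0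
  obtain ⟨N7, hN7⟩ := e3m ζ κ δ (by linarith) h2 h3 hδ0
  have hcast : Filter.Tendsto (fun N : ℕ => (N : ℝ)) Filter.atTop Filter.atTop :=
    tendsto_natCast_atTop_atTop
  have E1 : ∀ᶠ N : ℕ in Filter.atTop, (16 : ℝ) < (N : ℝ) ^ (4 * ζ' - 1) :=
    ((tendsto_rpow_atTop (by linarith)).comp hcast).eventually_gt_atTop 16
  have E2 : ∀ᶠ N : ℕ in Filter.atTop, (2 : ℝ) ^ 17 ≤ (N : ℝ) ^ (1 / 4 : ℝ) :=
    ((tendsto_rpow_atTop (by norm_num)).comp hcast).eventually_ge_atTop _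
  have E3 : ∀ᶠ N : ℕ in Filter.atTop, (1 + δ) * Real.log 8 / δ ≤ Real.log N :=
    (Real.tendsto_log_atTop.comp hcast).eventually_ge_atTop _
  have E4 : ∀ᶠ N : ℕ in Filter.atTop, N1 ≤ N ∧ N2 ≤ N ∧ N3 ≤ N ∧ N4 ≤ N ∧ N5 ≤ N ∧ N6 ≤ N ∧
      N7 ≤ N ∧ 8 ≤ N := by
    filter_upwards [Filter.eventually_ge_atTop (N1 + N2 + N3 + N4 + N5 + N6 + N7 + 8)] with N hN
    omega
  have E5 : ∀ᶠ N : ℕ in Filter.atTop, Real.log N ≤ δ / 4 * (N : ℝ) ^ (1 / 4 : ℝ) := by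
    have h := (isLittleO_log_rpow_atTop (r := 1 / 4) (by norm_num)).bound
      (show (0 : ℝ) < δ / 4 by positivity)
    filter_upwards [hcast.eventually h, Filter.eventually_ge_atTop 1] with N hN hN1
    rw [Real.norm_eq_abs, Real.norm_eq_abs] at hN
    refine (le_abs_self _).trans (hN.trans (le_of_eq ?_))
    rw [abs_of_nonneg (by positivity)]
  have E6 : ∀ᶠ N : ℕ in Filter.atTop,
      Real.log N ^ (K + 1) ≤ δ / 64 * (N : ℝ) ^ (1 / 2 : ℝ) := by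
    have h := (isLittleO_log_rpow_rpow_atTop ((K + 1 : ℕ) : ℝ)
      (show (0 : ℝ) < 1 / 2 by norm_num)).bound (show (0 : ℝ) < δ / 64 by positivity)
    filter_upwards [hcast.eventually h, Filter.eventually_ge_atTop 1] with N hN hN1
    rw [Real.norm_eq_abs, Real.norm_eq_abs, Real.rpow_natCast] at hN
    refine (le_abs_self _).trans (hN.trans (le_of_eq ?_))
    rw [abs_of_nonneg (by positivity)]
  obtain ⟨N0, hN0⟩ := Filter.eventually_atTop.1 (E1.and (E2.and (E3.and (E4.and (E5.and E6)))))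
  refine ⟨N0, fun N hN x l hx8 hx hl hlx => ?_⟩
  obtain ⟨e1, e2, e3, ⟨n1, n2, n3, n4, n5, n6, n7, n8⟩, e5, e6⟩ := hN0 N hN
  have hNpos : (0 : ℝ) < N := by exact_mod_cast (by omega : 0 < N)
  have hN1' : (1 : ℝ) ≤ N := by exact_mod_cast (by omega : 1 ≤ N)
  have hx1 : 1 ≤ x := by omega
  have hxpos : (0 : ℝ) < x := by exact_mod_cast hx1
  have hL8 : Real.log 8 < Real.log N := by
    have h1 : (0 : ℝ) < Real.log 8 := Real.log_pos (by norm_num)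
    have h2 : Real.log 8 < (1 + δ) * Real.log 8 / δ := by
      rw [lt_div_iff₀ hδ0]
      linarith
    linarith
  have hLpos : 0 < Real.log N := lt_trans (Real.log_pos (by norm_num)) hL8
  have h4 : (16 * N : ℝ) < ((N : ℝ) ^ ζ') ^ 4 := by
    have h1 : ((N : ℝ) ^ ζ') ^ 4 = (N : ℝ) ^ (4 * ζ' - 1) * N := by
      rw [← Real.rpow_natCast, ← Real.rpow_mul hNpos.le]
      nth_rewrite 3 [← Real.rpow_one (N : ℝ)]
      rw [← Real.rpow_add hNpos]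
      congr 1
      push_cast
      ring
    rw [h1]
    exact mul_lt_mul_of_pos_right e1 hNpos
  have hxl : x + l ≤ 16 * N := by omega
  have hxN2 : x ≤ N ^ 2 := by nlinarith
  have hab : (N : ℝ) ^ ζ ≤ (N : ℝ) ^ κ := Real.rpow_le_rpow_of_exponent_le hN1' h2.le
  have hb3 : ((N : ℝ) ^ κ) ^ 3 ≤ N := by
    rw [← Real.rpow_natCast, ← Real.rpow_mul hNpos.le]
    calc (N : ℝ) ^ (κ * (3 : ℕ)) ≤ (N : ℝ) ^ (1 : ℝ) :=
          Real.rpow_le_rpow_of_exponent_le hN1' (by push_cast; linarith)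
      _ = N := Real.rpow_one _
  have hbN : (N : ℝ) ^ κ ≤ N := by
    calc (N : ℝ) ^ κ ≤ (N : ℝ) ^ (1 : ℝ) :=
          Real.rpow_le_rpow_of_exponent_le hN1' (by linarith)
      _ = N := Real.rpow_one _
  have hMy : ((⌊(N : ℝ) ^ (1 / 4 : ℝ)⌋₊ : ℕ) : ℝ) ≤ (N : ℝ) ^ ζ' :=
    (Nat.floor_le (by positivity)).trans (Real.rpow_le_rpow_of_exponent_le hN1' h0.le)
  have hR : ∀ p : ℕ, p ^ 2 ≤ 16 * N → p ≤ Nat.sqrt (16 * N) := fun p hp => Nat.le_sqrt'.2 hp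
  have hU := ZCntQ_union (y := (N : ℝ) ^ ζ') (a := (N : ℝ) ^ ζ) (b := (N : ℝ) ^ κ) (by positivity)
    h4 hab hbN ⌊(N : ℝ) ^ (1 / 4 : ℝ)⌋₊ (Nat.sqrt (16 * N)) hMy hR hx1 hxl
    ((Ioc x (x + l)).filter (fun m => ∀ p : ℕ, p.Prime → p ∣ m → (N : ℝ) ^ ζ' < p))
    (fun m hm => by
      rw [mem_filter, mem_Ioc] at hm
      exact ⟨hm.1.1, hm.1.2, hm.2⟩)
  have hpnt : ∀ d : ℕ, 1 ≤ d → d ^ 6 ≤ (16 * N) ^ 4 →
      (((Ioc (x / d) ((x + l) / d)).filter Nat.Prime).card : ℝ) ≤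
        (1 + δ) * l / (d * Real.log ((x : ℝ) / d)) := fun d hd hd6 =>
    hN1 N n1 x l d hd (ZCntQ_size e2 hx8 hd6) hxN2 hl hlx
  have hl0 : (0 : ℝ) ≤ l := Nat.cast_nonneg l
  -- a prime `≤ N^κ` has cube `≤ N`
  have hp3 : ∀ p : ℕ, (p : ℝ) ≤ (N : ℝ) ^ κ → p ^ 3 ≤ 16 * N := by
    intro p hp
    have h5 : (p : ℝ) ^ 3 ≤ N := (pow_le_pow_left₀ (Nat.cast_nonneg p) hp 3).trans hb3
    have h6 : p ^ 3 ≤ N := by exact_mod_cast h5
    omega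
  -- generic bounds
  have G2 : ∀ S : Finset ℕ, (∀ p ∈ S, p.Prime ∧ p ^ 2 ≤ 16 * N) → ∀ c : ℝ,
      ∑ p ∈ S, 1 / (p * Real.log ((x : ℝ) / p)) ≤ c / Real.log N →
      ((ZCntQ_U2 x l S).card : ℝ) ≤ (1 + δ) * c * (l / Real.log N) := by
    intro S hS c hc
    refine (ZCntQ_U2_card x l S).trans ?_
    have h5 : ∑ p ∈ S, (((Ioc (x / p) ((x + l) / p)).filter Nat.Prime).card : ℝ) ≤
        (1 + δ) * l * ∑ p ∈ S, 1 / (p * Real.log ((x : ℝ) / p)) := by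
      rw [mul_sum]
      refine sum_le_sum fun p hp => ?_
      obtain ⟨hpp, hp2⟩ := hS p hp
      refine (hpnt p hpp.one_le ?_).trans (le_of_eq ?_)
      · calc p ^ 6 = (p ^ 2) ^ 3 := by ring
          _ ≤ (16 * N) ^ 3 := Nat.pow_le_pow_left hp2 3
          _ ≤ (16 * N) ^ 4 := Nat.pow_le_pow_right (by omega) (by norm_num)
      · rw [mul_one_div]
    calc _ ≤ (1 + δ) * l * ∑ p ∈ S, 1 / (p * Real.log ((x : ℝ) / p)) := h5
      _ ≤ (1 + δ) * l * (c / Real.log N) := mul_le_mul_of_nonneg_left hc (by positivity)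
      _ = (1 + δ) * c * (l / Real.log N) := by ring
  have G3 : ∀ (S : Finset ℕ) (Q : ℕ → Finset ℕ), (∀ p ∈ S, p.Prime ∧ p ^ 3 ≤ 16 * N) →
      (∀ p ∈ S, ∀ q ∈ Q p, q.Prime ∧ p * q ^ 2 ≤ 16 * N) → ∀ c : ℝ,
      ∑ p ∈ S, ∑ q ∈ Q p, 1 / (p * q * Real.log ((x : ℝ) / (p * q))) ≤ c / Real.log N →
      ((ZCntQ_U3 x l S Q).card : ℝ) ≤ (1 + δ) * c * (l / Real.log N) := by
    intro S Q hS hQ c hc
    refine (ZCntQ_U3_card x l S Q).trans ?_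
    have h5 : ∑ p ∈ S, ∑ q ∈ Q p,
        (((Ioc (x / (p * q)) ((x + l) / (p * q))).filter Nat.Prime).card : ℝ) ≤
        (1 + δ) * l * ∑ p ∈ S, ∑ q ∈ Q p, 1 / (p * q * Real.log ((x : ℝ) / (p * q))) := by
      rw [mul_sum]
      refine sum_le_sum fun p hp => ?_
      rw [mul_sum]
      refine sum_le_sum fun q hq => ?_
      obtain ⟨hpp, hp3⟩ := hS p hp
      obtain ⟨hqp, hpq2⟩ := hQ p hp q hq
      refine (hpnt (p * q) (Nat.mul_pos hpp.pos hqp.pos) ?_).trans (le_of_eq ?_)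
      · calc (p * q) ^ 6 = p ^ 3 * (p * q ^ 2) ^ 3 := by ring
          _ ≤ (16 * N) * (16 * N) ^ 3 := Nat.mul_le_mul hp3 (Nat.pow_le_pow_left hpq2 3)
          _ = (16 * N) ^ 4 := by ring
      · rw [Nat.cast_mul, mul_one_div]
    calc _ ≤ (1 + δ) * l * ∑ p ∈ S, ∑ q ∈ Q p, 1 / (p * q * Real.log ((x : ℝ) / (p * q))) := h5
      _ ≤ (1 + δ) * l * (c / Real.log N) := mul_le_mul_of_nonneg_left hc (by positivity)
      _ = (1 + δ) * c * (l / Real.log N) := by ring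
  -- primes
  have B0 : (((Ioc (x / 1) ((x + l) / 1)).filter Nat.Prime).card : ℝ) ≤
      (1 + δ) ^ 2 * (l / Real.log N) := by
    have h1 := hpnt 1 le_rfl (by
      rw [one_pow]
      exact Nat.one_le_pow _ _ (by omega))
    refine h1.trans ?_
    rw [Nat.cast_one, one_mul, div_one, ← mul_div_assoc]
    have h2 : Real.log N ≤ (1 + δ) * Real.log x := by
      have h3 : Real.log N - Real.log 8 ≤ Real.log x := by
        rw [← Real.log_div hNpos.ne' (by norm_num)]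
        refine Real.log_le_log (by positivity) ?_
        rw [div_le_iff₀ (by norm_num)]
        have : (N : ℝ) ≤ 8 * x := by exact_mod_cast hx8
        linarith
      have h4 : (1 + δ) * Real.log 8 ≤ δ * Real.log N := by
        rw [div_le_iff₀ hδ0] at e3
        linarith
      have h5 := mul_le_mul_of_nonneg_left h3 (show (0 : ℝ) ≤ 1 + δ by positivity)
      linarith
    have h3 : 0 < Real.log x := by
      by_contra h3
      push Not at h3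
      have h5 := mul_nonneg_of_nonpos_of_nonpos (show -(1 + δ) ≤ 0 by linarith) h3
      linarith
    rw [div_le_div_iff₀ h3 hLpos]
    have h4 : 0 ≤ (1 + δ) * l := by positivity
    have h5 := mul_le_mul_of_nonneg_left h2 h4
    linarith
  have B1 := G2 ((Icc 1 N).filter
      (fun p : ℕ => p.Prime ∧ (N : ℝ) ^ ζ' < p ∧ (p : ℝ) ≤ (N : ℝ) ^ ζ))
    (fun p hp => by
      rw [mem_filter] at hp
      have := hp3 p (hp.2.2.2.trans hab)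
      exact ⟨hp.2.1, (Nat.pow_le_pow_right hp.2.1.pos (by norm_num)).trans this⟩) _
    (hN4 N n4 x hx8 hx)
  have B2 := G2 ((Icc 1 N).filter
      (fun p : ℕ => p.Prime ∧ (N : ℝ) ^ ζ < p ∧ (p : ℝ) ≤ (N : ℝ) ^ κ))
    (fun p hp => by
      rw [mem_filter] at hp
      have := hp3 p hp.2.2.2
      exact ⟨hp.2.1, (Nat.pow_le_pow_right hp.2.1.pos (by norm_num)).trans this⟩) _
    (hN5 N n5 x hx8 hx)
  have B3 := G2 ((Icc 1 (16 * N)).filter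
      (fun p : ℕ => p.Prime ∧ (N : ℝ) ^ κ < p ∧ p ^ 2 ≤ 16 * N))
    (fun p hp => by
      rw [mem_filter] at hp
      exact ⟨hp.2.1, hp.2.2.2⟩) _
    (hN2 N n2 x hx8 hx)
  have B4 := G3 ((Icc 1 N).filter
      (fun p : ℕ => p.Prime ∧ (N : ℝ) ^ ζ' < p ∧ (p : ℝ) ≤ (N : ℝ) ^ ζ))
    (fun p => (Icc p (16 * N)).filter (fun q : ℕ => q.Prime ∧ p * q ^ 2 ≤ 16 * N))
    (fun p hp => by
      rw [mem_filter] at hp
      exact ⟨hp.2.1, hp3 p (hp.2.2.2.trans hab)⟩)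
    (fun p _ q hq => by
      rw [mem_filter] at hq
      exact hq.2) _
    (hN6 N n6 x hx8 hx)
  have B5 := G3 ((Icc 1 N).filter
      (fun p : ℕ => p.Prime ∧ (N : ℝ) ^ ζ < p ∧ (p : ℝ) ≤ (N : ℝ) ^ κ))
    (fun p => (Icc 1 (16 * N)).filter
      (fun q : ℕ => q.Prime ∧ (N : ℝ) ^ κ < q ∧ p * q ^ 2 ≤ 16 * N))
    (fun p hp => by
      rw [mem_filter] at hp
      exact ⟨hp.2.1, hp3 p hp.2.2.2⟩)
    (fun p _ q hq => by
      rw [mem_filter] at hq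
      exact ⟨hq.2.1, hq.2.2.2⟩) _
    (hN7 N n7 x hx8 hx)
  have B6 := G3 ((Icc 1 (16 * N)).filter
      (fun p : ℕ => p.Prime ∧ (N : ℝ) ^ κ < p ∧ p ^ 3 ≤ 16 * N))
    (fun p => (Icc p (16 * N)).filter (fun q : ℕ => q.Prime ∧ p * q ^ 2 ≤ 16 * N))
    (fun p hp => by
      rw [mem_filter] at hp
      exact ⟨hp.2.1, hp.2.2.2⟩)
    (fun p _ q hq => by
      rw [mem_filter] at hq
      exact hq.2) _
    (hN3 N n3 x hx8 hx)
  -- squares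
  have B7 : (((Ioc ⌊(N : ℝ) ^ (1 / 4 : ℝ)⌋₊ (Nat.sqrt (16 * N))).biUnion
      (fun p => (Ioc x (x + l)).filter (fun m => p ^ 2 ∣ m))).card : ℝ) ≤
      δ * (l / Real.log N) := by
    obtain ⟨M, hM⟩ : ∃ M, M = ⌊(N : ℝ) ^ (1 / 4 : ℝ)⌋₊ := ⟨_, rfl⟩
    have hM2 : (N : ℝ) ^ (1 / 4 : ℝ) / 2 ≤ M := by
      have h5 := Nat.lt_floor_add_one ((N : ℝ) ^ (1 / 4 : ℝ))
      rw [← hM] at h5
      have h6 : (2 : ℝ) ≤ (2 : ℝ) ^ 17 := by norm_num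
      linarith
    have hMpos : (0 : ℝ) < M := by
      have h6 : (2 : ℝ) ≤ (2 : ℝ) ^ 17 := by norm_num
      linarith
    have hM1 : 1 ≤ M := by exact_mod_cast hMpos
    rw [← hM]
    refine (ZCntQ_sq x l M (Nat.sqrt (16 * N)) hM1).trans ?_
    have h5 : (l : ℝ) / M ≤ δ / 2 * (l / Real.log N) := by
      have h6 : Real.log N ≤ δ / 2 * M := by
        have := mul_le_mul_of_nonneg_left hM2 (show (0 : ℝ) ≤ δ / 2 by positivity)
        linarith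
      rw [← mul_div_assoc, div_le_div_iff₀ hMpos hLpos]
      have h7 := mul_le_mul_of_nonneg_left h6 hl0
      linarith
    have h6 : ((Nat.sqrt (16 * N) : ℕ) : ℝ) ≤ δ / 2 * (l / Real.log N) := by
      obtain ⟨s, hs⟩ : ∃ s : ℝ, s = (N : ℝ) ^ (1 / 2 : ℝ) := ⟨_, rfl⟩
      have hs0 : 0 < s := by rw [hs]; positivity
      have hs2 : s ^ 2 = N := by
        rw [hs, ← Real.rpow_natCast, ← Real.rpow_mul hNpos.le]
        norm_num
      rw [← hs] at e6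
      have h7 : ((Nat.sqrt (16 * N) : ℕ) : ℝ) ≤ 4 * s := by
        have h8 : (Nat.sqrt (16 * N)) ^ 2 ≤ 16 * N := Nat.sqrt_le' _
        have h9 : ((Nat.sqrt (16 * N) : ℕ) : ℝ) ^ 2 ≤ (4 * s) ^ 2 := by
          have h10 : ((Nat.sqrt (16 * N) : ℕ) : ℝ) ^ 2 ≤ 16 * N := by exact_mod_cast h8
          calc _ ≤ (16 * N : ℝ) := h10
            _ = (4 * s) ^ 2 := by rw [← hs2]; ring
        exact (pow_le_pow_iff_left₀ (by positivity) (by positivity) two_ne_zero).1 h9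
      refine h7.trans ?_
      -- `l ≥ N / (8 L^K)`
      have h8 : (N : ℝ) / (8 * Real.log N ^ K) ≤ l := by
        refine le_trans ?_ hl
        rw [div_le_div_iff₀ (by positivity) (by positivity)]
        have h9 : (N : ℝ) ≤ 8 * x := by exact_mod_cast hx8
        have h10 := mul_le_mul_of_nonneg_right h9 (show (0 : ℝ) ≤ Real.log N ^ K by positivity)
        linarith
      have h9 : δ / 2 * ((N : ℝ) / (8 * Real.log N ^ K) / Real.log N) ≤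
          δ / 2 * (l / Real.log N) := by gcongr
      refine le_trans ?_ h9
      have h10 : δ / 2 * ((N : ℝ) / (8 * Real.log N ^ K) / Real.log N) =
          δ * s ^ 2 / (16 * Real.log N ^ (K + 1)) := by
        rw [hs2, pow_succ]
        field_simp
        norm_num
      rw [h10, le_div_iff₀ (by positivity)]
      have h11 : 0 ≤ Real.log N ^ (K + 1) := by positivity
      have h12 := mul_le_mul_of_nonneg_left e6 hs0.le
      linarith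
    linarith
  have hlL : 0 ≤ (l : ℝ) / Real.log N := by positivity
  have hfin : (1 + δ) ^ 2 + (1 + δ) * (Z2 ζ' - Z2 ζ + δ) + (1 + δ) * (Z2 κ + δ) +
      (1 + δ) * ((∫ u in ζ'..ζ, f3 u) + δ) + (1 + δ) * (Z3 κ + δ) +
      ((1 + δ) * (Z2 ζ - Z2 κ + δ) + (1 + δ) * ((∫ u in ζ..κ, g3 κ u) + δ) + δ) / 2 ≤
      MQ ζ' ζ κ + ε := by
    have h5 : W ≤ |W| := le_abs_self W
    have h6 : δ * W ≤ δ * |W| := mul_le_mul_of_nonneg_left h5 hδ0.le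
    have h7 : δ * δ ≤ δ := by nlinarith
    have h8 : MQ ζ' ζ κ = 1 + W := by rw [MQ, hW]; ring
    have h9 : (1 + δ) ^ 2 + (1 + δ) * (Z2 ζ' - Z2 ζ + δ) + (1 + δ) * (Z2 κ + δ) +
      (1 + δ) * ((∫ u in ζ'..ζ, f3 u) + δ) + (1 + δ) * (Z3 κ + δ) +
      ((1 + δ) * (Z2 ζ - Z2 κ + δ) + (1 + δ) * ((∫ u in ζ..κ, g3 κ u) + δ) + δ) / 2 =
      1 + W + (δ * W + 15 / 2 * δ + 6 * (δ * δ)) := by rw [hW]; ring
    rw [h8, h9]
    linarith
  have hmain := mul_le_mul_of_nonneg_right hfin hlL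
  calc _ ≤ _ := hU
    _ ≤ ((1 + δ) ^ 2 + (1 + δ) * (Z2 ζ' - Z2 ζ + δ) + (1 + δ) * (Z2 κ + δ) +
      (1 + δ) * ((∫ u in ζ'..ζ, f3 u) + δ) + (1 + δ) * (Z3 κ + δ) +
      ((1 + δ) * (Z2 ζ - Z2 κ + δ) + (1 + δ) * ((∫ u in ζ..κ, g3 κ u) + δ) + δ) / 2) *
      (l / Real.log N) := by linarith
    _ ≤ (MQ ζ' ζ κ + ε) * (l / Real.log N) := hmain
    _ = (MQ ζ' ζ κ + ε) * l / Real.log N := by ring

end Pool.Agent.H91.TQ
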