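import Pool.Agent.H91.TQ.SwQ
import Pool.Agent.H91.TQ.SqpB
import Pool.Agent.H91.TQ.ZCntQ
import Pool.Agent.H76.GB.Defs
import Pool.Agent.H91.EHA.ChB

/-!
# TQ MassQ: the density of `Fq` is `≤ (MQ + 2 ε0 + ε)/L` (compare `H76/TP/Mass.lean`)

`l = ⌊x/L^10⌋`, `y = yN e1 N`, all sums over `m ∈ (x, x+l]`; for a prime `p`: `l_p = (x+l)/p - x/p` (natural division), `|l_p - l/p| ≤ 1`, the multiples `m = p k` of `p` correspond to `k ∈ (x/p, (x+l)/p]`.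
* `kS l ≤ ∑ rg + ε0 l/L`.
* `∑ om(m) rg(m) = ∑_{p ∈ PY z z1} ∑_k rg(k)` (`rg(pk) = rg(k)`, `p > z ≥ y`) `≤ ∑_p (kT l_p + ε0 l_p/L) ≤ l kT W1 + z1 + ε0 (l W1 + z1)/L` (`l_p ≥ N^(1/4)`, `|kT| ≤ 1`), so `-l kT W1/2 ≤ -(1/2) ∑ om rg + (ε0/2) l W1/L + 2 z1`, `W1 ≤ 1` (`e1r`).
* `∑_j WQ P_j x = ∑_{p ∈ PY y z} kq(x/p)/p` (the `pb (2^j y)`, `j < J`, are a partition of `PY y z`); `eq_q` with `a = 5/8`, `A = 3`, `B = 0`, `K = 11`, `c = 1`, `b = 0` at `x/p ≥ N^(5/8)`: `∑_k bq(k) ≤ l_p kq(x/p) + l_p/L^3`, so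
  `-l ∑_p kq(x/p)/p ≤ -∑_p ∑_k bq(k) + ∑_p (l_p/L^3 + |kq(x/p)|)`, `∑_p ∑_k bq(k) = ∑_m ∑_j Fp bq P_j m`, `∑_p l_p ≤ 2 l L`, `|kq| ≤ L²` (`lip_q`), at most `z ≤ N^(27/100)` primes.
Sum: `l kapF ≤ ∑_m (rg - (om/2) rg - ∑_j Fp bq P_j) + (3/2) ε0 l/L + small = ∑_m (1 - om/2) AA + (3/2) ε0 l/L + small` (`fq_eq` with `S = T = rg`, minus `sqp`).
* `m` is `≤ 16 N`, so `om ≤ 3` (`om_small`), `|1 - om/2| ≤ 1`; if a prime `≤ z` divides `m` then `0 ≤ AA ≤ sqp` (`aa_nonneg`, `aa_le`, `rg (zz y J) m = 0`); if `m` is `z`-rough then `AA = 1` (`aa_one`), `m` is `N^ζ'`-rough and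
  `1 - om/2 ≤ v(m)` of `zcount_q ζ' ζ κ'` (`om ≥ #{N^ζ < p ≤ N^κ', p ∣ m}` as `z ≤ N^ζ`, `N^κ' ≤ z1`).  The `N^ζ'`-rough `m ∈ (x, x+l]` have `v(m) ≥ 0` (three different primes in `(N^ζ, N^κ']` dividing `m`: the cofactor is `< N^ζ'`, so `m` is their product
  `≤ N^(3κ') < N/8`, a contradiction).  So `∑_m (1 - om/2) AA ≤ ∑_{N^ζ'-rough} v(m) + ∑ sqp ≤ (MQ ζ' ζ κ' + ε/2) l/L + l/L^3` (`sqp_int`).  Divide by `l`.
-/

set_option autoImplicit false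

namespace Pool.Agent.H91.TQ

open Finset
open Pool.Agent.H35.W (pb)
open Pool.Agent.H53.MID (Fp)
open Pool.Agent.H76.TP

private theorem MassQ_le_zz (y J : ℕ) : y ≤ zz y J := by
  unfold zz
  exact Nat.le_mul_of_pos_left _ (by positivity)

/-- the primes of `(y, z]` are partitioned -/
private theorem MassQ_part (g : ℕ → ℝ) (y J : ℕ) :
    ∑ j ∈ range J, ∑ p ∈ pb (2 ^ j * y), g p = ∑ p ∈ PY y (zz y J), g p := by
  induction J with
  | zero =>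
    have h : PY y (zz y 0) = ∅ := by
      unfold PY zz
      rw [pow_zero, one_mul, Finset.Ioc_self, Finset.filter_empty]
    rw [h, Finset.range_zero, Finset.sum_empty, Finset.sum_empty]
  | succ J ih =>
    rw [Finset.sum_range_succ, ih]
    have h2 : zz y (J + 1) = 2 * zz y J := by
      unfold zz
      ring
    have hle := MassQ_le_zz y J
    have h3 : PY y (zz y (J + 1)) = PY y (zz y J) ∪ pb (2 ^ J * y) := by
      ext p
      unfold PY pb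
      simp only [Finset.mem_union, Finset.mem_filter, Finset.mem_Ioc]
      rw [h2]
      have h4 : zz y J = 2 ^ J * y := rfl
      rw [← h4]
      constructor
      · rintro ⟨⟨h5, h6⟩, h7⟩
        by_cases h8 : p ≤ zz y J
        · exact Or.inl ⟨⟨h5, h8⟩, h7⟩
        · exact Or.inr ⟨⟨by omega, h6⟩, h7⟩
      · rintro (⟨⟨h5, h6⟩, h7⟩ | ⟨⟨h5, h6⟩, h7⟩)
        · exact ⟨⟨h5, by omega⟩, h7⟩
        · exact ⟨⟨by omega, h6⟩, h7⟩
    have h4 : Disjoint (PY y (zz y J)) (pb (2 ^ J * y)) := by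
      rw [Finset.disjoint_left]
      intro p hp hq
      unfold PY at hp
      unfold pb at hq
      rw [Finset.mem_filter, Finset.mem_Ioc] at hp hq
      have h5 : zz y J = 2 ^ J * y := rfl
      omega
    rw [h3, Finset.sum_union h4]

/-- the multiples of `d` in an interval -/
private theorem MassQ_div (f : ℕ → ℝ) (x l d : ℕ) (hd : 1 ≤ d) :
    ∑ m ∈ (Ioc x (x + l)).filter (fun m => d ∣ m), f (m / d) = ∑ k ∈ Ioc (x / d) ((x + l) / d), f k := by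
  refine Finset.sum_nbij' (fun m => m / d) (fun k => k * d) ?_ ?_ ?_ ?_ ?_
  · intro m hm
    rw [mem_filter, mem_Ioc] at hm
    obtain ⟨⟨h1, h2⟩, k, rfl⟩ := hm
    rw [Nat.mul_div_cancel_left k (by omega), mem_Ioc]
    constructor
    · rw [Nat.div_lt_iff_lt_mul (by omega)]
      calc x < d * k := h1
        _ = k * d := mul_comm _ _
    · rw [Nat.le_div_iff_mul_le (by omega)]
      calc k * d = d * k := mul_comm _ _
        _ ≤ x + l := h2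
  · intro k hk
    rw [mem_Ioc] at hk
    rw [mem_filter, mem_Ioc]
    refine ⟨⟨?_, ?_⟩, dvd_mul_left d k⟩
    · exact (Nat.div_lt_iff_lt_mul (by omega)).1 hk.1
    · exact (Nat.le_div_iff_mul_le (by omega)).1 hk.2
  · intro m hm
    rw [mem_filter] at hm
    exact Nat.div_mul_cancel hm.2
  · intro k _
    exact Nat.mul_div_cancel k (by omega)
  · intro m _
    rfl

private theorem MassQ_len (x l d : ℕ) (hd : 1 ≤ d) :
    ((x + l) / d : ℕ) = x / d + ((x + l) / d - x / d) ∧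
      (((x + l) / d - x / d : ℕ) : ℝ) ≤ (l : ℝ) / d + 1 ∧ (l : ℝ) / d - 1 ≤ (((x + l) / d - x / d : ℕ) : ℝ) := by
  have h0 : x / d ≤ (x + l) / d := Nat.div_le_div_right (by omega)
  have hd0 : (0 : ℝ) < d := by exact_mod_cast hd
  have e1 : (((x + l) / d : ℕ) : ℝ) ≤ ((x : ℝ) + l) / d := by
    have : (((x + l) / d : ℕ) : ℝ) ≤ ((x + l : ℕ) : ℝ) / d := Nat.cast_div_le
    push_cast at this
    exact this
  have e2 : ((x : ℝ) + l) / d - 1 ≤ (((x + l) / d : ℕ) : ℝ) := by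
    have := Nat.lt_floor_add_one (((x + l : ℕ) : ℝ) / (d : ℝ))
    rw [Nat.floor_div_eq_div] at this
    push_cast at this
    linarith
  have e3 : ((x / d : ℕ) : ℝ) ≤ (x : ℝ) / d := Nat.cast_div_le
  have e4 : (x : ℝ) / d - 1 ≤ ((x / d : ℕ) : ℝ) := by
    have := Nat.lt_floor_add_one ((x : ℝ) / (d : ℝ))
    rw [Nat.floor_div_eq_div] at this
    linarith
  have e5 : ((x : ℝ) + l) / d = (x : ℝ) / d + (l : ℝ) / d := add_div _ _ _
  refine ⟨by omega, ?_, ?_⟩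
  · rw [Nat.cast_sub h0]
    linarith
  · rw [Nat.cast_sub h0]
    linarith

/-- the sum of the type II parts over an interval -/
private theorem MassQ_swap (f : ℕ → ℝ) (y J x l : ℕ) :
    ∑ m ∈ Ioc x (x + l), ∑ j ∈ range J, Fp f (2 ^ j * y) m =
      ∑ p ∈ PY y (zz y J), ∑ k ∈ Ioc (x / p) ((x + l) / p), f k := by
  have h1 : ∀ m, ∑ j ∈ range J, Fp f (2 ^ j * y) m =
      ∑ p ∈ PY y (zz y J), if p ∣ m then f (m / p) else 0 := by
    intro m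
    rw [← MassQ_part (fun p => if p ∣ m then f (m / p) else 0) y J]
    refine sum_congr rfl fun j _ => ?_
    unfold Fp
    rw [sum_filter]
  simp_rw [h1]
  rw [sum_comm]
  refine sum_congr rfl fun p hp => ?_
  unfold PY at hp
  rw [mem_filter] at hp
  rw [← sum_filter]
  exact MassQ_div f x l p hp.2.one_lt.le

private theorem MassQ_inv (y z : ℕ) (L : ℝ) (hz : 1 ≤ z) (hzL : Real.log z ≤ L) :
    ∑ p ∈ PY y z, 1 / (p : ℝ) ≤ 1 + L := by
  have h1 : ∑ p ∈ PY y z, 1 / (p : ℝ) ≤ ∑ p ∈ Icc 1 z, 1 / (p : ℝ) := by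
    apply sum_le_sum_of_subset_of_nonneg
    · intro p hp
      unfold PY at hp
      rw [mem_filter, mem_Ioc] at hp
      rw [mem_Icc]
      exact ⟨hp.2.one_lt.le, hp.1.2⟩
    · intro p _ _
      positivity
  have h2 := Pool.Agent.H91.EHA.chB_harm z
  linarith


private theorem MassQ_om (y J J1 m : ℕ) (hm : 1 ≤ m) :
    (om y J J1 m : ℝ) = ∑ p ∈ PY (zz y J) (zz y J1), if p ∣ m then (1 : ℝ) else 0 := by
  rw [← sum_filter, sum_const, nsmul_eq_mul, mul_one]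
  unfold om
  congr 2
  ext p
  unfold PY
  rw [mem_filter, mem_filter, mem_filter, mem_Ioc, Nat.mem_primeFactors]
  constructor
  · rintro ⟨⟨h1, h2, -⟩, h3, h4⟩
    exact ⟨⟨⟨h3, h4⟩, h1⟩, h2⟩
  · rintro ⟨⟨⟨h3, h4⟩, h1⟩, h2⟩
    exact ⟨⟨h1, h2, by omega⟩, h3, h4⟩

private theorem MassQ_rg (y m p : ℕ) (hp : p.Prime) (hpm : p ∣ m) (hpy : y < p) :
    rg y m = rg y (m / p) := by
  unfold rg
  have h : (∀ q : ℕ, q.Prime → q ∣ m → y < q) ↔ ∀ q : ℕ, q.Prime → q ∣ m / p → y < q := by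
    constructor
    · intro h q hq hqm
      exact h q hq (hqm.trans (Nat.div_dvd_of_dvd hpm))
    · intro h q hq hqm
      obtain ⟨k, rfl⟩ := hpm
      rw [Nat.mul_div_cancel_left _ hp.pos] at h
      rcases (Nat.Prime.dvd_mul hq).1 hqm with h1 | h1
      · rw [(Nat.prime_dvd_prime_iff_eq hq hp).1 h1]
        exact hpy
      · exact h q hq h1
  by_cases h1 : ∀ q : ℕ, q.Prime → q ∣ m / p → y < q
  · rw [if_pos h1, if_pos (h.2 h1)]
  · rw [if_neg h1, if_neg fun h2 => h1 (h.1 h2)]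

/-- the sum of `om * rg` over an interval -/
private theorem MassQ_omrg (y J J1 x l : ℕ) :
    ∑ m ∈ Ioc x (x + l), (om y J J1 m : ℝ) * rg y m =
      ∑ p ∈ PY (zz y J) (zz y J1), ∑ k ∈ Ioc (x / p) ((x + l) / p), rg y k := by
  have h1 : ∀ m ∈ Ioc x (x + l), (om y J J1 m : ℝ) * rg y m =
      ∑ p ∈ PY (zz y J) (zz y J1), if p ∣ m then rg y (m / p) else 0 := by
    intro m hm
    rw [mem_Ioc] at hm
    rw [MassQ_om y J J1 m (by omega), sum_mul]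
    refine sum_congr rfl fun p hp => ?_
    unfold PY at hp
    rw [mem_filter, mem_Ioc] at hp
    by_cases hpm : p ∣ m
    · rw [if_pos hpm, if_pos hpm, one_mul]
      exact MassQ_rg y m p hp.2 hpm (lt_of_le_of_lt (MassQ_le_zz y J) hp.1.1)
    · rw [if_neg hpm, if_neg hpm, zero_mul]
  rw [sum_congr rfl h1, sum_comm]
  refine sum_congr rfl fun p hp => ?_
  unfold PY at hp
  rw [mem_filter] at hp
  rw [← sum_filter]
  exact MassQ_div (rg y) x l p hp.2.one_lt.le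

/-- at most two primes of `(N^ζ, N^κ']` divide a rough number -/
private theorem MassQ_two (N m : ℕ) (a b c : ℝ) (ha0 : 0 < a) (hab : a ≤ b) (hN : 8 * c ^ 3 < N) (h16 : 16 * (N : ℝ) ≤ a ^ 4)
    (h1 : N ≤ 8 * m) (h2 : m ≤ 16 * N) (hr : ∀ p : ℕ, p.Prime → p ∣ m → a < p) :
    (m.primeFactors.filter (fun p : ℕ => b < p ∧ (p : ℝ) ≤ c)).card ≤ 2 := by
  by_contra hcon
  push Not at hcon
  obtain ⟨T, hT, hT3⟩ := Finset.exists_subset_card_eq (n := 3) (s := m.primeFactors.filter (fun p : ℕ => b < p ∧ (p : ℝ) ≤ c)) (by omega)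
  obtain ⟨p, q, r, hpq, hpr, hqr, rfl⟩ := Finset.card_eq_three.1 hT3
  have hp := hT (by simp : p ∈ ({p, q, r} : Finset ℕ))
  have hq := hT (by simp : q ∈ ({p, q, r} : Finset ℕ))
  have hrr := hT (by simp : r ∈ ({p, q, r} : Finset ℕ))
  rw [mem_filter, Nat.mem_primeFactors] at hp hq hrr
  obtain ⟨⟨hp1, hp2, hm0⟩, hp3, hp4⟩ := hp
  obtain ⟨⟨hq1, hq2, -⟩, hq3, hq4⟩ := hq
  obtain ⟨⟨hr1, hr2, -⟩, hr3, hr4⟩ := hrr
  have e1 : p * q ∣ m := ((Nat.coprime_primes hp1 hq1).2 hpq).mul_dvd_of_dvd_of_dvd hp2 hq2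
  have e2 : p * q * r ∣ m := by
    refine Nat.Coprime.mul_dvd_of_dvd_of_dvd ?_ e1 hr2
    exact Nat.Coprime.mul_left ((Nat.coprime_primes hp1 hr1).2 hpr) ((Nat.coprime_primes hq1 hr1).2 hqr)
  obtain ⟨d, hd⟩ := e2
  have hpa : a < p := lt_of_le_of_lt hab hp3
  have hqa : a < q := lt_of_le_of_lt hab hq3
  have hra : a < r := lt_of_le_of_lt hab hr3
  have hd0 : d ≠ 0 := by
    rintro rfl
    exact hm0 (by rw [hd, mul_zero])
  by_cases hd1 : d = 1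
  · rw [hd1, mul_one] at hd
    have h3 : (m : ℝ) ≤ c ^ 3 := by
      rw [hd]
      push_cast
      have hp0 : (0 : ℝ) ≤ p := Nat.cast_nonneg p
      have hq0 : (0 : ℝ) ≤ q := Nat.cast_nonneg q
      have hr0 : (0 : ℝ) ≤ r := Nat.cast_nonneg r
      calc (p : ℝ) * q * r ≤ c * c * c :=
            mul_le_mul (mul_le_mul hp4 hq4 hq0 (hp0.trans hp4)) hr4 hr0 (mul_nonneg (hp0.trans hp4) (hp0.trans hp4))
        _ = c ^ 3 := by ring
    have h4 : (N : ℝ) ≤ 8 * m := by exact_mod_cast h1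
    linarith
  · have hmf := Nat.minFac_prime hd1
    have h3 := hr _ hmf ((Nat.minFac_dvd d).trans ⟨p * q * r, by rw [hd]; ring⟩)
    have h4 : (d.minFac : ℝ) ≤ d := by exact_mod_cast Nat.minFac_le (Nat.pos_of_ne_zero hd0)
    have h5 : a < d := lt_of_lt_of_le h3 h4
    have h6 : a ^ 4 < m := by
      rw [hd]
      push_cast
      calc a ^ 4 = a * a * a * a := by ring
        _ < p * q * r * d := by
            apply mul_lt_mul'' (mul_lt_mul'' (mul_lt_mul'' hpa hqa ha0.le ha0.le) hra (by positivity) ha0.le) h5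
              (by positivity) ha0.le
    have h7 : (m : ℝ) ≤ 16 * N := by exact_mod_cast h2
    linarith

/-- facts for large `N` -/
private theorem MassQ_large (e1 ζ' ε : ℝ) (he1 : 0 < e1) (hζ' : 1 / 4 < ζ') (hε : 0 < ε) :
    ∃ N0 : ℕ, ∀ N : ℕ, N0 ≤ N → 10 ≤ Real.log N ∧ 16 / ε ≤ Real.log N ∧
      (256 / ε) * Real.log N ^ 13 * (N : ℝ) ^ (8 / 25 : ℝ) ≤ N ∧
      100 * Real.log N ^ 11 * (N : ℝ) ^ (5 / 8 : ℝ) * (N : ℝ) ^ (27 / 100 : ℝ) ≤ N ∧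
      100 * Real.log N ^ 11 * (N : ℝ) ^ (1 / 4 : ℝ) * (N : ℝ) ^ (8 / 25 : ℝ) ≤ N ∧
      (3 : ℝ) < (N : ℝ) ^ e1 ∧ 8 * ((N : ℝ) ^ (8 / 25 : ℝ)) ^ 3 < N ∧ 16 * (N : ℝ) ≤ ((N : ℝ) ^ ζ') ^ 4 := by
  obtain ⟨x1, hx1⟩ := Pool.Agent.H76.GB.log_ge 10
  obtain ⟨x2, hx2⟩ := Pool.Agent.H76.GB.log_ge (16 / ε)
  obtain ⟨x3, hx3⟩ := Pool.Agent.H76.GB.log_pow_le (17 / 25) (256 / ε) (by norm_num) (by positivity) 13
  obtain ⟨x4, hx4⟩ := Pool.Agent.H76.GB.log_pow_le (21 / 200) 100 (by norm_num) (by norm_num) 11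
  obtain ⟨x5, hx5⟩ := Pool.Agent.H76.GB.log_pow_le (43 / 100) 100 (by norm_num) (by norm_num) 11
  obtain ⟨x6, hx6⟩ := Pool.Agent.H76.GB.log_pow_le e1 4 he1 (by norm_num) 0
  obtain ⟨x7, hx7⟩ := Pool.Agent.H76.GB.log_pow_le (1 / 25) 9 (by norm_num) (by norm_num) 0
  obtain ⟨x8, hx8⟩ := Pool.Agent.H76.GB.log_pow_le (4 * ζ' - 1) 16 (by linarith) (by norm_num) 0
  refine ⟨x1 + x2 + x3 + x4 + x5 + x6 + x7 + x8, fun N hN => ?_⟩
  have g1 := hx1 N (by omega)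
  have g2 := hx2 N (by omega)
  have g3 := hx3 N (by omega)
  have g4 := hx4 N (by omega)
  have g5 := hx5 N (by omega)
  have g6 := hx6 N (by omega)
  have g7 := hx7 N (by omega)
  have g8 := hx8 N (by omega)
  rw [pow_zero, mul_one] at g6 g7 g8
  set L := Real.log N with hL
  have hN0 : N ≠ 0 := by
    rintro rfl
    rw [hL] at g1
    norm_num at g1
  have hNpos : (0 : ℝ) < N := by exact_mod_cast Nat.pos_of_ne_zero hN0
  have hadd : ∀ a b : ℝ, (N : ℝ) ^ (a + b) = (N : ℝ) ^ a * (N : ℝ) ^ b := fun a b => Real.rpow_add hNpos a b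
  refine ⟨g1, g2, ?_, ?_, ?_, by linarith, ?_, ?_⟩
  · have h6 : (N : ℝ) = (N : ℝ) ^ (17 / 25 : ℝ) * (N : ℝ) ^ (8 / 25 : ℝ) := by
      rw [← hadd]
      have : (17 / 25 : ℝ) + 8 / 25 = 1 := by norm_num
      rw [this, Real.rpow_one]
    calc (256 / ε) * L ^ 13 * (N : ℝ) ^ (8 / 25 : ℝ) ≤ (N : ℝ) ^ (17 / 25 : ℝ) * (N : ℝ) ^ (8 / 25 : ℝ) :=
          mul_le_mul_of_nonneg_right g3 (by positivity)
      _ = N := h6.symm
  · have h6 : (N : ℝ) = (N : ℝ) ^ (21 / 200 : ℝ) * (N : ℝ) ^ (5 / 8 : ℝ) * (N : ℝ) ^ (27 / 100 : ℝ) := by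
      rw [← hadd, ← hadd]
      have : (21 / 200 : ℝ) + 5 / 8 + 27 / 100 = 1 := by norm_num
      rw [this, Real.rpow_one]
    calc 100 * L ^ 11 * (N : ℝ) ^ (5 / 8 : ℝ) * (N : ℝ) ^ (27 / 100 : ℝ)
        ≤ (N : ℝ) ^ (21 / 200 : ℝ) * (N : ℝ) ^ (5 / 8 : ℝ) * (N : ℝ) ^ (27 / 100 : ℝ) := by
          gcongr
      _ = N := h6.symm
  · have h6 : (N : ℝ) = (N : ℝ) ^ (43 / 100 : ℝ) * (N : ℝ) ^ (1 / 4 : ℝ) * (N : ℝ) ^ (8 / 25 : ℝ) := by
      rw [← hadd, ← hadd]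
      have : (43 / 100 : ℝ) + 1 / 4 + 8 / 25 = 1 := by norm_num
      rw [this, Real.rpow_one]
    calc 100 * L ^ 11 * (N : ℝ) ^ (1 / 4 : ℝ) * (N : ℝ) ^ (8 / 25 : ℝ)
        ≤ (N : ℝ) ^ (43 / 100 : ℝ) * (N : ℝ) ^ (1 / 4 : ℝ) * (N : ℝ) ^ (8 / 25 : ℝ) := by
          gcongr
      _ = N := h6.symm
  · have h6 : (N : ℝ) = (N : ℝ) ^ (1 / 25 : ℝ) * ((N : ℝ) ^ (8 / 25 : ℝ)) ^ 3 := by
      rw [← Real.rpow_natCast ((N : ℝ) ^ (8 / 25 : ℝ)) 3, ← Real.rpow_mul hNpos.le, ← hadd]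
      have : (1 / 25 : ℝ) + 8 / 25 * ((3 : ℕ) : ℝ) = 1 := by norm_num
      rw [this, Real.rpow_one]
    have h7 : 0 < ((N : ℝ) ^ (8 / 25 : ℝ)) ^ 3 := by positivity
    calc (8 : ℝ) * ((N : ℝ) ^ (8 / 25 : ℝ)) ^ 3 < (N : ℝ) ^ (1 / 25 : ℝ) * ((N : ℝ) ^ (8 / 25 : ℝ)) ^ 3 :=
          mul_lt_mul_of_pos_right (by linarith) h7
      _ = N := h6.symm
  · have h6 : ((N : ℝ) ^ ζ') ^ 4 = (N : ℝ) ^ (4 * ζ' - 1) * N := by
      rw [← Real.rpow_natCast ((N : ℝ) ^ ζ') 4, ← Real.rpow_mul hNpos.le]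
      have : ζ' * ((4 : ℕ) : ℝ) = (4 * ζ' - 1) + 1 := by push_cast; ring
      rw [this, hadd, Real.rpow_one]
    rw [h6]
    exact mul_le_mul_of_nonneg_right g8 hNpos.le

theorem mass_q (e1 ζ' ζ κ' κ ε : ℝ) (hP : Par e1 ζ' ζ κ' κ) (h4 : 1 / 4 < ζ') (h8 : κ < 8 / 25) (hε : 0 < ε) : ∃ N0 : ℕ, ∀ N : ℕ, N0 ≤ N →
    ∀ (J J1 : ℕ) (kS kT ε0 : ℝ), Lev ζ' ζ κ' κ N (yN e1 N) J J1 → 0 ≤ ε0 → ε0 ≤ 1 → |kT| ≤ 1 →
      (∀ x l : ℕ, (N : ℝ) ^ (1 / 4 : ℝ) ≤ l →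
        kS * l ≤ ∑ m ∈ Ioc x (x + l), rg (yN e1 N) m + ε0 * l / Real.log N) →
      (∀ x l : ℕ, (N : ℝ) ^ (1 / 4 : ℝ) ≤ l →
        ∑ m ∈ Ioc x (x + l), rg (yN e1 N) m ≤ kT * l + ε0 * l / Real.log N) →
      ∀ x : ℕ, N ≤ 8 * x → x ≤ 8 * N →
        kapF kS kT (yN e1 N) J J1 x ≤ (MQ ζ' ζ κ' + 2 * ε0 + ε) / Real.log N := by
  classical
  have hP' := hP
  obtain ⟨he1, he1', _, hζ'ζ, hζ27, hκ'3, hκ'κ, _⟩ := hP
  have hζ'4 := h4
  have hκ8 := h8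
  obtain ⟨N1, hN1⟩ := zcount_q ζ' ζ κ' (ε / 4) hζ'4 hζ'ζ (by linarith) (by linarith) (by positivity) 10
  obtain ⟨N2, hN2⟩ := eq_q e1 ζ κ (5 / 8) he1 (by linarith) (by linarith) (by linarith) (by norm_num) 3 0 11
  obtain ⟨N3, hN3⟩ := MassQ_large e1 ζ' ε he1 hζ'4 hε
  obtain ⟨N4, hN4⟩ := lip_q e1 ζ' ζ κ' κ hP'
  obtain ⟨N5, hN5⟩ := sqp_int e1 he1 3
  obtain ⟨N6, hN6⟩ := e1r
  obtain ⟨N7, hN7⟩ := om_small ζ' κ hζ'4 (by linarith)
  refine ⟨N1 + N2 + N3 + N4 + N5 + N6 + N7 + 100, fun N hN J J1 kS kT ε0 hLev hε0 hε01 hkT hS hT x hx1 hx2 => ?_⟩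
  have hzc := hN1 N (by omega)
  have heq := hN2 N (by omega) J J1
  obtain ⟨g1, g2, g3, g4, g5, g6, g7, g8⟩ := hN3 N (by omega)
  have hlip := (hN4 N (by omega) J J1 hLev).1
  have hsqp := hN5 N (by omega) J x
  have hW := hN6 N (by omega)
  have homs := hN7 N (by omega) (yN e1 N) J J1
  obtain ⟨hJJ, hz2, hz1, hz12, hz11⟩ := hLev
  set L := Real.log N with hL
  set y := yN e1 N with hy
  set z := zz y J with hz
  set z1 := zz y J1 with hz1def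
  have hL0 : 0 < L := by linarith
  have hL1 : 1 ≤ L := by linarith
  have hNpos : (0 : ℝ) < N := by
    have : 0 < N := by omega
    exact_mod_cast this
  have hN1r : (1 : ℝ) ≤ N := by
    have : 1 ≤ N := by omega
    exact_mod_cast this
  have hxr : (N : ℝ) ≤ 8 * x := by exact_mod_cast hx1
  have hxr2 : (x : ℝ) ≤ 8 * N := by exact_mod_cast hx2
  have hx0 : (0 : ℝ) < x := by linarith
  have hpw : ∀ a b : ℝ, a ≤ b → (N : ℝ) ^ a ≤ (N : ℝ) ^ b := fun a b hab =>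
    Real.rpow_le_rpow_of_exponent_le hN1r hab
  have hyfl : (2 : ℝ) ≤ y := by
    have h1 := Nat.lt_floor_add_one ((N : ℝ) ^ e1)
    have h2 : (⌊(N : ℝ) ^ e1⌋₊ : ℝ) = y := rfl
    rw [h2] at h1
    linarith
  have hy1 : 1 ≤ y := by
    have : (1 : ℝ) ≤ y := by linarith
    exact_mod_cast this
  have hyz : y ≤ z := MassQ_le_zz y J
  have hz1' : 1 ≤ z := hy1.trans hyz
  have hz0 : (0 : ℝ) < z := by exact_mod_cast hz1'
  have hz1r : (1 : ℝ) ≤ z := by exact_mod_cast hz1'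
  have hz1y : y ≤ z1 := MassQ_le_zz y J1
  have hz11' : 1 ≤ z1 := hy1.trans hz1y
  have hz10 : (0 : ℝ) < z1 := by exact_mod_cast hz11'
  have hz11r : (1 : ℝ) ≤ z1 := by exact_mod_cast hz11'
  have hz27 : (z : ℝ) ≤ (N : ℝ) ^ (27 / 100 : ℝ) := hz1.trans (hpw _ _ (by linarith))
  have hz8 : (z : ℝ) ≤ (N : ℝ) ^ (8 / 25 : ℝ) := hz27.trans (hpw _ _ (by norm_num))
  have hz18 : (z1 : ℝ) ≤ (N : ℝ) ^ (8 / 25 : ℝ) := hz11.trans (hpw _ _ (by linarith))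
  have hN8 : (N : ℝ) ^ (8 / 25 : ℝ) ≤ N := by
    calc (N : ℝ) ^ (8 / 25 : ℝ) ≤ (N : ℝ) ^ (1 : ℝ) := hpw _ _ (by norm_num)
      _ = N := Real.rpow_one _
  have hzL : Real.log z ≤ L := Real.log_le_log hz0 (hz8.trans hN8)
  have hL10 : (0 : ℝ) < L ^ 10 := by positivity
  have hL11 : (0 : ℝ) < L ^ 11 := by positivity
  have hL11' : (1 : ℝ) ≤ L ^ 11 := one_le_pow₀ hL1
  have h14 : (1 : ℝ) ≤ (N : ℝ) ^ (1 / 4 : ℝ) := Real.one_le_rpow hN1r (by norm_num)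
  have h58 : (1 : ℝ) ≤ (N : ℝ) ^ (5 / 8 : ℝ) := Real.one_le_rpow hN1r (by norm_num)
  have h825 : (0 : ℝ) < (N : ℝ) ^ (8 / 25 : ℝ) := by positivity
  -- the length
  obtain ⟨l, hl⟩ : ∃ l : ℕ, l = ⌈(x : ℝ) / L ^ 10⌉₊ := ⟨_, rfl⟩
  have hl1 : (x : ℝ) / L ^ 10 ≤ l := by
    rw [hl]
    exact Nat.le_ceil _
  have hl2 : (l : ℝ) < (x : ℝ) / L ^ 10 + 1 := by
    rw [hl]
    exact Nat.ceil_lt_add_one (by positivity)
  -- `x` is large compared with `z`, `z1`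
  have hxz : 12 * L ^ 11 * ((N : ℝ) ^ (5 / 8 : ℝ) * z) ≤ x := by
    have h1 : 100 * L ^ 11 * ((N : ℝ) ^ (5 / 8 : ℝ) * z) ≤ N := by
      calc 100 * L ^ 11 * ((N : ℝ) ^ (5 / 8 : ℝ) * z)
          ≤ 100 * L ^ 11 * ((N : ℝ) ^ (5 / 8 : ℝ) * (N : ℝ) ^ (27 / 100 : ℝ)) := by gcongr
        _ = 100 * L ^ 11 * (N : ℝ) ^ (5 / 8 : ℝ) * (N : ℝ) ^ (27 / 100 : ℝ) := by ring
        _ ≤ N := g4
    have h2 : 0 ≤ L ^ 11 * ((N : ℝ) ^ (5 / 8 : ℝ) * z) := by positivity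
    linarith
  have hxz1 : 12 * L ^ 11 * ((N : ℝ) ^ (1 / 4 : ℝ) * z1) ≤ x := by
    have h1 : 100 * L ^ 11 * ((N : ℝ) ^ (1 / 4 : ℝ) * z1) ≤ N := by
      calc 100 * L ^ 11 * ((N : ℝ) ^ (1 / 4 : ℝ) * z1)
          ≤ 100 * L ^ 11 * ((N : ℝ) ^ (1 / 4 : ℝ) * (N : ℝ) ^ (8 / 25 : ℝ)) := by gcongr
        _ = 100 * L ^ 11 * (N : ℝ) ^ (1 / 4 : ℝ) * (N : ℝ) ^ (8 / 25 : ℝ) := by ring
        _ ≤ N := g5
    have h2 : 0 ≤ L ^ 11 * ((N : ℝ) ^ (1 / 4 : ℝ) * z1) := by positivity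
    linarith
  have hxL58 : 12 * L ^ 11 * (N : ℝ) ^ (5 / 8 : ℝ) ≤ x := by
    have h1 : 12 * L ^ 11 * ((N : ℝ) ^ (5 / 8 : ℝ) * 1) ≤ 12 * L ^ 11 * ((N : ℝ) ^ (5 / 8 : ℝ) * z) := by
      gcongr
    rw [mul_one] at h1
    linarith
  have hxL11 : 12 * L ^ 11 ≤ x := by
    have h1 : 12 * L ^ 11 * 1 ≤ 12 * L ^ 11 * (N : ℝ) ^ (5 / 8 : ℝ) := by gcongr
    linarith
  have hl3 : (l : ℝ) ≤ 2 * (x / L ^ 10) := by
    have h1 : (1 : ℝ) ≤ x / L ^ 10 := by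
      rw [le_div_iff₀ hL10, one_mul]
      have : L ^ 10 ≤ L ^ 11 := pow_le_pow_right₀ hL1 (by norm_num)
      linarith
    linarith
  have hl0 : (0 : ℝ) < l := lt_of_lt_of_le (by positivity) hl1
  have hlx : l ≤ x := by
    have h1 : 2 * ((x : ℝ) / L ^ 10) ≤ x := by
      have h2 : (2 : ℝ) ≤ L ^ 10 := by
        have : L ^ 1 ≤ L ^ 10 := pow_le_pow_right₀ hL1 (by norm_num)
        rw [pow_one] at this
        linarith
      rw [← mul_div_assoc, div_le_iff₀ hL10]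
      have h3 := mul_le_mul_of_nonneg_left h2 hx0.le
      linarith only [h3]
    exact_mod_cast hl3.trans h1
  have hl58 : 12 * L * (N : ℝ) ^ (5 / 8 : ℝ) ≤ l := by
    refine le_trans ?_ hl1
    rw [le_div_iff₀ hL10]
    calc 12 * L * (N : ℝ) ^ (5 / 8 : ℝ) * L ^ 10 = 12 * L ^ 11 * (N : ℝ) ^ (5 / 8 : ℝ) := by ring
      _ ≤ (x : ℝ) := hxL58
  have hl58' : (N : ℝ) ^ (5 / 8 : ℝ) ≤ l := by
    have h1 : 1 * (N : ℝ) ^ (5 / 8 : ℝ) ≤ 12 * L * (N : ℝ) ^ (5 / 8 : ℝ) :=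
      mul_le_mul_of_nonneg_right (by linarith) (by positivity)
    linarith
  -- (3)
  have hm1 := hS x l ((hpw _ _ (by norm_num)).trans hl58')
  -- the quotients
  have hquot : ∀ p : ℕ, 1 ≤ p → ((x : ℝ) / p) - 1 ≤ ((x / p : ℕ) : ℝ) ∧ ((x / p : ℕ) : ℝ) ≤ (x : ℝ) / p := by
    intro p hp
    refine ⟨?_, Nat.cast_div_le⟩
    have := Nat.lt_floor_add_one ((x : ℝ) / (p : ℝ))
    rw [Nat.floor_div_eq_div] at this
    linarith
  -- (1) the type II sums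
  have hterm : ∀ p ∈ PY y z, (∑ k ∈ Ioc (x / p) ((x + l) / p), bq y J J1 k) - (l / L ^ 3 * (1 / p) + (L ^ 2 + 1)) ≤
      l * (kq y J J1 (x / p) / p) := by
    intro p hp
    unfold PY at hp
    rw [mem_filter, mem_Ioc] at hp
    have hp1 : 1 ≤ p := hp.2.one_lt.le
    have hp0 : (0 : ℝ) < p := by exact_mod_cast hp1
    have hpz : (p : ℝ) ≤ z := by exact_mod_cast hp.1.2
    obtain ⟨a1, a2, a3⟩ := MassQ_len x l p hp1
    set lp := (x + l) / p - x / p with hlp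
    obtain ⟨hxp, hxp2⟩ := hquot p hp1
    have hxpL : 12 * L ^ 11 * (N : ℝ) ^ (5 / 8 : ℝ) ≤ (x : ℝ) / p := by
      rw [le_div_iff₀ hp0]
      calc 12 * L ^ 11 * (N : ℝ) ^ (5 / 8 : ℝ) * p ≤ 12 * L ^ 11 * (N : ℝ) ^ (5 / 8 : ℝ) * z := by gcongr
        _ = 12 * L ^ 11 * ((N : ℝ) ^ (5 / 8 : ℝ) * z) := by ring
        _ ≤ x := hxz
    have b1 : (N : ℝ) ^ (5 / 8 : ℝ) ≤ ((x / p : ℕ) : ℝ) := by
      have h1 : 2 * (N : ℝ) ^ (5 / 8 : ℝ) ≤ 12 * L ^ 11 * (N : ℝ) ^ (5 / 8 : ℝ) := by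
        apply mul_le_mul_of_nonneg_right _ (by positivity)
        linarith
      linarith
    have b2 : x / p ≤ N ^ 2 := by
      refine (Nat.div_le_self x p).trans (hx2.trans ?_)
      rw [sq]
      exact Nat.mul_le_mul_right N (by omega)
    have hxpL' : 12 * L ^ 11 ≤ (x : ℝ) / p := by
      have h1 : 12 * L ^ 11 * 1 ≤ 12 * L ^ 11 * (N : ℝ) ^ (5 / 8 : ℝ) :=
        mul_le_mul_of_nonneg_left h58 (by positivity)
      linarith
    have hlp1 : (x : ℝ) / p / L ^ 10 ≤ l / p := by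
      rw [div_div, mul_comm (p : ℝ), ← div_div]
      gcongr
    have b3 : ((x / p : ℕ) : ℝ) / L ^ 11 ≤ lp := by
      have h1 : (x : ℝ) / p / L ^ 10 = (x : ℝ) / p / L ^ 11 * L := by
        field_simp
      have h2 : (12 : ℝ) ≤ (x : ℝ) / p / L ^ 11 := by
        rw [le_div_iff₀ hL11]
        exact hxpL'
      have h3 : ((x / p : ℕ) : ℝ) / L ^ 11 ≤ (x : ℝ) / p / L ^ 11 := by gcongr
      have h4 : (x : ℝ) / p / L ^ 11 * 10 ≤ (x : ℝ) / p / L ^ 11 * L :=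
        mul_le_mul_of_nonneg_left g1 ((by norm_num : (0 : ℝ) ≤ 12).trans h2)
      linarith only [h1, h2, h3, h4, hlp1, a3]
    have b4 : (lp : ℝ) ≤ ((x / p : ℕ) : ℝ) / L ^ (3 + 6) := by
      have h1 : (l : ℝ) / p ≤ 2 * ((x : ℝ) / p / L ^ 10) := by
        rw [div_le_iff₀ hp0]
        calc (l : ℝ) ≤ 2 * (x / L ^ 10) := hl3
          _ = 2 * ((x : ℝ) / p / L ^ 10) * p := by field_simp
      have h2 : (x : ℝ) / p / L ^ 10 = (x : ℝ) / p / L ^ (3 + 6) / L := by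
        rw [div_div _ (L ^ (3 + 6)), ← pow_succ]
      have h3 : ((x : ℝ) / p - 1) / L ^ (3 + 6) ≤ ((x / p : ℕ) : ℝ) / L ^ (3 + 6) := by gcongr
      have h4 : (12 : ℝ) ≤ (x : ℝ) / p / L ^ (3 + 6) := by
        rw [le_div_iff₀ (by positivity)]
        have h41 : L ^ (3 + 6) ≤ L ^ 11 := pow_le_pow_right₀ hL1 (by norm_num)
        exact (mul_le_mul_of_nonneg_left h41 (by norm_num)).trans hxpL'
      have h5 : 1 / L ^ (3 + 6) ≤ 1 := by
        rw [div_le_one (by positivity)]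
        exact one_le_pow₀ hL1
      rw [sub_div] at h3
      have h6 : (x : ℝ) / p / L ^ (3 + 6) / L ≤ (x : ℝ) / p / L ^ (3 + 6) / 10 := by
        apply div_le_div_of_nonneg_left (by positivity) (by norm_num) g1
      rw [h2] at h1
      linarith
    have hb := heq (x / p) lp 1 0 hJJ hz1 hz11 b1 b2 b3 b4 le_rfl (by simp)
    have e1 : (Ioc (x / p) (x / p + lp)).filter (fun k => k ≡ 0 [MOD 1]) = Ioc (x / p) ((x + l) / p) := by
      rw [← a1]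
      apply filter_true_of_mem
      intro k _
      exact Nat.modEq_one
    rw [e1, if_pos (Nat.coprime_one_right 0), Nat.totient_one, Nat.cast_one, div_one] at hb
    have hb2 := (abs_le.1 hb).2
    have k1 := hlip (x / p)
    obtain ⟨k2, k3⟩ := abs_le.1 k1
    have c1 : (lp : ℝ) * kq y J J1 (x / p) ≤ l / p * kq y J J1 (x / p) + L ^ 2 := by
      have h1 : ((lp : ℝ) - l / p) * kq y J J1 (x / p) ≤ L ^ 2 := by
        have h2 : |((lp : ℝ) - l / p) * kq y J J1 (x / p)| ≤ 1 * L ^ 2 := by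
          rw [abs_mul]
          apply mul_le_mul _ k1 (abs_nonneg _) zero_le_one
          rw [abs_le]
          constructor <;> linarith
        have h3 := (abs_le.1 h2).2
        linarith
      have h4 : (lp : ℝ) * kq y J J1 (x / p) = l / p * kq y J J1 (x / p) + ((lp : ℝ) - l / p) * kq y J J1 (x / p) := by ring
      rw [h4]
      linarith
    have c2 : (lp : ℝ) / L ^ 3 ≤ l / p / L ^ 3 + 1 := by
      have h1 : (lp : ℝ) / L ^ 3 ≤ (l / p + 1) / L ^ 3 := by gcongr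
      rw [add_div] at h1
      have h2 : 1 / L ^ 3 ≤ 1 := by
        rw [div_le_one (by positivity)]
        exact one_le_pow₀ hL1
      linarith
    have c3 : (l : ℝ) / L ^ 3 * (1 / p) = l / p / L ^ 3 := by
      field_simp
    have c4 : (l : ℝ) * (kq y J J1 (x / p) / p) = l / p * kq y J J1 (x / p) := by
      field_simp
    rw [c3, c4]
    linarith
  have hsum := sum_le_sum hterm
  rw [sum_sub_distrib, sum_add_distrib, ← mul_sum, ← mul_sum, sum_const, nsmul_eq_mul,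
    ← MassQ_swap (bq y J J1) y J x l] at hsum
  have hWK : ∑ p ∈ PY y z, kq y J J1 (x / p) / (p : ℝ) = ∑ j ∈ range J, WQ y J J1 (2 ^ j * y) x := by
    rw [hz, ← MassQ_part (fun p => kq y J J1 (x / p) / (p : ℝ)) y J]
    rfl
  rw [hWK] at hsum
  have hcard : ((PY y z).card : ℝ) ≤ z := by
    have : (PY y z).card ≤ z := by
      unfold PY
      refine (card_filter_le _ _).trans ?_
      rw [Nat.card_Ioc]
      omega
    exact_mod_cast this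
  have hcard1 : ((PY z z1).card : ℝ) ≤ z1 := by
    have : (PY z z1).card ≤ z1 := by
      unfold PY
      refine (card_filter_le _ _).trans ?_
      rw [Nat.card_Ioc]
      omega
    exact_mod_cast this
  have hinv := MassQ_inv y z L hz1' hzL
  -- (5)
  have hW1 : W1 y J J1 ≤ 1 := by
    refine le_trans ?_ hW
    unfold W1
    apply sum_le_sum_of_subset_of_nonneg
    · intro p hp
      unfold PY at hp
      rw [mem_filter, mem_Ioc] at hp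
      rw [mem_filter, mem_Icc]
      have h1 : (z : ℝ) < p := by exact_mod_cast hp.1.1
      have h2 : (p : ℝ) ≤ z1 := by exact_mod_cast hp.1.2
      have h3 : (p : ℝ) ≤ N := h2.trans (hz18.trans hN8)
      have h4 : (N : ℝ) ^ (1 / 4 : ℝ) ≤ z := (hpw _ _ (by linarith)).trans hz2
      exact ⟨⟨hp.2.one_lt.le, by exact_mod_cast h3⟩, hp.2, by linarith, h2.trans hz18⟩
    · intro p _ _
      positivity
  have hW0 : 0 ≤ W1 y J J1 := by
    unfold W1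
    exact sum_nonneg fun p _ => by positivity
  -- (4)
  have hterm2 : ∀ p ∈ PY z z1, (∑ k ∈ Ioc (x / p) ((x + l) / p), rg y k) ≤
      (kT * l + ε0 * l / L) * (1 / p) + 2 := by
    intro p hp
    unfold PY at hp
    rw [mem_filter, mem_Ioc] at hp
    have hp1 : 1 ≤ p := hp.2.one_lt.le
    have hp0 : (0 : ℝ) < p := by exact_mod_cast hp1
    have hpz : (p : ℝ) ≤ z1 := by exact_mod_cast hp.1.2
    obtain ⟨a1, a2, a3⟩ := MassQ_len x l p hp1
    set lp := (x + l) / p - x / p with hlp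
    have hlp1 : (x : ℝ) / p / L ^ 10 ≤ l / p := by
      rw [div_div, mul_comm (p : ℝ), ← div_div]
      gcongr
    have hxpL : 12 * L ^ 11 * (N : ℝ) ^ (1 / 4 : ℝ) ≤ (x : ℝ) / p := by
      rw [le_div_iff₀ hp0]
      calc 12 * L ^ 11 * (N : ℝ) ^ (1 / 4 : ℝ) * p ≤ 12 * L ^ 11 * (N : ℝ) ^ (1 / 4 : ℝ) * z1 := by gcongr
        _ = 12 * L ^ 11 * ((N : ℝ) ^ (1 / 4 : ℝ) * z1) := by ring
        _ ≤ x := hxz1
    have b1 : (N : ℝ) ^ (1 / 4 : ℝ) ≤ lp := by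
      have h1 : 12 * L * (N : ℝ) ^ (1 / 4 : ℝ) ≤ (x : ℝ) / p / L ^ 10 := by
        rw [le_div_iff₀ hL10]
        calc 12 * L * (N : ℝ) ^ (1 / 4 : ℝ) * L ^ 10 = 12 * L ^ 11 * (N : ℝ) ^ (1 / 4 : ℝ) := by ring
          _ ≤ (x : ℝ) / p := hxpL
      have h2 : 2 * (N : ℝ) ^ (1 / 4 : ℝ) ≤ 12 * L * (N : ℝ) ^ (1 / 4 : ℝ) :=
        mul_le_mul_of_nonneg_right (by linarith) (by positivity)
      linarith
    have hb := hT (x / p) lp b1
    rw [← a1] at hb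
    refine hb.trans ?_
    have c1 : kT * lp ≤ kT * (l / p) + 1 := by
      have h1 : kT * ((lp : ℝ) - l / p) ≤ 1 := by
        have h2 : |kT * ((lp : ℝ) - l / p)| ≤ 1 * 1 := by
          rw [abs_mul]
          apply mul_le_mul hkT _ (abs_nonneg _) zero_le_one
          rw [abs_le]
          constructor <;> linarith
        have h3 := (abs_le.1 h2).2
        linarith
      have h4 : kT * (lp : ℝ) = kT * (l / p) + kT * ((lp : ℝ) - l / p) := by ring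
      rw [h4]
      linarith
    have c2 : ε0 * lp / L ≤ ε0 * l / L * (1 / p) + 1 := by
      have h1 : ε0 * lp / L ≤ ε0 * (l / p + 1) / L := by gcongr
      have h2 : ε0 * (l / p + 1) / L = ε0 * l / L * (1 / p) + ε0 / L := by
        field_simp
      have h3 : ε0 / L ≤ 1 := by
        rw [div_le_one hL0]
        linarith
      linarith
    have c3 : (kT * l + ε0 * l / L) * (1 / p) = kT * (l / p) + ε0 * l / L * (1 / p) := by
      field_simp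
    rw [c3]
    linarith
  have hsum2 := sum_le_sum hterm2
  rw [sum_add_distrib, ← mul_sum, sum_const, nsmul_eq_mul, ← MassQ_omrg y J J1 x l] at hsum2
  have hWdef : ∑ p ∈ PY z z1, 1 / (p : ℝ) = W1 y J J1 := rfl
  rw [hWdef] at hsum2
  -- (6)
  have hF : ∀ m ∈ Ioc x (x + l), rg y m - (om y J J1 m : ℝ) * rg y m / 2 - ∑ j ∈ range J, Fp (bq y J J1) (2 ^ j * y) m =
      (1 - (om y J J1 m : ℝ) / 2) * AA y J m := by
    intro m hm
    rw [mem_Ioc] at hm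
    have h1 := fq_eq (rg y) (rg y) y J J1 m (by omega)
    unfold Fq at h1
    linarith
  have hFs := sum_congr rfl hF
  rw [sum_sub_distrib, sum_sub_distrib, ← sum_div] at hFs
  -- (7)
  have hpt : ∀ m ∈ Ioc x (x + l), (1 - (om y J J1 m : ℝ) / 2) * AA y J m ≤
      (if ∀ p : ℕ, p.Prime → p ∣ m → (N : ℝ) ^ ζ' < p then
        (1 - ((m.primeFactors.filter (fun p : ℕ => (N : ℝ) ^ ζ < p ∧ (p : ℝ) ≤ (N : ℝ) ^ κ')).card : ℝ) / 2) else 0)
        + sqp y J m := by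
    intro m hm
    rw [mem_Ioc] at hm
    have hm1' : 1 ≤ m := by omega
    have hm16 : m ≤ 16 * N := by omega
    have hm8 : N ≤ 8 * m := by omega
    have hsq0 : 0 ≤ sqp y J m := by
      unfold sqp
      positivity
    obtain ⟨ho3, ho2⟩ := homs m hm1' hm16 hz2
    have hAA0 := aa_nonneg y J m hm1'
    by_cases hr : ∀ p : ℕ, p.Prime → p ∣ m → z < p
    · have hr' : ∀ p : ℕ, p.Prime → p ∣ m → (N : ℝ) ^ ζ' < p := by
        intro p hp hpm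
        have h3 : (z : ℝ) < p := by exact_mod_cast hr p hp hpm
        linarith
      rw [if_pos hr', aa_one y J m hm1' hr, mul_one]
      have h4 : (m.primeFactors.filter (fun p : ℕ => (N : ℝ) ^ ζ < p ∧ (p : ℝ) ≤ (N : ℝ) ^ κ')).card ≤ om y J J1 m := by
        unfold om
        apply card_le_card
        intro p hp
        rw [mem_filter] at hp ⊢
        refine ⟨hp.1, ?_, ?_⟩
        · have : (z : ℝ) < p := lt_of_le_of_lt hz1 hp.2.1
          exact_mod_cast this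
        · have : (p : ℝ) ≤ z1 := hp.2.2.trans hz12
          exact_mod_cast this
      have h5 : ((m.primeFactors.filter (fun p : ℕ => (N : ℝ) ^ ζ < p ∧ (p : ℝ) ≤ (N : ℝ) ^ κ')).card : ℝ) ≤ om y J J1 m := by
        exact_mod_cast h4
      linarith
    · have hrz : rg z m = 0 := by
        unfold rg
        rw [if_neg hr]
      have h1 := aa_le y J m hm1'
      rw [← hz, hrz, zero_add] at h1
      have h2 : AA y J m ≤ sqp y J m := h1
      have h3 : (1 - (om y J J1 m : ℝ) / 2) * AA y J m ≤ sqp y J m := by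
        have h4 : (0 : ℝ) ≤ om y J J1 m := Nat.cast_nonneg _
        have h5 : (1 - (om y J J1 m : ℝ) / 2) * AA y J m ≤ 1 * AA y J m :=
          mul_le_mul_of_nonneg_right (by linarith) hAA0
        linarith
      by_cases hr' : ∀ p : ℕ, p.Prime → p ∣ m → (N : ℝ) ^ ζ' < p
      · rw [if_pos hr']
        have h4 := MassQ_two N m ((N : ℝ) ^ ζ') ((N : ℝ) ^ ζ) ((N : ℝ) ^ κ') (by positivity) (hpw _ _ hζ'ζ.le) (by
          have h5 : ((N : ℝ) ^ κ') ^ 3 ≤ ((N : ℝ) ^ (8 / 25 : ℝ)) ^ 3 :=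
            pow_le_pow_left₀ (by positivity) (hpw _ _ (by linarith)) 3
          linarith) g8 hm8 hm16 hr'
        have h5 : ((m.primeFactors.filter (fun p : ℕ => (N : ℝ) ^ ζ < p ∧ (p : ℝ) ≤ (N : ℝ) ^ κ')).card : ℝ) ≤ 2 := by
          exact_mod_cast h4
        linarith
      · rw [if_neg hr']
        linarith
  have hpts := sum_le_sum hpt
  rw [sum_add_distrib, ← sum_filter] at hpts
  have hzc2 := hzc x l hx1 hx2 hl1 hlx
  have hsqp2 := hsqp l hz27 ((hpw _ _ (by norm_num)).trans hl58')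
  -- the error terms
  have er1 : (l : ℝ) / L ^ 3 * (1 + L) ≤ ε / 4 * l / L := by
    rw [div_mul_eq_mul_div, div_le_div_iff₀ (by positivity) hL0]
    have h1 : 1 + L ≤ 2 * L := by linarith
    have h2 : 16 ≤ ε * L := by
      have := (div_le_iff₀ hε).1 g2
      linarith
    calc (l : ℝ) * (1 + L) * L ≤ l * (2 * L) * L := by gcongr
      _ = l * L ^ 2 * 2 := by ring
      _ ≤ l * L ^ 2 * (ε * L / 4) := by
          apply mul_le_mul_of_nonneg_left _ (by positivity)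
          linarith
      _ = ε / 4 * l * L ^ 3 := by ring
  have er2 : (l : ℝ) / L ^ 3 ≤ ε / 8 * l / L := by
    rw [div_le_div_iff₀ (by positivity) hL0]
    have h2 : 16 ≤ ε * L := by
      have := (div_le_iff₀ hε).1 g2
      linarith
    calc (l : ℝ) * L = l * L * 1 := by ring
      _ ≤ l * L * (ε * L * L / 8) := by
          apply mul_le_mul_of_nonneg_left _ (by positivity)
          have h3 := mul_le_mul_of_nonneg_left hL1 ((by norm_num : (0 : ℝ) ≤ 16).trans h2)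
          linarith only [h2, h3]
      _ = ε / 8 * l * L ^ 3 := by ring
  have hN64 : (N : ℝ) ≤ 8 * (l * L ^ 10) := by
    have h3 : x ≤ l * L ^ 10 := (div_le_iff₀ hL10).1 hl1
    linarith
  have g3' : 256 * L ^ 13 * (N : ℝ) ^ (8 / 25 : ℝ) ≤ ε * N := by
    have h3 : 256 / ε * L ^ 13 * (N : ℝ) ^ (8 / 25 : ℝ) * ε ≤ N * ε := mul_le_mul_of_nonneg_right g3 hε.le
    have h5 : 256 / ε * L ^ 13 * (N : ℝ) ^ (8 / 25 : ℝ) * ε = 256 * L ^ 13 * (N : ℝ) ^ (8 / 25 : ℝ) := by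
      field_simp
    rw [h5] at h3
    linarith
  have key : 32 * (L ^ 3 * (N : ℝ) ^ (8 / 25 : ℝ)) ≤ ε * l := by
    have h1 : 32 * (L ^ 3 * (N : ℝ) ^ (8 / 25 : ℝ)) * L ^ 10 ≤ ε * l * L ^ 10 := by
      have h2 : ε * N ≤ ε * (8 * (l * L ^ 10)) := mul_le_mul_of_nonneg_left hN64 hε.le
      have h3 : 32 * (L ^ 3 * (N : ℝ) ^ (8 / 25 : ℝ)) * L ^ 10 = (256 * L ^ 13 * (N : ℝ) ^ (8 / 25 : ℝ)) / 8 := by ring
      rw [h3]
      linarith
    exact le_of_mul_le_mul_right h1 hL10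
  have er3 : (z1 : ℝ) ≤ ε / 16 * l / L := by
    rw [le_div_iff₀ hL0]
    have h1 : (z1 : ℝ) * L ≤ L ^ 3 * (N : ℝ) ^ (8 / 25 : ℝ) := by
      calc (z1 : ℝ) * L ≤ (N : ℝ) ^ (8 / 25 : ℝ) * L ^ 3 := by
            have h2 : L ^ 1 ≤ L ^ 3 := pow_le_pow_right₀ hL1 (by norm_num)
            rw [pow_one] at h2
            exact mul_le_mul hz18 h2 hL0.le h825.le
        _ = L ^ 3 * (N : ℝ) ^ (8 / 25 : ℝ) := mul_comm _ _
    have h2 : 0 ≤ L ^ 3 * (N : ℝ) ^ (8 / 25 : ℝ) := by positivity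
    linarith
  have er4 : (z : ℝ) * (L ^ 2 + 1) ≤ ε / 16 * l / L := by
    rw [le_div_iff₀ hL0]
    have h1 : (z : ℝ) * (L ^ 2 + 1) * L ≤ 2 * (L ^ 3 * (N : ℝ) ^ (8 / 25 : ℝ)) := by
      have h2 : L ≤ L ^ 3 := by
        have h2 : L ^ 1 ≤ L ^ 3 := pow_le_pow_right₀ hL1 (by norm_num)
        rwa [pow_one] at h2
      calc (z : ℝ) * (L ^ 2 + 1) * L = z * (L ^ 3 + L) := by ring
        _ ≤ (N : ℝ) ^ (8 / 25 : ℝ) * (L ^ 3 + L ^ 3) := by
            apply mul_le_mul hz8 (by linarith) (by positivity) h825.le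
        _ = 2 * (L ^ 3 * (N : ℝ) ^ (8 / 25 : ℝ)) := by ring
    linarith
  -- conclusion
  have hfin : l * kapF kS kT y J J1 x ≤ (MQ ζ' ζ κ' + 2 * ε0 + ε) * l / L := by
    unfold kapF
    have t1 : (l : ℝ) / L ^ 3 * ∑ p ∈ PY y z, 1 / (p : ℝ) ≤ l / L ^ 3 * (1 + L) :=
      mul_le_mul_of_nonneg_left hinv (by positivity)
    have t1' : ((PY y z).card : ℝ) * (L ^ 2 + 1) ≤ z * (L ^ 2 + 1) :=
      mul_le_mul_of_nonneg_right hcard (by positivity)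
    have t2 : (l : ℝ) * (kS - kT * W1 y J J1 / 2 - ∑ j ∈ range J, WQ y J J1 (2 ^ j * y) x) =
        kS * l - kT * l * W1 y J J1 / 2 - l * ∑ j ∈ range J, WQ y J J1 (2 ^ j * y) x := by ring
    rw [t2]
    have t3 : (MQ ζ' ζ κ' + 2 * ε0 + ε) * l / L = (MQ ζ' ζ κ' + ε / 4) * l / L + 2 * (ε0 * l / L) +
        (ε / 4 * l / L + ε / 8 * l / L + ε / 16 * l / L + ε / 16 * l / L) + ε / 4 * l / L := by ring
    rw [t3]
    have t4 : 0 ≤ ε / 4 * l / L := by positivity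
    have t5 : 0 ≤ ε0 * l / L := by positivity
    have t6 : ε0 * l / L * W1 y J J1 ≤ ε0 * l / L * 1 := mul_le_mul_of_nonneg_left hW1 t5
    have t7 : (kT * l + ε0 * l / L) * W1 y J J1 = kT * l * W1 y J J1 + ε0 * l / L * W1 y J J1 := by ring
    rw [t7] at hsum2
    linarith
  have hfin2 : kapF kS kT y J J1 x * l ≤ (MQ ζ' ζ κ' + 2 * ε0 + ε) / L * l := by
    calc kapF kS kT y J J1 x * l = l * kapF kS kT y J J1 x := mul_comm _ _
      _ ≤ (MQ ζ' ζ κ' + 2 * ε0 + ε) * l / L := hfin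
      _ = (MQ ζ' ζ κ' + 2 * ε0 + ε) / L * l := by ring
  exact le_of_mul_le_mul_right hfin2 hl0

end Pool.Agent.H91.TQ
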