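import Pool.Agent.H76.TP.Buc
import Pool.Agent.H76.TP.TyI

/-!
# TQ SLowA: the lower bound sieve and its divisor expansion

`TSv w y r ρ m = ∑_{T ⊆ PW w, T ∣ m, |T| ≤ 2r+1} (-1)^|T| - ∑_{p ∈ PY w y, p ∣ m} SS w (p-1) r (ρ p) (m/p)`, `ρ p` admissible weights (`Rho w (p-1) D`).
* `ts_le`: Bonferroni (`∑_{|T| ≤ 2r+1} (-1)^|T| ≤ 1[w-rough] = rg w m`, compare `buc_bonf` in `H76/TP/Buc.lean`), `rg w m ≤ rg y m + ∑_{p ∈ PY w y, p ∣ m} rg (p-1) (m/p)` (`buc_step`, private in `Buc.lean`: copy it),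
  `rg (p-1) (m/p) ≤ SS w (p-1) r (ρ p) (m/p)` (`ss_ge`, `m/p ≥ 1`).
* `ts_adm`: coefficients `gT n = [n squarefree, all prime factors ≤ w, ω(n) ≤ 2r+1] (-1)^ω(n) - ∑_{p ∈ PY w y, p ∣ n} [n squarefree] gS w (p-1) r (ρ p) (n/p)`.
  For squarefree `n`, `gS w (p-1) r (ρ p) (n/p) ≠ 0` only if all prime factors of `n/p` are `≤ p - 1` (definition of `gS`), so `p` is the largest prime factor of `n`: at most one `p` contributes, `|gT n| ≤ 3^ω(n)`
  (`gs_abs`; if it contributes, the first term is `0` because `p > w`).  Expansion: the `T ⊆ PW w`, `∏T ∣ m` are the squarefree `w`-smooth `n ∣ m` (`n ≤ w^(2r+1)` if `|T| ≤ 2r+1`; compare `SvA_pair`, `ss_exp`); and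
  `SS w (p-1) r (ρ p) (m/p) = ∑_{n' ≤ Q', n' ∣ m/p} gS n'` (`ss_exp`), `n = p n'` (`n' ∣ m/p ↔ p n' ∣ m` for `p ∣ m`; `gS n' ≠ 0` implies `n'` squarefree and `p ∤ n'`, so `p n'` is squarefree; `gs_zero` for the range).
-/

set_option autoImplicit false

namespace Pool.Agent.H91.TQ

open Finset
open Pool.Agent.H76.TP

/-- the odd Bonferroni sum -/
noncomputable def bonL (w r m : ℕ) : ℝ :=
  ∑ T ∈ ((PW w).filter (fun p => p ∣ m)).powerset.filter (fun T => T.card ≤ 2 * r + 1), (-1 : ℝ) ^ T.card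

/-- the lower bound sieve -/
noncomputable def TSv (w y r : ℕ) (ρ : ℕ → Finset ℕ → ℝ) (m : ℕ) : ℝ :=
  bonL w r m - ∑ p ∈ (PY w y).filter (fun p => p ∣ m), SS w (p - 1) r (ρ p) (m / p)

open Classical in
/-- its coefficients -/
noncomputable def gT (w y r : ℕ) (ρ : ℕ → Finset ℕ → ℝ) (n : ℕ) : ℝ :=
  if Squarefree n then
    (if (∀ p ∈ n.primeFactors, p ≤ w) ∧ n.primeFactors.card ≤ 2 * r + 1 then (-1 : ℝ) ^ n.primeFactors.card else 0)
      - ∑ p ∈ (PY w y).filter (fun p => p ∣ n), gS w (p - 1) r (ρ p) (n / p)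
  else 0

private theorem SLowA_rg_nonneg (y k : ℕ) : 0 ≤ rg y k := by
  unfold rg; split_ifs <;> norm_num

private theorem SLowA_step (w y m : ℕ) (hm : 1 ≤ m) :
    rg w m ≤ rg y m + ∑ p ∈ PY w y, if p ∣ m then rg (p - 1) (m / p) else 0 := by
  have hs : ∀ p ∈ PY w y, 0 ≤ (if p ∣ m then rg (p - 1) (m / p) else 0) := by
    intro p _
    split_ifs
    · exact SLowA_rg_nonneg _ _
    · exact le_rfl
  have hs0 := sum_nonneg hs
  by_cases h : ∀ p : ℕ, p.Prime → p ∣ m → w < p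
  · have h1 : rg w m = 1 := by unfold rg; rw [if_pos h]
    by_cases h2 : ∀ p : ℕ, p.Prime → p ∣ m → y < p
    · have h3 : rg y m = 1 := by unfold rg; rw [if_pos h2]
      rw [h1, h3]
      linarith
    · push Not at h2
      obtain ⟨p0, hp0, hpm, hpy⟩ := h2
      have hm1 : m ≠ 1 := by
        rintro rfl
        exact hp0.one_lt.ne' (Nat.dvd_one.1 hpm)
      have hp : (m.minFac).Prime := Nat.minFac_prime hm1
      have hpd : m.minFac ∣ m := Nat.minFac_dvd m
      have hle : m.minFac ≤ p0 := Nat.minFac_le_of_dvd hp0.two_le hpm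
      have hw := h _ hp hpd
      have hmem : m.minFac ∈ PY w y := by
        unfold PY
        rw [mem_filter, mem_Ioc]
        exact ⟨⟨hw, hle.trans hpy⟩, hp⟩
      have h4 := single_le_sum hs hmem
      simp only [if_pos hpd] at h4
      have h5 : rg (m.minFac - 1) (m / m.minFac) = 1 := by
        unfold rg
        rw [if_pos]
        intro q hq hqd
        have h6 : q ∣ m := hqd.trans (Nat.div_dvd_of_dvd hpd)
        have h7 := Nat.minFac_le_of_dvd hq.two_le h6
        have h8 := hp.two_le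
        omega
      rw [h5] at h4
      have h9 := SLowA_rg_nonneg y m
      rw [h1]
      linarith
  · have h1 : rg w m = 0 := by unfold rg; rw [if_neg h]
    rw [h1]
    have h9 := SLowA_rg_nonneg y m
    linarith

private theorem SLowA_card_sum (V : Finset ℕ) (k : ℕ) (F : ℕ → ℝ) :
    ∑ T ∈ V.powerset.filter (fun T => T.card ≤ k), F T.card =
      ∑ j ∈ range (k + 1), (V.card.choose j : ℝ) * F j := by
  rw [← Finset.sum_fiberwise_of_maps_to (s := V.powerset.filter (fun T => T.card ≤ k)) (t := range (k + 1))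
    (g := fun T => T.card) (f := fun T => F T.card)]
  · refine sum_congr rfl fun j hj => ?_
    have h1 : ((V.powerset.filter (fun T => T.card ≤ k)).filter (fun T => T.card = j)) = powersetCard j V := by
      ext T
      rw [mem_range] at hj
      simp only [mem_filter, mem_powerset, mem_powersetCard]
      constructor
      · rintro ⟨⟨h1, _⟩, h3⟩
        exact ⟨h1, h3⟩
      · rintro ⟨h1, h3⟩
        exact ⟨⟨h1, by omega⟩, h3⟩
    rw [h1, sum_congr rfl (g := fun _ => F j)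
      (fun T hT => by rw [(mem_powersetCard.1 hT).2]), sum_const, card_powersetCard, nsmul_eq_mul]
  · intro T hT
    rw [mem_filter] at hT
    rw [mem_range]
    omega

private theorem SLowA_bonf (V : Finset ℕ) (r : ℕ) :
    ∑ T ∈ V.powerset.filter (fun T => T.card ≤ 2 * r + 1), (-1 : ℝ) ^ T.card ≤ if V = ∅ then 1 else 0 := by
  rw [SLowA_card_sum V (2 * r + 1) (fun j => (-1 : ℝ) ^ j)]
  split_ifs with h
  · subst h
    rw [card_empty, sum_range_succ']
    simp
  · obtain ⟨n, hn⟩ : ∃ n, V.card = n + 1 := ⟨V.card - 1, by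
      have := card_pos.2 (nonempty_iff_ne_empty.2 h); omega⟩
    rw [hn]
    have h1 := @Int.alternating_sum_range_choose_eq_choose n (2 * r + 1)
    have h2 : ((∑ k ∈ range (2 * r + 1 + 1), ((-1) ^ k * (n + 1).choose k : ℤ) : ℤ) : ℝ) =
        (((-1) ^ (2 * r + 1) * n.choose (2 * r + 1) : ℤ) : ℝ) := by rw [h1]
    push_cast at h2
    have h3 : ∑ j ∈ range (2 * r + 1 + 1), ((n + 1).choose j : ℝ) * (-1 : ℝ) ^ j =
        (-1) ^ (2 * r + 1) * (n.choose (2 * r + 1) : ℝ) := by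
      rw [← h2]
      exact sum_congr rfl fun j _ => mul_comm _ _
    rw [h3]
    have h4 : ((-1 : ℝ)) ^ (2 * r + 1) = -1 := Odd.neg_one_pow ⟨r, rfl⟩
    rw [h4]
    have : (0 : ℝ) ≤ (n.choose (2 * r + 1) : ℝ) := by positivity
    linarith


private theorem SLowA_bonL_le (w r m : ℕ) : bonL w r m ≤ rg w m := by
  have h2 := SLowA_bonf ((PW w).filter (fun p => p ∣ m)) r
  have h3 : rg w m = if ((PW w).filter (fun p => p ∣ m)) = ∅ then 1 else 0 := by
    unfold rg
    by_cases h : ∀ p : ℕ, p.Prime → p ∣ m → w < p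
    · rw [if_pos h, if_pos]
      rw [filter_eq_empty_iff]
      intro p hp hpm
      unfold PW at hp
      rw [mem_filter, mem_Icc] at hp
      have := h p hp.2 hpm
      omega
    · rw [if_neg h, if_neg]
      intro h4
      apply h
      intro p hp hpm
      by_contra h5
      rw [not_lt] at h5
      have h6 : p ∈ ((PW w).filter (fun p => p ∣ m)) := by
        unfold PW
        rw [mem_filter, mem_filter, mem_Icc]
        exact ⟨⟨⟨hp.one_le, h5⟩, hp⟩, hpm⟩
      rw [h4] at h6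
      exact notMem_empty p h6
  rw [h3]
  exact h2

private theorem SLowA_mem {w y p : ℕ} (hp : p ∈ PY w y) : w < p ∧ p ≤ y ∧ p.Prime := by
  unfold PY at hp
  rw [mem_filter, mem_Ioc] at hp
  exact ⟨hp.1.1, hp.1.2, hp.2⟩

private theorem SLowA_gs_ne {w y r n : ℕ} {ρ : Finset ℕ → ℝ} (h : gS w y r ρ n ≠ 0) :
    Squarefree n ∧ ∀ q ∈ n.primeFactors, q ≤ y := by
  unfold gS at h
  split_ifs at h with h1
  · exact ⟨h1.1, h1.2.1⟩
  · exact absurd rfl h

/-- a nonzero term forces `p` to be the largest prime factor -/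
private theorem SLowA_big {w r n p : ℕ} {ρ : Finset ℕ → ℝ} (hp : p.Prime) (hpn : p ∣ n) (hn : n ≠ 0)
    (h : gS w (p - 1) r ρ (n / p) ≠ 0) {q : ℕ} (hq : q.Prime) (hqn : q ∣ n) (hqp : q ≠ p) : q < p := by
  have h1 : q ∣ n / p := by
    obtain ⟨k, rfl⟩ := hpn
    rw [Nat.mul_div_cancel_left _ hp.pos]
    rcases (Nat.Prime.dvd_mul hq).1 hqn with h2 | h2
    · exact absurd ((Nat.prime_dvd_prime_iff_eq hq hp).1 h2) hqp
    · exact h2
  have h2 : n / p ≠ 0 := by
    have := Nat.div_pos (Nat.le_of_dvd (Nat.pos_of_ne_zero hn) hpn) hp.pos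
    omega
  have h3 := (SLowA_gs_ne h).2 q (Nat.mem_primeFactors.2 ⟨hq, h1, h2⟩)
  have h4 := hp.two_le
  omega

/-- a nonzero term forces `n` to be squarefree -/
private theorem SLowA_sqf {w r n p : ℕ} {ρ : Finset ℕ → ℝ} (hp : p.Prime) (hpn : p ∣ n) (hn : n ≠ 0)
    (h : gS w (p - 1) r ρ (n / p) ≠ 0) : Squarefree n := by
  obtain ⟨k, rfl⟩ := hpn
  rw [Nat.mul_div_cancel_left _ hp.pos] at h
  obtain ⟨h1, h2⟩ := SLowA_gs_ne h
  have hk : k ≠ 0 := fun hk => hn (by rw [hk, mul_zero])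
  have h3 : Nat.Coprime p k := by
    rw [Nat.Prime.coprime_iff_not_dvd hp]
    intro h4
    have h5 := h2 p (Nat.mem_primeFactors.2 ⟨hp, h4, hk⟩)
    have h6 := hp.two_le
    omega
  rw [Nat.squarefree_mul h3]
  exact ⟨hp.squarefree, h1⟩

open Classical in
private theorem SLowA_bon (w r m : ℕ) (hm : 1 ≤ m) : bonL w r m = ∑ n ∈ m.divisors,
    (if Squarefree n ∧ (∀ p ∈ n.primeFactors, p ≤ w) ∧ n.primeFactors.card ≤ 2 * r + 1 then
      (-1 : ℝ) ^ n.primeFactors.card else 0) := by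
  rw [← sum_filter]
  unfold bonL
  have hT0 : ∀ T ∈ ((PW w).filter (fun p => p ∣ m)).powerset.filter (fun T => T.card ≤ 2 * r + 1),
      T.card ≤ 2 * r + 1 ∧ ∀ p ∈ T, p.Prime ∧ p ≤ w ∧ p ∣ m := by
    intro T hT
    rw [mem_filter, mem_powerset] at hT
    refine ⟨hT.2, fun p hp => ?_⟩
    have h1 := hT.1 hp
    unfold PW at h1
    rw [mem_filter, mem_filter, mem_Icc] at h1
    exact ⟨h1.1.2, h1.1.1.2, h1.2⟩
  apply Finset.sum_nbij' (fun T : Finset ℕ => ∏ p ∈ T, p) (fun n : ℕ => n.primeFactors)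
  · intro T hT
    obtain ⟨h1, h2⟩ := hT0 T hT
    rw [mem_filter, Nat.mem_divisors, Nat.primeFactors_prod (fun p hp => (h2 p hp).1)]
    refine ⟨⟨Finset.prod_primes_dvd m (fun p h => (h2 p h).1.prime) (fun p h => (h2 p h).2.2), by omega⟩, ?_,
      fun p hp => (h2 p hp).2.1, h1⟩
    apply Finset.squarefree_prod_of_pairwise_isCoprime
    · intro p hp q hq hpq
      rw [Function.onFun, ← Nat.coprime_iff_isRelPrime]
      exact (Nat.coprime_primes (h2 p hp).1 (h2 q hq).1).mpr hpq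
    · intro p hp
      exact (h2 p hp).1.prime.squarefree
  · intro n hn
    rw [mem_filter, Nat.mem_divisors] at hn
    obtain ⟨⟨hnm, -⟩, hsq, hy, hc⟩ := hn
    rw [mem_filter, mem_powerset]
    refine ⟨?_, hc⟩
    intro p hp
    unfold PW
    rw [mem_filter, mem_filter, mem_Icc]
    have h1 := Nat.prime_of_mem_primeFactors hp
    exact ⟨⟨⟨h1.one_lt.le, hy p hp⟩, h1⟩, (Nat.dvd_of_mem_primeFactors hp).trans hnm⟩
  · intro T hT
    obtain ⟨h1, h2⟩ := hT0 T hT
    exact Nat.primeFactors_prod (fun p hp => (h2 p hp).1)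
  · intro n hn
    rw [mem_filter] at hn
    exact Nat.prod_primeFactors_of_squarefree hn.2.1
  · intro T hT
    obtain ⟨h1, h2⟩ := hT0 T hT
    rw [Nat.primeFactors_prod (fun p hp => (h2 p hp).1)]

private theorem SLowA_ss (w r D p : ℕ) (ρ : Finset ℕ → ℝ) (hw : 1 ≤ w) (hwp : w ≤ p - 1) (hp : p.Prime)
    (hρ : Rho w (p - 1) D ρ) (m : ℕ) (hm : 1 ≤ m) (hpm : p ∣ m) :
    SS w (p - 1) r ρ (m / p) = ∑ n ∈ m.divisors, if p ∣ n then gS w (p - 1) r ρ (n / p) else 0 := by
  have hmp : 1 ≤ m / p := Nat.div_pos (Nat.le_of_dvd hm hpm) hp.pos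
  rw [ss_exp w (p - 1) r D ρ hw hwp hρ (m / p) hmp]
  have h1 : ∑ n ∈ (Icc 1 (w ^ (2 * r) * D ^ 2)).filter (fun n => n ∣ m / p), gS w (p - 1) r ρ n =
      ∑ n ∈ (m / p).divisors, gS w (p - 1) r ρ n := by
    apply sum_subset
    · intro n hn
      rw [mem_filter] at hn
      exact Nat.mem_divisors.2 ⟨hn.2, by omega⟩
    · intro n hn hn2
      apply gs_zero w (p - 1) r D ρ hw hρ
      by_contra hcon
      push Not at hcon
      apply hn2
      rw [mem_filter, mem_Icc]
      exact ⟨⟨Nat.pos_of_mem_divisors hn, hcon⟩, Nat.dvd_of_mem_divisors hn⟩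
  rw [h1, ← sum_filter]
  refine sum_nbij' (fun n => p * n) (fun n => n / p) ?_ ?_ ?_ ?_ ?_
  · intro n hn
    rw [Nat.mem_divisors] at hn
    rw [mem_filter, Nat.mem_divisors]
    refine ⟨⟨?_, by omega⟩, Dvd.intro n rfl⟩
    have h2 := Nat.mul_dvd_mul_left p hn.1
    rwa [Nat.mul_div_cancel' hpm] at h2
  · intro n hn
    rw [mem_filter, Nat.mem_divisors] at hn
    rw [Nat.mem_divisors]
    exact ⟨Nat.div_dvd_div hn.2 hn.1.1, by omega⟩
  · intro n _
    exact Nat.mul_div_cancel_left _ hp.pos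
  · intro n hn
    rw [mem_filter] at hn
    exact Nat.mul_div_cancel' hn.2
  · intro n _
    rw [Nat.mul_div_cancel_left _ hp.pos]

theorem ts_le (w y r D : ℕ) (ρ : ℕ → Finset ℕ → ℝ) (hw : 1 ≤ w) (hwy : w ≤ y)
    (hρ : ∀ p ∈ PY w y, Rho w (p - 1) D (ρ p)) (m : ℕ) (hm : 1 ≤ m) : TSv w y r ρ m ≤ rg y m := by
  unfold TSv
  have h1 := SLowA_bonL_le w r m
  have h2 := SLowA_step w y m hm
  have h3 : ∑ p ∈ PY w y, (if p ∣ m then rg (p - 1) (m / p) else 0) ≤
      ∑ p ∈ (PY w y).filter (fun p => p ∣ m), SS w (p - 1) r (ρ p) (m / p) := by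
    rw [← sum_filter]
    refine sum_le_sum fun p hp => ?_
    rw [mem_filter] at hp
    obtain ⟨hp1, hpm⟩ := hp
    obtain ⟨hwp, hpy, hpp⟩ := SLowA_mem hp1
    exact ss_ge w (p - 1) r D (ρ p) (by omega) (hρ p hp1) (m / p)
      (Nat.div_pos (Nat.le_of_dvd hm hpm) hpp.pos)
  linarith

theorem gt_abs (w y r D : ℕ) (ρ : ℕ → Finset ℕ → ℝ) (hw : 1 ≤ w) (hwy : w ≤ y)
    (hρ : ∀ p ∈ PY w y, Rho w (p - 1) D (ρ p)) (n : ℕ) : |gT w y r ρ n| ≤ 3 ^ n.primeFactors.card := by
  classical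
  have h3 : (1 : ℝ) ≤ 3 ^ n.primeFactors.card := one_le_pow₀ (by norm_num)
  unfold gT
  by_cases hsq : Squarefree n
  · rw [if_pos hsq]
    have hn0 : n ≠ 0 := hsq.ne_zero
    by_cases hall : ∀ p ∈ n.primeFactors, p ≤ w
    · have hE : (PY w y).filter (fun p => p ∣ n) = ∅ := by
        rw [filter_eq_empty_iff]
        intro p hp hpn
        obtain ⟨hwp, hpy, hpp⟩ := SLowA_mem hp
        have := hall p (Nat.mem_primeFactors.2 ⟨hpp, hpn, hn0⟩)
        omega
      rw [hE, sum_empty, sub_zero]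
      split_ifs
      · rw [abs_pow, abs_neg, abs_one, one_pow]
        exact h3
      · rw [abs_zero]
        linarith
    · rw [if_neg (fun h => hall h.1), zero_sub, abs_neg]
      by_cases h0 : ∃ p ∈ (PY w y).filter (fun p => p ∣ n), gS w (p - 1) r (ρ p) (n / p) ≠ 0
      · obtain ⟨p, hp, hg⟩ := h0
        have hp' := hp
        rw [mem_filter] at hp'
        obtain ⟨hwp, hpy, hpp⟩ := SLowA_mem hp'.1
        rw [Finset.sum_eq_single p]
        · refine (gs_abs w (p - 1) r D (ρ p) (hρ p hp'.1) (n / p)).trans ?_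
          apply pow_le_pow_right₀ (by norm_num)
          exact card_le_card (Nat.primeFactors_mono (Nat.div_dvd_of_dvd hp'.2) hn0)
        · intro q hq hqp
          rw [mem_filter] at hq
          obtain ⟨-, -, hqq⟩ := SLowA_mem hq.1
          by_contra hcon
          have h4 := SLowA_big hpp hp'.2 hn0 hg hqq hq.2 hqp
          have h5 := SLowA_big hqq hq.2 hn0 hcon hpp hp'.2 (Ne.symm hqp)
          omega
        · intro h
          exact absurd hp h
      · push Not at h0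
        rw [sum_eq_zero h0, abs_zero]
        linarith
  · rw [if_neg hsq, abs_zero]
    linarith

theorem ts_adm (w y r D : ℕ) (ρ : ℕ → Finset ℕ → ℝ) (hw : 1 ≤ w) (hwy : w ≤ y) (hD : 1 ≤ D)
    (hρ : ∀ p ∈ PY w y, Rho w (p - 1) D (ρ p)) :
    Adm (y * (w ^ (2 * r + 1) * D ^ 2)) (gT w y r ρ) (TSv w y r ρ) := by
  classical
  refine ⟨fun n hn => by unfold gT; rw [if_neg hn], fun n => gt_abs w y r D ρ hw hwy hρ n, fun m hm => ?_⟩
  -- the expansion over all divisors
  have hdiv : TSv w y r ρ m = ∑ n ∈ m.divisors, gT w y r ρ n := by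
    unfold TSv
    rw [SLowA_bon w r m hm]
    have h1 : ∑ p ∈ (PY w y).filter (fun p => p ∣ m), SS w (p - 1) r (ρ p) (m / p) =
        ∑ n ∈ m.divisors, ∑ p ∈ (PY w y).filter (fun p => p ∣ n), gS w (p - 1) r (ρ p) (n / p) := by
      have h2 : ∀ p ∈ (PY w y).filter (fun p => p ∣ m), SS w (p - 1) r (ρ p) (m / p) =
          ∑ n ∈ m.divisors, if p ∣ n then gS w (p - 1) r (ρ p) (n / p) else 0 := by
        intro p hp
        rw [mem_filter] at hp
        obtain ⟨hwp, hpy, hpp⟩ := SLowA_mem hp.1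
        exact SLowA_ss w r D p (ρ p) hw (by omega) hpp (hρ p hp.1) m hm hp.2
      rw [sum_congr rfl h2, sum_comm]
      refine sum_congr rfl fun n hn => ?_
      rw [Nat.mem_divisors] at hn
      rw [← sum_filter, filter_filter]
      refine sum_congr ?_ fun _ _ => rfl
      ext p
      rw [mem_filter, mem_filter]
      constructor
      · rintro ⟨h3, -, h4⟩
        exact ⟨h3, h4⟩
      · rintro ⟨h3, h4⟩
        exact ⟨h3, h4.trans hn.1, h4⟩
    rw [h1, ← sum_sub_distrib]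
    refine sum_congr rfl fun n hn => ?_
    have hn0 : n ≠ 0 := (Nat.pos_of_mem_divisors hn).ne'
    unfold gT
    by_cases hsq : Squarefree n
    · rw [if_pos hsq]
      by_cases hc : (∀ p ∈ n.primeFactors, p ≤ w) ∧ n.primeFactors.card ≤ 2 * r + 1
      · rw [if_pos ⟨hsq, hc⟩, if_pos hc]
      · rw [if_neg (fun h => hc h.2), if_neg hc]
    · rw [if_neg hsq, if_neg (fun h => hsq h.1), zero_sub, neg_eq_zero]
      refine sum_eq_zero fun p hp => ?_
      rw [mem_filter] at hp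
      obtain ⟨hwp, hpy, hpp⟩ := SLowA_mem hp.1
      by_contra hcon
      exact hsq (SLowA_sqf hpp hp.2 hn0 hcon)
  rw [hdiv]
  symm
  apply sum_subset
  · intro n hn
    rw [mem_filter] at hn
    exact Nat.mem_divisors.2 ⟨hn.2, by omega⟩
  · intro n hn hn2
    have hnp := Nat.pos_of_mem_divisors hn
    have hbig : y * (w ^ (2 * r + 1) * D ^ 2) < n := by
      by_contra hcon
      push Not at hcon
      apply hn2
      rw [mem_filter, mem_Icc]
      exact ⟨⟨hnp, hcon⟩, Nat.dvd_of_mem_divisors hn⟩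
    have hD2 : 1 ≤ D ^ 2 := Nat.one_le_pow _ _ hD
    have hy1 : 1 ≤ y := hw.trans hwy
    have hww : w ^ (2 * r) ≤ w ^ (2 * r + 1) := Nat.pow_le_pow_right hw (by omega)
    unfold gT
    by_cases hsq : Squarefree n
    · rw [if_pos hsq, if_neg, zero_sub, neg_eq_zero]
      · refine sum_eq_zero fun p hp => ?_
        rw [mem_filter] at hp
        obtain ⟨hwp, hpy, hpp⟩ := SLowA_mem hp.1
        apply gs_zero w (p - 1) r D (ρ p) hw (hρ p hp.1)
        obtain ⟨k, rfl⟩ := hp.2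
        rw [Nat.mul_div_cancel_left _ hpp.pos]
        by_contra hcon
        push Not at hcon
        have h1 : p * k ≤ y * (w ^ (2 * r + 1) * D ^ 2) :=
          Nat.mul_le_mul hpy (hcon.trans (Nat.mul_le_mul_right _ hww))
        omega
      · rintro ⟨h1, h2⟩
        have h3 : n ≤ w ^ (2 * r + 1) := by
          rw [← Nat.prod_primeFactors_of_squarefree hsq]
          exact (Finset.prod_le_pow_card _ (fun p : ℕ => p) w h1).trans (Nat.pow_le_pow_right hw h2)
        have h4 : w ^ (2 * r + 1) ≤ y * (w ^ (2 * r + 1) * D ^ 2) := by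
          calc w ^ (2 * r + 1) = 1 * (w ^ (2 * r + 1) * 1) := by ring
            _ ≤ y * (w ^ (2 * r + 1) * D ^ 2) := Nat.mul_le_mul hy1 (Nat.mul_le_mul_left _ hD2)
        omega
    · rw [if_neg hsq]

end Pool.Agent.H91.TQ
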