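import Pool.Agent.H91.TQ.SLowA

/-!
# TQ SLowB: the singular coefficients of the lower bound sieve

`Q = y w^(2r+1) D²`, `q ≤ w`.  `∑_{n ≤ Q, q ∣ n} gT n/n = ∑_{T ⊆ PW w, pf q ⊆ T, |T| ≤ 2r+1} (-1)^|T|/∏T - ∑_{p ∈ PY w y} (1/p) ∑_{n' ≤ Q', q ∣ n'} gS w (p-1) r (ρ p) n'/n'` (`q ∣ p n' ↔ q ∣ n'`, as `p > w ≥ q` is prime to `q`;
the `n = p n'` with `gS n' ≠ 0` are squarefree; `q` not squarefree: all is `0`).
* First part: `= μ(q)/φ(q) VV(PW w) + O(2^(-r))`: the proof of `svb_first` in `H76/TP/SvB.lean` (private; copy it together with `svb_tail`) with `2r` replaced by `2r + 1` (the tail is even smaller), or: the difference of the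
  two truncations is the layer `|T| = 2r+1`, `≤ ∑_{|T'| = 2r+1-ω(q)} 1/∏T' ≤ 2^(-r)` (for the constant: `svb_tail` bounds the whole tail by a smaller power; any bound `2/2^r` is enough here, see the right side).
* Second part: `gs_sing` for `w, p-1` (`w ≤ p - 1`): `VV(PW w) SF w (p-1) (ρ p) μ(q)/φ(q) + O(2^(-r))`, `∑_{p ≤ y} 1/p ≤ 1 + log y`.
Total error `≤ (2 + 1 + log y)/2^r`.
-/

set_option autoImplicit false

namespace Pool.Agent.H91.TQ

open Finset
open Pool.Agent.H76.TP

/-- the density of the lower bound sieve -/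
noncomputable def kTv (w y : ℕ) (ρ : ℕ → Finset ℕ → ℝ) : ℝ :=
  VV (PW w) - ∑ p ∈ PY w y, VV (PW w) * SF w (p - 1) (ρ p) / p

private noncomputable def slb_s (T : Finset ℕ) : ℝ := ∏ p ∈ T, (1 / (p : ℝ))

private theorem slb_s_nonneg (T : Finset ℕ) : 0 ≤ slb_s T :=
  Finset.prod_nonneg fun p _ => by positivity

private theorem slb_inv (S : Finset ℕ) : (1 : ℝ) / ((∏ p ∈ S, p : ℕ) : ℝ) = slb_s S := by
  unfold slb_s
  rw [Nat.cast_prod, Finset.prod_div_distrib, Finset.prod_const_one]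

private theorem slb_sf {S : Finset ℕ} (hS : ∀ p ∈ S, p.Prime) : Squarefree (∏ p ∈ S, p) := by
  refine Finset.squarefree_prod_of_pairwise_isCoprime (fun a ha b hb hab => ?_)
    fun a ha => (hS a ha).squarefree
  simp only [Function.onFun, ← Nat.coprime_iff_isRelPrime]
  exact (Nat.coprime_primes (hS a ha) (hS b hb)).mpr hab

/-- the sum of the reciprocals of the primes -/
private theorem slb_X (w : ℕ) : ∑ p ∈ PW w, 1 / (p : ℝ) ≤ 1 + Real.log w := by
  have h1 := harmonic_le_one_add_log w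
  rw [harmonic_eq_sum_Icc] at h1
  push_cast at h1
  refine le_trans ?_ h1
  unfold PW
  have h2 : ∀ k ∈ Icc 1 w, k ∉ (Icc 1 w).filter Nat.Prime → 0 ≤ ((k : ℝ))⁻¹ := by
    intro k _ _
    positivity
  simp only [one_div]
  exact Finset.sum_le_sum_of_subset_of_nonneg (Finset.filter_subset _ _) h2

/-- the tail -/
private theorem slb_tail (w r k M : ℕ) (S : Finset ℕ) (hS : S ⊆ PW w)
    (hr : 6 * (1 + Real.log w) ≤ r + 1) (hk : k ≤ r) (hM : 2 * r ≤ M) :
    |∑ T ∈ S.powerset.filter (fun T => ¬ T.card + k ≤ M), (-1 : ℝ) ^ T.card * slb_s T| ≤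
      1 / 2 ^ r := by
  have h1 : |∑ T ∈ S.powerset.filter (fun T => ¬ T.card + k ≤ M), (-1 : ℝ) ^ T.card * slb_s T| ≤
      ∑ T ∈ S.powerset.filter (fun T => ¬ T.card + k ≤ M), slb_s T * 6 ^ T.card / 6 ^ (r + 1) := by
    refine (Finset.abs_sum_le_sum_abs _ _).trans (Finset.sum_le_sum ?_)
    intro T hT
    rw [mem_filter] at hT
    rw [abs_mul, abs_pow, abs_neg, abs_one, one_pow, one_mul, abs_of_nonneg (slb_s_nonneg T),
      le_div_iff₀ (by positivity)]
    apply mul_le_mul_of_nonneg_left _ (slb_s_nonneg T)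
    apply pow_le_pow_right₀ (by norm_num)
    omega
  have h2 : ∑ T ∈ S.powerset.filter (fun T => ¬ T.card + k ≤ M),
      slb_s T * 6 ^ T.card / 6 ^ (r + 1) ≤ ∑ T ∈ S.powerset, slb_s T * 6 ^ T.card / 6 ^ (r + 1) := by
    apply Finset.sum_le_sum_of_subset_of_nonneg (Finset.filter_subset _ _)
    intro T _ _
    have := slb_s_nonneg T
    positivity
  have h3 : ∑ T ∈ S.powerset, slb_s T * 6 ^ T.card / 6 ^ (r + 1) =
      (∏ p ∈ S, (1 + 6 * (1 / (p : ℝ)))) / 6 ^ (r + 1) := by
    rw [Finset.prod_one_add, ← Finset.sum_div]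
    congr 1
    apply Finset.sum_congr rfl
    intro T _
    rw [Finset.prod_mul_distrib, Finset.prod_const, mul_comm]
    rfl
  have h4 : ∏ p ∈ S, (1 + 6 * (1 / (p : ℝ))) ≤ Real.exp (r + 1) := by
    refine (Real.prod_one_add_le_exp_sum S (f := fun p : ℕ => 6 * (1 / (p : ℝ)))
      (fun p => by positivity)).trans ?_
    apply Real.exp_le_exp.2
    rw [← Finset.mul_sum]
    refine le_trans ?_ hr
    apply mul_le_mul_of_nonneg_left _ (by norm_num)
    refine le_trans ?_ (slb_X w)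
    apply Finset.sum_le_sum_of_subset_of_nonneg hS
    intro p _ _
    positivity
  have h5 : Real.exp (r + 1) / 6 ^ (r + 1) ≤ 1 / 2 ^ r := by
    have h6 : Real.exp ((r : ℝ) + 1) ≤ 3 ^ (r + 1) := by
      have h7 : Real.exp ((r : ℝ) + 1) = Real.exp 1 ^ (r + 1) := by
        rw [← Real.exp_nat_mul]
        congr 1
        push_cast
        ring
      rw [h7]
      apply pow_le_pow_left₀ (Real.exp_pos 1).le
      have := Real.exp_one_lt_d9
      linarith
    rw [div_le_div_iff₀ (by positivity) (by positivity), one_mul]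
    calc Real.exp ((r : ℝ) + 1) * 2 ^ r ≤ 3 ^ (r + 1) * 2 ^ r := by
          apply mul_le_mul_of_nonneg_right h6 (by positivity)
      _ ≤ 3 ^ (r + 1) * 2 ^ (r + 1) := by
          apply mul_le_mul_of_nonneg_left _ (by positivity)
          exact pow_le_pow_right₀ (by norm_num) (Nat.le_succ r)
      _ = 6 ^ (r + 1) := by
          rw [← mul_pow]
          norm_num
  calc _ ≤ _ := h1
    _ ≤ _ := h2
    _ = _ := h3
    _ ≤ Real.exp (r + 1) / 6 ^ (r + 1) := div_le_div_of_nonneg_right h4 (by positivity)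
    _ ≤ _ := h5

private theorem slb_neg (T : Finset ℕ) :
    ∏ p ∈ T, (-(1 / (p : ℝ))) = (-1 : ℝ) ^ T.card * slb_s T := by
  unfold slb_s
  rw [← Finset.prod_const, ← Finset.prod_mul_distrib]
  apply Finset.prod_congr rfl
  intro p _
  ring

/-- the complete sum -/
private theorem slb_full (S : Finset ℕ) :
    ∑ T ∈ S.powerset, (-1 : ℝ) ^ T.card * slb_s T = VV S := by
  unfold VV
  have h : ∀ p ∈ S, (1 : ℝ) - 1 / p = 1 + (-(1 / (p : ℝ))) := fun p _ => sub_eq_add_neg _ _
  rw [Finset.prod_congr rfl h, Finset.prod_one_add]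
  apply Finset.sum_congr rfl
  intro T _
  rw [slb_neg]

private theorem slb_first (w M q : ℕ) (hsub : q.primeFactors ⊆ PW w) :
    ∑ T ∈ (PW w).powerset.filter (fun T => q.primeFactors ⊆ T ∧ T.card ≤ M),
        (-1 : ℝ) ^ T.card * slb_s T =
      (-1 : ℝ) ^ q.primeFactors.card * slb_s q.primeFactors *
        ∑ T ∈ (PW w \ q.primeFactors).powerset.filter
          (fun T => T.card + q.primeFactors.card ≤ M), (-1 : ℝ) ^ T.card * slb_s T := by
  rw [Finset.mul_sum]
  refine Finset.sum_nbij' (fun T => T \ q.primeFactors) (fun T => T ∪ q.primeFactors) ?_ ?_ ?_ ?_ ?_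
  · intro T hT
    rw [mem_filter, mem_powerset] at hT ⊢
    refine ⟨sdiff_subset_sdiff hT.1 (le_refl _), ?_⟩
    have := card_sdiff_add_card_eq_card hT.2.1
    omega
  · intro T hT
    rw [mem_filter, mem_powerset] at hT ⊢
    refine ⟨union_subset (hT.1.trans sdiff_subset) hsub, subset_union_right, ?_⟩
    exact (card_union_le _ _).trans hT.2
  · intro T hT
    rw [mem_filter, mem_powerset] at hT
    exact sdiff_union_of_subset hT.2.1
  · intro T hT
    rw [mem_filter, mem_powerset] at hT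
    rw [union_sdiff_right]
    apply sdiff_eq_self_of_disjoint
    exact disjoint_of_subset_left hT.1 sdiff_disjoint
  · intro T hT
    rw [mem_filter, mem_powerset] at hT
    have h1 := card_sdiff_add_card_eq_card hT.2.1
    have h2 : slb_s T = slb_s (T \ q.primeFactors) * slb_s q.primeFactors := by
      unfold slb_s
      exact (Finset.prod_sdiff hT.2.1).symm
    rw [h2, ← h1, pow_add]
    ring

private theorem slb_phi (w q : ℕ) (hq : 1 ≤ q) (hsq : Squarefree q) (hsub : q.primeFactors ⊆ PW w) :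
    (-1 : ℝ) ^ q.primeFactors.card * slb_s q.primeFactors * VV (PW w \ q.primeFactors) =
      VV (PW w) * (ArithmeticFunction.moebius q : ℝ) / (q.totient : ℝ) := by
  have h1 : (ArithmeticFunction.moebius q : ℝ) = (-1 : ℝ) ^ q.primeFactors.card := by
    rw [ArithmeticFunction.moebius_apply_of_squarefree hsq,
      ← (ArithmeticFunction.cardDistinctFactors_eq_cardFactors_iff_squarefree hsq.ne_zero).2 hsq,
      ArithmeticFunction.cardDistinctFactors_apply]
    push_cast
    congr 1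
  have h2 : (q.totient : ℝ) = q * VV q.primeFactors := by
    have h3 := Nat.totient_eq_mul_prod_factors q
    have h4 : ((q.totient : ℚ) : ℝ) = ((q * ∏ p ∈ q.primeFactors, (1 - (p : ℚ)⁻¹) : ℚ) : ℝ) := by
      rw [h3]
    push_cast at h4
    rw [h4]
    unfold VV
    congr 1
    apply Finset.prod_congr rfl
    intro p _
    rw [one_div]
  have h5 : VV (PW w) = VV (PW w \ q.primeFactors) * VV q.primeFactors := by
    unfold VV
    exact (Finset.prod_sdiff hsub).symm
  have h6 : slb_s q.primeFactors = 1 / (q : ℝ) := by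
    rw [← slb_inv, Nat.prod_primeFactors_of_squarefree hsq]
  have h7 : 0 < VV q.primeFactors := by
    unfold VV
    apply Finset.prod_pos
    intro p hp
    have := (Nat.prime_of_mem_primeFactors hp).one_lt
    rw [sub_pos, div_lt_one (by positivity)]
    exact_mod_cast this
  have h8 : (0 : ℝ) < q := by exact_mod_cast hq
  rw [h1, h2, h5, h6]
  field_simp

/-- the first part of the coefficients -/
private noncomputable def slb_a (w M n : ℕ) : ℝ :=
  if Squarefree n ∧ (∀ p ∈ n.primeFactors, p ≤ w) ∧ n.primeFactors.card ≤ M then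
    (-1 : ℝ) ^ n.primeFactors.card else 0

/-- the sum of the first part over `n` as a sum over the sets of primes -/
private theorem slb_sum (w M Q q : ℕ) (hw : 1 ≤ w) (hQ : w ^ M ≤ Q) (hq : 1 ≤ q) (hqw : q ≤ w)
    (hsq : Squarefree q) :
    ∑ n ∈ (Icc 1 Q).filter (fun n => q ∣ n), slb_a w M n / n =
      ∑ T ∈ (PW w).powerset.filter (fun T => q.primeFactors ⊆ T ∧ T.card ≤ M),
        (-1 : ℝ) ^ T.card * slb_s T := by
  have han : ∀ n, slb_a w M n ≠ 0 → Squarefree n ∧ (∀ p ∈ n.primeFactors, p ≤ w) ∧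
      n.primeFactors.card ≤ M := by
    intro n h
    by_contra h2
    apply h
    unfold slb_a
    rw [if_neg h2]
  have hval : ∀ T ⊆ PW w, T.card ≤ M → slb_a w M (∏ p ∈ T, p) / ((∏ p ∈ T, p : ℕ) : ℝ) =
      (-1 : ℝ) ^ T.card * slb_s T := by
    intro T hT hc
    have hp : ∀ p ∈ T, p.Prime := fun p h => (mem_filter.1 (hT h)).2
    have hpf : (∏ p ∈ T, p).primeFactors = T := Nat.primeFactors_prod hp
    rw [div_eq_mul_one_div, slb_inv]
    unfold slb_a
    rw [hpf, if_pos]
    refine ⟨slb_sf hp, ?_, hc⟩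
    intro p h
    exact (mem_Icc.1 (mem_filter.1 (hT h)).1).2
  apply Finset.sum_bij_ne_zero (fun n _ _ => n.primeFactors)
  · intro n hn hne
    have h1 : slb_a w M n ≠ 0 := by
      intro h
      apply hne
      rw [h, zero_div]
    obtain ⟨h2, h3, h4⟩ := han n h1
    rw [mem_filter, mem_powerset]
    refine ⟨?_, Nat.primeFactors_mono (mem_filter.1 hn).2 h2.ne_zero, h4⟩
    intro p hp
    have h5 := Nat.prime_of_mem_primeFactors hp
    exact mem_filter.2 ⟨mem_Icc.2 ⟨h5.one_lt.le, h3 p hp⟩, h5⟩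
  · intro n hn hne m hm hme h
    have h1 : slb_a w M n ≠ 0 := by
      intro h
      apply hne
      rw [h, zero_div]
    have h1' : slb_a w M m ≠ 0 := by
      intro h
      apply hme
      rw [h, zero_div]
    rw [← Nat.prod_primeFactors_of_squarefree (han n h1).1,
      ← Nat.prod_primeFactors_of_squarefree (han m h1').1, h]
  · intro T hT hne
    rw [mem_filter, mem_powerset] at hT
    obtain ⟨hT, hqT, hc⟩ := hT
    have hp : ∀ p ∈ T, p.Prime := fun p h => (mem_filter.1 (hT h)).2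
    have hv := hval T hT hc
    have hne2 : slb_a w M (∏ p ∈ T, p) / ((∏ p ∈ T, p : ℕ) : ℝ) ≠ 0 := by
      rw [hv]
      exact hne
    refine ⟨∏ p ∈ T, p, ?_, hne2, Nat.primeFactors_prod hp⟩
    rw [mem_filter, mem_Icc]
    refine ⟨⟨Nat.one_le_iff_ne_zero.2 (slb_sf hp).ne_zero, ?_⟩, ?_⟩
    · refine le_trans ?_ hQ
      refine (Finset.prod_le_pow_card T (fun p : ℕ => p) w ?_).trans (Nat.pow_le_pow_right hw hc)
      intro p h
      exact (mem_Icc.1 (mem_filter.1 (hT h)).1).2
    · rw [← Nat.prod_primeFactors_of_squarefree hsq]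
      exact Finset.prod_dvd_prod_of_subset _ _ _ hqT
  · intro n hn hne
    have h1 : slb_a w M n ≠ 0 := by
      intro h
      apply hne
      rw [h, zero_div]
    obtain ⟨h2, h3, h4⟩ := han n h1
    have h5 : n.primeFactors ⊆ PW w := by
      intro p hp
      have h5 := Nat.prime_of_mem_primeFactors hp
      exact mem_filter.2 ⟨mem_Icc.2 ⟨h5.one_lt.le, h3 p hp⟩, h5⟩
    have h6 := hval _ h5 h4
    rw [Nat.prod_primeFactors_of_squarefree h2] at h6
    exact h6

/-- the sum of the first part -/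
private theorem slb_S1 (w r M Q q : ℕ) (hw : 1 ≤ w) (hM : 2 * r ≤ M) (hQ : w ^ M ≤ Q)
    (hr : 6 * (1 + Real.log w) ≤ r + 1) (hq : 1 ≤ q) (hqw : q ≤ w) :
    |∑ n ∈ (Icc 1 Q).filter (fun n => q ∣ n), slb_a w M n / n
      - VV (PW w) * (ArithmeticFunction.moebius q : ℝ) / (q.totient : ℝ)| ≤ 1 / 2 ^ r := by
  by_cases hsq : Squarefree q
  · have hsub : q.primeFactors ⊆ PW w := by
      intro p hp
      have := Nat.prime_of_mem_primeFactors hp
      exact mem_filter.2 ⟨mem_Icc.2 ⟨this.one_lt.le, (Nat.le_of_mem_primeFactors hp).trans hqw⟩,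
        this⟩
    have hk : q.primeFactors.card ≤ r := by
      have h1 : 2 ^ q.primeFactors.card ≤ q := by
        calc 2 ^ q.primeFactors.card ≤ ∏ p ∈ q.primeFactors, p :=
              Finset.pow_card_le_prod _ _ _ fun p hp => (Nat.prime_of_mem_primeFactors hp).two_le
          _ = q := Nat.prod_primeFactors_of_squarefree hsq
      have h2 : (q.primeFactors.card : ℝ) * Real.log 2 ≤ Real.log w := by
        rw [← Real.log_pow]
        apply Real.log_le_log (by positivity)
        exact_mod_cast h1.trans hqw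
      have h3 := Real.log_two_gt_d9
      have h4 : (0 : ℝ) ≤ q.primeFactors.card := Nat.cast_nonneg _
      have h5 : (q.primeFactors.card : ℝ) ≤ r := by nlinarith
      exact_mod_cast h5
    have htail := slb_tail w r q.primeFactors.card M (PW w \ q.primeFactors) sdiff_subset hr hk hM
    have hsplit := Finset.sum_filter_add_sum_filter_not (PW w \ q.primeFactors).powerset
      (fun T => T.card + q.primeFactors.card ≤ M) (fun T => (-1 : ℝ) ^ T.card * slb_s T)
    rw [slb_full] at hsplit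
    rw [slb_sum w M Q q hw hQ hq hqw hsq, slb_first w M q hsub]
    have hphi := slb_phi w q hq hsq hsub
    set A := ∑ T ∈ (PW w \ q.primeFactors).powerset.filter
      (fun T => T.card + q.primeFactors.card ≤ M), (-1 : ℝ) ^ T.card * slb_s T with hA
    set E := ∑ T ∈ (PW w \ q.primeFactors).powerset.filter
      (fun T => ¬ T.card + q.primeFactors.card ≤ M), (-1 : ℝ) ^ T.card * slb_s T with hE
    have hk1 : (-1 : ℝ) ^ q.primeFactors.card * slb_s q.primeFactors * A -
        VV (PW w) * (ArithmeticFunction.moebius q : ℝ) / (q.totient : ℝ) =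
        -((-1 : ℝ) ^ q.primeFactors.card * slb_s q.primeFactors * E) := by
      rw [← hphi, ← hsplit]
      ring
    rw [hk1, abs_neg, abs_mul, abs_mul, abs_pow, abs_neg, abs_one, one_pow, one_mul,
      abs_of_nonneg (slb_s_nonneg _)]
    have h3 : slb_s q.primeFactors ≤ 1 := by
      rw [← slb_inv, Nat.prod_primeFactors_of_squarefree hsq]
      have : (1 : ℝ) ≤ q := by exact_mod_cast hq
      rw [div_le_one (by linarith)]
      exact this
    calc slb_s q.primeFactors * |E| ≤ 1 * |E| :=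
          mul_le_mul_of_nonneg_right h3 (abs_nonneg _)
      _ = |E| := one_mul _
      _ ≤ _ := htail
  · have h2 : ∀ n ∈ (Icc 1 Q).filter (fun n => q ∣ n), slb_a w M n / n = 0 := by
      intro n hn
      have h3 : ¬ Squarefree n := fun h => hsq (h.squarefree_of_dvd (mem_filter.1 hn).2)
      unfold slb_a
      rw [if_neg (fun h => h3 h.1), zero_div]
    rw [Finset.sum_eq_zero h2, ArithmeticFunction.moebius_eq_zero_of_not_squarefree hsq]
    simp

/-- the second part for one prime -/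
private theorem slb_S2 (w y r D q p Q : ℕ) (ρ : Finset ℕ → ℝ) (hw : 1 ≤ w) (hD : 1 ≤ D)
    (hp : p ∈ PY w y) (hρ : Rho w (p - 1) D ρ) (hq : 1 ≤ q) (hqw : q ≤ w)
    (hQ : y * (w ^ (2 * r) * D ^ 2) ≤ Q) :
    ∑ n ∈ ((Icc 1 Q).filter (fun n => q ∣ n)).filter (fun n => p ∣ n ∧ Squarefree n),
        gS w (p - 1) r ρ (n / p) / n =
      1 / (p : ℝ) * ∑ n ∈ (Icc 1 (w ^ (2 * r) * D ^ 2)).filter (fun n => q ∣ n),
        gS w (p - 1) r ρ n / n := by
  have hpp : p.Prime := (mem_filter.1 hp).2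
  have hwp : w < p := (mem_Ioc.1 (mem_filter.1 hp).1).1
  have hpy : p ≤ y := (mem_Ioc.1 (mem_filter.1 hp).1).2
  have hpos : 0 < p := hpp.pos
  have hcop : Nat.Coprime q p := by
    rw [Nat.coprime_comm, Nat.Prime.coprime_iff_not_dvd hpp]
    intro h
    have := Nat.le_of_dvd (by omega) h
    omega
  have hgn : ∀ n, gS w (p - 1) r ρ n ≠ 0 → Squarefree n ∧ ∀ l ∈ n.primeFactors, l ≤ p - 1 := by
    intro n h
    by_contra h2
    apply h
    unfold gS
    rw [if_neg]
    rintro ⟨h3, h4, _⟩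
    exact h2 ⟨h3, h4⟩
  rw [Finset.mul_sum]
  apply Finset.sum_bij_ne_zero (fun n _ _ => n / p)
  · intro n hn hne
    rw [mem_filter, mem_filter, mem_Icc] at hn
    obtain ⟨⟨⟨hn1, hn2⟩, hn3⟩, ⟨k, hk⟩, hn5⟩ := hn
    subst hk
    rw [Nat.mul_div_cancel_left k hpos] at hne ⊢
    have hg : gS w (p - 1) r ρ k ≠ 0 := by
      intro h
      apply hne
      rw [h, zero_div]
    rw [mem_filter, mem_Icc]
    refine ⟨⟨?_, ?_⟩, ?_⟩
    · exact Nat.pos_of_mul_pos_left hn1
    · by_contra h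
      exact hg (gs_zero w (p - 1) r D ρ hw hρ _ (not_le.1 h))
    · exact hcop.dvd_of_dvd_mul_left hn3
  · intro n hn hne m hm hme h
    rw [mem_filter] at hn hm
    obtain ⟨_, hn4, _⟩ := hn
    obtain ⟨_, hm4, _⟩ := hm
    exact (Nat.div_left_inj hn4 hm4).1 h
  · intro k hk hne
    rw [mem_filter, mem_Icc] at hk
    obtain ⟨⟨hk1, hk2⟩, hk3⟩ := hk
    have hg : gS w (p - 1) r ρ k ≠ 0 := by
      intro h
      apply hne
      rw [h, zero_div, mul_zero]
    obtain ⟨hs1, hs2⟩ := hgn k hg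
    have hpk : ¬ p ∣ k := by
      intro h
      have h3 : p ∈ k.primeFactors := Nat.mem_primeFactors.2 ⟨hpp, h, by omega⟩
      have := hs2 p h3
      omega
    have hsqf : Squarefree (p * k) := by
      rw [Nat.squarefree_mul_iff]
      exact ⟨(Nat.Prime.coprime_iff_not_dvd hpp).2 hpk, hpp.prime.squarefree, hs1⟩
    refine ⟨p * k, ?_, ?_, ?_⟩
    · rw [mem_filter, mem_filter, mem_Icc]
      refine ⟨⟨⟨Nat.mul_pos hpos hk1, ?_⟩, hk3.mul_left p⟩, dvd_mul_right p k, hsqf⟩
      exact (Nat.mul_le_mul hpy hk2).trans hQ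
    · rw [Nat.mul_div_cancel_left k hpos]
      apply div_ne_zero hg
      exact_mod_cast (Nat.mul_pos hpos hk1).ne'
    · exact Nat.mul_div_cancel_left k hpos
  · intro n hn hne
    rw [mem_filter] at hn
    obtain ⟨_, ⟨k, hk⟩, _⟩ := hn
    subst hk
    rw [Nat.mul_div_cancel_left k hpos]
    push_cast
    rw [one_div, div_eq_mul_inv, div_eq_mul_inv, mul_inv]
    ring

theorem gt_sing (w y r D q : ℕ) (ρ : ℕ → Finset ℕ → ℝ) (hw : 2 ≤ w) (hwy : w ≤ y) (hD : 1 ≤ D)
    (hr : 6 * (1 + Real.log w) ≤ r + 1)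
    (hρ : ∀ p ∈ PY w y, Rho w (p - 1) D (ρ p) ∧ 0 ≤ SF w (p - 1) (ρ p) ∧ SF w (p - 1) (ρ p) ≤ 1)
    (hq : 1 ≤ q) (hqw : q ≤ w) :
    |∑ n ∈ (Icc 1 (y * (w ^ (2 * r + 1) * D ^ 2))).filter (fun n => q ∣ n), gT w y r ρ n / n
      - kTv w y ρ * (ArithmeticFunction.moebius q : ℝ) / (q.totient : ℝ)| ≤ (3 + Real.log y) / 2 ^ r := by
  have hw1 : 1 ≤ w := by omega
  set F := (Icc 1 (y * (w ^ (2 * r + 1) * D ^ 2))).filter (fun n => q ∣ n) with hF
  set mu := (ArithmeticFunction.moebius q : ℝ) with hmu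
  have hQ1 : w ^ (2 * r + 1) ≤ y * (w ^ (2 * r + 1) * D ^ 2) := by
    calc w ^ (2 * r + 1) = 1 * (w ^ (2 * r + 1) * 1) := by ring
      _ ≤ y * (w ^ (2 * r + 1) * D ^ 2) := by
        apply Nat.mul_le_mul (by omega)
        apply Nat.mul_le_mul_left
        exact Nat.one_le_pow _ _ hD
  have hQ2 : y * (w ^ (2 * r) * D ^ 2) ≤ y * (w ^ (2 * r + 1) * D ^ 2) := by
    apply Nat.mul_le_mul_left
    apply Nat.mul_le_mul_right
    exact Nat.pow_le_pow_right hw1 (by omega)
  have hS1 := slb_S1 w r (2 * r + 1) (y * (w ^ (2 * r + 1) * D ^ 2)) q hw1 (by omega) hQ1 hr hq hqw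
  rw [← hF] at hS1
  -- splitting of the coefficients
  have hsplit : ∑ n ∈ F, gT w y r ρ n / n = ∑ n ∈ F, slb_a w (2 * r + 1) n / n -
      ∑ p ∈ PY w y, ∑ n ∈ F.filter (fun n => p ∣ n ∧ Squarefree n),
        gS w (p - 1) r (ρ p) (n / p) / n := by
    have h1 : ∑ p ∈ PY w y, ∑ n ∈ F.filter (fun n => p ∣ n ∧ Squarefree n),
        gS w (p - 1) r (ρ p) (n / p) / n = ∑ n ∈ F, ∑ p ∈ PY w y,
          if p ∣ n ∧ Squarefree n then gS w (p - 1) r (ρ p) (n / p) / n else 0 := by
      rw [Finset.sum_comm]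
      apply Finset.sum_congr rfl
      intro p _
      rw [Finset.sum_filter]
    rw [h1, ← Finset.sum_sub_distrib]
    apply Finset.sum_congr rfl
    intro n _
    unfold gT slb_a
    by_cases hsq : Squarefree n
    · rw [if_pos hsq, sub_div, Finset.sum_filter, Finset.sum_div]
      congr 1
      · by_cases h2 : (∀ p ∈ n.primeFactors, p ≤ w) ∧ n.primeFactors.card ≤ 2 * r + 1
        · rw [if_pos h2, if_pos ⟨hsq, h2⟩]
        · rw [if_neg h2, if_neg (fun h => h2 h.2)]
      · apply Finset.sum_congr rfl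
        intro p _
        by_cases h2 : p ∣ n
        · rw [if_pos h2, if_pos ⟨h2, hsq⟩]
        · rw [if_neg h2, if_neg (fun h => h2 h.1), zero_div]
    · rw [if_neg hsq, if_neg (fun h => hsq h.1), zero_div, Finset.sum_eq_zero, sub_zero]
      intro p _
      rw [if_neg (fun h => hsq h.2)]
  -- the second part
  have hS2 : ∀ p ∈ PY w y, |∑ n ∈ F.filter (fun n => p ∣ n ∧ Squarefree n),
        gS w (p - 1) r (ρ p) (n / p) / n -
      VV (PW w) * SF w (p - 1) (ρ p) / p * mu / (q.totient : ℝ)| ≤ 1 / (p : ℝ) * (1 / 2 ^ r) := by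
    intro p hp
    obtain ⟨h1, h2, h3⟩ := hρ p hp
    have hwp : w < p := (mem_Ioc.1 (mem_filter.1 hp).1).1
    have h4 := gs_sing w (p - 1) r D q (ρ p) hw (by omega) h1 hr h2 h3 hq hqw
    rw [← hmu] at h4
    rw [hF, slb_S2 w y r D q p _ (ρ p) hw1 hD hp h1 hq hqw hQ2]
    have hp0 : (0 : ℝ) < p := by
      have : 0 < p := by omega
      exact_mod_cast this
    have h5 : 1 / (p : ℝ) * ∑ n ∈ (Icc 1 (w ^ (2 * r) * D ^ 2)).filter (fun n => q ∣ n),
        gS w (p - 1) r (ρ p) n / n -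
        VV (PW w) * SF w (p - 1) (ρ p) / p * mu / (q.totient : ℝ) =
        1 / (p : ℝ) * (∑ n ∈ (Icc 1 (w ^ (2 * r) * D ^ 2)).filter (fun n => q ∣ n),
          gS w (p - 1) r (ρ p) n / n -
          VV (PW w) * SF w (p - 1) (ρ p) * mu / (q.totient : ℝ)) := by ring
    rw [h5, abs_mul, abs_of_nonneg (by positivity : (0 : ℝ) ≤ 1 / p)]
    exact mul_le_mul_of_nonneg_left h4 (by positivity)
  have hlog : ∑ p ∈ PY w y, 1 / (p : ℝ) ≤ 1 + Real.log y := by
    refine le_trans ?_ (slb_X y)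
    apply Finset.sum_le_sum_of_subset_of_nonneg
    · intro p hp
      have h1 := (mem_Ioc.1 (mem_filter.1 hp).1)
      have h2 := (mem_filter.1 hp).2
      exact mem_filter.2 ⟨mem_Icc.2 ⟨h2.one_lt.le, h1.2⟩, h2⟩
    · intro p _ _
      positivity
  have hS2' : |∑ p ∈ PY w y, (∑ n ∈ F.filter (fun n => p ∣ n ∧ Squarefree n),
        gS w (p - 1) r (ρ p) (n / p) / n -
      VV (PW w) * SF w (p - 1) (ρ p) / p * mu / (q.totient : ℝ))| ≤ (1 + Real.log y) / 2 ^ r := by
    refine (Finset.abs_sum_le_sum_abs _ _).trans ((Finset.sum_le_sum hS2).trans ?_)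
    rw [← Finset.sum_mul, mul_one_div]
    exact div_le_div_of_nonneg_right hlog (by positivity)
  have hfin : ∑ n ∈ F, gT w y r ρ n / n - kTv w y ρ * mu / (q.totient : ℝ) =
      (∑ n ∈ F, slb_a w (2 * r + 1) n / n - VV (PW w) * mu / (q.totient : ℝ)) -
      ∑ p ∈ PY w y, (∑ n ∈ F.filter (fun n => p ∣ n ∧ Squarefree n),
        gS w (p - 1) r (ρ p) (n / p) / n -
      VV (PW w) * SF w (p - 1) (ρ p) / p * mu / (q.totient : ℝ)) := by
    rw [hsplit, Finset.sum_sub_distrib, ← Finset.sum_div, ← Finset.sum_mul]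
    unfold kTv
    ring
  rw [hfin]
  refine (abs_sub _ _).trans ?_
  calc _ ≤ 1 / 2 ^ r + (1 + Real.log y) / 2 ^ r := add_le_add hS1 hS2'
    _ ≤ (3 + Real.log y) / 2 ^ r := by
      rw [← add_div]
      apply div_le_div_of_nonneg_right _ (by positivity)
      linarith

end Pool.Agent.H91.TQ
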