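import Pool.Agent.H91.TQ.Ram

/-!
# TQ SecQ: the second moment of the majorant

`1 ≤ m ≤ 16N`: `om m ≤ 3` (`om_small`, `zz y J ≥ N^ζ'`), `∑_j Fp bq P_j m = (1 - om/2)(rg - AA)` (from `fq_eq` with `S = T = rg`), `0 ≤ rg - AA ≤ 1` (`rg - AA = ∑_j Fp bf P_j m ≥ 0`, `aa_nonneg`), so `|∑_j Fp bq P_j m| ≤ 1`; `0 ≤ sqp m ≤ ω(m) ≤ 2 log m ≤ 2 L + 6`.
`Fq² ≤ 4 (S² + (9/4) T² + 1 + sqp²)`, `∑ ≤ 4 w (L^C + (9/4) L^C + 1 + (2L+6)²) ≤ w L^(C+3)`.
-/

set_option autoImplicit false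

namespace Pool.Agent.H91.TQ

open Finset
open Pool.Agent.H35.W (pb)
open Pool.Agent.H53.MID (Fp Bs)
open Pool.Agent.H76.TP

private theorem SecQ_rg_le (y m : ℕ) : rg y m ≤ 1 := by
  unfold rg
  split_ifs <;> norm_num

private theorem SecQ_sum_nonneg (y J m : ℕ) : 0 ≤ ∑ j ∈ range J, Fp (bf y J) (2 ^ j * y) m := by
  refine Finset.sum_nonneg fun j _ => ?_
  unfold Pool.Agent.H53.MID.Fp
  exact Finset.sum_nonneg fun p _ => bf_nonneg y J (m / p)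

/-- the type II sums are at most `1` in absolute value if `om ≤ 3` -/
private theorem SecQ_bq (y J J1 m : ℕ) (hm : 1 ≤ m) (ho : om y J J1 m ≤ 3) :
    |∑ j ∈ range J, Fp (bq y J J1) (2 ^ j * y) m| ≤ 1 := by
  have h := fq_eq (rg y) (rg y) y J J1 m hm
  have h1 : ∑ j ∈ range J, Fp (bq y J J1) (2 ^ j * y) m
      = (1 - (om y J J1 m : ℝ) / 2) * (rg y m - AA y J m) := by
    have h2 : Fq (rg y) (rg y) y J J1 m = rg y m - (om y J J1 m : ℝ) / 2 * rg y m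
        - ∑ j ∈ range J, Fp (bq y J J1) (2 ^ j * y) m + sqp y J m := rfl
    linarith [h, h2]
  have h3 : 0 ≤ rg y m - AA y J m := by
    have h4 : rg y m - AA y J m = ∑ j ∈ range J, Fp (bf y J) (2 ^ j * y) m := by
      unfold AA
      ring
    rw [h4]
    exact SecQ_sum_nonneg y J m
  have h5 : rg y m - AA y J m ≤ 1 := by
    have h6 := aa_nonneg y J m hm
    have h7 := SecQ_rg_le y m
    linarith
  have h8 : (om y J J1 m : ℝ) ≤ 3 := by exact_mod_cast ho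
  have h9 : (0 : ℝ) ≤ (om y J J1 m : ℝ) := Nat.cast_nonneg _
  have h10 : |1 - (om y J J1 m : ℝ) / 2| ≤ 1 := by
    rw [abs_le]
    constructor <;> linarith
  rw [h1, abs_mul, abs_of_nonneg h3]
  calc |1 - (om y J J1 m : ℝ) / 2| * (rg y m - AA y J m) ≤ 1 * 1 :=
        mul_le_mul h10 h5 h3 zero_le_one
    _ = 1 := one_mul _

/-- `2 ^ card ≤ m` -/
private theorem SecQ_two_pow (m : ℕ) (hm : m ≠ 0) : 2 ^ m.primeFactors.card ≤ m := by
  have h1 : ∏ p ∈ m.primeFactors, p ≤ m := Nat.le_of_dvd (Nat.pos_of_ne_zero hm) (Nat.prod_primeFactors_dvd m)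
  have h2 : ∏ _p ∈ m.primeFactors, 2 ≤ ∏ p ∈ m.primeFactors, p :=
    Finset.prod_le_prod' fun p hp => (Nat.prime_of_mem_primeFactors hp).two_le
  rw [Finset.prod_const] at h2
  exact h2.trans h1

private theorem SecQ_sqp (y J m : ℕ) (hm : 1 ≤ m) : sqp y J m ≤ 2 * Real.log m := by
  unfold sqp
  have hsub : ((PY y (zz y J)).filter (fun p => p ^ 2 ∣ m)) ⊆ m.primeFactors := by
    intro p hp
    rw [Finset.mem_filter] at hp
    have hpp : p.Prime := by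
      have h := hp.1
      unfold PY at h
      exact (Finset.mem_filter.1 h).2
    rw [Nat.mem_primeFactors]
    exact ⟨hpp, (Dvd.intro_left (p ^ 1) (by ring)).trans hp.2, by omega⟩
  have h1 : (((PY y (zz y J)).filter (fun p => p ^ 2 ∣ m)).card : ℝ) ≤ m.primeFactors.card := by
    exact_mod_cast Finset.card_le_card hsub
  have h2 : (m.primeFactors.card : ℝ) * Real.log 2 ≤ Real.log m := by
    rw [← Real.log_pow]
    apply Real.log_le_log (by positivity)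
    exact_mod_cast SecQ_two_pow m (by omega)
  have h3 : (1 / 2 : ℝ) ≤ Real.log 2 := by
    have := Real.log_two_gt_d9
    linarith
  have h4 : (0 : ℝ) ≤ (m.primeFactors.card : ℝ) := Nat.cast_nonneg _
  nlinarith [mul_le_mul_of_nonneg_left h3 h4]

theorem sec_q (e1 ζ' ζ κ' κ : ℝ) (hP : Par e1 ζ' ζ κ' κ) (h4 : 1 / 4 < ζ') (h8 : κ < 8 / 25) (C : ℕ) : ∃ N0 : ℕ, ∀ N : ℕ, N0 ≤ N →
    ∀ (J J1 : ℕ) (S T : ℕ → ℝ), Lev ζ' ζ κ' κ N (yN e1 N) J J1 →
      (∀ u w : ℕ, 1 ≤ u → (N : ℝ) ^ (1 / 8 : ℝ) ≤ w → ∑ m ∈ Ico u (u + w), S m ^ 2 ≤ w * Real.log N ^ C) →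
      (∀ u w : ℕ, 1 ≤ u → (N : ℝ) ^ (1 / 8 : ℝ) ≤ w → ∑ m ∈ Ico u (u + w), T m ^ 2 ≤ w * Real.log N ^ C) →
      ∀ u w : ℕ, 1 ≤ u → (N : ℝ) ^ (1 / 8 : ℝ) ≤ w → u + w ≤ 16 * N →
        ∑ m ∈ Ico u (u + w), Fq S T (yN e1 N) J J1 m ^ 2 ≤ w * Real.log N ^ (C + 3) := by
  obtain ⟨_, _, _, hζ1, _, _, hκ1, _⟩ := hP
  have hζ' := h4
  have hκ := h8
  obtain ⟨N1, hN1⟩ := om_small ζ' κ hζ' (by linarith)
  have hlog : ∃ N2 : ℕ, ∀ N : ℕ, N2 ≤ N → (60 : ℝ) ≤ Real.log N := by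
    have h1 : Filter.Tendsto (fun n : ℕ => Real.log (n : ℝ)) Filter.atTop Filter.atTop :=
      Real.tendsto_log_atTop.comp tendsto_natCast_atTop_atTop
    exact Filter.eventually_atTop.1 (h1.eventually_ge_atTop 60)
  obtain ⟨N2, hN2⟩ := hlog
  refine ⟨max N1 (max N2 1), fun N hN J J1 S T hL hS hT u w hu hw huw => ?_⟩
  have hNa : N1 ≤ N := le_trans (le_max_left _ _) hN
  have hNb : N2 ≤ N := le_trans (le_trans (le_max_left _ _) (le_max_right _ _)) hN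
  have hNc : 1 ≤ N := le_trans (le_trans (le_max_right _ _) (le_max_right _ _)) hN
  have hL60 := hN2 N hNb
  set L := Real.log N with hLdef
  have hpt : ∀ m ∈ Ico u (u + w), Fq S T (yN e1 N) J J1 m ^ 2 ≤
      4 * S m ^ 2 + 9 * T m ^ 2 + (4 + 36 * L ^ 2) := by
    intro m hm
    rw [Finset.mem_Ico] at hm
    have hm1 : 1 ≤ m := by omega
    have hm16 : m ≤ 16 * N := by omega
    obtain ⟨ho, _⟩ := hN1 N hNa (yN e1 N) J J1 m hm1 hm16 hL.2.1
    have hb := SecQ_bq (yN e1 N) J J1 m hm1 ho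
    have hs := SecQ_sqp (yN e1 N) J m hm1
    have hs0 : 0 ≤ sqp (yN e1 N) J m := by
      unfold sqp
      exact Nat.cast_nonneg _
    have hlm : Real.log m ≤ L + 3 := by
      have h1 : Real.log m ≤ Real.log (16 * N) := by
        apply Real.log_le_log
        · exact_mod_cast hm1
        · exact_mod_cast hm16
      have hN0 : (0 : ℝ) < N := by exact_mod_cast hNc
      rw [Real.log_mul (by norm_num) hN0.ne'] at h1
      have h2 : Real.log 16 ≤ 3 := by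
        have h3 : (16 : ℝ) = 2 ^ 4 := by norm_num
        rw [h3, Real.log_pow]
        have := Real.log_two_lt_d9
        push_cast
        linarith
      linarith
    have hs3 : sqp (yN e1 N) J m ≤ 3 * L := by linarith
    have ho3 : (om (yN e1 N) J J1 m : ℝ) ≤ 3 := by exact_mod_cast ho
    have ho0 : (0 : ℝ) ≤ (om (yN e1 N) J J1 m : ℝ) := Nat.cast_nonneg _
    have hF : Fq S T (yN e1 N) J J1 m = S m - (om (yN e1 N) J J1 m : ℝ) / 2 * T m
        - ∑ j ∈ range J, Fp (bq (yN e1 N) J J1) (2 ^ j * yN e1 N) m + sqp (yN e1 N) J m := rfl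
    rw [hF]
    set a := S m
    set b := (om (yN e1 N) J J1 m : ℝ) / 2 * T m with hbdef
    set c := ∑ j ∈ range J, Fp (bq (yN e1 N) J J1) (2 ^ j * yN e1 N) m
    set d := sqp (yN e1 N) J m
    have h4 : (a - b - c + d) ^ 2 ≤ 4 * (a ^ 2 + b ^ 2 + c ^ 2 + d ^ 2) := by
      nlinarith [sq_nonneg (a + b), sq_nonneg (a + c), sq_nonneg (a - d), sq_nonneg (b - c),
        sq_nonneg (b + d), sq_nonneg (c + d)]
    have h5 : b ^ 2 ≤ 9 / 4 * T m ^ 2 := by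
      rw [hbdef, mul_pow]
      apply mul_le_mul_of_nonneg_right _ (sq_nonneg _)
      nlinarith
    have h6 : c ^ 2 ≤ 1 := by
      rw [← sq_abs]
      exact pow_le_one₀ (abs_nonneg _) hb
    have h7 : d ^ 2 ≤ 9 * L ^ 2 := by
      have : d ^ 2 ≤ (3 * L) ^ 2 := pow_le_pow_left₀ hs0 hs3 2
      linarith
    linarith
  have hsum := Finset.sum_le_sum hpt
  rw [Finset.sum_add_distrib, Finset.sum_add_distrib, ← Finset.mul_sum, ← Finset.mul_sum,
    Finset.sum_const, Nat.card_Ico, Nat.add_sub_cancel_left, nsmul_eq_mul] at hsum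
  refine hsum.trans ?_
  have hS' := hS u w hu hw
  have hT' := hT u w hu hw
  have hL1 : (1 : ℝ) ≤ L := by linarith
  have hw0 : (0 : ℝ) ≤ (w : ℝ) := Nat.cast_nonneg _
  have h1 : L ^ C ≤ L ^ (C + 2) := pow_le_pow_right₀ hL1 (by omega)
  have h2 : (1 : ℝ) ≤ L ^ (C + 2) := one_le_pow₀ hL1
  have h3 : L ^ 2 ≤ L ^ (C + 2) := pow_le_pow_right₀ hL1 (by omega)
  have h4 : L ^ (C + 3) = L * L ^ (C + 2) := by ring
  have h5 : 13 * L ^ C + (4 + 36 * L ^ 2) ≤ L ^ (C + 3) := by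
    rw [h4]
    nlinarith
  calc 4 * ∑ m ∈ Ico u (u + w), S m ^ 2 + 9 * ∑ m ∈ Ico u (u + w), T m ^ 2 + (w : ℝ) * (4 + 36 * L ^ 2)
      ≤ 4 * (w * L ^ C) + 9 * (w * L ^ C) + w * (4 + 36 * L ^ 2) := by linarith
    _ = w * (13 * L ^ C + (4 + 36 * L ^ 2)) := by ring
    _ ≤ w * L ^ (C + 3) := mul_le_mul_of_nonneg_left h5 hw0

end Pool.Agent.H91.TQ
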