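import Pool.Agent.H91.TQ.Defs
import Pool.Agent.H53.TPS.DefsF
import Pool.Agent.H91.EHA.SwK2
import Pool.Agent.H76.EHB.HRm
import Pool.Agent.H76.EHB.MelB

/-!
# TQ SwG: Siegel-Walfisz with twists for `f - D lamR R`, abstract form (compare `H76/TP/SwB.lean`, the same proof)

`f` has the local density `D` in progressions (hypothesis `heq`).  Take `A = k + 2 m + 2 B + 12` or larger, `l = ⌊x/L^(A+6)⌋`, `K = A + 7`.  Cut `(K1, K2]` into cells `(x, x+l]` (from `x = K1` on, `l = l(x)`; the last cell is incomplete: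
`≤ l · (L² + L² R) ≤ K2/L^(k+1)`; or cut at fixed length `l = ⌊K1'/L^..⌋` on dyadic ranges).  On a cell `t log n` varies by `≤ L^m l/x ≤ L^(m-A-6)`, `D` by `≤ L² (l + N^b0)/x`, `|lamR R n| ≤ R` (trivially `≤ ∑_{q ≤ R} 1·...`, e.g. `lamR_abs`).
`∑_{n ∈ cell} f(n) ee(-n b/c) = ∑_{a mod c} ee(-a b/c) (l D(x)/φ(c) [(a,c) = 1] + O(l/L^A)) = l D(x) μ(c)/φ(c) + O(c l/L^A)` (`∑_{a mod c, (a,c)=1} ee(-ab/c) = μ(c)` for `(b,c) = 1`).
`∑_{n ∈ cell} lamR R n ee(-n b/c) = l μ(c)/φ(c) + O(R^4)`: `lamR R n = ∑_{q ≤ R} μ(q)/φ(q) ∑_{h mod q}^* ee(n h/q)` (`Pool.Agent.H76.EHB.lamR_eq`); the term `h/q = b/c` gives `l μ(c)/φ(c)` (`c ≤ R`), the others are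
geometric sums `≤ 1/(2‖h/q - b/c‖) ≤ R^2`.  Compare `H53/MID/SwH.lean` (`sw_holds`).
`swf_g`: for `SWf` (`H53/TPS/DefsF.lean`) reduce `b/c` to lowest terms (`c' ≤ c ≤ L^C' ≤ R`), `K1 = N/(16P) ≥ N^a`, `K2 = 12N/P`, `K2 ≤ 12 N/P`: use `sw_g` with `k + 4`.
-/

set_option autoImplicit false

namespace Pool.Agent.H91.TQ

open Finset
open Pool.Agent.H91.PK (ee)
open Pool.Agent.H91.EHA (Lam hR lamR ramS)
open Pool.Agent.H53.TPS (SWf)

/-- the abstract local density condition -/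
def DenH (N : ℕ) (a b0 : ℝ) (A B K : ℕ) (f D : ℕ → ℝ) : Prop :=
  (∀ n : ℕ, 1 ≤ n → n ≤ 2 * N ^ 2 → |f n| ≤ Real.log N ^ 2) ∧
  (∀ x : ℕ, (N : ℝ) ^ a ≤ x → x ≤ 2 * N ^ 2 → |D x| ≤ Real.log N ^ 2) ∧
  (∀ x x' : ℕ, (N : ℝ) ^ a ≤ x → x ≤ x' → x' ≤ 2 * N ^ 2 → |D x' - D x| ≤ Real.log N ^ 2 * (((x' : ℝ) - x) + (N : ℝ) ^ b0) / x) ∧
  (∀ x l c b : ℕ, (N : ℝ) ^ a ≤ x → x ≤ N ^ 2 → (x : ℝ) / Real.log N ^ K ≤ l → (l : ℝ) ≤ x / Real.log N ^ (A + 6) →
    1 ≤ c → (c : ℝ) ≤ Real.log N ^ B →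
      |∑ k ∈ (Ioc x (x + l)).filter (fun k => k ≡ b [MOD c]), f k
        - (if Nat.Coprime b c then (l : ℝ) * D x / c.totient else 0)| ≤ l / Real.log N ^ A)

/-! ### additive characters -/

private theorem SwG_ee_nat (n : ℕ) : ee (n : ℝ) = 1 := by
  unfold ee
  rw [Complex.exp_eq_one_iff]
  exact ⟨n, by push_cast; ring⟩

private theorem SwG_ee_le {n a b c : ℕ} (hc : 1 ≤ c) (han : a ≤ n) (h : n ≡ a [MOD c]) :
    ee ((n : ℝ) * b / c) = ee ((a : ℝ) * b / c) := by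
  obtain ⟨t, ht⟩ := (Nat.modEq_iff_dvd' han).1 h.symm
  have hn : n = a + c * t := by omega
  have hc' : (c : ℝ) ≠ 0 := by
    have : (0 : ℝ) < c := by exact_mod_cast hc
    exact this.ne'
  have e : (n : ℝ) * b / c = (a : ℝ) * b / c + ((t * b : ℕ) : ℝ) := by
    rw [hn]
    push_cast
    field_simp
  rw [e, Pool.Agent.H91.PK.LSa_ee_add, SwG_ee_nat, mul_one]

private theorem SwG_ee_congr {n a b c : ℕ} (hc : 1 ≤ c) (h : n ≡ a [MOD c]) :
    ee ((n : ℝ) * b / c) = ee ((a : ℝ) * b / c) := by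
  rcases le_total a n with h1 | h1
  · exact SwG_ee_le hc h1 h
  · exact (SwG_ee_le hc h1 h.symm).symm

/-- the representative in `1..c` -/
private def SwG_rep (c n : ℕ) : ℕ := if n % c = 0 then c else n % c

private theorem SwG_rep_mem {c : ℕ} (hc : 1 ≤ c) (n : ℕ) : SwG_rep c n ∈ Icc 1 c := by
  unfold SwG_rep
  rw [mem_Icc]
  have := Nat.mod_lt n (show 0 < c by omega)
  split_ifs with h
  · omega
  · omega

private theorem SwG_rep_modEq {c : ℕ} (n : ℕ) : n ≡ SwG_rep c n [MOD c] := by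
  unfold SwG_rep Nat.ModEq
  split_ifs with h
  · rw [h, Nat.mod_self]
  · rw [Nat.mod_mod]

private theorem SwG_rep_iff {c n a : ℕ} (hc : 1 ≤ c) (ha : a ∈ Icc 1 c) :
    SwG_rep c n = a ↔ n ≡ a [MOD c] := by
  constructor
  · rintro rfl
    exact SwG_rep_modEq n
  · intro h
    have h1 := SwG_rep_mem hc n
    rw [mem_Icc] at ha h1
    have h2 : SwG_rep c n ≡ a [MOD c] := (SwG_rep_modEq n).symm.trans h
    rcases Nat.lt_or_ge (SwG_rep c n) c with h3 | h3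
    · rcases Nat.lt_or_ge a c with h4 | h4
      · exact Nat.ModEq.eq_of_lt_of_lt h2 h3 h4
      · have h5 : a = c := by omega
        subst h5
        unfold Nat.ModEq at h2
        rw [Nat.mod_self, Nat.mod_eq_of_lt h3] at h2
        omega
    · have h5 : SwG_rep c n = c := by omega
      rw [h5] at h2 ⊢
      unfold Nat.ModEq at h2
      rw [Nat.mod_self] at h2
      rcases Nat.lt_or_ge a c with h4 | h4
      · rw [Nat.mod_eq_of_lt h4] at h2
        omega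
      · omega

/-- splitting a sum according to the class of `n` modulo `c` -/
private theorem SwG_split {M : Type*} [AddCommMonoid M] (S : Finset ℕ) (c : ℕ) (hc : 1 ≤ c)
    (f : ℕ → M) :
    ∑ n ∈ S, f n = ∑ a ∈ Icc 1 c, ∑ n ∈ S.filter (fun n => n ≡ a [MOD c]), f n := by
  rw [← Finset.sum_fiberwise_of_maps_to (s := S) (t := Icc 1 c) (g := SwG_rep c)]
  · refine Finset.sum_congr rfl fun a ha => ?_
    refine Finset.sum_congr ?_ fun _ _ => rfl
    ext n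
    simp only [mem_filter]
    exact and_congr_right fun _ => SwG_rep_iff hc ha
  · intro n _
    exact SwG_rep_mem hc n

private theorem SwG_ram (c b : ℕ) (hb : Nat.Coprime b c) :
    ramS c b = (ArithmeticFunction.moebius c : ℝ) := by
  unfold ramS
  have h : Nat.gcd c b = 1 := hb.symm
  rw [h, Nat.divisors_one, Finset.sum_singleton, Nat.div_one]
  simp

/-- from progressions to additive characters -/
private theorem SwG_char (S : Finset ℕ) (f : ℕ → ℝ) (c b : ℕ) (hc : 1 ≤ c) (hb : Nat.Coprime b c)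
    (V E : ℝ)
    (hE : ∀ a : ℕ, |∑ n ∈ S.filter (fun n => n ≡ a [MOD c]), f n -
      (if Nat.Coprime a c then V / c.totient else 0)| ≤ E) :
    ‖(∑ n ∈ S, ((f n : ℝ) : ℂ) * ee ((n : ℝ) * b / c))
      - (((ArithmeticFunction.moebius c : ℝ) / (c.totient : ℝ) * V : ℝ) : ℂ)‖ ≤ c * E := by
  have hr := Pool.Agent.H91.EHA.ramS_eq c b hc
  rw [SwG_ram c b hb] at hr
  have hmain : (((ArithmeticFunction.moebius c : ℝ) / (c.totient : ℝ) * V : ℝ) : ℂ) =
      ∑ a ∈ Icc 1 c, (((if Nat.Coprime a c then V / c.totient else 0 : ℝ)) : ℂ) *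
        ee ((b : ℝ) * a / c) := by
    have h1 : ∀ a ∈ Icc 1 c, (((if Nat.Coprime a c then V / c.totient else 0 : ℝ)) : ℂ) *
        ee ((b : ℝ) * a / c) = if Nat.Coprime a c then
          (((V / (c.totient : ℝ) : ℝ)) : ℂ) * ee ((b : ℝ) * a / c) else 0 := by
      intro a _
      split_ifs
      · rfl
      · simp
    rw [sum_congr rfl h1, ← sum_filter, ← Finset.mul_sum, ← hr]
    push_cast
    ring
  have hsum : ∑ n ∈ S, ((f n : ℝ) : ℂ) * ee ((n : ℝ) * b / c) =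
      ∑ a ∈ Icc 1 c, ((∑ n ∈ S.filter (fun n => n ≡ a [MOD c]), f n : ℝ) : ℂ) *
        ee ((b : ℝ) * a / c) := by
    rw [SwG_split S c hc]
    refine Finset.sum_congr rfl fun a _ => ?_
    rw [Complex.ofReal_sum, Finset.sum_mul]
    refine Finset.sum_congr rfl fun n hn => ?_
    rw [mem_filter] at hn
    rw [SwG_ee_congr hc hn.2, mul_comm (a : ℝ) (b : ℝ)]
  rw [hsum, hmain, ← Finset.sum_sub_distrib]
  refine (norm_sum_le _ _).trans ?_
  calc ∑ a ∈ Icc 1 c, ‖((∑ n ∈ S.filter (fun n => n ≡ a [MOD c]), f n : ℝ) : ℂ) *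
        ee ((b : ℝ) * a / c) - (((if Nat.Coprime a c then V / c.totient else 0 : ℝ)) : ℂ) *
        ee ((b : ℝ) * a / c)‖ ≤ ∑ a ∈ Icc 1 c, E := by
        refine Finset.sum_le_sum fun a _ => ?_
        rw [← sub_mul, norm_mul, Pool.Agent.H91.PK.LSa_norm_ee, mul_one, ← Complex.ofReal_sub,
          Complex.norm_real, Real.norm_eq_abs]
        exact hE a
    _ = c * E := by
        rw [Finset.sum_const, Nat.card_Icc, nsmul_eq_mul, Nat.add_sub_cancel]

/-! ### pointwise bounds -/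

private theorem SwG_lamR_abs (R n : ℕ) (hn : 1 ≤ n) : |lamR R n| ≤ R := by
  have h3 : |lamR R n| = ‖((lamR R n : ℝ) : ℂ)‖ := by
    rw [Complex.norm_real]; rfl
  rw [h3, Pool.Agent.H76.EHB.lamR_eq R n hn]
  calc ‖∑ c ∈ Icc 1 R, ((((ArithmeticFunction.moebius c : ℤ) : ℝ) / (c.totient : ℝ) : ℝ) : ℂ)
        * ∑ b ∈ Pool.Agent.H92.EH.red c, ee (n * ((b : ℝ) / c))‖
      ≤ ∑ c ∈ Icc 1 R, ‖((((ArithmeticFunction.moebius c : ℤ) : ℝ) / (c.totient : ℝ) : ℝ) : ℂ)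
        * ∑ b ∈ Pool.Agent.H92.EH.red c, ee (n * ((b : ℝ) / c))‖ := norm_sum_le _ _
    _ ≤ ∑ _c ∈ Icc 1 R, (1 : ℝ) := by
        refine sum_le_sum fun c hc => ?_
        rw [mem_Icc] at hc
        have hφ : (0 : ℝ) < c.totient := by
          exact_mod_cast Nat.totient_pos.mpr hc.1
        have h4 : ‖∑ b ∈ Pool.Agent.H92.EH.red c, ee (n * ((b : ℝ) / c))‖ ≤ c.totient := by
          refine (norm_sum_le _ _).trans ?_
          simp only [Pool.Agent.H91.PK.LSa_norm_ee, sum_const, nsmul_eq_mul, mul_one]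
          rw [Pool.Agent.H92.EH.card_red]
        have h5 : ‖((((ArithmeticFunction.moebius c : ℤ) : ℝ) / (c.totient : ℝ) : ℝ) : ℂ)‖
            ≤ 1 / c.totient := by
          rw [Complex.norm_real, norm_div, Real.norm_eq_abs, Real.norm_of_nonneg hφ.le]
          apply div_le_div_of_nonneg_right _ hφ.le
          exact_mod_cast ArithmeticFunction.abs_moebius_le_one
        rw [norm_mul]
        calc _ ≤ 1 / (c.totient : ℝ) * c.totient :=
              mul_le_mul h5 h4 (norm_nonneg _) (by positivity)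
          _ = 1 := by field_simp
    _ = R := by simp

/-! ### `lamR` on a cell -/

private theorem SwG_cell_eq {M : Type*} [AddCommGroup M] (f : ℕ → M) (x l : ℕ) :
    ∑ n ∈ Ioc x (x + l), f n = ∑ n ∈ Icc 1 (x + l), f n - ∑ n ∈ Icc 1 x, f n := by
  have h1 : Icc 1 (x + l) = Ioc 0 (x + l) := by
    ext n; simp only [mem_Icc, mem_Ioc]; omega
  have h2 : Icc 1 x = Ioc 0 x := by
    ext n; simp only [mem_Icc, mem_Ioc]; omega
  rw [h1, h2, eq_sub_iff_add_eq, add_comm]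
  exact Finset.sum_Ioc_consecutive f (Nat.zero_le x) (Nat.le_add_right x l)

private theorem SwG_lam_cell (R x l c b : ℕ) (hc : 1 ≤ c) (hcR : c ≤ R) (hb : Nat.Coprime b c) :
    ‖(∑ n ∈ Ioc x (x + l), ((lamR R n : ℝ) : ℂ) * ee ((n : ℝ) * b / c))
      - (((ArithmeticFunction.moebius c : ℝ) / (c.totient : ℝ) * l : ℝ) : ℂ)‖ ≤ 2 * (R : ℝ) ^ 4 := by
  have h1 := Pool.Agent.H91.EHA.lamR_exp R (x + l) c b hc hcR hb
  have h2 := Pool.Agent.H91.EHA.lamR_exp R x c b hc hcR hb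
  rw [SwG_cell_eq (fun n => ((lamR R n : ℝ) : ℂ) * ee ((n : ℝ) * b / c)) x l]
  have e : (∑ n ∈ Icc 1 (x + l), ((lamR R n : ℝ) : ℂ) * ee ((n : ℝ) * b / c) -
      ∑ n ∈ Icc 1 x, ((lamR R n : ℝ) : ℂ) * ee ((n : ℝ) * b / c)) -
      (((ArithmeticFunction.moebius c : ℝ) / (c.totient : ℝ) * l : ℝ) : ℂ) =
      ((∑ n ∈ Icc 1 (x + l), ((lamR R n : ℝ) : ℂ) * ee ((n : ℝ) * b / c)) -
        (((ArithmeticFunction.moebius c : ℝ) / (c.totient : ℝ) * (x + l : ℕ) : ℝ) : ℂ)) -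
      ((∑ n ∈ Icc 1 x, ((lamR R n : ℝ) : ℂ) * ee ((n : ℝ) * b / c)) -
        (((ArithmeticFunction.moebius c : ℝ) / (c.totient : ℝ) * x : ℝ) : ℂ)) := by
    push_cast
    ring
  rw [e]
  refine (norm_sub_le _ _).trans ?_
  linarith

/-! ### one cell -/

private theorem SwG_cell1 (f D : ℕ → ℝ) (R x l c b : ℕ) (hc : 1 ≤ c) (hcR : c ≤ R)
    (hb : Nat.Coprime b c) (Q δ E : ℝ) (hQ : 0 ≤ Q) (hD : |D x| ≤ Q)
    (hδ : ∀ n ∈ Ioc x (x + l), |D n - D x| ≤ δ)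
    (hE : ∀ a : ℕ, |∑ k ∈ (Ioc x (x + l)).filter (fun k => k ≡ a [MOD c]), f k
        - (if Nat.Coprime a c then (l : ℝ) * D x / c.totient else 0)| ≤ E) :
    ‖∑ n ∈ Ioc x (x + l), ((f n - D n * lamR R n : ℝ) : ℂ) * ee ((n : ℝ) * b / c)‖ ≤
      c * E + Q * (2 * (R : ℝ) ^ 4) + l * (δ * R) := by
  have hA := SwG_char (Ioc x (x + l)) f c b hc hb ((l : ℝ) * D x) E hE
  have hB := SwG_lam_cell R x l c b hc hcR hb
  have e : ∑ n ∈ Ioc x (x + l), ((f n - D n * lamR R n : ℝ) : ℂ) * ee ((n : ℝ) * b / c) =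
      ((∑ n ∈ Ioc x (x + l), ((f n : ℝ) : ℂ) * ee ((n : ℝ) * b / c))
        - (((ArithmeticFunction.moebius c : ℝ) / (c.totient : ℝ) * ((l : ℝ) * D x) : ℝ) : ℂ))
      - ((D x : ℝ) : ℂ) * ((∑ n ∈ Ioc x (x + l), ((lamR R n : ℝ) : ℂ) *
          ee ((n : ℝ) * b / c))
        - (((ArithmeticFunction.moebius c : ℝ) / (c.totient : ℝ) * l : ℝ) : ℂ))
      - ∑ n ∈ Ioc x (x + l), (((D n - D x) * lamR R n : ℝ) : ℂ) *
          ee ((n : ℝ) * b / c) := by
    have h1 : ∑ n ∈ Ioc x (x + l), ((f n - D n * lamR R n : ℝ) : ℂ) * ee ((n : ℝ) * b / c) =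
        (∑ n ∈ Ioc x (x + l), ((f n : ℝ) : ℂ) * ee ((n : ℝ) * b / c)) -
        ((D x : ℝ) : ℂ) * (∑ n ∈ Ioc x (x + l), ((lamR R n : ℝ) : ℂ) *
          ee ((n : ℝ) * b / c)) -
        ∑ n ∈ Ioc x (x + l), (((D n - D x) * lamR R n : ℝ) : ℂ) *
          ee ((n : ℝ) * b / c) := by
      rw [mul_sum, ← sum_sub_distrib, ← sum_sub_distrib]
      refine sum_congr rfl fun n _ => ?_
      push_cast
      ring
    rw [h1]
    push_cast
    ring
  rw [e]
  refine (norm_sub_le _ _).trans (add_le_add ((norm_sub_le _ _).trans (add_le_add hA ?_)) ?_)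
  · rw [norm_mul, Complex.norm_real, Real.norm_eq_abs]
    exact mul_le_mul hD hB (norm_nonneg _) hQ
  · refine (norm_sum_le _ _).trans ?_
    have h2 : ∀ n ∈ Ioc x (x + l), ‖(((D n - D x) * lamR R n : ℝ) : ℂ) *
        ee ((n : ℝ) * b / c)‖ ≤ δ * R := by
      intro n hn
      have hn' := hn
      rw [mem_Ioc] at hn'
      rw [norm_mul, Pool.Agent.H91.PK.LSa_norm_ee, mul_one, Complex.norm_real, Real.norm_eq_abs,
        abs_mul]
      exact mul_le_mul (hδ n hn) (SwG_lamR_abs R n (by omega)) (abs_nonneg _)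
        ((abs_nonneg _).trans (hδ n hn))
    refine (sum_le_sum h2).trans (le_of_eq ?_)
    rw [sum_const, Nat.card_Ioc, Nat.add_sub_cancel_left, nsmul_eq_mul]

private theorem SwG_cell2 (F : ℕ → ℝ) (x l c b : ℕ) (t Q : ℝ) (hx : 1 ≤ x) (hQ : 0 ≤ Q)
    (hF : ∀ n ∈ Ioc x (x + l), |F n| ≤ Q) (V : ℝ)
    (hV : ‖∑ n ∈ Ioc x (x + l), ((F n : ℝ) : ℂ) * ee ((n : ℝ) * b / c)‖ ≤ V) :
    ‖∑ n ∈ Ioc x (x + l), ((F n : ℝ) : ℂ) * ee ((n : ℝ) * b / c) *
      ee (t * Real.log n)‖ ≤ V + l * (Q * (7 * (|t| * ((l : ℝ) / x)))) := by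
  have hx0 : (0 : ℝ) < x := by exact_mod_cast (by omega : 0 < x)
  have e : ∑ n ∈ Ioc x (x + l), ((F n : ℝ) : ℂ) * ee ((n : ℝ) * b / c) *
      ee (t * Real.log n) =
      ee (t * Real.log x) * (∑ n ∈ Ioc x (x + l), ((F n : ℝ) : ℂ) *
        ee ((n : ℝ) * b / c)) +
      ∑ n ∈ Ioc x (x + l), ((F n : ℝ) : ℂ) * ee ((n : ℝ) * b / c) *
        (ee (t * Real.log n) - ee (t * Real.log x)) := by
    rw [mul_sum, ← sum_add_distrib]
    refine sum_congr rfl fun n _ => ?_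
    ring
  rw [e]
  refine (norm_add_le _ _).trans (add_le_add ?_ ?_)
  · rw [norm_mul, Pool.Agent.H91.PK.LSa_norm_ee, one_mul]
    exact hV
  · refine (norm_sum_le _ _).trans ?_
    have h2 : ∀ n ∈ Ioc x (x + l), ‖((F n : ℝ) : ℂ) * ee ((n : ℝ) * b / c) *
        (ee (t * Real.log n) - ee (t * Real.log x))‖ ≤
        Q * (7 * (|t| * ((l : ℝ) / x))) := by
      intro n hn
      have hn' := hF n hn
      rw [mem_Ioc] at hn
      rw [norm_mul, norm_mul, Pool.Agent.H91.PK.LSa_norm_ee, mul_one, Complex.norm_real,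
        Real.norm_eq_abs]
      have h4 := Pool.Agent.H76.EHB.melB_ee_sub (t * Real.log x) (t * (Real.log n - Real.log x))
      have h5 : t * Real.log x + t * (Real.log n - Real.log x) = t * Real.log n := by ring
      rw [h5] at h4
      have hn0 : (0 : ℝ) < n := by exact_mod_cast (by omega : 0 < n)
      have hnx : (x : ℝ) ≤ n := by exact_mod_cast hn.1.le
      have h6 : 0 ≤ Real.log n - Real.log x := sub_nonneg.2 (Real.log_le_log hx0 hnx)
      have h7 : Real.log n - Real.log x ≤ (l : ℝ) / x := by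
        rw [← Real.log_div hn0.ne' hx0.ne']
        refine (Real.log_le_sub_one_of_pos (by positivity)).trans ?_
        have h8 : (n : ℝ) / x - 1 = ((n : ℝ) - x) / x := by
          field_simp
        rw [h8]
        apply div_le_div_of_nonneg_right _ hx0.le
        have : (n : ℝ) ≤ x + l := by exact_mod_cast hn.2
        linarith
      refine mul_le_mul hn' (h4.trans ?_) (norm_nonneg _) hQ
      rw [abs_mul, abs_of_nonneg h6]
      exact mul_le_mul_of_nonneg_left (mul_le_mul_of_nonneg_left h7 (abs_nonneg _)) (by norm_num)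
    refine (sum_le_sum h2).trans (le_of_eq ?_)
    rw [sum_const, Nat.card_Ioc, Nat.add_sub_cancel_left, nsmul_eq_mul]

/-- the induction over the cells -/
private theorem SwG_ind (F : ℕ → ℂ) (l : ℕ → ℕ) (K0 K2 : ℕ) (ε W : ℝ) (hε : 0 ≤ ε)
    (h1 : ∀ x, K0 ≤ x → x ≤ K2 → 1 ≤ l x)
    (h2 : ∀ x, K0 ≤ x → x + l x ≤ K2 → ‖∑ n ∈ Ioc x (x + l x), F n‖ ≤ ε * l x)
    (h3 : ∀ x, K0 ≤ x → x ≤ K2 → K2 < x + l x → ‖∑ n ∈ Ioc x K2, F n‖ ≤ W) (d : ℕ) :
    ∀ x, K0 ≤ x → x ≤ K2 → K2 - x ≤ d →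
      ‖∑ n ∈ Ioc x K2, F n‖ ≤ ε * ((K2 : ℝ) - x) + W := by
  induction d with
  | zero =>
    intro x hx hx2 hd
    have h4 : K2 < x + l x := by
      have := h1 x hx hx2
      omega
    have h5 := h3 x hx hx2 h4
    have h6 : (x : ℝ) ≤ K2 := by exact_mod_cast hx2
    have h7 : 0 ≤ ε * ((K2 : ℝ) - x) := mul_nonneg hε (by linarith)
    linarith
  | succ d ih =>
    intro x hx hx2 hd
    rcases Nat.lt_or_ge K2 (x + l x) with h4 | h4
    · have h5 := h3 x hx hx2 h4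
      have h6 : (x : ℝ) ≤ K2 := by exact_mod_cast hx2
      have h7 : 0 ≤ ε * ((K2 : ℝ) - x) := mul_nonneg hε (by linarith)
      linarith
    · have h5 := h1 x hx hx2
      have h6 := ih (x + l x) (by omega) h4 (by omega)
      have h7 := h2 x hx h4
      rw [← Finset.sum_Ioc_consecutive F (Nat.le_add_right x (l x)) h4]
      refine (norm_add_le _ _).trans ?_
      push_cast at h6
      linarith

private theorem SwG_pow_le (n : ℕ) {e0 : ℝ} (he : 0 < e0) : ∀ᶠ N : ℕ in Filter.atTop,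
    Real.log N ^ n ≤ 1 / 4 * (N : ℝ) ^ e0 := by
  have h1 := (isLittleO_log_rpow_rpow_atTop (n : ℝ) he).bound (c := 1 / 4) (by norm_num)
  have h2 := tendsto_natCast_atTop_atTop (R := ℝ) |>.eventually h1
  filter_upwards [h2, Filter.eventually_ge_atTop 1] with N hN hN1
  have h3 := (le_abs_self _).trans hN
  rw [Real.rpow_natCast] at h3
  rw [Real.norm_eq_abs, abs_of_nonneg (Real.rpow_nonneg (Nat.cast_nonneg N) _)] at h3
  exact h3

/-- the numerical estimate for one cell -/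
private theorem SwG_num (L l x R c z t : ℝ) (B m k : ℕ) (hL : 8 ≤ L) (hl : 0 ≤ l) (hx : 0 < x)
    (hR0 : 0 ≤ R) (hR : R ≤ L ^ B) (hc : c ≤ L ^ B) (ht0 : 0 ≤ t) (ht : t ≤ L ^ m)
    (hlx : l ≤ x / L ^ (k + m + B + 11)) (hz : z ≤ x / L ^ (k + m + B + 11))
    (hR4 : 32 * (L ^ (4 * B + 2) * L ^ k) ≤ l) :
    c * (l / L ^ (k + m + B + 5)) + L ^ 2 * (2 * R ^ 4) + l * (L ^ 2 * (l + z) / x * R) +
      l * ((L ^ 2 + L ^ 2 * R) * (7 * (t * (l / x)))) ≤ 1 / (2 * L ^ k) * l := by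
  have hL0 : 0 < L := by linarith
  have hL1 : 1 ≤ L := by linarith
  have hk : 0 < L ^ k := by positivity
  have hB : 1 ≤ L ^ B := one_le_pow₀ hL1
  have hm : 1 ≤ L ^ m := one_le_pow₀ hL1
  have h2 : 0 < L ^ 2 := by positivity
  have h9 : (168 : ℝ) ≤ L ^ 9 := by
    calc (168 : ℝ) ≤ 8 ^ 9 := by norm_num
      _ ≤ L ^ 9 := pow_le_pow_left₀ (by norm_num) hL 9
  have h5 : (8 : ℝ) ≤ L ^ 5 := by
    calc (8 : ℝ) ≤ 8 ^ 5 := by norm_num
      _ ≤ L ^ 5 := pow_le_pow_left₀ (by norm_num) hL 5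
  have hlk : 0 ≤ l / L ^ k := by positivity
  have t1 : c * (l / L ^ (k + m + B + 5)) ≤ l / L ^ k * (1 / 8) := by
    calc c * (l / L ^ (k + m + B + 5)) ≤ L ^ B * (l / L ^ (k + m + B + 5)) :=
          mul_le_mul_of_nonneg_right hc (by positivity)
      _ = l / L ^ k * (1 / (L ^ m * L ^ 5)) := by
          rw [show k + m + B + 5 = k + (m + (B + 5)) by ring, pow_add, pow_add, pow_add]
          field_simp
      _ ≤ l / L ^ k * (1 / 8) := by
          refine mul_le_mul_of_nonneg_left ?_ hlk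
          apply one_div_le_one_div_of_le (by norm_num)
          nlinarith
  have t2 : L ^ 2 * (2 * R ^ 4) ≤ l / L ^ k * (1 / 8) := by
    have h1 : R ^ 4 ≤ L ^ (4 * B) := by
      calc R ^ 4 ≤ (L ^ B) ^ 4 := pow_le_pow_left₀ hR0 hR 4
        _ = L ^ (4 * B) := by rw [← pow_mul, mul_comm B 4]
    rw [div_mul_eq_mul_div, le_div_iff₀ hk]
    have h2' : L ^ 2 * (2 * R ^ 4) ≤ 2 * L ^ (4 * B + 2) := by
      rw [pow_add]
      have := mul_le_mul_of_nonneg_left h1 h2.le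
      linarith
    have h3 : L ^ 2 * (2 * R ^ 4) * L ^ k ≤ 2 * L ^ (4 * B + 2) * L ^ k :=
      mul_le_mul_of_nonneg_right h2' hk.le
    have h4 : 0 ≤ L ^ (4 * B + 2) * L ^ k := by positivity
    linarith
  have hlx' : l / x ≤ 1 / L ^ (k + m + B + 11) := by
    rw [div_le_iff₀ hx]
    calc l ≤ x / L ^ (k + m + B + 11) := hlx
      _ = 1 / L ^ (k + m + B + 11) * x := by ring
  have hlx0 : 0 ≤ l / x := by positivity
  have t3 : l * (L ^ 2 * (l + z) / x * R) ≤ l / L ^ k * (1 / 8) := by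
    have h1 : L ^ 2 * (l + z) / x ≤ L ^ 2 * (2 / L ^ (k + m + B + 11)) := by
      rw [div_le_iff₀ hx]
      calc L ^ 2 * (l + z) ≤ L ^ 2 * (x / L ^ (k + m + B + 11) + x / L ^ (k + m + B + 11)) :=
            mul_le_mul_of_nonneg_left (by linarith) h2.le
        _ = L ^ 2 * (2 / L ^ (k + m + B + 11)) * x := by ring
    calc l * (L ^ 2 * (l + z) / x * R) ≤ l * (L ^ 2 * (2 / L ^ (k + m + B + 11)) * L ^ B) := by
          refine mul_le_mul_of_nonneg_left ?_ hl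
          exact mul_le_mul h1 hR hR0 (by positivity)
      _ = l / L ^ k * (2 / (L ^ m * L ^ 9)) := by
          rw [show k + m + B + 11 = k + (m + (B + (9 + 2))) by ring, pow_add, pow_add, pow_add,
            pow_add L 9 2]
          field_simp
      _ ≤ l / L ^ k * (1 / 8) := by
          refine mul_le_mul_of_nonneg_left ?_ hlk
          rw [div_le_div_iff₀ (by positivity) (by norm_num)]
          nlinarith
  have t4 : l * ((L ^ 2 + L ^ 2 * R) * (7 * (t * (l / x)))) ≤ l / L ^ k * (1 / 8) := by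
    have h1 : L ^ 2 + L ^ 2 * R ≤ 2 * (L ^ 2 * L ^ B) := by
      have h3 : L ^ 2 * R ≤ L ^ 2 * L ^ B := mul_le_mul_of_nonneg_left hR h2.le
      have h4 : L ^ 2 * 1 ≤ L ^ 2 * L ^ B := mul_le_mul_of_nonneg_left hB h2.le
      linarith
    calc l * ((L ^ 2 + L ^ 2 * R) * (7 * (t * (l / x)))) ≤
          l * ((2 * (L ^ 2 * L ^ B)) * (7 * (L ^ m * (1 / L ^ (k + m + B + 11))))) := by
          refine mul_le_mul_of_nonneg_left ?_ hl
          refine mul_le_mul h1 ?_ (by positivity) (by positivity)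
          refine mul_le_mul_of_nonneg_left ?_ (by norm_num)
          exact mul_le_mul ht hlx' hlx0 (by positivity)
      _ = l / L ^ k * (14 / L ^ 9) := by
          rw [show k + m + B + 11 = k + (m + (B + (9 + 2))) by ring, pow_add, pow_add, pow_add,
            pow_add L 9 2]
          field_simp
          ring
      _ ≤ l / L ^ k * (1 / 8) := by
          refine mul_le_mul_of_nonneg_left ?_ hlk
          rw [div_le_div_iff₀ (by positivity) (by norm_num)]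
          linarith
  have h9' : 1 / (2 * L ^ k) * l = l / L ^ k * (1 / 2) := by
    field_simp
  rw [h9']
  linarith

theorem sw_g (a b0 : ℝ) (ha : 0 < a) (hb : b0 < a) (B m k : ℕ) : ∃ A K N0 : ℕ, ∀ N : ℕ, N0 ≤ N →
    ∀ (f D : ℕ → ℝ) (R c b K1 K2 : ℕ) (t : ℝ), DenH N a b0 A B K f D → (R : ℝ) ≤ Real.log N ^ B → 1 ≤ c → c ≤ R →
      Nat.Coprime b c → (N : ℝ) ^ a ≤ K1 → K1 ≤ K2 → K2 ≤ N ^ 2 → |t| ≤ Real.log N ^ m →
      ‖∑ n ∈ Ioc K1 K2, ((f n - D n * lamR R n : ℝ) : ℂ) * ee (-((n : ℝ) * b / c)) *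
        ee (-(t * Real.log n))‖ ≤ K2 / Real.log N ^ k := by
  have hlog : ∀ K : ℝ, ∀ᶠ N : ℕ in Filter.atTop, K ≤ Real.log N := fun K =>
    (Real.tendsto_log_atTop.comp (tendsto_natCast_atTop_atTop (R := ℝ))).eventually_ge_atTop K
  obtain ⟨N0, hN0⟩ := Filter.eventually_atTop.1 ((Filter.eventually_ge_atTop 9).and ((hlog 8).and
      ((SwG_pow_le ((4 * B + 2 + k) + (k + m + B + 13)) ha).and
      (SwG_pow_le (k + m + B + 11) (show (0 : ℝ) < a - b0 by linarith)))))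
  refine ⟨k + m + B + 5, k + m + B + 12, N0,
    fun N hN f D R c b K1 K2 t hden hRB hc hcR hbc hK1 hK12 hK2 ht => ?_⟩
  obtain ⟨g2, g3, g4, g5⟩ := hN0 N hN
  obtain ⟨d1, d2, d3, hEq⟩ := hden
  obtain ⟨L, hLdef⟩ : ∃ L : ℝ, L = Real.log N := ⟨_, rfl⟩
  rw [← hLdef] at d1 d2 d3 hEq g3 g4 g5 hRB ht ⊢
  have hL0 : 0 < L := by linarith
  have hL1 : 1 ≤ L := by linarith
  have hNpos : (0 : ℝ) < N := by exact_mod_cast (by omega : 0 < N)
  have hN1' : (1 : ℝ) ≤ N := by exact_mod_cast (by omega : 1 ≤ N)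
  have hNa1 : 1 ≤ (N : ℝ) ^ a := Real.one_le_rpow hN1' ha.le
  have hM : 0 < L ^ (k + m + B + 11) := by positivity
  have hR0 : (0 : ℝ) ≤ R := Nat.cast_nonneg R
  have hb0 : 0 ≤ (N : ℝ) ^ b0 := Real.rpow_nonneg hNpos.le _
  -- the points of `[N^a, N^2]`
  have hx1 : ∀ x : ℕ, (N : ℝ) ^ a ≤ x → 1 ≤ x := by
    intro x hx
    exact_mod_cast hNa1.trans hx
  have hzx : ∀ x : ℕ, (N : ℝ) ^ a ≤ x → (N : ℝ) ^ b0 ≤ x / L ^ (k + m + B + 11) := by
    intro x hx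
    rw [le_div_iff₀ hM]
    calc (N : ℝ) ^ b0 * L ^ (k + m + B + 11) ≤ (N : ℝ) ^ b0 * (1 / 4 * (N : ℝ) ^ (a - b0)) :=
          mul_le_mul_of_nonneg_left g5 hb0
      _ = 1 / 4 * (N : ℝ) ^ a := by
          rw [mul_left_comm, ← Real.rpow_add hNpos]
          congr 2
          ring
      _ ≤ x := by linarith
  have hlb : ∀ x : ℕ, (N : ℝ) ^ a ≤ x →
      L ^ (4 * B + 2 + k) * (4 * L ^ 2) ≤ x / L ^ (k + m + B + 11) := by
    intro x hx
    rw [le_div_iff₀ hM]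
    calc L ^ (4 * B + 2 + k) * (4 * L ^ 2) * L ^ (k + m + B + 11) =
          4 * L ^ ((4 * B + 2 + k) + (k + m + B + 13)) := by
          rw [pow_add L (4 * B + 2 + k) (k + m + B + 13),
            show k + m + B + 13 = (k + m + B + 11) + 2 by ring, pow_add L (k + m + B + 11) 2]
          ring
      _ ≤ x := by linarith
  have hfl : ∀ x : ℕ, (N : ℝ) ^ a ≤ x →
      (x : ℝ) / L ^ (k + m + B + 12) ≤ (⌊(x : ℝ) / L ^ (k + m + B + 11)⌋₊ : ℕ) ∧
      L ^ (4 * B + 2 + k) * 32 ≤ (⌊(x : ℝ) / L ^ (k + m + B + 11)⌋₊ : ℕ) := by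
    intro x hx
    have h1 := hlb x hx
    have h2 := Nat.lt_floor_add_one ((x : ℝ) / L ^ (k + m + B + 11))
    have h3 : 1 ≤ L ^ (4 * B + 2 + k) := one_le_pow₀ hL1
    have h4 : (64 : ℝ) ≤ L ^ 2 := by nlinarith
    have h5 : L ^ (4 * B + 2 + k) * 256 ≤ x / L ^ (k + m + B + 11) := by
      refine le_trans ?_ h1
      apply mul_le_mul_of_nonneg_left _ (by positivity)
      linarith
    constructor
    · have h6 : (x : ℝ) / L ^ (k + m + B + 12) ≤ (x : ℝ) / L ^ (k + m + B + 11) * (1 / 8) := by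
        rw [show k + m + B + 12 = (k + m + B + 11) + 1 by ring, pow_succ, ← div_div,
          div_eq_mul_one_div ((x : ℝ) / L ^ (k + m + B + 11)) L]
        apply mul_le_mul_of_nonneg_left _ (by positivity)
        exact one_div_le_one_div_of_le (by norm_num) g3
      linarith
    · linarith
  -- the pointwise bound
  have hF : ∀ n : ℕ, (N : ℝ) ^ a ≤ n → n ≤ N ^ 2 →
      |f n - D n * lamR R n| ≤ L ^ 2 + L ^ 2 * R := by
    intro n hn1 hn2
    have h1 := d1 n (hx1 n hn1) (by omega)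
    have h2 := d2 n hn1 (by omega)
    have h3 := SwG_lamR_abs R n (hx1 n hn1)
    have h4 : |D n * lamR R n| ≤ L ^ 2 * R := by
      rw [abs_mul]
      exact mul_le_mul h2 h3 (abs_nonneg _) (by positivity)
    exact (abs_sub _ _).trans (add_le_add h1 h4)
  -- the conjugate
  have hconj : ∑ n ∈ Ioc K1 K2, ((f n - D n * lamR R n : ℝ) : ℂ) * ee (-((n : ℝ) * b / c)) *
      ee (-(t * Real.log n)) =
      (starRingEnd ℂ) (∑ n ∈ Ioc K1 K2, ((f n - D n * lamR R n : ℝ) : ℂ) *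
        ee ((n : ℝ) * b / c) * ee (t * Real.log n)) := by
    rw [map_sum]
    refine Finset.sum_congr rfl fun n _ => ?_
    simp only [map_mul, Complex.conj_ofReal, Pool.Agent.H91.PK.LSa_conj_ee]
  rw [hconj, RCLike.norm_conj]
  have hRc : (c : ℝ) ≤ L ^ B := le_trans (by exact_mod_cast hcR) hRB
  have hcast : ∀ x : ℕ, K1 ≤ x → (N : ℝ) ^ a ≤ x := fun x hx =>
    hK1.trans (by exact_mod_cast hx)
  have hind := SwG_ind (fun n => ((f n - D n * lamR R n : ℝ) : ℂ) * ee ((n : ℝ) * b / c) *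
        ee (t * Real.log n)) (fun x => ⌊(x : ℝ) / L ^ (k + m + B + 11)⌋₊) K1 K2 (1 / (2 * L ^ k))
    (K2 / L ^ k * (1 / 2)) (by positivity) ?_ ?_ ?_ (K2 - K1) K1 le_rfl hK12 le_rfl
  · refine hind.trans ?_
    have h1 : 1 / (2 * L ^ k) * ((K2 : ℝ) - K1) ≤ 1 / (2 * L ^ k) * K2 := by
      apply mul_le_mul_of_nonneg_left _ (by positivity)
      have : (0 : ℝ) ≤ K1 := Nat.cast_nonneg K1
      linarith
    have h2 : 1 / (2 * L ^ k) * (K2 : ℝ) = K2 / L ^ k * (1 / 2) := by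
      field_simp
    linarith
  · intro x hx _
    have h1 := (hfl x (hcast x hx)).2
    have h3 : 1 ≤ L ^ (4 * B + 2 + k) := one_le_pow₀ hL1
    have h4 : (1 : ℝ) ≤ (⌊(x : ℝ) / L ^ (k + m + B + 11)⌋₊ : ℕ) := by linarith
    exact_mod_cast h4
  · intro x hx hxl
    have hxN := hcast x hx
    have hx1' := hx1 x hxN
    have hx0 : (0 : ℝ) < x := by exact_mod_cast (by omega : 0 < x)
    obtain ⟨f1, f2⟩ := hfl x hxN
    obtain ⟨l, hl⟩ : ∃ l : ℕ, l = ⌊(x : ℝ) / L ^ (k + m + B + 11)⌋₊ := ⟨_, rfl⟩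
    show ‖∑ n ∈ Ioc x (x + ⌊(x : ℝ) / L ^ (k + m + B + 11)⌋₊), _‖ ≤
      1 / (2 * L ^ k) * (⌊(x : ℝ) / L ^ (k + m + B + 11)⌋₊ : ℕ)
    have hlx : (l : ℝ) ≤ x / L ^ (k + m + B + 11) := by
      rw [hl]
      exact Nat.floor_le (by positivity)
    have hxl' : x + ⌊(x : ℝ) / L ^ (k + m + B + 11)⌋₊ ≤ K2 := hxl
    rw [← hl] at f1 f2 hxl' ⊢
    have hz1 := hzx x hxN
    have hxl2 : x + l ≤ N ^ 2 := hxl'.trans hK2
    have hE : ∀ a' : ℕ, |∑ k ∈ (Ioc x (x + l)).filter (fun k => k ≡ a' [MOD c]), f k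
        - (if Nat.Coprime a' c then (l : ℝ) * D x / c.totient else 0)| ≤
        l / L ^ (k + m + B + 5) := fun a' =>
      hEq x l c a' hxN (by omega) f1 hlx hc hRc
    have hδ : ∀ n ∈ Ioc x (x + l), |D n - D x| ≤ L ^ 2 * ((l : ℝ) + (N : ℝ) ^ b0) / x := by
      intro n hn
      rw [mem_Ioc] at hn
      refine (d3 x n hxN hn.1.le (by omega)).trans ?_
      apply div_le_div_of_nonneg_right _ hx0.le
      apply mul_le_mul_of_nonneg_left _ (by positivity)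
      have : (n : ℝ) ≤ x + l := by exact_mod_cast hn.2
      linarith
    have hC1 := SwG_cell1 f D R x l c b hc hcR hbc (L ^ 2) _ _ (by positivity)
      (d2 x hxN (by omega)) hδ hE
    have hC2 := SwG_cell2 (fun n => f n - D n * lamR R n) x l c b t (L ^ 2 + L ^ 2 * R) hx1'
      (by positivity) (fun n hn => by
        rw [mem_Ioc] at hn
        exact hF n (hxN.trans (by exact_mod_cast hn.1.le)) (hn.2.trans hxl2)) _ hC1
    refine hC2.trans ?_
    refine SwG_num L l x R c ((N : ℝ) ^ b0) |t| B m k g3 (Nat.cast_nonneg l) hx0 hR0 hRB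
      hRc (abs_nonneg t) ht hlx hz1 ?_
    rw [← pow_add]
    linarith
  · intro x hx hxK hKl
    have hxN := hcast x hx
    have hx1' := hx1 x hxN
    have hx0 : (0 : ℝ) < x := by exact_mod_cast (by omega : 0 < x)
    refine (norm_sum_le _ _).trans ?_
    have h2 : ∀ n ∈ Ioc x K2, ‖((f n - D n * lamR R n : ℝ) : ℂ) * ee ((n : ℝ) * b / c) *
        ee (t * Real.log n)‖ ≤ L ^ 2 + L ^ 2 * R := by
      intro n hn
      rw [mem_Ioc] at hn
      rw [norm_mul, norm_mul, Pool.Agent.H91.PK.LSa_norm_ee, Pool.Agent.H91.PK.LSa_norm_ee,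
        mul_one, mul_one, Complex.norm_real, Real.norm_eq_abs]
      exact hF n (hxN.trans (by exact_mod_cast hn.1.le)) (hn.2.trans hK2)
    refine (sum_le_sum h2).trans ?_
    rw [sum_const, Nat.card_Ioc, nsmul_eq_mul]
    have h3 : ((K2 - x : ℕ) : ℝ) ≤ K2 / L ^ (k + m + B + 11) := by
      have h4 : K2 - x ≤ ⌊(x : ℝ) / L ^ (k + m + B + 11)⌋₊ := by
        have : K2 < x + ⌊(x : ℝ) / L ^ (k + m + B + 11)⌋₊ := hKl
        omega
      have h5 : ((K2 - x : ℕ) : ℝ) ≤ (⌊(x : ℝ) / L ^ (k + m + B + 11)⌋₊ : ℕ) := by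
        exact_mod_cast h4
      refine h5.trans ((Nat.floor_le (by positivity)).trans ?_)
      apply div_le_div_of_nonneg_right _ hM.le
      exact_mod_cast hxK
    have hB1 : 1 ≤ L ^ B := one_le_pow₀ hL1
    have hm1 : 1 ≤ L ^ m := one_le_pow₀ hL1
    have h2p : 0 < L ^ 2 := by positivity
    have h6 : L ^ 2 + L ^ 2 * R ≤ 2 * (L ^ 2 * L ^ B) := by
      have h7 : L ^ 2 * R ≤ L ^ 2 * L ^ B := mul_le_mul_of_nonneg_left hRB h2p.le
      have h8 : L ^ 2 * 1 ≤ L ^ 2 * L ^ B := mul_le_mul_of_nonneg_left hB1 h2p.le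
      linarith
    calc ((K2 - x : ℕ) : ℝ) * (L ^ 2 + L ^ 2 * R) ≤
          K2 / L ^ (k + m + B + 11) * (2 * (L ^ 2 * L ^ B)) :=
          mul_le_mul h3 h6 (by positivity) (by positivity)
      _ = K2 / L ^ k * (2 / (L ^ m * L ^ 9)) := by
          rw [show k + m + B + 11 = k + (m + (B + (9 + 2))) by ring, pow_add, pow_add, pow_add,
            pow_add L 9 2]
          field_simp
      _ ≤ K2 / L ^ k * (1 / 2) := by
          refine mul_le_mul_of_nonneg_left ?_ (by positivity)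
          have h8 : (168 : ℝ) ≤ L ^ 9 := by
            calc (168 : ℝ) ≤ 8 ^ 9 := by norm_num
              _ ≤ L ^ 9 := pow_le_pow_left₀ (by norm_num) g3 9
          rw [div_le_div_iff₀ (by positivity) (by norm_num)]
          nlinarith

theorem swf_g (a b0 : ℝ) (ha : 0 < a) (hb : b0 < a) (B C' m k : ℕ) (hB : C' + 1 ≤ B) : ∃ A K N0 : ℕ, ∀ N : ℕ, N0 ≤ N →
    ∀ (f D : ℕ → ℝ) (P : ℕ), DenH N a b0 A B K f D → 1 ≤ P → (P : ℝ) * (N : ℝ) ^ a ≤ N / 32 →
      SWf (fun n => f n - D n * lamR ⌊Real.log N ^ B⌋₊ n) N P C' m k := by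
  obtain ⟨A, K, N1, hN1⟩ := sw_g a b0 ha hb B m (k + 4)
  have hlog : ∀ K : ℝ, ∀ᶠ N : ℕ in Filter.atTop, K ≤ Real.log N := fun K =>
    (Real.tendsto_log_atTop.comp (tendsto_natCast_atTop_atTop (R := ℝ))).eventually_ge_atTop K
  obtain ⟨N0, hN0⟩ := Filter.eventually_atTop.1 (((Filter.eventually_ge_atTop N1).and
    (Filter.eventually_ge_atTop 12)).and (hlog 8))
  refine ⟨A, K, N0, fun N hN f D P hden hP hPN c b t hc hcL ht => ?_⟩
  obtain ⟨⟨g1, g2⟩, g3⟩ := hN0 N hN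
  set L := Real.log N with hL
  have hL1 : 1 ≤ L := by linarith
  have hL0 : 0 < L := by linarith
  have hNpos : (0 : ℝ) < N := by exact_mod_cast (by omega : 0 < N)
  have hN1' : (1 : ℝ) ≤ N := by exact_mod_cast (by omega : 1 ≤ N)
  have hNa1 : 1 ≤ (N : ℝ) ^ a := Real.one_le_rpow hN1' ha.le
  have hPpos : (0 : ℝ) < P := by exact_mod_cast hP
  -- lowest terms
  obtain ⟨g, b', c', hg, hcop, hb', hc'⟩ := Nat.exists_coprime' (m := b) (n := c)
    (Nat.gcd_pos_of_pos_right b hc)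
  have hgc : (g : ℝ) ≠ 0 := by exact_mod_cast hg.ne'
  have hc'1 : 1 ≤ c' := by
    rcases Nat.eq_zero_or_pos c' with h | h
    · rw [h, zero_mul] at hc'
      omega
    · exact h
  have hc'c : c' ≤ c := by
    rw [hc']
    exact Nat.le_mul_of_pos_right c' hg
  have hc'0 : (c' : ℝ) ≠ 0 := by
    have : (0 : ℝ) < c' := by exact_mod_cast hc'1
    exact this.ne'
  have hfrac : (b : ℝ) / c = (b' : ℝ) / c' := by
    rw [hb', hc']
    push_cast
    field_simp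
  have hLB : L ^ C' ≤ L ^ B := pow_le_pow_right₀ hL1 (by omega)
  have hc'R : c' ≤ ⌊L ^ B⌋₊ := by
    apply Nat.le_floor
    have : (c' : ℝ) ≤ c := by exact_mod_cast hc'c
    linarith
  have hRB : ((⌊L ^ B⌋₊ : ℕ) : ℝ) ≤ L ^ B := Nat.floor_le (by positivity)
  -- the range
  have hK1 : (N : ℝ) ^ a ≤ ((N / (16 * P) : ℕ) : ℝ) := by
    have h1 := Nat.lt_floor_add_one ((N : ℝ) / ((16 * P : ℕ) : ℝ))
    rw [Nat.floor_div_eq_div] at h1
    have h2 : 2 * (N : ℝ) ^ a ≤ (N : ℝ) / ((16 * P : ℕ) : ℝ) := by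
      push_cast
      rw [le_div_iff₀ (by positivity)]
      linarith
    linarith
  have hK12 : N / (16 * P) ≤ 12 * N / P := by
    calc N / (16 * P) ≤ N / P := Nat.div_le_div_left (by omega) hP
      _ ≤ 12 * N / P := Nat.div_le_div_right (by omega)
  have hK2 : 12 * N / P ≤ N ^ 2 := by
    calc 12 * N / P ≤ 12 * N := Nat.div_le_self _ _
      _ ≤ N * N := Nat.mul_le_mul_right N g2
      _ = N ^ 2 := by ring
  have hmain := hN1 N g1 f D ⌊L ^ B⌋₊ c' b' (N / (16 * P)) (12 * N / P) t hden hRB hc'1 hc'R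
    hcop hK1 hK12 hK2 ht
  have heq : ∑ n ∈ Ioc (N / (16 * P)) (12 * N / P),
      (((fun n => f n - D n * lamR ⌊L ^ B⌋₊ n) n : ℝ) : ℂ) *
        ee (-((n : ℝ) * ((b : ℝ) / c))) * ee (-(t * Real.log n)) =
      ∑ n ∈ Ioc (N / (16 * P)) (12 * N / P), ((f n - D n * lamR ⌊L ^ B⌋₊ n : ℝ) : ℂ) *
        ee (-((n : ℝ) * b' / c')) * ee (-(t * Real.log n)) := by
    refine sum_congr rfl fun n _ => ?_
    rw [hfrac, mul_div_assoc]
  rw [heq]
  refine hmain.trans ?_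
  have h1 : ((12 * N / P : ℕ) : ℝ) ≤ 12 * (N / P : ℝ) := by
    refine Nat.cast_div_le.trans ?_
    push_cast
    rw [mul_div_assoc]
  have h2 : (0 : ℝ) ≤ N / P := by positivity
  have h3 : (12 : ℝ) ≤ L ^ 4 := by
    calc (12 : ℝ) ≤ 8 ^ 4 := by norm_num
      _ ≤ L ^ 4 := pow_le_pow_left₀ (by norm_num) g3 4
  rw [pow_add, div_le_div_iff₀ (by positivity) (by positivity)]
  have hk : 0 < L ^ k := by positivity
  calc ((12 * N / P : ℕ) : ℝ) * L ^ k ≤ 12 * (N / P : ℝ) * L ^ k :=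
        mul_le_mul_of_nonneg_right h1 hk.le
    _ ≤ L ^ 4 * (N / P : ℝ) * L ^ k := by gcongr
    _ = (N / P : ℝ) * (L ^ k * L ^ 4) := by ring

end Pool.Agent.H91.TQ
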