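import Pool.Agent.H91.TQ.EqQ
import Pool.Agent.H91.TQ.KapQ
import Pool.Agent.H91.TQ.SwG
import Pool.Agent.H53.MID.HSq

/-!
# TQ SwQ: `bq` with its density `kq` satisfies the hypotheses of the abstract theorems

* `lip_q`: `|kq x| ≤ 3 + log z1 ≤ 4 + L ≤ L²` (`kq_abs`); if `x ≤ N^(3/5)` then `|kq x' - kq x| ≤ 2 (4 + L) ≤ L² ≤ L² N^(3/5)/x`; if `x > N^(3/5)`: `3 z1 ≤ x`, `z z1 ≤ N^(ζ+κ) ≤ N^(59/100) ≤ x` and `kq_lip`
  (`30 (1 + log z1) ≤ L²`, `z1 (z + 1) ≤ N^(3/5)`).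
* `den_q`: `bq_abs_log`, `lip_q`, `eq_q` with `a = 5/8`.
* `sq_q`: `|bq k| ≤ 1 + log k ≤ 1 + 4L` for `1 ≤ k ≤ N^4` (`bq_abs_log`; `|bq 0| ≤ 1`: `om 0 = 0`), `|kq| ≤ 3 + log z1 ≤ 3 + L/3`, and `∑_{k ∈ [u, u+w)} lamR² ≤ w L²/10`-type bound as in `sq_b` (`H76/TP/SwB.lean`; there: `∑ lamR² ≤ w L²`;
  any bound `≤ C w L log L` is known, see `H76/EHB/HRm.lean` `lamR_sq`, `H43/TP/LamSq.lean`): the sum is `≤ 2 w (1 + 4L)² + 2 (3 + L/3)² ∑ lamR² ≤ w L⁴`.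
-/

set_option autoImplicit false

namespace Pool.Agent.H91.TQ

open Finset
open Pool.Agent.H91.PK (ee)
open Pool.Agent.H91.EHA (Lam hR lamR ramS)
open Pool.Agent.H53.MID (Fp Bs SqB)
open Pool.Agent.H76.TP

/-- mean square of `lamR` in a short interval (copy of `HSq_lamR` in `H53/MID/HSq.lean`) -/
theorem SwQ_lamR (R u w : ℕ) (hu : 1 ≤ u) (hw : 0 < w) (hR : R ^ 2 ≤ w) :
    ∑ k ∈ Ico u (u + w), lamR R k ^ 2 ≤ 5 * w * ∑ c ∈ Icc 1 R, 1 / (c.totient : ℝ) := by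
  classical
  set J : Finset (Σ _ : ℕ, ℕ) := (Icc 1 R).sigma (fun r => Pool.Agent.H92.EH.red r) with hJ
  have hsp : ∀ i ∈ J, ∀ j ∈ J, i ≠ j → ∀ k : ℤ,
      (1 : ℝ) / w ≤ |(i.2 : ℝ) / i.1 - (j.2 : ℝ) / j.1 - k| := by
    rintro ⟨r, b⟩ hi ⟨r', b'⟩ hj hne k
    rw [hJ, mem_sigma, mem_Icc] at hi hj
    simp only at hi hj
    refine le_trans ?_ (Pool.Agent.H92.EH.farey_spacing (by omega) (by omega) hi.2 hj.2 ?_ k)
    · apply one_div_le_one_div_of_le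
      · have h1 : (0 : ℝ) < r := by exact_mod_cast hi.1.1
        have h2 : (0 : ℝ) < r' := by exact_mod_cast hj.1.1
        positivity
      · have : r * r' ≤ w := by
          calc r * r' ≤ R * R := Nat.mul_le_mul hi.1.2 hj.1.2
            _ = R ^ 2 := by ring
            _ ≤ w := hR
        exact_mod_cast this
    · rintro ⟨rfl, rfl⟩
      exact hne rfl
  set m : ℕ → ℝ := fun c => ((ArithmeticFunction.moebius c : ℤ) : ℝ) / (c.totient : ℝ) with hm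
  set cf : (Σ _ : ℕ, ℕ) → ℂ := fun j => ((m j.1 : ℝ) : ℂ) *
    Pool.Agent.H92.EH.e (((u : ℝ) - 1) * ((j.2 : ℝ) / j.1)) with hcf
  have hen : ∀ t : ℝ, ‖Pool.Agent.H92.EH.e t‖ = 1 := fun t => by
    rw [Pool.Agent.H76.EHB.HRm_e, Pool.Agent.H91.PK.LSa_norm_ee]
  have h := Pool.Agent.H92.EH.dual_large_sieve J (fun j => (j.2 : ℝ) / j.1) cf w w le_rfl hw hsp
  have himg : Ico u (u + w) = (Icc 1 w).image (fun n => u + n - 1) := by
    ext k
    rw [Finset.mem_Ico, Finset.mem_image]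
    constructor
    · rintro ⟨h3, h4⟩
      exact ⟨k + 1 - u, by rw [Finset.mem_Icc]; omega, by omega⟩
    · rintro ⟨n, hn, rfl⟩
      rw [Finset.mem_Icc] at hn
      omega
  have h1 : ∀ n ∈ Icc 1 w, lamR R (u + n - 1) ^ 2 =
      ‖∑ j ∈ J, cf j * Pool.Agent.H92.EH.e (n * ((j.2 : ℝ) / j.1))‖ ^ 2 := by
    intro n hn
    rw [Finset.mem_Icc] at hn
    have h2 := Pool.Agent.H76.EHB.lamR_eq R (u + n - 1) (by omega)
    have h3 : ∑ j ∈ J, cf j * Pool.Agent.H92.EH.e (n * ((j.2 : ℝ) / j.1)) =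
        ((lamR R (u + n - 1) : ℝ) : ℂ) := by
      rw [h2, hJ, sum_sigma]
      refine sum_congr rfl fun c _ => ?_
      rw [mul_sum]
      refine sum_congr rfl fun b _ => ?_
      have h4 : ((u + n - 1 : ℕ) : ℝ) = ((u : ℝ) - 1) + n := by
        rw [Nat.cast_sub (by omega)]
        push_cast
        ring
      rw [hcf]
      simp only
      rw [Pool.Agent.H76.EHB.HRm_e, Pool.Agent.H76.EHB.HRm_e, mul_assoc,
        ← Pool.Agent.H91.PK.LSa_ee_add, h4, ← add_mul]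
    rw [h3, Complex.norm_real, Real.norm_eq_abs, sq_abs]
  rw [himg, Finset.sum_image (by
    intro a ha b hb hab
    simp only [Finset.coe_Icc, Set.mem_Icc] at ha hb
    simp only at hab
    omega), sum_congr rfl h1]
  refine h.trans (mul_le_mul_of_nonneg_left ?_ (by positivity))
  rw [hJ, sum_sigma]
  refine sum_le_sum fun c hc => ?_
  have h5 : ∀ b ∈ Pool.Agent.H92.EH.red c, ‖cf ⟨c, b⟩‖ ^ 2 = m c ^ 2 := fun b _ => by
    rw [hcf]
    simp only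
    rw [norm_mul, hen, mul_one, Complex.norm_real, Real.norm_eq_abs, sq_abs]
  rw [sum_congr rfl h5, sum_const, Pool.Agent.H92.EH.card_red, nsmul_eq_mul]
  have hc1 : 0 < c := (mem_Icc.mp hc).1
  have ht : (0 : ℝ) < c.totient := by exact_mod_cast Nat.totient_pos.mpr hc1
  have hmu : (((ArithmeticFunction.moebius c : ℤ) : ℝ)) ^ 2 ≤ 1 := by
    have h5 := ArithmeticFunction.abs_moebius_le_one (n := c)
    have h6 : |((ArithmeticFunction.moebius c : ℤ) : ℝ)| ≤ 1 := by exact_mod_cast h5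
    rw [← sq_abs]
    exact pow_le_one₀ (abs_nonneg _) h6
  rw [hm]
  simp only
  rw [div_pow, mul_div_assoc', div_le_div_iff₀ (by positivity) ht]
  nlinarith [mul_pos ht ht]

theorem SwQ_params (e1 : ℝ) (he1 : 0 < e1) : ∃ N0 : ℕ, ∀ N : ℕ, N0 ≤ N →
    3 ≤ yN e1 N ∧ 31 ≤ Real.log N ∧ (2 : ℝ) ≤ (N : ℝ) ^ (1 / 100 : ℝ) ∧ 1 ≤ N := by
  have h1 : ∀ᶠ N : ℕ in Filter.atTop, (3 : ℝ) ≤ (N : ℝ) ^ e1 :=
    ((tendsto_rpow_atTop he1).comp tendsto_natCast_atTop_atTop).eventually_ge_atTop 3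
  have h2 : ∀ᶠ N : ℕ in Filter.atTop, (31 : ℝ) ≤ Real.log N :=
    (Real.tendsto_log_atTop.comp tendsto_natCast_atTop_atTop).eventually_ge_atTop 31
  have h3 : ∀ᶠ N : ℕ in Filter.atTop, (2 : ℝ) ≤ (N : ℝ) ^ (1 / 100 : ℝ) :=
    ((tendsto_rpow_atTop (by norm_num : (0 : ℝ) < 1 / 100)).comp tendsto_natCast_atTop_atTop).eventually_ge_atTop 2
  obtain ⟨N0, h⟩ := Filter.eventually_atTop.1 ((h1.and (h2.and h3)).and (Filter.eventually_ge_atTop 1))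
  refine ⟨N0, fun N hN => ?_⟩
  obtain ⟨⟨g1, g2, g3⟩, g4⟩ := h N hN
  refine ⟨?_, g2, g3, g4⟩
  unfold yN
  exact Nat.le_floor (by exact_mod_cast g1)

theorem SwQ_log (κ : ℝ) (hκ : κ < 2 / 5) (N y J1 : ℕ) (hN : 1 ≤ N) (hy : 3 ≤ y)
    (hz : (zz y J1 : ℝ) ≤ (N : ℝ) ^ κ) : Real.log (zz y J1) ≤ 2 / 5 * Real.log N := by
  have hN0 : (0 : ℝ) < N := by exact_mod_cast hN
  have hL : 0 ≤ Real.log N := Real.log_natCast_nonneg N
  have hz0 : (0 : ℝ) < zz y J1 := by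
    unfold zz
    have : 0 < 2 ^ J1 * y := by positivity
    exact_mod_cast this
  calc Real.log (zz y J1) ≤ Real.log ((N : ℝ) ^ κ) := Real.log_le_log hz0 hz
    _ = κ * Real.log N := Real.log_rpow hN0 κ
    _ ≤ 2 / 5 * Real.log N := mul_le_mul_of_nonneg_right hκ.le hL

theorem lip_q (e1 ζ' ζ κ' κ : ℝ) (hP : Par e1 ζ' ζ κ' κ) : ∃ N0 : ℕ, ∀ N : ℕ, N0 ≤ N → ∀ J J1 : ℕ,
    Lev ζ' ζ κ' κ N (yN e1 N) J J1 →
      (∀ x : ℕ, |kq (yN e1 N) J J1 x| ≤ Real.log N ^ 2) ∧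
      ∀ x x' : ℕ, 1 ≤ x → x ≤ x' → |kq (yN e1 N) J J1 x' - kq (yN e1 N) J J1 x| ≤
        Real.log N ^ 2 * (((x' : ℝ) - x) + (N : ℝ) ^ (3 / 5 : ℝ)) / x := by
  obtain ⟨he1, _, hζ4, hζζ, hζ27, hκ3, hκκ, hκ8⟩ := hP
  obtain ⟨N0, h⟩ := SwQ_params e1 he1
  refine ⟨N0, fun N hN J J1 hLev => ?_⟩
  obtain ⟨hy, hL, h100, hN1⟩ := h N hN
  obtain ⟨hJ, hz1, hz2, hz3, hz4⟩ := hLev
  have hN0 : (0 : ℝ) < N := by exact_mod_cast hN1
  have hN1' : (1 : ℝ) ≤ N := by exact_mod_cast hN1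
  have hlog := SwQ_log κ (by linarith) N (yN e1 N) J1 hN1 hy hz4
  have habs : ∀ x : ℕ, |kq (yN e1 N) J J1 x| ≤ 3 + 2 / 5 * Real.log N := fun x =>
    (kq_abs _ J J1 x hy).trans (by linarith)
  have hL2 : 2 * (3 + 2 / 5 * Real.log N) ≤ Real.log N ^ 2 := by nlinarith
  have hL3 : 30 * (1 + Real.log N) ≤ Real.log N ^ 2 := by nlinarith
  have hLsq : 0 ≤ Real.log N ^ 2 := by positivity
  refine ⟨fun x => (habs x).trans (by nlinarith), fun x x' hx hxx => ?_⟩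
  have hx0 : (0 : ℝ) < x := by exact_mod_cast hx
  have hxx' : (x : ℝ) ≤ x' := by exact_mod_cast hxx
  have h35 : (N : ℝ) ^ (3 / 5 : ℝ) = (N : ℝ) ^ (59 / 100 : ℝ) * (N : ℝ) ^ (1 / 100 : ℝ) := by
    rw [← Real.rpow_add hN0]; norm_num
  have h59 : 0 < (N : ℝ) ^ (59 / 100 : ℝ) := Real.rpow_pos_of_pos hN0 _
  have h2 : 2 * (N : ℝ) ^ (59 / 100 : ℝ) ≤ (N : ℝ) ^ (3 / 5 : ℝ) := by
    rw [h35, mul_comm]
    exact mul_le_mul_of_nonneg_left h100 h59.le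
  by_cases hc : (x : ℝ) ≤ (N : ℝ) ^ (3 / 5 : ℝ)
  · have h3 : |kq (yN e1 N) J J1 x' - kq (yN e1 N) J J1 x| ≤ Real.log N ^ 2 := by
      refine (abs_sub _ _).trans ?_
      have := habs x
      have := habs x'
      linarith
    refine h3.trans ?_
    rw [le_div_iff₀ hx0]
    exact mul_le_mul_of_nonneg_left (by linarith) hLsq
  · have hc' : (N : ℝ) ^ (3 / 5 : ℝ) < x := not_le.1 hc
    have hκ59 : (N : ℝ) ^ κ ≤ (N : ℝ) ^ (58 / 100 : ℝ) :=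
      Real.rpow_le_rpow_of_exponent_le hN1' (by linarith)
    have h5859 : (N : ℝ) ^ (58 / 100 : ℝ) * (N : ℝ) ^ (1 / 100 : ℝ) = (N : ℝ) ^ (59 / 100 : ℝ) := by
      rw [← Real.rpow_add hN0]; norm_num
    have h58 : 0 < (N : ℝ) ^ (58 / 100 : ℝ) := Real.rpow_pos_of_pos hN0 _
    have h58' : 2 * (N : ℝ) ^ (58 / 100 : ℝ) ≤ (N : ℝ) ^ (59 / 100 : ℝ) := by
      rw [← h5859, mul_comm]
      exact mul_le_mul_of_nonneg_left h100 h58.le
    have hz1' : (zz (yN e1 N) J1 : ℝ) ≤ (N : ℝ) ^ (58 / 100 : ℝ) := hz4.trans hκ59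
    have hzz : (zz (yN e1 N) J : ℝ) * zz (yN e1 N) J1 ≤ (N : ℝ) ^ (59 / 100 : ℝ) := by
      calc (zz (yN e1 N) J : ℝ) * zz (yN e1 N) J1 ≤ (N : ℝ) ^ ζ * (N : ℝ) ^ κ :=
            mul_le_mul hz2 hz4 (by positivity) (by positivity)
        _ = (N : ℝ) ^ (ζ + κ) := by rw [← Real.rpow_add hN0]
        _ ≤ (N : ℝ) ^ (59 / 100 : ℝ) := Real.rpow_le_rpow_of_exponent_le hN1' (by linarith)
    have g1 : 3 * zz (yN e1 N) J1 ≤ x := by
      have : (3 : ℝ) * zz (yN e1 N) J1 ≤ x := by linarith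
      exact_mod_cast this
    have g2 : zz (yN e1 N) J * zz (yN e1 N) J1 ≤ x := by
      have : (zz (yN e1 N) J : ℝ) * zz (yN e1 N) J1 ≤ x := by linarith
      exact_mod_cast this
    have h3 := kq_lip (yN e1 N) J J1 x x' (by omega) hJ g1 g2 hxx
    refine h3.trans ?_
    rw [div_le_div_iff_of_pos_right hx0]
    have hz0 : (0 : ℝ) ≤ zz (yN e1 N) J1 := Nat.cast_nonneg _
    have h4 : (zz (yN e1 N) J1 : ℝ) * (zz (yN e1 N) J + 1) ≤ (N : ℝ) ^ (3 / 5 : ℝ) := by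
      have : (zz (yN e1 N) J1 : ℝ) * (zz (yN e1 N) J + 1) =
          (zz (yN e1 N) J : ℝ) * zz (yN e1 N) J1 + zz (yN e1 N) J1 := by ring
      rw [this]
      linarith
    have h5 : 30 * (1 + Real.log (zz (yN e1 N) J1)) ≤ Real.log N ^ 2 := by
      have : Real.log (zz (yN e1 N) J1) ≤ Real.log N := by linarith
      linarith
    have h6 : 0 ≤ ((x' : ℝ) - x) + zz (yN e1 N) J1 * (zz (yN e1 N) J + 1) := by
      have : 0 ≤ (zz (yN e1 N) J1 : ℝ) * (zz (yN e1 N) J + 1) := by positivity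
      linarith
    exact mul_le_mul h5 (by linarith) h6 hLsq

theorem den_q (e1 ζ' ζ κ' κ : ℝ) (hP : Par e1 ζ' ζ κ' κ) (A B K : ℕ) : ∃ N0 : ℕ, ∀ N : ℕ, N0 ≤ N → ∀ J J1 : ℕ,
    Lev ζ' ζ κ' κ N (yN e1 N) J J1 →
      DenH N (5 / 8) (3 / 5) A B K (bq (yN e1 N) J J1) (kq (yN e1 N) J J1) := by
  obtain ⟨N1, h1⟩ := lip_q e1 ζ' ζ κ' κ hP
  obtain ⟨he1, he2, hζ4, hζζ, hζ27, hκ3, hκκ, hκ8⟩ := hP
  obtain ⟨N2, h2⟩ := SwQ_params e1 he1
  obtain ⟨N3, h3⟩ := eq_q e1 ζ κ (5 / 8) he1 (by linarith) (by linarith) (by linarith) (by norm_num) A B K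
  refine ⟨max N1 (max N2 N3), fun N hN J J1 hLev => ?_⟩
  obtain ⟨hlip1, hlip2⟩ := h1 N (le_trans (le_max_left _ _) hN) J J1 hLev
  obtain ⟨hy, hL, h100, hN1⟩ := h2 N (le_trans ((le_max_left _ _).trans (le_max_right _ _)) hN)
  have hN3 : N3 ≤ N := le_trans ((le_max_right _ _).trans (le_max_right _ _)) hN
  have hN0 : (0 : ℝ) < N := by exact_mod_cast hN1
  have hN1' : (1 : ℝ) ≤ N := by exact_mod_cast hN1
  refine ⟨fun n hn hn2 => ?_, fun x _ _ => hlip1 x, fun x x' hx hxx _ => hlip2 x x' ?_ hxx, ?_⟩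
  · refine (bq_abs_log _ J J1 n hn).trans ?_
    have h4 : Real.log n ≤ Real.log (2 * (N : ℝ) ^ 2) :=
      Real.log_le_log (by exact_mod_cast hn) (by exact_mod_cast hn2)
    have h5 : Real.log (2 * (N : ℝ) ^ 2) = Real.log 2 + 2 * Real.log N := by
      rw [Real.log_mul (by norm_num) (by positivity), Real.log_pow]
      push_cast
      ring
    have h6 : Real.log 2 ≤ 1 := by linarith [Real.log_two_lt_d9]
    nlinarith
  · have h4 : (1 : ℝ) ≤ x := le_trans (Real.one_le_rpow hN1' (by norm_num)) hx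
    exact_mod_cast h4
  · intro x l c b hx hx2 hl1 hl2 hc1 hc2
    exact h3 N hN3 J J1 x l c b hLev.1 hLev.2.2.1 hLev.2.2.2.2 hx hx2 hl1 hl2 hc1 hc2

theorem sq_q (e1 ζ' ζ κ' κ : ℝ) (hP : Par e1 ζ' ζ κ' κ) (B : ℕ) : ∃ N0 : ℕ, ∀ N : ℕ, N0 ≤ N → ∀ J J1 R : ℕ,
    Lev ζ' ζ κ' κ N (yN e1 N) J J1 → 1 ≤ R → (R : ℝ) ≤ Real.log N ^ B →
      SqB (fun k => bq (yN e1 N) J J1 k - kq (yN e1 N) J J1 k * lamR R k) (R ^ 4 + 2) (N ^ 4) (Real.log N) := by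
  obtain ⟨he1, he2, hζ4, hζζ, hζ27, hκ3, hκκ, hκ8⟩ := hP
  obtain ⟨N2, h2⟩ := SwQ_params e1 he1
  have hbig : ∀ᶠ N : ℕ in Filter.atTop, 5 * (2 * (B : ℝ) * Real.log (Real.log N) + 1) ^ 2 ≤ Real.log N := by
    have h3 : Filter.Tendsto (fun u : ℝ => 5 * (2 * (B : ℝ) * Real.log u + 1) ^ 2 / u) Filter.atTop (nhds 0) := by
      have g1 : Filter.Tendsto (fun u : ℝ => Real.log u / u) Filter.atTop (nhds 0) := by
        have := Real.tendsto_pow_log_div_mul_add_atTop 1 0 1 one_ne_zero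
        simpa using this
      have g2 : Filter.Tendsto (fun u : ℝ => Real.log u ^ 2 / u) Filter.atTop (nhds 0) := by
        have := Real.tendsto_pow_log_div_mul_add_atTop 1 0 2 one_ne_zero
        simpa using this
      have g3 : Filter.Tendsto (fun u : ℝ => 1 / u) Filter.atTop (nhds 0) := by
        simpa using tendsto_inv_atTop_zero (𝕜 := ℝ)
      have g4 := ((g2.const_mul (20 * (B : ℝ) ^ 2)).add (g1.const_mul (20 * (B : ℝ)))).add (g3.const_mul 5)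
      rw [mul_zero, mul_zero, mul_zero, add_zero, add_zero] at g4
      refine g4.congr fun u => ?_
      ring
    have h4 := h3.eventually (gt_mem_nhds (show (0 : ℝ) < 1 by norm_num))
    have h5 := (Real.tendsto_log_atTop.comp tendsto_natCast_atTop_atTop).eventually
      (h4.and (Filter.eventually_gt_atTop 0))
    filter_upwards [h5] with N hN
    obtain ⟨h6, h7⟩ := hN
    simp only [Function.comp_apply] at h6 h7
    have := (div_lt_one h7).1 h6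
    exact this.le
  obtain ⟨N3, h3⟩ := Filter.eventually_atTop.1 hbig
  refine ⟨max N2 (max N3 3), fun N hN J J1 R hLev hR1 hRB => ?_⟩
  obtain ⟨hy, hL, h100, hN1⟩ := h2 N (le_trans (le_max_left _ _) hN)
  have hN3 := h3 N (le_trans ((le_max_left _ _).trans (le_max_right _ _)) hN)
  obtain ⟨hJ, hz1, hz2, hz3, hz4⟩ := hLev
  have hlog := SwQ_log κ (by linarith) N (yN e1 N) J1 hN1 hy hz4
  intro u w hw huw
  set L := Real.log N with hLdef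
  have hL0 : 0 < L := by linarith
  have hR4 : R ^ 2 ≤ R ^ 4 := Nat.pow_le_pow_right hR1 (by norm_num)
  have hkq : ∀ x : ℕ, kq (yN e1 N) J J1 x ^ 2 ≤ (3 + 2 / 5 * L) ^ 2 := fun x => by
    rw [← sq_abs]
    exact pow_le_pow_left₀ (abs_nonneg _) ((kq_abs _ J J1 x hy).trans (by linarith)) 2
  have hbq : ∀ k : ℕ, k < N ^ 4 → bq (yN e1 N) J J1 k ^ 2 ≤ (1 + 4 * L) ^ 2 := by
    intro k hk
    rw [← sq_abs]
    refine pow_le_pow_left₀ (abs_nonneg _) ?_ 2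
    rcases Nat.eq_zero_or_pos k with rfl | hk0
    · have h4 : om (yN e1 N) J J1 0 ≤ 4 := by
        unfold om
        simp
      exact (bq_abs _ J J1 0 h4).trans (by linarith)
    · refine (bq_abs_log _ J J1 k hk0).trans ?_
      have h4 : Real.log k ≤ Real.log ((N : ℝ) ^ 4) :=
        Real.log_le_log (by exact_mod_cast hk0) (by exact_mod_cast hk.le)
      rw [Real.log_pow] at h4
      push_cast at h4
      linarith
  have hlamI : ∀ u w : ℕ, 1 ≤ u → R ^ 4 + 1 ≤ w →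
      ∑ k ∈ Ico u (u + w), lamR R k ^ 2 ≤ w * L := by
    intro u w hu hw
    have hRw : R ^ 2 ≤ w := by omega
    refine (SwQ_lamR R u w hu (by omega) hRw).trans ?_
    have h4 := Pool.Agent.H76.EHB.HRm_tot (R ^ 2) R hR1 le_rfl
    have hR0 : (1 : ℝ) ≤ R := by exact_mod_cast hR1
    have h5 : Real.log ((R ^ 2 : ℕ) : ℝ) = 2 * Real.log R := by
      push_cast
      rw [Real.log_pow]
      push_cast
      ring
    have h6 : Real.log R ≤ B * Real.log L := by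
      calc Real.log R ≤ Real.log (L ^ B) := Real.log_le_log (by linarith) hRB
        _ = B * Real.log L := Real.log_pow _ _
    have h7 : 0 ≤ Real.log R := Real.log_natCast_nonneg R
    rw [h5] at h4
    have h8 : (2 * Real.log R + 1) * (1 + 2 * Real.log R) ≤ (2 * (B : ℝ) * Real.log L + 1) ^ 2 := by
      have : (2 * Real.log R + 1) * (1 + 2 * Real.log R) = (2 * Real.log R + 1) ^ 2 := by ring
      rw [this]
      exact pow_le_pow_left₀ (by linarith) (by linarith) 2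
    have hw0 : (0 : ℝ) ≤ w := Nat.cast_nonneg w
    calc 5 * (w : ℝ) * ∑ c ∈ Icc 1 R, 1 / (c.totient : ℝ) = w * (5 * ∑ c ∈ Icc 1 R, 1 / (c.totient : ℝ)) := by ring
      _ ≤ w * L := by
        refine mul_le_mul_of_nonneg_left ?_ hw0
        linarith
  have hmain : ∀ u w : ℕ, 1 ≤ u → R ^ 4 + 1 ≤ w → u + w ≤ N ^ 4 →
      ∑ k ∈ Ico u (u + w), (bq (yN e1 N) J J1 k - kq (yN e1 N) J J1 k * lamR R k) ^ 2 ≤
        w * (2 * (1 + 4 * L) ^ 2 + 2 * (3 + 2 / 5 * L) ^ 2 * L) := by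
    intro u w hu hw huw
    have h4 : ∀ k ∈ Ico u (u + w), (bq (yN e1 N) J J1 k - kq (yN e1 N) J J1 k * lamR R k) ^ 2 ≤
        2 * (1 + 4 * L) ^ 2 + 2 * (3 + 2 / 5 * L) ^ 2 * lamR R k ^ 2 := by
      intro k hk
      rw [Finset.mem_Ico] at hk
      have g1 := hbq k (by omega)
      have g2 := hkq k
      have g3 : (bq (yN e1 N) J J1 k - kq (yN e1 N) J J1 k * lamR R k) ^ 2 ≤
          2 * bq (yN e1 N) J J1 k ^ 2 + 2 * (kq (yN e1 N) J J1 k ^ 2 * lamR R k ^ 2) := by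
        nlinarith [sq_nonneg (bq (yN e1 N) J J1 k + kq (yN e1 N) J J1 k * lamR R k)]
      have g4 : kq (yN e1 N) J J1 k ^ 2 * lamR R k ^ 2 ≤ (3 + 2 / 5 * L) ^ 2 * lamR R k ^ 2 :=
        mul_le_mul_of_nonneg_right g2 (sq_nonneg _)
      linarith
    refine (Finset.sum_le_sum h4).trans ?_
    rw [Finset.sum_add_distrib, Finset.sum_const, Nat.card_Ico, nsmul_eq_mul, Nat.add_sub_cancel_left,
      ← Finset.mul_sum]
    have h5 := hlamI u w hu hw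
    have h6 : 2 * (3 + 2 / 5 * L) ^ 2 * ∑ k ∈ Ico u (u + w), lamR R k ^ 2 ≤
        2 * (3 + 2 / 5 * L) ^ 2 * (w * L) := mul_le_mul_of_nonneg_left h5 (by positivity)
    calc (w : ℝ) * (2 * (1 + 4 * L) ^ 2) + 2 * (3 + 2 / 5 * L) ^ 2 * ∑ k ∈ Ico u (u + w), lamR R k ^ 2
        ≤ (w : ℝ) * (2 * (1 + 4 * L) ^ 2) + 2 * (3 + 2 / 5 * L) ^ 2 * (w * L) := by linarith
      _ = _ := by ring
  have hfin : 2 * (1 + 4 * L) ^ 2 + 2 * (3 + 2 / 5 * L) ^ 2 * L + 2 ≤ L ^ 4 := by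
    have g1 : (1 + 4 * L) ^ 2 ≤ 17 * L ^ 2 := by nlinarith
    have g2 : (3 + 2 / 5 * L) ^ 2 ≤ L ^ 2 := by nlinarith
    have g3 : (3 + 2 / 5 * L) ^ 2 * L ≤ L ^ 2 * L := mul_le_mul_of_nonneg_right g2 hL0.le
    have g4 : 34 * L ^ 2 ≤ 2 * L ^ 2 * L := by nlinarith [sq_nonneg L, pow_pos hL0 2]
    have g5 : (2 : ℝ) ≤ L ^ 2 * L := by nlinarith [pow_pos hL0 2]
    have g6 : 5 * (L ^ 2 * L) ≤ L ^ 4 := by
      have : L ^ 4 = L * (L ^ 2 * L) := by ring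
      rw [this]
      exact mul_le_mul_of_nonneg_right (by linarith) (by positivity)
    linarith
  have hw0 : (0 : ℝ) ≤ w := Nat.cast_nonneg w
  rcases Nat.eq_zero_or_pos u with rfl | hu
  · have h1 := hmain 1 (w - 1) le_rfl (by omega) (by omega)
    rw [show 1 + (w - 1) = 0 + w by omega] at h1
    rw [Finset.sum_eq_sum_Ico_succ_bot (by omega)]
    have hz : (bq (yN e1 N) J J1 0 - kq (yN e1 N) J J1 0 * lamR R 0) ^ 2 ≤ w * 2 := by
      have hkq0 : kq (yN e1 N) J J1 0 = 0 := by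
        unfold kq kap
        simp
      rw [hkq0, zero_mul, sub_zero]
      have h4 : om (yN e1 N) J J1 0 ≤ 4 := by
        unfold om
        simp
      have h5 := bq_abs (yN e1 N) J J1 0 h4
      have h6 : bq (yN e1 N) J J1 0 ^ 2 ≤ 1 := by
        rw [← sq_abs]
        exact pow_le_one₀ (abs_nonneg _) h5
      have h7 : (1 : ℝ) ≤ w := by
        have : 1 ≤ w := by omega
        exact_mod_cast this
      linarith
    have h3 : ((w - 1 : ℕ) : ℝ) ≤ w := by exact_mod_cast Nat.sub_le w 1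
    have h8 : 0 ≤ 2 * (1 + 4 * L) ^ 2 + 2 * (3 + 2 / 5 * L) ^ 2 * L := by positivity
    calc (bq (yN e1 N) J J1 0 - kq (yN e1 N) J J1 0 * lamR R 0) ^ 2 +
        ∑ k ∈ Ico (0 + 1) (0 + w), (bq (yN e1 N) J J1 k - kq (yN e1 N) J J1 k * lamR R k) ^ 2
        ≤ w * 2 + w * (2 * (1 + 4 * L) ^ 2 + 2 * (3 + 2 / 5 * L) ^ 2 * L) :=
          add_le_add hz (h1.trans (mul_le_mul_of_nonneg_right h3 h8))
      _ = w * (2 * (1 + 4 * L) ^ 2 + 2 * (3 + 2 / 5 * L) ^ 2 * L + 2) := by ring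
      _ ≤ w * L ^ 4 := mul_le_mul_of_nonneg_left hfin hw0
  · refine (hmain u w hu (by omega) huw).trans (mul_le_mul_of_nonneg_left ?_ hw0)
    linarith

end Pool.Agent.H91.TQ
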