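import Pool.Agent.H43.TP.Defs
import Pool.Agent.H43.TP.LamSq
import Pool.Agent.H53.MID.Defs

/-!
# TQ TpinA: `TPIN` from a majorant with a smooth density (abstract conversion)

Given the hypothesis with exponent `A + 3` (and `C`): `F`, `k`.  `H = Hn θ N = ⌊N^θ⌋`, `R = Rn B N = ⌊L^B⌋`, `idx N H = Icc (N/(2H)) (3N/H) ⊆ Icc (N/(2H)) (4N/H)`, `κ i = max 0 (k (iH))`.  For `i ∈ idx`: `N/4 ≤ iH`, `(i+1) H ≤ 4N`.
* `κ i ≤ (2-c)/L` (`c ≤ 2`), `|κ i - κ(i+1)| ≤ |k(iH) - k((i+1)H)| ≤ 1/L^A` (`H ≤ N^(1/2)`).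
* Let `i ∈ idx` be a good block: `‖Bs (F - k(iH) lamR) H i α‖ ≤ H/L^(A+3)` for all `α` (`Bs g H i α = ∑_{m ∈ blk H i} g m ee(-(m α))`).  If `k(iH) ≥ 0` we are done.  If `k(iH) < 0`: `α = 0`: `∑_{blk} F ≥ 0` and
  `∑_{m ∈ blk} lamR R m ≥ H/2` (`lamR R m = ∑_{q ≤ R} μ(q)/φ(q) ∑*_b ee(mb/q)`: the term `q = 1` is `H`, the others are `≤ R^4` in total; existing: see `Pool.Agent.H43.TP`, `H76/EHB/HRm.lean`, `tyI_bs` in `H76/TP/TyI.lean`), so
  `|k(iH)| H/2 ≤ H/L^(A+3)`, `|k(iH)| ≤ 2/L^(A+3)`, and `‖Bs (F - 0 lamR)‖ ≤ H/L^(A+3) + |k(iH)| ∑_{blk} |lamR R m| ≤ H/L^(A+3) + (2/L^(A+3)) H L ≤ H/L^A` (`∑_{blk} |lamR| ≤ √(H ∑ lamR²) ≤ H L`, `H43/TP/LamSq.lean` (landed), or `lamR_sq`).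
So `badF ⊆` the bad set of the hypothesis.
-/

set_option autoImplicit false

namespace Pool.Agent.H91.TQ

open Finset
open Pool.Agent.H91.PK (ee)
open Pool.Agent.H91.EHA (Lam hR lamR ramS)
open Pool.Agent.H53.MID (Bs)
open Pool.Agent.H43.TP (TPIN)

/-! ### the mean of `lamR` over an interval -/

private theorem TpinA_card (a b d : ℕ) (hab : a ≤ b) (hd : 1 ≤ d) :
    |(((Ico a b).filter (fun m => d ∣ m)).card : ℝ) - ((b : ℝ) - a) / d| ≤ 1 := by
  have hd0 : (0 : ℝ) < d := by exact_mod_cast hd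
  have key : ∀ n : ℕ, (((Ico 0 n).filter (fun m => d ∣ m)).card : ℝ) = ⌈((n : ℝ) / d)⌉₊ := by
    intro n
    induction n with
    | zero => simp
    | succ n ih =>
      have h1 : Ico 0 (n + 1) = insert n (Ico 0 n) := by
        ext m
        simp only [mem_Ico, mem_insert]
        omega
      have hn : n ∉ (Ico 0 n).filter (fun m => d ∣ m) := by
        rw [mem_filter, mem_Ico]
        omega
      rw [h1, filter_insert]
      obtain ⟨q, r, hq, hr⟩ : ∃ q r : ℕ, n = d * q + r ∧ r < d :=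
        ⟨n / d, n % d, (Nat.div_add_mod n d).symm, Nat.mod_lt n hd⟩
      have hqc : (n : ℝ) = d * q + r := by exact_mod_cast hq
      have hrc : (r : ℝ) + 1 ≤ d := by exact_mod_cast hr
      have hr0 : (0 : ℝ) ≤ r := Nat.cast_nonneg r
      by_cases hdn : d ∣ n
      · rw [if_pos hdn, card_insert_of_notMem hn]
        push_cast
        rw [ih]
        have hr' : r = 0 := by
          rw [hq] at hdn
          have h2 : d ∣ r := (Nat.dvd_add_right (dvd_mul_right d q)).1 hdn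
          exact Nat.eq_zero_of_dvd_of_lt h2 hr
        have e1 : ⌈(n : ℝ) / d⌉₊ = q := by
          have h2 : (n : ℝ) / d = (q : ℕ) := by
            rw [hqc, hr']
            field_simp
            push_cast
            ring
          rw [h2, Nat.ceil_natCast]
        have e2 : ⌈((n : ℝ) + 1) / d⌉₊ = q + 1 := by
          rw [Nat.ceil_eq_iff (by omega)]
          constructor
          · rw [lt_div_iff₀ hd0]
            push_cast
            rw [hqc]
            nlinarith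
          · rw [div_le_iff₀ hd0, hqc, hr']
            push_cast
            have h3 : (1 : ℝ) ≤ d := by exact_mod_cast hd
            nlinarith
        rw [e1, e2]
        push_cast
        ring
      · rw [if_neg hdn, ih]
        push_cast
        have hr' : 1 ≤ r := by
          rcases Nat.eq_zero_or_pos r with h2 | h2
          · exfalso
            apply hdn
            rw [hq, h2, add_zero]
            exact dvd_mul_right d q
          · exact h2
        have hr1 : (1 : ℝ) ≤ r := by exact_mod_cast hr'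
        have e1 : ⌈(n : ℝ) / d⌉₊ = q + 1 := by
          rw [Nat.ceil_eq_iff (by omega)]
          constructor
          · rw [lt_div_iff₀ hd0]
            push_cast
            rw [hqc]
            nlinarith
          · rw [div_le_iff₀ hd0, hqc]
            push_cast
            nlinarith
        have e2 : ⌈((n : ℝ) + 1) / d⌉₊ = q + 1 := by
          rw [Nat.ceil_eq_iff (by omega)]
          constructor
          · rw [lt_div_iff₀ hd0]
            push_cast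
            rw [hqc]
            nlinarith
          · rw [div_le_iff₀ hd0, hqc]
            push_cast
            nlinarith
        rw [e1, e2]
  have hsub : (Ico a b).filter (fun m => d ∣ m) =
      (Ico 0 b).filter (fun m => d ∣ m) \ (Ico 0 a).filter (fun m => d ∣ m) := by
    ext m
    simp only [mem_filter, mem_Ico, mem_sdiff]
    constructor
    · rintro ⟨⟨h1, h2⟩, h3⟩
      exact ⟨⟨⟨Nat.zero_le _, h2⟩, h3⟩, fun h4 => by omega⟩
    · rintro ⟨⟨⟨_, h2⟩, h3⟩, h4⟩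
      refine ⟨⟨?_, h2⟩, h3⟩
      by_contra h5
      exact h4 ⟨⟨Nat.zero_le _, not_le.1 h5⟩, h3⟩
  have hss : (Ico 0 a).filter (fun m => d ∣ m) ⊆ (Ico 0 b).filter (fun m => d ∣ m) := by
    intro m hm
    rw [mem_filter, mem_Ico] at hm ⊢
    exact ⟨⟨Nat.zero_le _, hm.1.2.trans_le hab⟩, hm.2⟩
  have hcard : (((Ico a b).filter (fun m => d ∣ m)).card : ℝ) = (⌈((b : ℝ) / d)⌉₊ : ℝ) - ⌈((a : ℝ) / d)⌉₊ := by
    rw [← key b, ← key a, hsub, card_sdiff_of_subset hss, Nat.cast_sub (card_le_card hss)]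
  have u1 := Nat.le_ceil ((b : ℝ) / d)
  have u2 := Nat.ceil_lt_add_one (show 0 ≤ (b : ℝ) / d by positivity)
  have v1 := Nat.le_ceil ((a : ℝ) / d)
  have v2 := Nat.ceil_lt_add_one (show 0 ≤ (a : ℝ) / d by positivity)
  rw [hcard, sub_div, abs_le]
  constructor <;> linarith

private theorem TpinA_ramS (a b c : ℕ) (hab : a ≤ b) (hc : 1 ≤ c) :
    |∑ m ∈ Ico a b, ramS c m - (if c = 1 then ((b : ℝ) - a) else 0)| ≤ (c : ℝ) ^ 2 := by
  have hc0 : c ≠ 0 := by omega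
  have h1 : ∀ m : ℕ, ramS c m = ∑ d ∈ c.divisors,
      (if d ∣ m then (d : ℝ) * (ArithmeticFunction.moebius (c / d) : ℝ) else 0) := by
    intro m
    unfold Pool.Agent.H91.EHA.ramS
    rw [← sum_filter]
    refine sum_congr ?_ fun _ _ => rfl
    ext d
    rw [mem_filter, Nat.mem_divisors, Nat.mem_divisors, Nat.dvd_gcd_iff]
    constructor
    · rintro ⟨⟨h2, h3⟩, _⟩
      exact ⟨⟨h2, hc0⟩, h3⟩
    · rintro ⟨⟨h2, _⟩, h3⟩
      exact ⟨⟨h2, h3⟩, Nat.gcd_ne_zero_left hc0⟩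
  have h2 : ∑ m ∈ Ico a b, ramS c m = ∑ d ∈ c.divisors,
      (d : ℝ) * (ArithmeticFunction.moebius (c / d) : ℝ) * (((Ico a b).filter (fun m => d ∣ m)).card : ℝ) := by
    rw [sum_congr rfl fun m _ => h1 m, sum_comm]
    refine sum_congr rfl fun d _ => ?_
    rw [← sum_filter, sum_const, nsmul_eq_mul]
    ring
  have h3 : (if c = 1 then ((b : ℝ) - a) else 0) = ∑ d ∈ c.divisors,
      (d : ℝ) * (ArithmeticFunction.moebius (c / d) : ℝ) * (((b : ℝ) - a) / d) := by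
    have e1 : ∀ d ∈ c.divisors, (d : ℝ) * (ArithmeticFunction.moebius (c / d) : ℝ) * (((b : ℝ) - a) / d) =
        ((b : ℝ) - a) * (ArithmeticFunction.moebius (c / d) : ℝ) := by
      intro d hd
      have hd0 : (d : ℝ) ≠ 0 := by
        exact_mod_cast (Nat.pos_of_mem_divisors hd).ne'
      field_simp
    rw [sum_congr rfl e1, ← mul_sum, Nat.sum_div_divisors c (fun d => (ArithmeticFunction.moebius d : ℝ))]
    have e2 : (∑ d ∈ c.divisors, ArithmeticFunction.moebius d) = if c = 1 then (1 : ℤ) else 0 := by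
      have := ArithmeticFunction.coe_mul_zeta_apply (f := ArithmeticFunction.moebius) (x := c)
      rw [← this, ArithmeticFunction.moebius_mul_coe_zeta, ArithmeticFunction.one_apply]
    have e3 : (∑ d ∈ c.divisors, (ArithmeticFunction.moebius d : ℝ)) = if c = 1 then (1 : ℝ) else 0 := by
      have := congrArg (fun z : ℤ => (z : ℝ)) e2
      push_cast at this
      exact this
    rw [e3]
    split_ifs <;> simp
  rw [h2, h3, ← sum_sub_distrib]
  have h4 : ∀ d ∈ c.divisors, |(d : ℝ) * (ArithmeticFunction.moebius (c / d) : ℝ) *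
      (((Ico a b).filter (fun m => d ∣ m)).card : ℝ) -
      (d : ℝ) * (ArithmeticFunction.moebius (c / d) : ℝ) * (((b : ℝ) - a) / d)| ≤ c := by
    intro d hd
    have hd1 : 1 ≤ d := Nat.pos_of_mem_divisors hd
    have hdc : (d : ℝ) ≤ c := by exact_mod_cast Nat.divisor_le hd
    rw [← mul_sub, abs_mul, abs_mul]
    have h5 : |(ArithmeticFunction.moebius (c / d) : ℝ)| ≤ 1 := by
      have := ArithmeticFunction.abs_moebius_le_one (n := c / d)
      exact_mod_cast this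
    have h6 := TpinA_card a b d hab hd1
    have h7 : |(d : ℝ)| = d := abs_of_nonneg (Nat.cast_nonneg d)
    rw [h7]
    calc (d : ℝ) * |(ArithmeticFunction.moebius (c / d) : ℝ)| *
          |(((Ico a b).filter (fun m => d ∣ m)).card : ℝ) - ((b : ℝ) - a) / d|
        ≤ (d : ℝ) * 1 * 1 := by
          refine mul_le_mul (mul_le_mul_of_nonneg_left h5 (Nat.cast_nonneg d)) h6 (abs_nonneg _) ?_
          positivity
      _ ≤ c := by rw [mul_one, mul_one]; exact hdc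
  refine (abs_sum_le_sum_abs _ _).trans ((sum_le_sum h4).trans ?_)
  rw [sum_const, nsmul_eq_mul, sq]
  refine mul_le_mul_of_nonneg_right ?_ (Nat.cast_nonneg c)
  have h8 : c.divisors.card ≤ c := by
    calc c.divisors.card ≤ (Icc 1 c).card := card_le_card fun d hd => by
          rw [mem_Icc]
          exact ⟨Nat.pos_of_mem_divisors hd, Nat.divisor_le hd⟩
      _ = c := by rw [Nat.card_Icc]; omega
  exact_mod_cast h8

private theorem TpinA_mean (a b R : ℕ) (hab : a ≤ b) (hR : 1 ≤ R) :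
    ((b : ℝ) - a) - (R : ℝ) ^ 3 ≤ ∑ m ∈ Ico a b, lamR R m := by
  have h1 : ∑ m ∈ Ico a b, lamR R m = ∑ c ∈ Icc 1 R,
      (ArithmeticFunction.moebius c : ℝ) / (c.totient : ℝ) * ∑ m ∈ Ico a b, ramS c m := by
    unfold Pool.Agent.H91.EHA.lamR
    rw [sum_comm]
    refine sum_congr rfl fun c _ => ?_
    rw [mul_sum]
  have h2 : ((b : ℝ) - a) = ∑ c ∈ Icc 1 R,
      (ArithmeticFunction.moebius c : ℝ) / (c.totient : ℝ) * (if c = 1 then ((b : ℝ) - a) else 0) := by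
    rw [sum_eq_single 1]
    · simp
    · intro c _ hc
      rw [if_neg hc, mul_zero]
    · intro h
      exfalso
      apply h
      rw [mem_Icc]
      exact ⟨le_rfl, hR⟩
  have h3 : |∑ m ∈ Ico a b, lamR R m - ((b : ℝ) - a)| ≤ (R : ℝ) ^ 3 := by
    rw [h1]
    have h2' : (∑ c ∈ Icc 1 R,
        (ArithmeticFunction.moebius c : ℝ) / (c.totient : ℝ) * ∑ m ∈ Ico a b, ramS c m) - ((b : ℝ) - a) =
        ∑ c ∈ Icc 1 R, ((ArithmeticFunction.moebius c : ℝ) / (c.totient : ℝ) * ∑ m ∈ Ico a b, ramS c m -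
        (ArithmeticFunction.moebius c : ℝ) / (c.totient : ℝ) * (if c = 1 then ((b : ℝ) - a) else 0)) := by
      rw [sum_sub_distrib, ← h2]
    rw [h2']
    have h4 : ∀ c ∈ Icc 1 R, |(ArithmeticFunction.moebius c : ℝ) / (c.totient : ℝ) * ∑ m ∈ Ico a b, ramS c m -
        (ArithmeticFunction.moebius c : ℝ) / (c.totient : ℝ) * (if c = 1 then ((b : ℝ) - a) else 0)| ≤ (R : ℝ) ^ 2 := by
      intro c hc
      rw [mem_Icc] at hc
      rw [← mul_sub, abs_mul]
      have h5 : |(ArithmeticFunction.moebius c : ℝ) / (c.totient : ℝ)| ≤ 1 := by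
        rw [abs_div]
        have h6 : |(ArithmeticFunction.moebius c : ℝ)| ≤ 1 := by
          have := ArithmeticFunction.abs_moebius_le_one (n := c)
          exact_mod_cast this
        have h7 : (1 : ℝ) ≤ |(c.totient : ℝ)| := by
          rw [abs_of_nonneg (Nat.cast_nonneg _)]
          exact_mod_cast Nat.totient_pos.2 (by omega)
        rw [div_le_one (by linarith)]
        linarith
      have h8 := TpinA_ramS a b c hab hc.1
      have h9 : (c : ℝ) ^ 2 ≤ (R : ℝ) ^ 2 := by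
        have : (c : ℝ) ≤ R := by exact_mod_cast hc.2
        exact pow_le_pow_left₀ (Nat.cast_nonneg c) this 2
      calc _ ≤ 1 * (c : ℝ) ^ 2 := mul_le_mul h5 h8 (abs_nonneg _) zero_le_one
        _ ≤ (R : ℝ) ^ 2 := by rw [one_mul]; exact h9
    refine (abs_sum_le_sum_abs _ _).trans ((sum_le_sum h4).trans ?_)
    rw [sum_const, Nat.card_Icc, nsmul_eq_mul]
    apply le_of_eq
    push_cast [show R + 1 - 1 = R by omega]
    ring
  have := (abs_le.1 h3).1
  linarith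

/-! ### large `N` -/

private theorem TpinA_ev (θ : ℝ) (hθ : 1 / 8 < θ) (hθ2 : θ < 1 / 2) (B : ℕ) :
    ∀ᶠ N : ℕ in Filter.atTop, 2 ≤ Real.log N ∧ 1 ≤ ⌊(N : ℝ) ^ θ⌋₊ ∧ 4 * ⌊(N : ℝ) ^ θ⌋₊ ≤ N ∧
      (⌊(N : ℝ) ^ θ⌋₊ : ℝ) ≤ (N : ℝ) ^ (1 / 2 : ℝ) ∧ (N : ℝ) ^ (1 / 8 : ℝ) ≤ ⌊(N : ℝ) ^ θ⌋₊ ∧
      Real.log N ^ (2 * B) ≤ ⌊(N : ℝ) ^ θ⌋₊ ∧ 2 * Real.log N ^ (3 * B) ≤ ⌊(N : ℝ) ^ θ⌋₊ := by
  have h1 : Filter.Tendsto (fun N : ℕ => (N : ℝ) ^ (θ - 1 / 8)) Filter.atTop Filter.atTop :=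
    (tendsto_rpow_atTop (by linarith)).comp tendsto_natCast_atTop_atTop
  have h2 : Filter.Tendsto (fun N : ℕ => Real.log N) Filter.atTop Filter.atTop :=
    Real.tendsto_log_atTop.comp tendsto_natCast_atTop_atTop
  have h3 : ∀ᶠ N : ℕ in Filter.atTop, 2 * Real.log N ^ (3 * B) ≤ (N : ℝ) ^ (1 / 8 : ℝ) := by
    have h4 := (isLittleO_log_rpow_rpow_atTop ((3 * B : ℕ) : ℝ) (show (0 : ℝ) < 1 / 8 by norm_num))
    have h5 := (h4.bound (show (0 : ℝ) < 1 / 2 by norm_num))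
    have h6 := tendsto_natCast_atTop_atTop (R := ℝ) |>.eventually h5
    filter_upwards [h6, h2.eventually_ge_atTop 1] with N hN hL
    rw [Real.rpow_natCast, Real.norm_of_nonneg (by positivity), Real.norm_of_nonneg (by positivity)] at hN
    linarith
  filter_upwards [h1.eventually_ge_atTop 2, h2.eventually_ge_atTop 2, h3, Filter.eventually_ge_atTop 16]
    with N hN1 hN2 hN3 hN4
  have hN16 : (16 : ℝ) ≤ N := by exact_mod_cast hN4
  have hN0 : (0 : ℝ) < N := by linarith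
  have a1 : (1 : ℝ) ≤ (N : ℝ) ^ (1 / 8 : ℝ) := Real.one_le_rpow (by linarith) (by norm_num)
  have a2 : (N : ℝ) ^ θ = (N : ℝ) ^ (1 / 8 : ℝ) * (N : ℝ) ^ (θ - 1 / 8) := by
    rw [← Real.rpow_add hN0]
    congr 1
    ring
  have a3 : (N : ℝ) ^ (1 / 8 : ℝ) * 2 ≤ (N : ℝ) ^ θ := by
    rw [a2]
    exact mul_le_mul_of_nonneg_left hN1 (by linarith)
  have a4 : (N : ℝ) ^ (1 / 8 : ℝ) ≤ ⌊(N : ℝ) ^ θ⌋₊ := by
    have := Nat.lt_floor_add_one ((N : ℝ) ^ θ)
    linarith
  have a5 : (⌊(N : ℝ) ^ θ⌋₊ : ℝ) ≤ (N : ℝ) ^ (1 / 2 : ℝ) :=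
    (Nat.floor_le (by positivity)).trans (Real.rpow_le_rpow_of_exponent_le (by linarith) hθ2.le)
  have a6 : 4 * (N : ℝ) ^ (1 / 2 : ℝ) ≤ N := by
    have h7 : (4 : ℝ) ≤ (N : ℝ) ^ (1 / 2 : ℝ) := by
      have h8 : (16 : ℝ) ^ (1 / 2 : ℝ) = 4 := by
        rw [show (16 : ℝ) = 4 ^ (2 : ℝ) by norm_num, ← Real.rpow_mul (by norm_num)]
        norm_num
      rw [← h8]
      exact Real.rpow_le_rpow (by norm_num) hN16 (by norm_num)
    have h9 : (N : ℝ) = (N : ℝ) ^ (1 / 2 : ℝ) * (N : ℝ) ^ (1 / 2 : ℝ) := by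
      rw [← Real.rpow_add hN0]
      norm_num
    calc 4 * (N : ℝ) ^ (1 / 2 : ℝ) ≤ (N : ℝ) ^ (1 / 2 : ℝ) * (N : ℝ) ^ (1 / 2 : ℝ) :=
          mul_le_mul_of_nonneg_right h7 (by positivity)
      _ = N := h9.symm
  have hLp : (1 : ℝ) ≤ Real.log N := by linarith
  have a7 : Real.log N ^ (2 * B) ≤ Real.log N ^ (3 * B) := pow_le_pow_right₀ hLp (by omega)
  have a8 : (0 : ℝ) ≤ Real.log N ^ (3 * B) := by positivity
  refine ⟨hN2, ?_, ?_, a5, a4, by linarith, by linarith⟩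
  · have : (1 : ℝ) ≤ ⌊(N : ℝ) ^ θ⌋₊ := by linarith
    exact_mod_cast this
  · have : 4 * (⌊(N : ℝ) ^ θ⌋₊ : ℝ) ≤ N := by linarith
    exact_mod_cast this

/-- one block -/
private theorem TpinA_block {H i R A : ℕ} {L k : ℝ} {F : ℕ → ℝ} (hL : 2 ≤ L) (hH : 1 ≤ H) (hR : 1 ≤ R)
    (hRH : 2 * (R : ℝ) ^ 3 ≤ H) (hF : ∀ m ∈ Ico (i * H) ((i + 1) * H), 0 ≤ F m)
    (hsq : ∑ m ∈ Ico (i * H) ((i + 1) * H), lamR R m ^ 2 ≤ H * L ^ 2)
    (hB : ∀ α : ℝ, ‖Bs (fun m => F m - k * lamR R m) H i α‖ ≤ H / L ^ (A + 3)) (α : ℝ) :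
    ‖∑ m ∈ Ico (i * H) ((i + 1) * H), ((F m - max 0 k * lamR R m : ℝ) : ℂ) * ee (-(α * m))‖ ≤ H / L ^ A := by
  have hH0 : (0 : ℝ) < H := by exact_mod_cast hH
  have hL0 : 0 < L := by linarith
  have hp : 0 < L ^ A := by positivity
  have hp3 : 0 < L ^ (A + 3) := by positivity
  have hle : H / L ^ (A + 3) ≤ H / L ^ A :=
    div_le_div_of_nonneg_left hH0.le hp (pow_le_pow_right₀ (by linarith) (by omega))
  have hee : ∀ t : ℝ, ‖ee t‖ = 1 := by
    intro t
    unfold Pool.Agent.H91.PK.ee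
    have e : 2 * Real.pi * (t : ℂ) * Complex.I = ((2 * Real.pi * t : ℝ) : ℂ) * Complex.I := by
      push_cast
      ring
    rw [e, Complex.norm_exp_ofReal_mul_I]
  have hBs : ∀ β : ℝ, Bs (fun m => F m - k * lamR R m) H i β =
      ∑ m ∈ Ico (i * H) ((i + 1) * H), ((F m - k * lamR R m : ℝ) : ℂ) * ee (-(β * m)) := by
    intro β
    unfold Pool.Agent.H53.MID.Bs
    refine sum_congr rfl fun m _ => ?_
    rw [mul_comm (m : ℝ) β]
  rcases le_or_gt 0 k with hk | hk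
  · rw [max_eq_right hk, ← hBs α]
    exact (hB α).trans hle
  · rw [max_eq_left hk.le]
    have hsum : (H : ℝ) / 2 ≤ ∑ m ∈ Ico (i * H) ((i + 1) * H), lamR R m := by
      have h1 := TpinA_mean (i * H) ((i + 1) * H) R (Nat.mul_le_mul_right H (Nat.le_succ i)) hR
      push_cast at h1
      linarith
    have h0 : ∑ m ∈ Ico (i * H) ((i + 1) * H), (F m - k * lamR R m) ≤ H / L ^ (A + 3) := by
      have h1 := hB 0
      rw [hBs 0] at h1
      have h2 : ∑ m ∈ Ico (i * H) ((i + 1) * H), ((F m - k * lamR R m : ℝ) : ℂ) * ee (-((0 : ℝ) * m)) =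
          ((∑ m ∈ Ico (i * H) ((i + 1) * H), (F m - k * lamR R m) : ℝ) : ℂ) := by
        push_cast
        refine sum_congr rfl fun m _ => ?_
        have h3 : ee (-((0 : ℝ) * m)) = 1 := by
          unfold Pool.Agent.H91.PK.ee
          simp
        rw [h3, mul_one]
      rw [h2, Complex.norm_real, Real.norm_eq_abs] at h1
      exact (le_abs_self _).trans h1
    rw [sum_sub_distrib, ← mul_sum] at h0
    have hF0 : 0 ≤ ∑ m ∈ Ico (i * H) ((i + 1) * H), F m := sum_nonneg hF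
    have hk2 : (-k) * (H / 2) ≤ H / L ^ (A + 3) := by
      have h3 : (-k) * (H / 2) ≤ (-k) * ∑ m ∈ Ico (i * H) ((i + 1) * H), lamR R m :=
        mul_le_mul_of_nonneg_left hsum (by linarith)
      linarith
    have hk3 : -k ≤ 2 / L ^ (A + 3) := by
      have h4 : (-k) * (H / 2) * (2 / H) ≤ H / L ^ (A + 3) * (2 / H) :=
        mul_le_mul_of_nonneg_right hk2 (by positivity)
      have e1 : (-k) * (H / 2) * (2 / H) = -k := by
        field_simp
      have e2 : (H : ℝ) / L ^ (A + 3) * (2 / H) = 2 / L ^ (A + 3) := by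
        field_simp
      rw [e1, e2] at h4
      exact h4
    have habs : ∑ m ∈ Ico (i * H) ((i + 1) * H), |lamR R m| ≤ H * L := by
      have h5 := sq_sum_le_card_mul_sum_sq (s := Ico (i * H) ((i + 1) * H)) (f := fun m => |lamR R m|)
      have h6 : ((Ico (i * H) ((i + 1) * H)).card : ℝ) = H := by
        rw [Nat.card_Ico]
        congr 1
        rw [Nat.add_mul, one_mul]
        omega
      have h7 : ∑ m ∈ Ico (i * H) ((i + 1) * H), |lamR R m| ^ 2 ≤ H * L ^ 2 := by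
        refine le_trans (le_of_eq (sum_congr rfl fun m _ => ?_)) hsq
        exact sq_abs _
      rw [h6] at h5
      have h8 : (∑ m ∈ Ico (i * H) ((i + 1) * H), |lamR R m|) ^ 2 ≤ (H * L) ^ 2 := by
        refine h5.trans ((mul_le_mul_of_nonneg_left h7 hH0.le).trans (le_of_eq ?_))
        ring
      exact le_of_sq_le_sq h8 (by positivity)
    have hsplit : ∑ m ∈ Ico (i * H) ((i + 1) * H), ((F m - 0 * lamR R m : ℝ) : ℂ) * ee (-(α * m)) =
        Bs (fun m => F m - k * lamR R m) H i α +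
          ∑ m ∈ Ico (i * H) ((i + 1) * H), ((k * lamR R m : ℝ) : ℂ) * ee (-(α * m)) := by
      rw [hBs α, ← sum_add_distrib]
      refine sum_congr rfl fun m _ => ?_
      push_cast
      ring
    rw [hsplit]
    refine (norm_add_le _ _).trans ?_
    have h9 : ‖∑ m ∈ Ico (i * H) ((i + 1) * H), ((k * lamR R m : ℝ) : ℂ) * ee (-(α * m))‖ ≤
        2 / L ^ (A + 3) * (H * L) := by
      calc ‖∑ m ∈ Ico (i * H) ((i + 1) * H), ((k * lamR R m : ℝ) : ℂ) * ee (-(α * m))‖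
          ≤ ∑ m ∈ Ico (i * H) ((i + 1) * H), (-k) * |lamR R m| := by
            refine norm_sum_le_of_le _ fun m _ => ?_
            rw [norm_mul, hee, mul_one, Complex.norm_real, Real.norm_eq_abs, abs_mul, abs_of_neg hk]
        _ = (-k) * ∑ m ∈ Ico (i * H) ((i + 1) * H), |lamR R m| := by rw [mul_sum]
        _ ≤ 2 / L ^ (A + 3) * (H * L) :=
            mul_le_mul hk3 habs (sum_nonneg fun _ _ => abs_nonneg _) (by positivity)
    refine (add_le_add (hB α) h9).trans ?_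
    have e3 : H / L ^ (A + 3) + 2 / L ^ (A + 3) * (H * L) = H / L ^ A * ((1 + 2 * L) / L ^ 3) := by
      have : L ^ (A + 3) = L ^ A * L ^ 3 := by ring
      rw [this]
      field_simp
    rw [e3]
    refine mul_le_of_le_one_right (by positivity) ?_
    rw [div_le_one (by positivity)]
    nlinarith [sq_nonneg (L - 2), mul_nonneg hL0.le (sq_nonneg (L - 2))]

open Classical in
theorem tpin_abs (θ c : ℝ) (hθ : 1 / 8 < θ) (hθ2 : θ < 1 / 2) (hc : 0 < c) (hc2 : c ≤ 1)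
    (h : ∃ C : ℕ, ∀ A : ℕ, ∃ B N0 : ℕ, ∀ N : ℕ, N0 ≤ N → ∃ F k : ℕ → ℝ,
      (∀ m : ℕ, N ≤ 4 * m → m ≤ 4 * N → 0 ≤ F m ∧ (m.Prime → 1 ≤ F m)) ∧
      (∀ x : ℕ, N ≤ 8 * x → x ≤ 8 * N → k x ≤ (2 - c) / Real.log N) ∧
      (∀ u w : ℕ, 1 ≤ u → (N : ℝ) ^ (1 / 8 : ℝ) ≤ w → u + w ≤ 16 * N → ∑ m ∈ Ico u (u + w), F m ^ 2 ≤ w * Real.log N ^ C) ∧
      (∀ x x' : ℕ, N ≤ 8 * x → x ≤ x' → (x' : ℝ) ≤ x + (N : ℝ) ^ (1 / 2 : ℝ) → |k x' - k x| ≤ 1 / Real.log N ^ A) ∧
      (((Icc (N / (2 * ⌊(N : ℝ) ^ θ⌋₊)) (4 * N / ⌊(N : ℝ) ^ θ⌋₊)).filter (fun i => ∃ α : ℝ,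
        (⌊(N : ℝ) ^ θ⌋₊ : ℝ) / Real.log N ^ A <
          ‖Bs (fun m => F m - k (i * ⌊(N : ℝ) ^ θ⌋₊) * lamR ⌊Real.log N ^ B⌋₊ m) ⌊(N : ℝ) ^ θ⌋₊ i α‖)).card : ℝ) ≤
        (N : ℝ) / ⌊(N : ℝ) ^ θ⌋₊ / Real.log N ^ A) : TPIN θ c := by
  obtain ⟨C, hC⟩ := h
  refine ⟨C, fun A => ?_⟩
  obtain ⟨B, N1, hN1⟩ := hC (A + 3)
  obtain ⟨N2, hN2⟩ := Pool.Agent.H43.TP.lamR_blk B
  obtain ⟨N3, hN3⟩ := Filter.eventually_atTop.mp (TpinA_ev θ hθ hθ2 B)
  refine ⟨B, max N1 (max N2 N3), fun N hN => ?_⟩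
  have hNa : N1 ≤ N := (le_max_left _ _).trans hN
  have hNb : N2 ≤ N := (le_max_left _ _).trans ((le_max_right _ _).trans hN)
  have hNc : N3 ≤ N := (le_max_right _ _).trans ((le_max_right _ _).trans hN)
  obtain ⟨F, k, f1, f2, f3, f4, f5⟩ := hN1 N hNa
  obtain ⟨hL, hH1, hH4, hHh, hH8, hLB, hLB3⟩ := hN3 N hNc
  have hlam := hN2 N hNb
  have hHn : Pool.Agent.H43.MP.Hn θ N = ⌊(N : ℝ) ^ θ⌋₊ := rfl
  have hRn : Pool.Agent.H43.MP.Rn B N = ⌊Real.log N ^ B⌋₊ := rfl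
  rw [hRn] at hlam
  refine ⟨F, fun i => max 0 (k (i * ⌊(N : ℝ) ^ θ⌋₊)), f1, ?_⟩
  rw [hHn, hRn]
  set H : ℕ := ⌊(N : ℝ) ^ θ⌋₊ with hH
  set R : ℕ := ⌊Real.log N ^ B⌋₊ with hR
  have hL0 : 0 < Real.log N := by linarith
  have hR1 : 1 ≤ R := by
    rw [hR, Nat.one_le_floor_iff]
    exact one_le_pow₀ (by linarith)
  have hRle : (R : ℝ) ≤ Real.log N ^ B := Nat.floor_le (by positivity)
  have hR3 : 2 * (R : ℝ) ^ 3 ≤ H := by
    have h1 : (R : ℝ) ^ 3 ≤ (Real.log N ^ B) ^ 3 := pow_le_pow_left₀ (Nat.cast_nonneg R) hRle 3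
    have h2 : (Real.log N ^ B) ^ 3 = Real.log N ^ (3 * B) := by
      rw [← pow_mul, mul_comm]
    rw [h2] at h1
    linarith
  have hAA : 1 / Real.log N ^ (A + 3) ≤ 1 / Real.log N ^ A :=
    one_div_le_one_div_of_le (by positivity) (pow_le_pow_right₀ (by linarith) (by omega))
  -- the blocks
  have hidx : ∀ i ∈ Pool.Agent.H43.MP.idx N H, 1 ≤ i ∧ N ≤ 4 * (i * H) ∧ i * H ≤ 3 * N ∧ i * H + H ≤ 4 * N := by
    intro i hi
    unfold Pool.Agent.H43.MP.idx at hi
    rw [mem_Icc] at hi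
    have h3 : i * H ≤ 3 * N := by
      have := Nat.mul_le_mul_right H hi.2
      exact this.trans (Nat.div_mul_le_self _ _)
    have h4 : N < 2 * (i * H) + 2 * H := by
      have h5 : N / (2 * H) * (2 * H) ≤ i * (2 * H) := Nat.mul_le_mul_right _ hi.1
      have h6 : N < N / (2 * H) * (2 * H) + 2 * H := Nat.lt_div_mul_add (a := N) (b := 2 * H) (by omega)
      have h7 : i * (2 * H) = 2 * (i * H) := by ring
      omega
    have h8 : 1 ≤ i := by
      rcases Nat.eq_zero_or_pos i with h9 | h9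
      · rw [h9, zero_mul] at h4
        omega
      · exact h9
    refine ⟨h8, ?_, h3, ?_⟩ <;> omega
  refine ⟨?_, ?_, ?_, ?_⟩
  · intro i hi
    obtain ⟨_, h2, h3, _⟩ := hidx i hi
    refine ⟨le_max_left _ _, max_le ?_ (f2 _ (by omega) (by omega))⟩
    exact div_nonneg (by linarith) hL0.le
  · intro i hi
    obtain ⟨h1, h2, h3, h4⟩ := hidx i hi
    have h5 := f3 (i * H) H (by omega) hH8 (by omega)
    have h6 : Pool.Agent.H43.MP.blk H i = Ico (i * H) (i * H + H) := by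
      unfold Pool.Agent.H43.MP.blk
      congr 1
      ring
    rw [h6]
    exact h5
  · intro i hi _
    obtain ⟨h1, h2, h3, h4⟩ := hidx i hi
    have h5 := f4 (i * H) ((i + 1) * H) (by omega) (Nat.mul_le_mul_right H (Nat.le_succ i)) (by
      push_cast
      linarith)
    have h6 : |max 0 (k (i * H)) - max 0 (k ((i + 1) * H))| ≤ |k (i * H) - k ((i + 1) * H)| := by
      have := abs_max_sub_max_le_abs (k (i * H)) (k ((i + 1) * H)) 0
      rw [max_comm (k (i * H)) 0, max_comm (k ((i + 1) * H)) 0] at this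
      exact this
    refine h6.trans ?_
    rw [abs_sub_comm]
    exact h5.trans hAA
  · have hsub : Pool.Agent.H43.TP.badF N H R A F (fun i => max 0 (k (i * H))) ⊆
        (Icc (N / (2 * H)) (4 * N / H)).filter (fun i => ∃ α : ℝ, (H : ℝ) / Real.log N ^ (A + 3) <
          ‖Bs (fun m => F m - k (i * H) * lamR R m) H i α‖) := by
      intro i hi
      unfold Pool.Agent.H43.TP.badF at hi
      rw [mem_filter] at hi
      obtain ⟨hi1, α, hα⟩ := hi
      obtain ⟨h1, h2, h3, h4⟩ := hidx i hi1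
      rw [mem_filter]
      constructor
      · unfold Pool.Agent.H43.MP.idx at hi1
        rw [mem_Icc] at hi1 ⊢
        exact ⟨hi1.1, hi1.2.trans (Nat.div_le_div_right (by omega))⟩
      · by_contra hcon
        push Not at hcon
        have h5 := TpinA_block (H := H) (i := i) (R := R) (A := A) (L := Real.log N) (k := k (i * H)) (F := F)
          hL hH1 hR1 hR3 (fun m hm => by
            rw [mem_Ico] at hm
            have h6 : (i + 1) * H = i * H + H := by ring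
            exact (f1 m (by omega) (by omega)).1) (hlam H i h1 hLB) hcon α
        exact absurd hα (not_lt.2 h5)
    have h7 : ((Pool.Agent.H43.TP.badF N H R A F (fun i => max 0 (k (i * H)))).card : ℝ) ≤
        (((Icc (N / (2 * H)) (4 * N / H)).filter (fun i => ∃ α : ℝ, (H : ℝ) / Real.log N ^ (A + 3) <
          ‖Bs (fun m => F m - k (i * H) * lamR R m) H i α‖)).card : ℝ) := by
      exact_mod_cast card_le_card hsub
    refine h7.trans (f5.trans ?_)
    exact div_le_div_of_nonneg_left (by positivity) (by positivity)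
      (pow_le_pow_right₀ (by linarith) (by omega))

end Pool.Agent.H91.TQ
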