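import Pool.Agent.H91.TQ.Defs

/-!
# TQ ZnumQ: the numerical condition (compare `H76/TP/Znum.lean`)

`κ = 39/125 = 0.312`.  `MQ ζ' ζ κ = 1 + Z2 ζ' - (1/2) Z2 ζ + (1/2) Z2 κ + ∫_ζ'^ζ f3 + (1/2) ∫_ζ^κ g3 κ + Z3 κ`.  Let `ζ0 = 1/4 + 10^(-4)`, `1/4 < ζ' < ζ < ζ0`.
* `Z2 ζ' ≤ Z2 (1/4) = log 3`, `Z2 ζ ≥ Z2 ζ0 ≥ log 3 - 6·10^(-4)` (`Z2` is decreasing, `Z2' = -1/(ζ(1-ζ))`);
* `0 ≤ f3 ≤ 4` on `[1/4, ζ0]` (`log 2/(3/16) = 3.7`), so `∫_ζ'^ζ f3 ≤ 4·10^(-4)`;
* `g3 κ ≥ 0` on `[1/4, κ]`, so `∫_ζ^κ g3 κ ≤ ∫_{1/4}^κ g3 κ`.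
Values: `(1/2) log 3 = 0.54930615`, `(1/2) Z2 κ = (1/2) log(86/39) = 0.39539..` (sum with `(1/2) log 3`: `0.9446990`), `(1/2) ∫_{1/4}^κ g3 κ = 0.0410266`, `Z3 κ = 0.0092440`: `MQ(1/4, 1/4, κ) = 1.9949696`.  Margin `0.005 - 0.0007`.
`g3 κ u = log((1-u-κ)/κ)/(u(1-u))` is decreasing on `[1/4, κ]` (from `1.8092` to `0.8693`) and `f3` is decreasing on `[κ, 1/3]` (from `0.8693` to `0`): upper Riemann sums with `n` pieces have errors `(1/2)(0.94)(0.062)/n` and `(0.8693)(0.0214)/n`,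
`n = 20` is enough; or the Padé bound `log t ≤ (t-1)(t+5)/(2(2t+1))` of `Znum.lean` (private there) and the simple bounds `1/(u(1-u)) ≤ ..` on 2-4 pieces; or `log t ≤ (t - 1/t)/2` (`t ≥ 1`), which gives rational integrands.
`c` is free (for example `c = 10^(-3)`).
-/

set_option autoImplicit false

namespace Pool.Agent.H91.TQ

open Finset MeasureTheory
open Pool.Agent.H76.TP

/-- derivative of the difference -/
private lemma znumQ_hasDeriv (x : ℝ) (hx : 0 < x) :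
    HasDerivAt (fun x : ℝ => (x - 1) * (x + 5) / (2 * (2 * x + 1)) - Real.log x)
      ((x - 1) ^ 3 / (x * (2 * x + 1) ^ 2)) x := by
  have h1 : HasDerivAt (fun x : ℝ => (x - 1) * (x + 5)) (1 * (x + 5) + (x - 1) * 1) x :=
    ((hasDerivAt_id x).sub_const 1).mul ((hasDerivAt_id x).add_const 5)
  have h2 : HasDerivAt (fun x : ℝ => 2 * (2 * x + 1)) (2 * (2 * 1)) x :=
    (((hasDerivAt_id x).const_mul 2).add_const 1).const_mul 2
  have hne : (2 * (2 * x + 1) : ℝ) ≠ 0 := by positivity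
  have h3 := (h1.div h2 hne).sub (Real.hasDerivAt_log hx.ne')
  refine h3.congr_deriv ?_
  have hx' : x ≠ 0 := hx.ne'
  have h4 : (2 * x + 1 : ℝ) ≠ 0 := by positivity
  field_simp
  ring

/-- Padé upper bound of the logarithm -/
private lemma znumQ_pade (x : ℝ) (hx : 0 < x) : Real.log x ≤ (x - 1) * (x + 5) / (2 * (2 * x + 1)) := by
  set f : ℝ → ℝ := fun x => (x - 1) * (x + 5) / (2 * (2 * x + 1)) - Real.log x with hf
  have hf1 : f 1 = 0 := by simp [hf]
  suffices h : f 1 ≤ f x by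
    rw [hf1] at h
    simp only [hf] at h
    linarith
  rcases le_total 1 x with h1 | h1
  · have hmono : MonotoneOn f (Set.Ici 1) := by
      apply monotoneOn_of_deriv_nonneg (convex_Ici 1)
      · intro y hy
        exact (znumQ_hasDeriv y (lt_of_lt_of_le one_pos hy)).continuousAt.continuousWithinAt
      · intro y hy
        rw [interior_Ici] at hy
        exact (znumQ_hasDeriv y (lt_trans one_pos hy)).differentiableAt.differentiableWithinAt
      · intro y hy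
        rw [interior_Ici] at hy
        have hy1 : (1 : ℝ) < y := hy
        rw [(znumQ_hasDeriv y (lt_trans one_pos hy1)).deriv]
        have : 0 ≤ y - 1 := by linarith
        positivity
    exact hmono (Set.mem_Ici.2 le_rfl) (Set.mem_Ici.2 h1) h1
  · have hanti : AntitoneOn f (Set.Ioc 0 1) := by
      apply antitoneOn_of_deriv_nonpos (convex_Ioc 0 1)
      · intro y hy
        exact (znumQ_hasDeriv y hy.1).continuousAt.continuousWithinAt
      · intro y hy
        rw [interior_Ioc] at hy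
        exact (znumQ_hasDeriv y hy.1).differentiableAt.differentiableWithinAt
      · intro y hy
        rw [interior_Ioc] at hy
        rw [(znumQ_hasDeriv y hy.1).deriv]
        have h0 : 0 ≤ 1 - y := by linarith [hy.2]
        have h2 : (y - 1) ^ 3 = - ((1 - y) ^ 3) := by ring
        have hy0 := hy.1
        rw [h2, neg_div]
        have : 0 ≤ (1 - y) ^ 3 / (y * (2 * y + 1) ^ 2) := by positivity
        linarith
    exact hanti ⟨hx, h1⟩ ⟨one_pos, le_rfl⟩ h1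

private lemma znumQ_g3 (u : ℝ) (h0 : 1 / 4 ≤ u) (h1 : u ≤ 39 / 125) :
    g3 (39 / 125) u ≤ 1812 / 1000 - 1518 / 100 * (u - 1 / 4) := by
  have ht : (1 - u - 39 / 125) / (39 / 125) = (86 - 125 * u) / 39 := by ring
  have hp : (0 : ℝ) < (86 - 125 * u) / 39 := by
    apply div_pos _ (by norm_num)
    linarith
  have h2 := znumQ_pade _ hp
  have hden : (0 : ℝ) < u * (1 - u) := mul_pos (by linarith) (by linarith)
  have h211 : (0 : ℝ) < 211 - 250 * u := by linarith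
  unfold g3
  rw [ht, div_le_iff₀ hden]
  refine h2.trans ?_
  have e : ((86 - 125 * u) / 39 - 1) * ((86 - 125 * u) / 39 + 5) / (2 * (2 * ((86 - 125 * u) / 39) + 1)) =
      (47 - 125 * u) * (281 - 125 * u) / (78 * (211 - 250 * u)) := by
    have e1 : (86 - 125 * u) / 39 - 1 = (47 - 125 * u) / 39 := by ring
    have e2 : (86 - 125 * u) / 39 + 5 = (281 - 125 * u) / 39 := by ring
    have e3 : 2 * (2 * ((86 - 125 * u) / 39) + 1) = 2 * (211 - 250 * u) / 39 := by ring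
    rw [e1, e2, e3]
    field_simp
    ring
  rw [e, div_le_iff₀ (by positivity)]
  obtain ⟨s, rfl⟩ : ∃ s, u = s + 1 / 4 := ⟨u - 1 / 4, by ring⟩
  have h2 : 0 ≤ s := by linarith
  have h3 : s ≤ 62 / 1000 := by linarith
  have h4 : 0 ≤ s * (62 / 1000 - s) := mul_nonneg h2 (by linarith)
  nlinarith [mul_nonneg h2 h4, mul_nonneg h4 h4, mul_nonneg (sub_nonneg.2 h3) h4]

private lemma znumQ_f3 (u : ℝ) (h0 : 39 / 125 ≤ u) (h1 : u ≤ 1 / 3) :
    f3 u ≤ 41 * (1 / 3 - u) := by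
  have hu : 0 < u := by linarith
  have hp : (0 : ℝ) < (1 - 2 * u) / u := div_pos (by linarith) hu
  have h2 := znumQ_pade _ hp
  have hden : (0 : ℝ) < u * (1 - u) := mul_pos (by linarith) (by linarith)
  have h23 : (0 : ℝ) < 2 - 3 * u := by linarith
  unfold f3
  rw [div_le_iff₀ hden]
  refine h2.trans ?_
  have e : ((1 - 2 * u) / u - 1) * ((1 - 2 * u) / u + 5) / (2 * (2 * ((1 - 2 * u) / u) + 1)) =
      (1 - 3 * u) * (1 + 3 * u) / (2 * u * (2 - 3 * u)) := by
    have hu' : u ≠ 0 := hu.ne'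
    have e1 : (1 - 2 * u) / u - 1 = (1 - 3 * u) / u := by field_simp; ring
    have e2 : (1 - 2 * u) / u + 5 = (1 + 3 * u) / u := by field_simp; ring
    have e3 : 2 * (2 * ((1 - 2 * u) / u) + 1) = 2 * (2 - 3 * u) / u := by field_simp; ring
    rw [e1, e2, e3]
    field_simp
  rw [e, div_le_iff₀ (by positivity)]
  have h5 : (1 + 3 * u) ≤ 41 / 3 * (2 * u ^ 2 * (1 - u) * (2 - 3 * u)) := by
    obtain ⟨s, rfl⟩ : ∃ s, u = s + 39 / 125 := ⟨u - 39 / 125, by ring⟩
    have h2 : 0 ≤ s := by linarith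
    have h3 : s ≤ 22 / 1000 := by linarith
    have h4 : 0 ≤ s * (22 / 1000 - s) := mul_nonneg h2 (by linarith)
    nlinarith [mul_nonneg h2 h4, mul_nonneg h4 h4, mul_nonneg (sub_nonneg.2 h3) h4]
  have h6 := mul_le_mul_of_nonneg_left h5 (show (0 : ℝ) ≤ 1 - 3 * u by linarith)
  calc (1 - 3 * u) * (1 + 3 * u) ≤ (1 - 3 * u) * (41 / 3 * (2 * u ^ 2 * (1 - u) * (2 - 3 * u))) := h6
    _ = 41 * (1 / 3 - u) * (u * (1 - u)) * (2 * u * (2 - 3 * u)) := by ring

private lemma znumQ_f3b (u : ℝ) (h0 : 1 / 4 ≤ u) (h1 : u ≤ 27 / 100) : f3 u ≤ 4 := by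
  have hu : 0 < u := by linarith
  have hp : (0 : ℝ) < (1 - 2 * u) / u := div_pos (by linarith) hu
  have hden : (0 : ℝ) < u * (1 - u) := mul_pos (by linarith) (by linarith)
  have h2 : Real.log ((1 - 2 * u) / u) ≤ Real.log 2 := by
    apply Real.log_le_log hp
    rw [div_le_iff₀ hu]
    linarith
  have h3 := Real.log_two_lt_d9
  unfold f3
  rw [div_le_iff₀ hden]
  nlinarith [mul_nonneg (sub_nonneg.2 h0) (sub_nonneg.2 h1)]

private lemma znumQ_intf (a b : ℝ) (h0 : 1 / 4 ≤ a) (hab : a ≤ b) (h1 : b ≤ 1 / 3) :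
    IntervalIntegrable f3 MeasureTheory.volume a b := by
  apply ContinuousOn.intervalIntegrable
  intro u hu
  rw [Set.uIcc_of_le hab] at hu
  have hu0 : 0 < u := by linarith [hu.1]
  have hu1 : u ≤ 1 / 3 := hu.2.trans h1
  have h3 : 0 < (1 - 2 * u) / u := div_pos (by linarith) hu0
  have h4 : u * (1 - u) ≠ 0 := mul_ne_zero hu0.ne' (by linarith)
  apply ContinuousAt.continuousWithinAt
  have c1 : ContinuousAt (fun u : ℝ => (1 - 2 * u) / u) u :=
    ContinuousAt.div (by fun_prop) (by fun_prop) hu0.ne'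
  have c2 : ContinuousAt (fun u : ℝ => Real.log ((1 - 2 * u) / u)) u := c1.log h3.ne'
  exact ContinuousAt.div c2 (by fun_prop) h4

private lemma znumQ_intg (a : ℝ) (h0 : 1 / 4 ≤ a) (hab : a ≤ 39 / 125) :
    IntervalIntegrable (g3 (39 / 125)) MeasureTheory.volume a (39 / 125) := by
  apply ContinuousOn.intervalIntegrable
  intro u hu
  rw [Set.uIcc_of_le hab] at hu
  have hu0 : 0 < u := by linarith [hu.1]
  have hu1 : u ≤ 39 / 125 := hu.2
  have h3 : 0 < (1 - u - 39 / 125) / (39 / 125) := div_pos (by linarith) (by norm_num)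
  have h4 : u * (1 - u) ≠ 0 := mul_ne_zero hu0.ne' (by linarith)
  apply ContinuousAt.continuousWithinAt
  have c1 : ContinuousAt (fun u : ℝ => (1 - u - 39 / 125) / (39 / 125)) u :=
    ContinuousAt.div (by fun_prop) (by fun_prop) (by norm_num)
  have c2 : ContinuousAt (fun u : ℝ => Real.log ((1 - u - 39 / 125) / (39 / 125))) u := c1.log h3.ne'
  exact ContinuousAt.div c2 (by fun_prop) h4

private lemma znumQ_I1 (a b : ℝ) (h0 : 1 / 4 ≤ a) (hab : a ≤ b) (h1 : b ≤ 27 / 100) :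
    ∫ u in a..b, f3 u ≤ 4 * (b - a) := by
  have h : ∫ u in a..b, f3 u ≤ ∫ _u in a..b, (4 : ℝ) :=
    intervalIntegral.integral_mono_on hab (znumQ_intf a b h0 hab (by linarith)) (by simp)
      (fun u hu => znumQ_f3b u (by linarith [hu.1]) (by linarith [hu.2]))
  rw [intervalIntegral.integral_const, smul_eq_mul] at h
  linarith

private lemma znumQ_I2 (a : ℝ) (h0 : 1 / 4 ≤ a) (h1 : a ≤ 27 / 100) :
    ∫ u in a..(39 / 125 : ℝ), g3 (39 / 125) u ≤ 0.08317 := by
  have hF : ∀ u : ℝ, HasDerivAt (fun u : ℝ => 1812 / 1000 * u - 1518 / 200 * (u - 1 / 4) ^ 2)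
      (1812 / 1000 - 1518 / 100 * (u - 1 / 4)) u := by
    intro u
    have a1 : HasDerivAt (fun u : ℝ => 1812 / 1000 * u) (1812 / 1000 * 1) u :=
      (hasDerivAt_id u).const_mul _
    have a2 : HasDerivAt (fun u : ℝ => 1518 / 200 * (u - 1 / 4) ^ 2)
        (1518 / 200 * (((2 : ℕ) : ℝ) * (u - 1 / 4) ^ (2 - 1) * 1)) u :=
      (((hasDerivAt_id u).sub_const (1 / 4)).pow 2).const_mul _
    refine (a1.sub a2).congr_deriv ?_
    norm_num
    ring
  have h : ∫ u in a..(39 / 125 : ℝ), g3 (39 / 125) u ≤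
      ∫ u in a..(39 / 125 : ℝ), (1812 / 1000 - 1518 / 100 * (u - 1 / 4)) := by
    apply intervalIntegral.integral_mono_on (by linarith) (znumQ_intg a h0 (by linarith))
    · apply Continuous.intervalIntegrable
      fun_prop
    · intro u hu
      exact znumQ_g3 u (by linarith [hu.1]) hu.2
  rw [intervalIntegral.integral_eq_sub_of_hasDerivAt (fun u _ => hF u)
    (by apply Continuous.intervalIntegrable; fun_prop)] at h
  refine h.trans ?_
  have h5 : 0 ≤ (a - 1 / 4) := by linarith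
  nlinarith [mul_nonneg h5 (show (0 : ℝ) ≤ 27 / 100 - a by linarith)]

private lemma znumQ_I3 : Z3 (39 / 125) ≤ 0.00934 := by
  have hF : ∀ u : ℝ, HasDerivAt (fun u : ℝ => -(41 / 2) * (1 / 3 - u) ^ 2) (41 * (1 / 3 - u)) u := by
    intro u
    have a2 : HasDerivAt (fun u : ℝ => -(41 / 2) * (1 / 3 - u) ^ 2)
        (-(41 / 2) * (((2 : ℕ) : ℝ) * (1 / 3 - u) ^ (2 - 1) * (-1))) u :=
      (((hasDerivAt_id u).const_sub (1 / 3)).pow 2).const_mul _
    refine a2.congr_deriv ?_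
    norm_num
    ring
  have h : ∫ u in (39 / 125 : ℝ)..(1 / 3 : ℝ), f3 u ≤ ∫ u in (39 / 125 : ℝ)..(1 / 3 : ℝ), 41 * (1 / 3 - u) := by
    apply intervalIntegral.integral_mono_on (by norm_num)
      (znumQ_intf _ _ (by norm_num) (by norm_num) le_rfl)
    · apply Continuous.intervalIntegrable
      fun_prop
    · intro u hu
      exact znumQ_f3 u hu.1 hu.2
  rw [intervalIntegral.integral_eq_sub_of_hasDerivAt (fun u _ => hF u)
    (by apply Continuous.intervalIntegrable; fun_prop)] at h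
  have h' : Z3 (39 / 125) ≤ -(41 / 2) * (1 / 3 - 1 / 3) ^ 2 - -(41 / 2) * (1 / 3 - 39 / 125) ^ 2 := h
  refine h'.trans ?_
  norm_num

private lemma znumQ_log : Real.log 3 + Z2 (39 / 125) ≤ 1.8895 := by
  have e1 : (1 - 39 / 125 : ℝ) / (39 / 125) = 86 / 39 := by norm_num
  have e2 : Real.log 3 + Z2 (39 / 125) = 3 * Real.log 2 + Real.log (43 / 52) := by
    unfold Z2
    rw [e1, ← Real.log_mul (by norm_num) (by norm_num)]
    have : (3 : ℝ) * Real.log 2 = Real.log (2 ^ 3) := by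
      rw [Real.log_pow]
      norm_num
    rw [this, ← Real.log_mul (by norm_num) (by norm_num)]
    norm_num
  have h1 := znumQ_pade (43 / 52) (by norm_num)
  have h2 := Real.log_two_lt_d9
  rw [e2]
  norm_num at h1
  linarith

theorem znum_q : ∃ c ζ0 : ℝ, 0 < c ∧ c ≤ 1 ∧ 1 / 4 < ζ0 ∧ ζ0 < 27 / 100 ∧ ∀ ζ' ζ : ℝ, 1 / 4 < ζ' → ζ' < ζ → ζ < ζ0 →
    MQ ζ' ζ (39 / 125) ≤ 2 - c := by
  refine ⟨1 / 1000, 1 / 4 + 1 / 10000, by norm_num, by norm_num, by norm_num, by norm_num, ?_⟩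
  intro ζ' ζ h1 h2 h3
  have a1 : Z2 ζ' ≤ Real.log 3 := by
    unfold Z2
    apply Real.log_le_log (div_pos (by linarith) (by linarith))
    rw [div_le_iff₀ (by linarith)]
    linarith
  have a2 : Real.log 3 - 0.0006 ≤ Z2 ζ := by
    unfold Z2
    have hp : 0 < (1 - ζ) / ζ := div_pos (by linarith) (by linarith)
    have h4 : Real.log (3 / ((1 - ζ) / ζ)) ≤ 3 / ((1 - ζ) / ζ) - 1 :=
      Real.log_le_sub_one_of_pos (by positivity)
    rw [Real.log_div (by norm_num) hp.ne'] at h4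
    have h5 : 3 / ((1 - ζ) / ζ) ≤ 1.0006 := by
      rw [div_div_eq_mul_div, div_le_iff₀ (by linarith)]
      linarith
    linarith
  have a3 := znumQ_I1 ζ' ζ h1.le h2.le (by linarith)
  have a4 := znumQ_I2 ζ (by linarith) (by linarith)
  have a5 := znumQ_I3
  have a6 := znumQ_log
  unfold MQ
  linarith

end Pool.Agent.H91.TQ
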