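import Pool.Agent.H91.TQ.TIw
import Pool.Agent.H91.TQ.SLow
import Pool.Agent.H91.TQ.LfuQ
import Pool.Agent.H91.TQ.KStepQ
import Pool.Agent.H91.TQ.MassQ
import Pool.Agent.H91.TQ.ZnumQ
import Pool.Agent.H91.TQ.SecQ
import Pool.Agent.H91.TQ.TpinA

/-!
# TQ TpinQ: the black box `TPIN θ c` for every `1/4 < θ < 1/3`

`znum_q`: `c1, ζ0`.  `δ0 = min ζ0 θ - 1/4`, `ζ = 1/4 + 2δ0/3`, `ζ' = 1/4 + δ0/3`, `κ' = 39/125`, `κ = 781/2500 = 0.3124` (`4κ = 1.2496 < 1 + θ`).  `tip θ κ`: `e4`.  `ε = c1/8`.  `sieve_bb (1/8) ε`: `e10`, `sieve_low e4 ε`: `e10'`; `e1 = min(e10, e10', 1/100)`: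
`Par e1 ζ' ζ κ' κ`.  `C` = max of the two `C`'s (raise exponents with `L ≥ 1`), the `C` of `tpin_abs` is `C + 3`.  Given `A`: `sieve_bb` with `A + 2`, `sieve_low` with `A + 4`, `lfu_q` with `A`: `B` = max of the three `B0`.  For large `N`: `y = yN e1 N ≥ 1`,
`J` = the largest number with `2^J y ≤ N^ζ` (so `zz y J > N^ζ/2 ≥ N^ζ'`), `J1` = the largest with `2^J1 y ≤ N^κ`: `Lev ζ' ζ κ' κ N y J J1`.  `F = Fq S T y J J1`, `k = kapF kS kT y J J1`.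
* `F ≥ 0`, `F ≥ 1` at the primes (`N/4 ≤ m ≤ 4N`): `fq_nonneg`, `om_small ζ' κ`, `fq_prime` (`z1 ≤ N^κ < N/4 ≤ m`).
* `k x ≤ (MQ ζ' ζ κ' + 3ε)/L ≤ (2 - c1/2)/L`: `mass_q`, `znum_q`; `c = c1/2`.
* second moment: `sec_q`; `kstep_q`; bad blocks: `lfu_q` (`N^(1/8) ≤ ⌊N^θ⌋`).
-/

set_option autoImplicit false

namespace Pool.Agent.H91.TQ

open Finset
open Pool.Agent.H91.PK (ee)
open Pool.Agent.H91.EHA (Lam hR lamR ramS)
open Pool.Agent.H53.MID (Fp Bs badB VKp)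
open Pool.Agent.H76.TP

private theorem TpinQ_pow (a b c : ℝ) (hab : a < b) : ∃ N0 : ℕ, ∀ N : ℕ, N0 ≤ N →
    c * (N : ℝ) ^ a ≤ (N : ℝ) ^ b := by
  have h1 := (tendsto_rpow_atTop (show 0 < b - a by linarith)).comp tendsto_natCast_atTop_atTop
  obtain ⟨N1, hN1⟩ := Filter.eventually_atTop.1 (h1.eventually (Filter.eventually_ge_atTop c))
  refine ⟨max N1 1, fun N hN => ?_⟩
  have h2 : c ≤ (N : ℝ) ^ (b - a) := hN1 N (le_trans (le_max_left _ _) hN)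
  have h3 : 1 ≤ N := le_trans (le_max_right _ _) hN
  have h4 : (0 : ℝ) < N := by exact_mod_cast (by omega : 0 < N)
  calc c * (N : ℝ) ^ a ≤ (N : ℝ) ^ (b - a) * (N : ℝ) ^ a :=
        mul_le_mul_of_nonneg_right h2 (Real.rpow_nonneg h4.le _)
    _ = (N : ℝ) ^ b := by
        rw [← Real.rpow_add h4]
        congr 1
        ring

/-- a level between two powers -/
private theorem TpinQ_lev (e1 a b : ℝ) (h0 : 0 ≤ e1) (h1 : e1 ≤ b) (h2 : a < b) : ∃ N0 : ℕ, ∀ N : ℕ, N0 ≤ N →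
    ∃ J : ℕ, (N : ℝ) ^ a ≤ zz (yN e1 N) J ∧ (zz (yN e1 N) J : ℝ) ≤ (N : ℝ) ^ b := by
  obtain ⟨N1, hN1⟩ := TpinQ_pow a b 2 h2
  refine ⟨max N1 1, fun N hN => ?_⟩
  have g1 := hN1 N (le_trans (le_max_left _ _) hN)
  have g2 : 1 ≤ N := le_trans (le_max_right _ _) hN
  have g3 : (1 : ℝ) ≤ N := by exact_mod_cast g2
  have g4 : 1 ≤ (N : ℝ) ^ e1 := Real.one_le_rpow g3 h0
  have g5 : 1 ≤ yN e1 N := Nat.le_floor (by exact_mod_cast g4)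
  have g6 : (1 : ℝ) ≤ (yN e1 N : ℝ) := by exact_mod_cast g5
  have g7 : (yN e1 N : ℝ) ≤ (N : ℝ) ^ e1 := Nat.floor_le (by linarith)
  have g8 : (N : ℝ) ^ e1 ≤ (N : ℝ) ^ b := Real.rpow_le_rpow_of_exponent_le g3 h1
  have g9 : (0 : ℝ) < (yN e1 N : ℝ) := by linarith
  obtain ⟨n, hn1, hn2⟩ := exists_nat_pow_near (x := (N : ℝ) ^ b / (yN e1 N : ℝ)) (y := (2 : ℝ))
    ((one_le_div g9).2 (by linarith)) (by norm_num)
  rw [le_div_iff₀ g9] at hn1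
  rw [div_lt_iff₀ g9, pow_succ] at hn2
  refine ⟨n, ?_, ?_⟩
  · unfold zz
    push_cast
    linarith
  · unfold zz
    push_cast
    exact hn1

private theorem TpinQ_Lev (e1 ζ' ζ κ' κ : ℝ) (hP : Par e1 ζ' ζ κ' κ) : ∃ N0 : ℕ, ∀ N : ℕ, N0 ≤ N →
    ∃ J J1 : ℕ, Lev ζ' ζ κ' κ N (yN e1 N) J J1 := by
  obtain ⟨p1, p2, p3, p4, p5, p6, p7, p8⟩ := hP
  obtain ⟨N1, hN1⟩ := TpinQ_lev e1 ζ' ζ p1.le (by linarith) p4
  obtain ⟨N2, hN2⟩ := TpinQ_lev e1 κ' κ p1.le (by linarith) p7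
  refine ⟨max (max N1 N2) 2, fun N hN => ?_⟩
  obtain ⟨J, a1, a2⟩ := hN1 N (le_trans (le_trans (le_max_left _ _) (le_max_left _ _)) hN)
  obtain ⟨J1, b1, b2⟩ := hN2 N (le_trans (le_trans (le_max_right _ _) (le_max_left _ _)) hN)
  have g2 : 2 ≤ N := le_trans (le_max_right _ _) hN
  have g3 : (1 : ℝ) < N := by exact_mod_cast (by omega : 1 < N)
  refine ⟨J, J1, ?_, a1, a2, b1, b2⟩
  have h1 : (zz (yN e1 N) J : ℝ) < zz (yN e1 N) J1 :=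
    lt_of_le_of_lt a2 (lt_of_lt_of_le (Real.rpow_lt_rpow_of_exponent_lt g3 (by linarith)) b1)
  have h2 : zz (yN e1 N) J < zz (yN e1 N) J1 := by exact_mod_cast h1
  unfold zz at h2
  by_contra hcon
  push Not at hcon
  have h3 : 2 ^ J1 * yN e1 N ≤ 2 ^ J * yN e1 N :=
    Nat.mul_le_mul_right _ (Nat.pow_le_pow_right (by norm_num) hcon.le)
  omega

private theorem TpinQ_large (θ κ : ℝ) (hθ : 1 / 8 < θ) (hκ : κ < 1) : ∃ N0 : ℕ, ∀ N : ℕ, N0 ≤ N →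
    1 ≤ N ∧ 1 ≤ Real.log N ∧ (N : ℝ) ^ (1 / 8 : ℝ) ≤ ⌊(N : ℝ) ^ θ⌋₊ ∧ 4 * (N : ℝ) ^ κ < N := by
  obtain ⟨N1, hN1⟩ := TpinQ_pow (1 / 8) θ 2 hθ
  obtain ⟨N2, hN2⟩ := TpinQ_pow κ 1 8 hκ
  refine ⟨max (max N1 N2) 3, fun N hN => ?_⟩
  have g1 := hN1 N (le_trans (le_trans (le_max_left _ _) (le_max_left _ _)) hN)
  have g2 := hN2 N (le_trans (le_trans (le_max_right _ _) (le_max_left _ _)) hN)
  have g3 : 3 ≤ N := le_trans (le_max_right _ _) hN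
  have g4 : (3 : ℝ) ≤ N := by exact_mod_cast g3
  refine ⟨by omega, ?_, ?_, ?_⟩
  · rw [Real.le_log_iff_exp_le (by linarith)]
    have h1 := Real.exp_one_lt_d9
    linarith
  · have h1 : 1 ≤ (N : ℝ) ^ (1 / 8 : ℝ) := Real.one_le_rpow (by linarith) (by norm_num)
    have h2 := Nat.lt_floor_add_one ((N : ℝ) ^ θ)
    linarith
  · rw [Real.rpow_one] at g2
    have h1 : 0 < (N : ℝ) ^ κ := Real.rpow_pos_of_pos (by linarith) _
    linarith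

theorem tpin_q (hVK : VKp) (θ : ℝ) (hθ : 1 / 4 < θ) (hθ2 : θ < 1 / 3) :
    ∃ c : ℝ, 0 < c ∧ Pool.Agent.H43.TP.TPIN θ c := by
  obtain ⟨c1, ζ0, hc1, hc1', hζ0, hζ0', hM⟩ := znum_q
  obtain ⟨ζ', ζ, hz1, hz2, hz3, hz4⟩ : ∃ ζ' ζ : ℝ, 1 / 4 < ζ' ∧ ζ' < ζ ∧ ζ < ζ0 ∧ ζ < θ := by
    have h1 : 1 / 4 < min ζ0 θ := lt_min hζ0 hθ
    have h2 : min ζ0 θ ≤ ζ0 := min_le_left _ _
    have h3 : min ζ0 θ ≤ θ := min_le_right _ _
    exact ⟨1 / 4 + (min ζ0 θ - 1 / 4) / 3, 1 / 4 + 2 * (min ζ0 θ - 1 / 4) / 3, by linarith, by linarith,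
      by linarith, by linarith⟩
  obtain ⟨e4, he4, he4', hTI⟩ := tip θ (781 / 2500) (by linarith) hθ2 (by linarith)
  have hε : 0 < c1 / 8 := by linarith
  obtain ⟨e10, he10, hS⟩ := sieve_bb (1 / 8) (c1 / 8) (by norm_num) hε
  obtain ⟨e10', he10', hT⟩ := sieve_low e4 (c1 / 8) he4 he4' hε
  obtain ⟨e1, he1, he1a, he1b, he1c⟩ : ∃ e1 : ℝ, 0 < e1 ∧ e1 ≤ e10 ∧ e1 ≤ e10' ∧ e1 ≤ 1 / 100 :=
    ⟨min e10 (min e10' (1 / 100)), lt_min he10 (lt_min he10' (by norm_num)), min_le_left _ _,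
      (min_le_right _ _).trans (min_le_left _ _), (min_le_right _ _).trans (min_le_right _ _)⟩
  have hP : Par e1 ζ' ζ (39 / 125) (781 / 2500) :=
    ⟨he1, he1c, by linarith, hz2, by linarith, by norm_num, by norm_num, by linarith⟩
  obtain ⟨CS, hS⟩ := hS e1 he1 he1a
  obtain ⟨CT, hT⟩ := hT e1 he1 he1b
  refine ⟨c1 / 2, by linarith, tpin_abs θ (c1 / 2) (by linarith) (by linarith) (by linarith) (by linarith)
    ⟨max CS CT + 3, fun A => ?_⟩⟩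
  obtain ⟨BS, hS⟩ := hS (A + 2)
  obtain ⟨BT, hT⟩ := hT (A + 4)
  obtain ⟨BL, hL⟩ := lfu_q hVK θ e1 ζ' ζ (39 / 125) (781 / 2500) e4 hP hz4 hθ2 hTI A
  obtain ⟨B, hBS, hBT, hBL⟩ : ∃ B : ℕ, BS ≤ B ∧ BT ≤ B ∧ BL ≤ B :=
    ⟨max BS (max BT BL), le_max_left _ _, (le_max_left _ _).trans (le_max_right _ _),
      (le_max_right _ _).trans (le_max_right _ _)⟩
  obtain ⟨N1, hS⟩ := hS B hBS
  obtain ⟨N2, hT⟩ := hT B hBT
  obtain ⟨N3, hL⟩ := hL B hBL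
  obtain ⟨N4, hLev⟩ := TpinQ_Lev e1 ζ' ζ (39 / 125) (781 / 2500) hP
  obtain ⟨N5, hbig⟩ := TpinQ_large θ (781 / 2500) (by linarith) (by norm_num)
  obtain ⟨N6, hom⟩ := om_small ζ' (781 / 2500) hz1 (by norm_num)
  obtain ⟨N7, hmass⟩ := mass_q e1 ζ' ζ (39 / 125) (781 / 2500) (c1 / 8) hP hz1 (by norm_num) hε
  obtain ⟨N8, hsec⟩ := sec_q e1 ζ' ζ (39 / 125) (781 / 2500) hP hz1 (by norm_num) (max CS CT)
  obtain ⟨N9, hks⟩ := kstep_q e1 ζ' ζ (39 / 125) (781 / 2500) hP A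
  refine ⟨B, N1 + N2 + N3 + N4 + N5 + N6 + N7 + N8 + N9, fun N hN => ?_⟩
  obtain ⟨S, kS, s1, _, s3, s4, s5, s6, s7⟩ := hS N (by omega)
  obtain ⟨T, g, kT, Q, t1, _, t3, t4, t5, t6, t7, t8⟩ := hT N (by omega)
  have hL := hL N (by omega)
  obtain ⟨J, J1, hJ⟩ := hLev N (by omega)
  obtain ⟨b1, b2, b3, b4⟩ := hbig N (by omega)
  have hom := hom N (by omega)
  have hmass := hmass N (by omega)
  have hsec := hsec N (by omega)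
  have hks := hks N (by omega)
  clear hN
  have hJ' := hJ
  obtain ⟨j1, j2, j3, j4, j5⟩ := hJ'
  have b1' : (1 : ℝ) ≤ N := by exact_mod_cast b1
  refine ⟨fun m => Fq S T (yN e1 N) J J1 m, fun x => kapF kS kT (yN e1 N) J J1 x, ?_, ?_, ?_, ?_, ?_⟩
  · intro m hm1 hm2
    have hm : 1 ≤ m := by omega
    obtain ⟨o1, o2⟩ := hom (yN e1 N) J J1 m hm (by omega) j2
    refine ⟨fq_nonneg S T (yN e1 N) J J1 m hm (s1 m hm) (t4 m hm) o1 (o2 j5 (by omega)), fun hmp => ?_⟩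
    refine fq_prime S T (yN e1 N) J J1 m j1 hmp ?_ (s1 m hm)
    have h1 : (N : ℝ) ≤ 4 * m := by exact_mod_cast hm1
    have h2 : (zz (yN e1 N) J1 : ℝ) < m := by linarith
    exact_mod_cast h2
  · intro x hx1 hx2
    have h1 : (N : ℝ) ^ (1 / 8 : ℝ) ≤ (N : ℝ) ^ (1 / 4 : ℝ) :=
      Real.rpow_le_rpow_of_exponent_le b1' (by norm_num)
    have h2 := hmass J J1 kS kT (c1 / 8) hJ hε.le (by linarith) t5 (fun x l hl => s7 x l (h1.trans hl))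
      (fun x l hl => t8 x l (h1.trans hl)) x hx1 hx2
    refine h2.trans ?_
    have h3 := hM ζ' ζ hz1 hz2 hz3
    exact div_le_div_of_nonneg_right (by linarith) (by linarith)
  · intro u w hu hw huw
    refine hsec J J1 S T hJ (fun u w hu hw => ?_) (fun u w hu hw => ?_) u w hu hw huw
    · refine (s6 u w hu hw).trans ?_
      exact mul_le_mul_of_nonneg_left (pow_le_pow_right₀ b2 (le_max_left _ _)) (Nat.cast_nonneg w)
    · refine (t7 u w hu hw).trans ?_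
      exact mul_le_mul_of_nonneg_left (pow_le_pow_right₀ b2 (le_max_right _ _)) (Nat.cast_nonneg w)
  · intro x x' hx hx' hxx
    exact hks J J1 x x' kS kT hJ hx hx' hxx
  · exact hL J J1 Q S g T kS kT hJ t1 t3 (fun i α hi => s5 _ i α b3 hi) (fun i α hi => t6 _ i α b3 hi)

end Pool.Agent.H91.TQ
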