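import Pool.Agent.H91.TQ.Defs
import Pool.Agent.H76.TP.ZSum2

/-!
# TQ ZSumA: the main term of `E_2`, `N^a < p ≤ N^b` (copy of `e2sum`, `H76/TP/ZSum2.lean`)

`u = log p/L ∈ (a, b]`, `log(x/p) ≥ L (1 - u) - log 8 ≥ (1 - η) L (1 - u)`.  `mert_r` with `f u = 1/(1-u)` on `[a, b]`: `≤ (1/((1-η) L)) (∫_a^b du/(u(1-u)) + η)`, and `∫_a^b du/(u(1-u)) = log(b/(1-b)) - log(a/(1-a)) = Z2 a - Z2 b`
(`ZSum2_int`, private in `ZSum2.lean`).  `e1r`: `∑ 1/p ≤ 1/3 + 1/10` for `1/4 < a`, `b ≤ 8/25`: `mert_r` with `f = 1`: `log(32/25) + 1/100 ≤ 1`.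
-/

set_option autoImplicit false

namespace Pool.Agent.H91.TQ

open Finset MeasureTheory
open Pool.Agent.H76.TP

/-- the integral -/
private theorem ZSumA_int (a b : ℝ) (ha : 0 < a) (hab : a ≤ b) (hb : b < 1) :
    ∫ u in a..b, (1 / (1 - u)) / u = (Real.log b - Real.log (1 - b)) - (Real.log a - Real.log (1 - a)) := by
  have hI : ∀ u ∈ Set.uIcc a b, 0 < u ∧ 0 < 1 - u := by
    intro u hu
    rw [Set.uIcc_of_le hab] at hu
    exact ⟨lt_of_lt_of_le ha hu.1, by linarith [hu.2]⟩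
  refine intervalIntegral.integral_eq_sub_of_hasDerivAt (f := fun u => Real.log u - Real.log (1 - u))
    (fun u hu => ?_) ?_
  · obtain ⟨h1, h2⟩ := hI u hu
    have h3 : HasDerivAt (fun u : ℝ => Real.log u) u⁻¹ u := Real.hasDerivAt_log h1.ne'
    have h4 : HasDerivAt (fun u : ℝ => 1 - u) (-1) u := by
      simpa using (hasDerivAt_id u).const_sub 1
    have h5 : HasDerivAt (fun u : ℝ => Real.log (1 - u)) ((-1) / (1 - u)) u := h4.log h2.ne'
    have h6 := h3.sub h5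
    refine h6.congr_deriv ?_
    field_simp
    ring
  · refine ContinuousOn.intervalIntegrable ?_
    refine ContinuousOn.div (ContinuousOn.div continuousOn_const
      (continuousOn_const.sub continuousOn_id) fun u hu => (hI u hu).2.ne') continuousOn_id
      fun u hu => (hI u hu).1.ne'

/-- the final numerical estimate -/
private theorem ZSumA_num (a b ε η : ℝ) (ha : 1 / 4 < a) (hab : a < b) (hb : b < 1 / 3) (hη : 0 < η)
    (hη1 : η ≤ 1 / 8) (hη2 : η * (11 + ε) ≤ ε) :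
    1 / (1 - η) * ((∫ u in a..b, (1 / (1 - u)) / u) + η) ≤ Z2 a - Z2 b + ε := by
  rw [ZSumA_int a b (by linarith) (by linarith) (by linarith)]
  have hZ : Z2 a = Real.log (1 - a) - Real.log a := by
    unfold Z2
    rw [Real.log_div (by linarith) (by linarith)]
  have hZb : Z2 b = Real.log (1 - b) - Real.log b := by
    unfold Z2
    rw [Real.log_div (by linarith) (by linarith)]
  have h3 : Z2 a ≤ 2 := by
    unfold Z2
    have h4 : (0 : ℝ) < (1 - a) / a := div_pos (by linarith) (by linarith)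
    refine (Real.log_le_sub_one_of_pos h4).trans ?_
    rw [sub_le_iff_le_add, div_le_iff₀ (by linarith)]
    linarith
  have h4 : 0 ≤ Z2 b := by
    unfold Z2
    refine Real.log_nonneg ?_
    rw [le_div_iff₀ (by linarith)]
    linarith
  rw [one_div, inv_mul_le_iff₀ (by linarith)]
  have e : Real.log b - Real.log (1 - b) - (Real.log a - Real.log (1 - a)) = Z2 a - Z2 b := by
    rw [hZ, hZb]
    ring
  rw [e]
  have h5 : η * (Z2 a - Z2 b) ≤ η * 2 := mul_le_mul_of_nonneg_left (by linarith) hη.le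
  have h6 : (1 - η) * (Z2 a - Z2 b + ε) = (Z2 a - Z2 b) + ε - η * (Z2 a - Z2 b) - η * ε := by ring
  rw [h6]
  have h7 : η * (11 + ε) = 11 * η + η * ε := by ring
  rw [h7] at hη2
  linarith

/-- position of the prime -/
private theorem ZSumA_range {N : ℕ} (hN0 : (0 : ℝ) < N) (hL : 0 < Real.log N) {a b : ℝ} {p : ℕ}
    (hp : p.Prime) (h1 : (N : ℝ) ^ a < p) (h2 : (p : ℝ) ≤ (N : ℝ) ^ b) :
    Real.log p / Real.log N ∈ Set.Icc a b := by
  have hp0 : (0 : ℝ) < p := by exact_mod_cast hp.pos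
  have h3 := Real.log_le_log (Real.rpow_pos_of_pos hN0 a) h1.le
  rw [Real.log_rpow hN0] at h3
  have h4 := Real.log_le_log hp0 h2
  rw [Real.log_rpow hN0] at h4
  exact ⟨by rw [le_div_iff₀ hL]; exact h3, by rw [div_le_iff₀ hL]; exact h4⟩

theorem e2r (a b ε : ℝ) (ha : 1 / 4 < a) (hab : a < b) (hb : b < 1 / 3) (hε : 0 < ε) : ∃ N0 : ℕ, ∀ N : ℕ, N0 ≤ N → ∀ x : ℕ,
    N ≤ 8 * x → x ≤ 8 * N →
      ∑ p ∈ (Icc 1 N).filter (fun p : ℕ => p.Prime ∧ (N : ℝ) ^ a < p ∧ (p : ℝ) ≤ (N : ℝ) ^ b),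
        1 / (p * Real.log ((x : ℝ) / p)) ≤ (Z2 a - Z2 b + ε) / Real.log N := by
  set η : ℝ := min (1 / 8) (ε / (11 + ε)) with hηdef
  have hη : 0 < η := lt_min (by norm_num) (by positivity)
  have hη1 : η ≤ 1 / 8 := min_le_left _ _
  have hη2 : η * (11 + ε) ≤ ε := by
    have h1 : η ≤ ε / (11 + ε) := min_le_right _ _
    rwa [le_div_iff₀ (by positivity)] at h1
  obtain ⟨N1, hN1⟩ := mert_r (1 / 4) 16 η (by norm_num) (by norm_num) hη
  refine ⟨max N1 (⌈Real.exp (8 / η)⌉₊ + 1), fun N hN x hx1 _ => ?_⟩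
  have hNN1 : N1 ≤ N := le_trans (le_max_left _ _) hN
  have hNe : Real.exp (8 / η) ≤ N := by
    have h1 : ⌈Real.exp (8 / η)⌉₊ + 1 ≤ N := le_trans (le_max_right _ _) hN
    have h2 : (⌈Real.exp (8 / η)⌉₊ : ℝ) ≤ N := by exact_mod_cast (by omega : ⌈Real.exp (8 / η)⌉₊ ≤ N)
    exact (Nat.le_ceil _).trans h2
  have hN0 : (0 : ℝ) < N := lt_of_lt_of_le (Real.exp_pos _) hNe
  set L : ℝ := Real.log N with hL
  have hL8 : 8 / η ≤ L := by
    rw [hL, Real.le_log_iff_exp_le hN0]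
    exact hNe
  have hηL : 8 ≤ η * L := by
    rw [div_le_iff₀ hη] at hL8
    linarith
  have hLpos : 0 < L := lt_of_lt_of_le (by positivity) hL8
  -- the function
  have hf1 : ∀ u ∈ Set.Icc a b, 0 ≤ 1 / (1 - u) ∧ 1 / (1 - u) ≤ 16 := by
    intro u hu
    have h1 : 3 / 8 ≤ 1 - u := by linarith [hu.2]
    refine ⟨by positivity, ?_⟩
    rw [div_le_iff₀ (by linarith)]
    linarith
  have hf2 : ∀ u ∈ Set.Icc a b, ∀ v ∈ Set.Icc a b, |1 / (1 - u) - 1 / (1 - v)| ≤ 16 * |u - v| := by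
    intro u hu v hv
    have h1 : 3 / 8 ≤ 1 - u := by linarith [hu.2]
    have h2 : 3 / 8 ≤ 1 - v := by linarith [hv.2]
    have h3 : 1 / (1 - u) - 1 / (1 - v) = (u - v) / ((1 - u) * (1 - v)) := by
      rw [div_sub_div _ _ (by linarith) (by linarith)]
      congr 1
      ring
    have h4 : 9 / 64 ≤ (1 - u) * (1 - v) := by nlinarith
    rw [h3, abs_div, abs_of_pos (by linarith : (0 : ℝ) < (1 - u) * (1 - v)), div_le_iff₀ (by linarith)]
    nlinarith [abs_nonneg (u - v)]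
  have hmain := hN1 N hNN1 a b (fun u => 1 / (1 - u)) ha.le hab.le (by linarith) hf1 hf2
  have hnum := ZSumA_num a b ε η ha hab hb hη hη1 hη2
  have hterm : ∀ p ∈ (Icc 1 N).filter (fun p : ℕ => p.Prime ∧ (N : ℝ) ^ a < p ∧ (p : ℝ) ≤ (N : ℝ) ^ b),
      1 / (p * Real.log ((x : ℝ) / p)) ≤
        1 / (1 - η) / L * ((fun u : ℝ => 1 / (1 - u)) (Real.log p / L) / p) := by
    intro p hp
    obtain ⟨-, hpp, h1, h2⟩ := Finset.mem_filter.1 hp
    have hp0 : (0 : ℝ) < p := by exact_mod_cast hpp.pos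
    obtain ⟨h3, h4⟩ := ZSumA_range hN0 hLpos hpp h1 h2
    rw [← hL] at h3 h4
    have hu : 3 / 8 ≤ 1 - Real.log p / L := by linarith
    have hx8 : (N : ℝ) ≤ 8 * x := by exact_mod_cast hx1
    have h5 : (N : ℝ) / (8 * p) ≤ x / p := by
      rw [div_le_div_iff₀ (by positivity) hp0]
      nlinarith
    have h6 : L - Real.log 8 - Real.log p ≤ Real.log ((x : ℝ) / p) := by
      have h7 := Real.log_le_log (by positivity) h5
      rw [Real.log_div hN0.ne' (by positivity), Real.log_mul (by norm_num) hp0.ne'] at h7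
      linarith
    have h8 : Real.log 8 ≤ 3 := by
      have h9 : Real.log 8 = 3 * Real.log 2 := by
        rw [show (8 : ℝ) = 2 ^ (3 : ℕ) by norm_num, Real.log_pow]
        norm_num
      have h10 : Real.log 2 ≤ 2 - 1 := Real.log_le_sub_one_of_pos (by norm_num)
      linarith
    have h9 : (1 - η) * (L * (1 - Real.log p / L)) ≤ Real.log ((x : ℝ) / p) := by
      have h10 : L * (1 - Real.log p / L) = L - Real.log p := by
        field_simp
      have h11 : 3 ≤ η * (L * (1 - Real.log p / L)) := by nlinarith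
      nlinarith
    have h12 : 0 < (1 - η) * (L * (1 - Real.log p / L)) := by
      have h13 : (0 : ℝ) < 1 - η := by linarith
      have h14 : 0 < 1 - Real.log p / L := by linarith
      positivity
    calc 1 / (p * Real.log ((x : ℝ) / p)) ≤ 1 / (p * ((1 - η) * (L * (1 - Real.log p / L)))) :=
          one_div_le_one_div_of_le (by positivity) (mul_le_mul_of_nonneg_left h9 hp0.le)
      _ = 1 / (1 - η) / L * ((fun u : ℝ => 1 / (1 - u)) (Real.log p / L) / p) := by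
        have h13 : (1 - η : ℝ) ≠ 0 := by linarith
        have h14 : 1 - Real.log p / L ≠ 0 := by linarith
        simp only [mul_inv, div_eq_mul_inv]
        ring
  calc ∑ p ∈ (Icc 1 N).filter (fun p : ℕ => p.Prime ∧ (N : ℝ) ^ a < p ∧ (p : ℝ) ≤ (N : ℝ) ^ b),
        1 / (p * Real.log ((x : ℝ) / p))
      ≤ ∑ p ∈ (Icc 1 N).filter (fun p : ℕ => p.Prime ∧ (N : ℝ) ^ a < p ∧ (p : ℝ) ≤ (N : ℝ) ^ b),
        1 / (1 - η) / L * ((fun u : ℝ => 1 / (1 - u)) (Real.log p / L) / p) :=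
        Finset.sum_le_sum hterm
    _ = 1 / (1 - η) / L * ∑ p ∈ (Icc 1 N).filter (fun p : ℕ => p.Prime ∧ (N : ℝ) ^ a < p ∧ (p : ℝ) ≤ (N : ℝ) ^ b),
        (fun u : ℝ => 1 / (1 - u)) (Real.log p / L) / p := by rw [Finset.mul_sum]
    _ ≤ 1 / (1 - η) / L * ((∫ u in a..b, (1 / (1 - u)) / u) + η) := by
        refine mul_le_mul_of_nonneg_left hmain ?_
        have h5 : (0 : ℝ) < 1 - η := by linarith
        positivity
    _ = (1 / (1 - η) * ((∫ u in a..b, (1 / (1 - u)) / u) + η)) / L := by ring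
    _ ≤ (Z2 a - Z2 b + ε) / L := div_le_div_of_nonneg_right hnum hLpos.le

theorem e1r : ∃ N0 : ℕ, ∀ N : ℕ, N0 ≤ N →
    ∑ p ∈ (Icc 1 N).filter (fun p : ℕ => p.Prime ∧ (N : ℝ) ^ (1 / 4 : ℝ) < p ∧ (p : ℝ) ≤ (N : ℝ) ^ (8 / 25 : ℝ)), 1 / (p : ℝ) ≤ 1 := by
  obtain ⟨N1, hN1⟩ := mert_r (1 / 4) 1 (1 / 100) (by norm_num) (by norm_num) (by norm_num)
  refine ⟨N1, fun N hN => ?_⟩
  have h := hN1 N hN (1 / 4) (8 / 25) (fun _ => 1) le_rfl (by norm_num) (by norm_num)
    (fun u _ => ⟨by norm_num, le_rfl⟩)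
    (fun u _ v _ => by
      rw [sub_self, abs_zero]
      have := abs_nonneg (u - v)
      linarith)
  refine h.trans ?_
  have hI : ∫ u in (1 / 4 : ℝ)..(8 / 25 : ℝ), (1 : ℝ) / u = Real.log ((8 / 25) / (1 / 4)) := by
    refine integral_one_div ?_
    rw [Set.uIcc_of_le (by norm_num)]
    intro h0
    have := h0.1
    norm_num at this
  rw [hI]
  have hl := Real.log_le_sub_one_of_pos (show (0 : ℝ) < (8 / 25) / (1 / 4) by norm_num)
  norm_num at hl ⊢
  linarith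

end Pool.Agent.H91.TQ
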